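import Pool.Agent.GT.IsoT
import Pool.Agent.GT.SclB
import Pool.Agent.CUB.FamA

/-!
# One map from an elliptic curve over `Om k` to the variety

The alternating products of `N` values `hV v P` (`v` any place of `Om k`, `P` any point over `Om k` of
the elliptic curve) are zero if the `j`-invariant is not constant, and also if it is constant and
`hV v₀ = 0` for some place `v₀`.
-/

set_option autoImplicit false

noncomputable section

namespace Pool.Agent.QRT

open Pool.Agent.ZCyc Pool.Agent.Dess Pool.Agent.GT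
open Pool.Agent.VFP (Om tt)
open Polynomial
open scoped Classical

variable {k : Type} [Field k] [IsAlgClosed k] [CharZero k] {m : ℕ}
  {X : Set (MvPolynomial (Fin (m + 1)) k)}

/-- all values of the limit homomorphisms -/
def HVs (hX : Hom X) {α B : Om k} {M : Mp (Om k) m} (hM : M.Ok α B X) : Set (CH X Unit) :=
  {c | ∃ (v : Place k (Om k)) (P : (Ec α B).Point), c = hV hX hM v P}

omit [IsAlgClosed k] [CharZero k] in
private theorem ellj_lift {K : IntermediateField k (Om k)} (p : (Om k)[X])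
    (h : ↑p.coeffs ⊆ (K : Set (Om k))) : ∃ q : K[X], q.map (K.val : K →+* Om k) = p := by
  have h1 : p ∈ Polynomial.lifts (K.val : K →+* Om k) := by
    rw [Polynomial.lifts_iff_coeff_lifts]
    intro n
    by_cases hn : p.coeff n = 0
    · exact ⟨0, by rw [hn, map_zero]⟩
    · exact ⟨⟨p.coeff n, h (Polynomial.coeff_mem_coeffs hn)⟩, rfl⟩
  exact (Polynomial.mem_lifts _).1 h1

omit [CharZero k] in
private theorem ellj_div {L : Type} [Field L] [Algebra k L] [CharZero k] (hL : IsCurve k L)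
    (α B : L) (δ : Place k L) : ∃ (D : Place k L →₀ ℤ) (n₀ : ℕ), TInc.deg D = n₀ ∧ 0 < n₀ ∧
      (∀ v, 0 ≤ TInc.ord v α + 4 * D v) ∧ ∀ v, 0 ≤ TInc.ord v B + 6 * D v := by
  set D : Place k L →₀ ℤ := (TInc.dv hL α).mapRange (fun n => |n|) abs_zero +
    (TInc.dv hL B).mapRange (fun n => |n|) abs_zero + Finsupp.single δ 1 with hD
  have hDv : ∀ v, D v = |TInc.ord v α| + |TInc.ord v B| + Finsupp.single δ 1 v := by
    intro v
    rw [hD, Finsupp.add_apply, Finsupp.add_apply, Finsupp.mapRange_apply,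
      Finsupp.mapRange_apply, TInc.dv_apply, TInc.dv_apply]
  have h1 : ∀ v, 0 ≤ (Finsupp.single δ 1 : Place k L →₀ ℤ) v := by
    intro v
    rw [Finsupp.single_apply]
    split_ifs <;> simp
  have hpos : ∀ v, 0 ≤ D v := by
    intro v
    rw [hDv]
    have := h1 v
    positivity
  have hδ : 1 ≤ D δ := by
    rw [hDv, Finsupp.single_eq_same]
    have := abs_nonneg (TInc.ord δ α)
    have := abs_nonneg (TInc.ord δ B)
    omega
  have hdeg : 1 ≤ TInc.deg D := by
    unfold TInc.deg Finsupp.sum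
    refine hδ.trans (Finset.single_le_sum (f := fun v => D v) (fun v _ => hpos v) ?_)
    rw [Finsupp.mem_support_iff]
    omega
  refine ⟨D, (TInc.deg D).toNat, by omega, by omega, fun v => ?_, fun v => ?_⟩
  · have h2 := hDv v
    have h3 := h1 v
    have h4 := neg_abs_le (TInc.ord v α)
    have h5 := abs_nonneg (TInc.ord v B)
    have h6 := abs_nonneg (TInc.ord v α)
    omega
  · have h2 := hDv v
    have h3 := h1 v
    have h4 := neg_abs_le (TInc.ord v B)
    have h5 := abs_nonneg (TInc.ord v B)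
    have h6 := abs_nonneg (TInc.ord v α)
    omega

/-- **Nonconstant `j`-invariant.** -/
theorem famJ (hX : Hom X) {α B : Om k} {M : Mp (Om k) m} (hM : M.Ok α B X)
    (hj : ¬ ∃ a a' : k, (a ≠ 0 ∨ a' ≠ 0) ∧
      algebraMap k (Om k) a * α ^ 3 = algebraMap k (Om k) a' * B ^ 2) :
    ∃ N₀ : ℕ, ∀ n, N₀ ≤ n → ∀ w : Fin n → CH X Unit,
      (∀ j, w j ∈ Submodule.span ℚ (HVs hX hM)) → Alt (Ext hX n) w = 0 := by
  let Γ : Finset (Om k) := ((Finset.univ.biUnion fun i => (M.G i).coeffs) ∪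
    (Finset.univ.biUnion fun i => (M.H i).coeffs)) ∪ {α, B}
  obtain ⟨K, -, hK, hΓ, -, -⟩ := exists_field hX Γ (J := Fin 0) fun j => j.elim0
  have hG : ∀ i, ∃ q : K[X], q.map (K.val : K →+* Om k) = M.G i := fun i =>
    ellj_lift _ fun z hz => hΓ (by
      rw [Finset.mem_coe, Finset.mem_union, Finset.mem_union, Finset.mem_biUnion]
      exact Or.inl (Or.inl ⟨i, Finset.mem_univ i, hz⟩))
  have hH : ∀ i, ∃ q : K[X], q.map (K.val : K →+* Om k) = M.H i := fun i =>
    ellj_lift _ fun z hz => hΓ (by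
      rw [Finset.mem_coe, Finset.mem_union, Finset.mem_union, Finset.mem_biUnion,
        Finset.mem_biUnion]
      exact Or.inl (Or.inr ⟨i, Finset.mem_univ i, hz⟩))
  choose G hG using hG
  choose H hH using hH
  have hα : α ∈ K := hΓ (by simp [Γ])
  have hB : B ∈ K := hΓ (by simp [Γ])
  obtain ⟨α, rfl⟩ : ∃ α' : K, α = K.val α' := ⟨⟨α, hα⟩, rfl⟩
  obtain ⟨B, rfl⟩ : ∃ B' : K, B = K.val B' := ⟨⟨B, hB⟩, rfl⟩
  have hMG : (⟨fun i => (G i).map (K.val : K →+* Om k), fun i => (H i).map (K.val : K →+* Om k)⟩ :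
      Mp (Om k) m) = M := by
    rw [funext hG, funext hH]
  have hd : (gd1 α B G H).Ok X := by
    refine gd1_ok K.val ?_
    rw [hMG]
    exact hM
  have hdisc : B ^ 2 ≠ 4 * α ^ 3 := fun h1 => hM.disc (by
    have h2 := congrArg K.val h1
    rwa [map_mul, map_pow, map_pow, map_ofNat] at h2)
  have hj' : ¬ ∃ a a' : k, (a ≠ 0 ∨ a' ≠ 0) ∧
      algebraMap k K a * α ^ 3 = algebraMap k K a' * B ^ 2 := by
    rintro ⟨a, a', h1, h2⟩
    exact hj ⟨a, a', h1, congrArg Subtype.val h2⟩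
  obtain ⟨δ, hδ⟩ := CUB.exists_bad hK hdisc hj'
  obtain ⟨D, r, hD, hr, hDα, hDB⟩ := ellj_div hK α B δ
  obtain ⟨g, hg⟩ := TInc.exists_genus hK
  refine ⟨r + g, fun n hn w hw => ?_⟩
  refine mainC hX hK hd hD hr (fun _ => hDα) (fun _ => hDB) hg hn hδ (HVs hX hM) ?_ w hw
  rintro U d' hd' hmap _ ⟨v, P, rfl⟩
  have hS : ((K.val.comp (regU U).val : regU U →ₐ[k] Om k) : regU U →+* Om k) =
      (K.val : K →+* Om k).comp ((regU U).val : regU U →+* K) := rfl
  have ha : K.val α = (K.val.comp (regU U).val) d'.α :=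
    congrArg K.val (congrArg GD.α hmap).symm
  have hb : K.val B = (K.val.comp (regU U).val) d'.B :=
    congrArg K.val (congrArg GD.B hmap).symm
  have hr : d'.rts ((K.val.comp (regU U).val : regU U →ₐ[k] Om k) : regU U →+* Om k) = {0} := by
    rw [hS, ← rts_map, hmap, gd1_rts]
  have hmp : d'.mp ((K.val.comp (regU U).val : regU U →ₐ[k] Om k) : regU U →+* Om k) 0 = M := by
    rw [hS, ← mp_map, hmap, gd1_mp, hMG]
  have h0 : (0 : Om k) ∈ d'.rts ((K.val.comp (regU U).val : regU U →ₐ[k] Om k) :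
      regU U →+* Om k) := by
    rw [hr]
    exact Finset.mem_singleton_self _
  refine ⟨K.val, v, castE ha hb P, ?_⟩
  unfold TV
  rw [AddMonoidHom.finsetSum_apply, Finset.sum_eq_single ⟨0, h0⟩]
  · exact hV_cast hX hM (hd'.mp_ok _ h0) _ _ hmp.symm v P
  · intro θ _ hθ
    exfalso
    apply hθ
    apply Subtype.ext
    have h1 : θ.1 ∈ ({0} : Finset (Om k)) := hr.le θ.2
    exact Finset.mem_singleton.1 h1
  · intro h
    exact absurd (Finset.mem_univ _) h

private theorem ellj_val {v : Place k (Om k)} {ι : Type} {x : ι → Om k} {y : ι → k}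
    (h : ∀ i, v.At (x i) (y i)) (f : MvPolynomial ι k) :
    v.At (MvPolynomial.aeval x f) (MvPolynomial.aeval y f) := by
  induction f using MvPolynomial.induction_on with
  | C a =>
    rw [MvPolynomial.aeval_C, MvPolynomial.aeval_C]
    exact Place.at_const a
  | add f g hf hg =>
    rw [map_add, map_add]
    exact hf.add hg
  | mul_X f i hf =>
    rw [map_mul, map_mul, MvPolynomial.aeval_X, MvPolynomial.aeval_X]
    exact hf.mul (h i)

private theorem ellj_red {α B : Om k} {M : Mp (Om k) m} (hM : M.Ok α B X)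
    {v : Place k (Om k)} {a b : k} {N : Mp k m} (hα : v.At α a) (hB : v.At B b)
    (hab : b ^ 2 ≠ 4 * a ^ 3) (h : MRed v M N) (hN : ∃ i, N.G i ≠ 0 ∨ N.H i ≠ 0) :
    N.Ok a b X := by
  refine ⟨hab, hN, fun f hf x y hxy => ?_⟩
  obtain ⟨P, hP⟩ := exists_lift (v := v) hα hB hab (.some x y (nonsing hab hxy))
  rcases P with _ | ⟨x', y', hP'⟩
  · exact hP.elim
  · have h1 := hM.onX f hf x' y' (eqn_iff.1 hP'.1)
    have h2 := ellj_val (v := v) (fun i => co_at h hP.1 hP.2 i) f
    rw [h1] at h2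
    have h00 : v.At (0 : Om k) 0 := by simpa using Place.at_const (v := v) (0 : k)
    exact h2.unique h00

/-- On a constant curve every point has the same limit as a constant point. -/
theorem hV_red (hX : Hom X) {a b : k} {M : Mp (Om k) m}
    (hM : M.Ok (algebraMap k (Om k) a) (algebraMap k (Om k) b) X) (v : Place k (Om k))
    (P : (Ec (algebraMap k (Om k) a) (algebraMap k (Om k) b)).Point) :
    ∃ p : (Ec a b).Point, hV hX hM v P = hV hX hM v (cst p) := by
  have hab : b ^ 2 ≠ 4 * a ^ 3 := by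
    intro h
    apply hM.disc
    have h1 := congrArg (algebraMap k (Om k)) h
    simpa only [map_pow, map_mul, map_ofNat] using h1
  obtain ⟨l, N, hl, hN, hN0⟩ := exists_mul hM.ne v (one_ne_zero (α := Om k))
  have ha' : v.At (algebraMap k (Om k) a / 1 ^ 4) a := by
    rw [one_pow, div_one]
    exact Place.at_const _
  have hb' : v.At (algebraMap k (Om k) b / 1 ^ 6) b := by
    rw [one_pow, div_one]
    exact Place.at_const _
  have hM1 := ok_scl hX hM (one_ne_zero (α := Om k)) hl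
  have hNok : N.Ok a b X := ellj_red hM1 ha' hb' hab hN hN0
  obtain ⟨p, hp⟩ := exists_pred ha' hb' hab (sclE hM.disc one_ne_zero P)
  refine ⟨p, ?_⟩
  rw [hV_scl hX hM v one_ne_zero hl, hV_scl hX hM v one_ne_zero hl (cst p),
    hV_eq_hK hX hM1 ha' hb' hNok hN hp]
  refine (hV_eq_hK hX hM1 ha' hb' hNok hN ?_).symm
  rcases p with _ | ⟨x, y, h⟩
  · have h1 : cst (0 : (Ec a b).Point) = 0 := map_zero _
    change PRed v (sclE hM.disc one_ne_zero (cst (0 : (Ec a b).Point))) (0 : (Ec a b).Point)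
    rw [h1, map_zero]
    trivial
  · obtain ⟨h', h1⟩ := cst_some x y h
    rw [h1]
    obtain ⟨h2, h3⟩ := sclE_some hM.disc (one_ne_zero (α := Om k)) _ _ h'
    rw [h3]
    refine ⟨?_, ?_⟩
    · rw [one_pow, div_one]
      exact Place.at_const _
    · rw [one_pow, div_one]
      exact Place.at_const _

/-- **Constant curve**, with a place where the limit homomorphism is zero. -/
theorem famC_cst (hX : Hom X) {a b : k} {M : Mp (Om k) m}
    (hM : M.Ok (algebraMap k (Om k) a) (algebraMap k (Om k) b) X) {v₀ : Place k (Om k)}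
    (h₀ : ∀ P, hV hX hM v₀ P = 0) : ∃ N : ℕ, ∀ n, N ≤ n → ∀ w : Fin n → CH X Unit,
      (∀ j, w j ∈ Submodule.span ℚ (HVs hX hM)) → Alt (Ext hX n) w = 0 := by
  obtain ⟨N, h⟩ := isoT_all hX hM
  refine ⟨N, fun n hn w hw => h n hn w fun j => Submodule.span_le.2 ?_ (hw j)⟩
  rintro _ ⟨v, P, rfl⟩
  obtain ⟨p, hp⟩ := hV_red hX hM v P
  refine Submodule.subset_span ⟨v, v₀, p, ?_⟩
  rw [h₀, sub_zero, hp]

/-- transport of the set of values along equalities -/
private theorem ellj_cast (hX : Hom X) {α B α' B' : Om k} {M : Mp (Om k) m} (hM : M.Ok α B X)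
    (hα : α = α') (hB : B = B') : ∃ hM' : M.Ok α' B' X, HVs hX hM' = HVs hX hM ∧
      ∀ v, (∀ P, hV hX hM v P = 0) → ∀ P, hV hX hM' v P = 0 := by
  subst hα hB
  exact ⟨hM, rfl, fun v h => h⟩

/-- **Constant `j`-invariant**, with a place where the limit homomorphism is zero. -/
theorem famC (hX : Hom X) {α B : Om k} {M : Mp (Om k) m} (hM : M.Ok α B X)
    (hj : ∃ a a' : k, (a ≠ 0 ∨ a' ≠ 0) ∧
      algebraMap k (Om k) a * α ^ 3 = algebraMap k (Om k) a' * B ^ 2) {v₀ : Place k (Om k)}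
    (h₀ : ∀ P, hV hX hM v₀ P = 0) : ∃ N : ℕ, ∀ n, N ≤ n → ∀ w : Fin n → CH X Unit,
      (∀ j, w j ∈ Submodule.span ℚ (HVs hX hM)) → Alt (Ext hX n) w = 0 := by
  have hcst : ∀ {c : Om k}, c ≠ 0 → ∀ {α' B' : k}, α / c ^ 4 = algebraMap k (Om k) α' →
      B / c ^ 6 = algebraMap k (Om k) B' → ∃ N : ℕ, ∀ n, N ≤ n → ∀ w : Fin n → CH X Unit,
      (∀ j, w j ∈ Submodule.span ℚ (HVs hX hM)) → Alt (Ext hX n) w = 0 := by
    intro c hc α' B' h1 h2
    have hM1 := ok_scl hX hM hc (one_ne_zero (α := Om k))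
    obtain ⟨hM2, hM3, hM4⟩ := ellj_cast hX hM1 h1 h2
    have h3 : HVs hX hM ⊆ HVs hX hM2 := by
      rw [hM3]
      rintro _ ⟨v, P, rfl⟩
      exact ⟨v, _, hV_scl hX hM v hc one_ne_zero P⟩
    obtain ⟨N, h⟩ := famC_cst hX hM2 (v₀ := v₀) (hM4 v₀ fun P => by
      have h4 := hV_scl hX hM v₀ hc one_ne_zero ((sclE hM.disc hc).symm P)
      rw [AddEquiv.apply_symm_apply, h₀] at h4
      exact h4.symm)
    exact ⟨N, fun n hn w hw => h n hn w fun j => Submodule.span_mono h3 (hw j)⟩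
  obtain ⟨a, a', haa, hj⟩ := hj
  by_cases hα : α = 0
  · have hB : B ≠ 0 := by
      rintro rfl
      apply hM.disc
      rw [hα]
      ring
    obtain ⟨c, hc⟩ := IsAlgClosed.exists_pow_nat_eq B (n := 6) (by norm_num)
    have hc0 : c ≠ 0 := by
      rintro rfl
      exact hB (by rw [← hc]; ring)
    refine hcst hc0 (α' := 0) (B' := 1) ?_ ?_
    · rw [hα, zero_div, map_zero]
    · rw [hc, map_one, div_self hB]
  · obtain ⟨c, hc⟩ := IsAlgClosed.exists_pow_nat_eq α (n := 4) (by norm_num)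
    have hc0 : c ≠ 0 := by
      rintro rfl
      exact hα (by rw [← hc]; ring)
    have ha' : a' ≠ 0 := by
      rintro rfl
      rw [map_zero, zero_mul] at hj
      rcases mul_eq_zero.1 hj with h1 | h1
      · have h2 : a = 0 := (map_eq_zero_iff _ (algebraMap k (Om k)).injective).1 h1
        rcases haa with h3 | h3
        · exact h3 h2
        · exact h3 rfl
      · exact hα (pow_eq_zero_iff (by norm_num) |>.1 h1)
    obtain ⟨r, hr⟩ := IsAlgClosed.exists_pow_nat_eq (a / a') (n := 2) (by norm_num)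
    have ha'' : algebraMap k (Om k) a' ≠ 0 :=
      (map_ne_zero_iff _ (algebraMap k (Om k)).injective).2 ha'
    have h1 : (B / c ^ 6) ^ 2 = (algebraMap k (Om k) r) ^ 2 := by
      rw [← map_pow, hr, map_div₀]
      have h2 : (B / c ^ 6) ^ 2 = B ^ 2 / α ^ 3 := by
        rw [← hc]
        field_simp
      rw [h2, div_eq_div_iff (pow_ne_zero 3 hα) ha'']
      linear_combination -hj
    have h3 : α / c ^ 4 = algebraMap k (Om k) 1 := by
      rw [hc, map_one, div_self hα]
    rcases sq_eq_sq_iff_eq_or_eq_neg.1 h1 with h2 | h2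
    · exact hcst hc0 h3 h2
    · exact hcst hc0 h3 (B' := -r) (by rw [h2, map_neg])

/-- Both cases. -/
theorem ell_alt (hX : Hom X) {α B : Om k} {M : Mp (Om k) m} (hM : M.Ok α B X)
    {v₀ : Place k (Om k)} (h₀ : ∀ P, hV hX hM v₀ P = 0) :
    ∃ N : ℕ, ∀ n, N ≤ n → ∀ w : Fin n → CH X Unit,
      (∀ j, w j ∈ Submodule.span ℚ (HVs hX hM)) → Alt (Ext hX n) w = 0 := by
  by_cases hj : ∃ a a' : k, (a ≠ 0 ∨ a' ≠ 0) ∧
      algebraMap k (Om k) a * α ^ 3 = algebraMap k (Om k) a' * B ^ 2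
  · exact famC hX hM hj h₀
  · exact famJ hX hM hj

end Pool.Agent.QRT
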