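import Pool.Agent.QRT.RatA

/-!
# The discriminant is a square

The proof of `os_zero` (see `RatB.lean`).
-/

set_option autoImplicit false

noncomputable section

namespace Pool.Agent.QRT

open Pool.Agent.ZCyc Pool.Agent.Dess Pool.Agent.GT Pool.Agent.CUB
open Pool.Agent.VFP (Om tt)
open scoped Classical

/-- Two polynomials divided by their greatest common divisor. -/
private theorem exists_prim {K : Type} [Field K] (A B : Polynomial K) (hA : A ≠ 0) :
    ∃ δ α β : Polynomial K, α ≠ 0 ∧ δ ≠ 0 ∧ A = δ * α ∧ B = δ * β ∧ IsCoprime α β := by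
  have hδ : EuclideanDomain.gcd A B ≠ 0 := fun h =>
    hA (EuclideanDomain.gcd_eq_zero_iff.1 h).1
  obtain ⟨α, hα⟩ := EuclideanDomain.gcd_dvd_left A B
  obtain ⟨β, hβ⟩ := EuclideanDomain.gcd_dvd_right A B
  refine ⟨EuclideanDomain.gcd A B, α, β, ?_, hδ, hα, hβ, ?_⟩
  · rintro rfl
    rw [mul_zero] at hα
    exact hA hα
  · refine ⟨EuclideanDomain.gcdA A B, EuclideanDomain.gcdB A B, ?_⟩
    have h := EuclideanDomain.gcd_eq_gcd_ab A B
    refine mul_left_cancel₀ hδ ?_
    linear_combination (-1 : Polynomial K) * h - EuclideanDomain.gcdA A B * hα -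
      EuclideanDomain.gcdB A B * hβ

/-- Two vectors with determinant zero are proportional. -/
private theorem exists_prop {K : Type} [Field K] {x y x' y' : K} (h : x ≠ 0 ∨ y ≠ 0)
    (h' : x' ≠ 0 ∨ y' ≠ 0) (hd : x * y' = y * x') : ∃ c : K, c ≠ 0 ∧ x' = c * x ∧ y' = c * y := by
  by_cases hx : x = 0
  · have hy : y ≠ 0 := h.resolve_left (not_not.2 hx)
    rw [hx, zero_mul] at hd
    have hx' : x' = 0 := (mul_eq_zero.1 hd.symm).resolve_left hy
    have hy' : y' ≠ 0 := h'.resolve_left (not_not.2 hx')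
    refine ⟨y' / y, div_ne_zero hy' hy, ?_, ?_⟩
    · rw [hx', hx, mul_zero]
    · rw [div_mul_cancel₀ _ hy]
  · refine ⟨x' / x, ?_, ?_, ?_⟩
    · intro h0
      have hx' : x' = 0 := by
        rcases div_eq_zero_iff.1 h0 with h1 | h1
        · exact h1
        · exact absurd h1 hx
      rw [hx', mul_zero] at hd
      have hy' : y' = 0 := (mul_eq_zero.1 hd).resolve_left hx
      rcases h' with h1 | h1
      · exact h1 hx'
      · exact h1 hy'
    · rw [div_mul_cancel₀ _ hx]
    · field_simp
      linear_combination hd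

variable {k : Type} [Field k] [IsAlgClosed k] [CharZero k]
  {F : MvPolynomial (Fin 4) k} {G : Fin 3 → Fin 4 → Om k} {a b e : Polynomial (Om k)}

/-- the point of the rational curve -/
private def pt3 (G : Fin 3 → Fin 4 → Om k) (α β : Polynomial (Om k)) (s : Om k) : Fin 4 → Om k :=
  (α.eval s * s) • G 0 + β.eval s • G 1 + α.eval s • G 2

/-- the vector of polynomials -/
private def po3 (G : Fin 3 → Fin 4 → Om k) (α β : Polynomial (Om k)) (i : Fin 4) :
    Polynomial (Om k) :=
  α * Polynomial.X * Polynomial.C (G 0 i) + β * Polynomial.C (G 1 i) + α * Polynomial.C (G 2 i)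

omit [IsAlgClosed k] [CharZero k] in
private theorem eval_po3 (α β : Polynomial (Om k)) (s : Om k) :
    (fun i => (po3 G α β i).eval s) = pt3 G α β s := by
  funext i
  simp [po3, pt3]

omit [IsAlgClosed k] [CharZero k] in
private theorem comb_ne (hG : LinearIndependent (Om k) G) {x y z : Om k}
    (h : x ≠ 0 ∨ y ≠ 0 ∨ z ≠ 0) : x • G 0 + y • G 1 + z • G 2 ≠ 0 := by
  intro h0
  rw [Fintype.linearIndependent_iff] at hG
  have h1 := hG ![x, y, z] (by
    rw [Fin.sum_univ_three]
    exact h0)
  have hx : x = 0 := h1 0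
  have hy : y = 0 := h1 1
  have hz : z = 0 := h1 2
  rcases h with h | h | h
  · exact h hx
  · exact h hy
  · exact h hz

omit [IsAlgClosed k] [CharZero k] in
private theorem coprime_eval {α β : Polynomial (Om k)} (hc : IsCoprime α β) (s : Om k) :
    α.eval s ≠ 0 ∨ β.eval s ≠ 0 := by
  by_contra h
  push Not at h
  obtain ⟨u, w, huw⟩ := hc
  have h1 := congrArg (Polynomial.eval s) huw
  rw [Polynomial.eval_add, Polynomial.eval_mul, Polynomial.eval_mul, h.1, h.2, mul_zero, mul_zero,
    add_zero, Polynomial.eval_one] at h1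
  exact zero_ne_one h1

omit [IsAlgClosed k] [CharZero k] in
private theorem pt3_ne (hG : LinearIndependent (Om k) G) {α β : Polynomial (Om k)}
    (hc : IsCoprime α β) (s : Om k) : pt3 G α β s ≠ 0 := by
  refine comb_ne hG ?_
  rcases coprime_eval hc s with h | h
  · exact Or.inr (Or.inr h)
  · exact Or.inr (Or.inl h)

omit [IsAlgClosed k] [CharZero k] in
/-- Division by the common factor. -/
private theorem on_of (hF : F.IsHomogeneous 4) {δ α β : Polynomial (Om k)} (hδ : δ ≠ 0)
    (h : ∀ s : Om k, MvPolynomial.aeval (δ.eval s • pt3 G α β s) F = 0) (s : Om k) :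
    MvPolynomial.aeval (pt3 G α β s) F = 0 := by
  have hQ : ∀ s : Om k, (MvPolynomial.aeval (po3 G α β) F : Polynomial (Om k)).eval s =
      MvPolynomial.aeval (pt3 G α β s) F := by
    intro s
    have h1 := MvPolynomial.comp_aeval_apply (po3 G α β)
      ((Polynomial.aeval s : Polynomial (Om k) →ₐ[Om k] Om k).restrictScalars k) F
    have h2 : (fun i => ((Polynomial.aeval s : Polynomial (Om k) →ₐ[Om k] Om k).restrictScalars k)
        (po3 G α β i)) = pt3 G α β s := by
      rw [← eval_po3]
      rfl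
    rw [h2] at h1
    exact h1
  have h0 : δ ^ 4 * (MvPolynomial.aeval (po3 G α β) F : Polynomial (Om k)) = 0 := by
    refine Polynomial.funext fun s => ?_
    rw [Polynomial.eval_mul, Polynomial.eval_pow, hQ, ← aeval_smul hF, h, Polynomial.eval_zero]
  have h3 := (mul_eq_zero.1 h0).resolve_left (pow_ne_zero 4 hδ)
  rw [← hQ, h3, Polynomial.eval_zero]

/-- the coefficient vector of the highest power -/
private theorem to_inf (hF : F.IsHomogeneous 4) (hG : LinearIndependent (Om k) G)
    (v : Place k (Om k)) {α β : Polynomial (Om k)} (hα : α ≠ 0) (hc : IsCoprime α β)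
    (h : ∀ s : Om k, MvPolynomial.aeval (pt3 G α β s) F = 0) :
    ∃ n : ℕ, 1 ≤ n ∧ (α * Polynomial.X).natDegree ≤ n ∧ β.natDegree ≤ n ∧
      ((α * Polynomial.X).coeff n ≠ 0 ∨ β.coeff n ≠ 0) ∧
      ∀ s : Om k, cv hF v (pt3 G α β s) =
        cv hF v ((α * Polynomial.X).coeff n • G 0 + β.coeff n • G 1) := by
  have hd : (α * Polynomial.X).natDegree = α.natDegree + 1 := Polynomial.natDegree_mul_X hα
  obtain ⟨n, hn⟩ : ∃ n, n = max (α.natDegree + 1) β.natDegree := ⟨_, rfl⟩
  have h1 : α.natDegree + 1 ≤ n := by rw [hn]; exact le_max_left _ _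
  have h2 : β.natDegree ≤ n := by rw [hn]; exact le_max_right _ _
  have hα0 : α.coeff n = 0 := Polynomial.coeff_eq_zero_of_natDegree_lt (by omega)
  have hne : (α * Polynomial.X).coeff n ≠ 0 ∨ β.coeff n ≠ 0 := by
    rcases max_choice (α.natDegree + 1) β.natDegree with h3 | h3
    · left
      rw [hn, h3, Polynomial.coeff_mul_X, Polynomial.coeff_natDegree]
      exact Polynomial.leadingCoeff_ne_zero.2 hα
    · right
      rw [hn, h3, Polynomial.coeff_natDegree]
      refine Polynomial.leadingCoeff_ne_zero.2 ?_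
      rintro rfl
      rw [Polynomial.natDegree_zero] at hn h3
      omega
  refine ⟨n, by omega, by omega, h2, hne, fun s => ?_⟩
  let A : ℕ → Fin 4 → Om k := fun j =>
    (α * Polynomial.X).coeff j • G 0 + β.coeff j • G 1 + α.coeff j • G 2
  have hA : ∀ s : Om k, ∑ j ∈ Finset.range (n + 1), s ^ j • A j = pt3 G α β s := by
    intro s
    have e1 : α.eval s * s = (α * Polynomial.X).eval s := by
      rw [Polynomial.eval_mul, Polynomial.eval_X]
    rw [pt3, e1, Polynomial.eval_eq_sum_range' (n := n + 1) (by omega) s,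
      Polynomial.eval_eq_sum_range' (p := β) (n := n + 1) (by omega) s,
      Polynomial.eval_eq_sum_range' (p := α) (n := n + 1) (by omega) s,
      Finset.sum_smul, Finset.sum_smul, Finset.sum_smul, ← Finset.sum_add_distrib,
      ← Finset.sum_add_distrib]
    refine Finset.sum_congr rfl fun j _ => ?_
    simp only [A, smul_add, smul_smul]
    rw [mul_comm (s ^ j), mul_comm (s ^ j), mul_comm (s ^ j)]
  have hAn : A n = (α * Polynomial.X).coeff n • G 0 + β.coeff n • G 1 := by
    simp only [A, hα0, zero_smul, add_zero]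
  have hAn0 : A n ≠ 0 := by
    have h5 := comb_ne hG (x := (α * Polynomial.X).coeff n) (y := β.coeff n) (z := α.coeff n)
      (hne.imp_right Or.inl)
    exact h5
  have h6 := chain hF hF (v := v) (θ := 0) (by
    have h7 := Place.at_const (v := v) (0 : k)
    rwa [map_zero] at h7) (n := n) A (fun s => by rw [hA, h, zero_mul, add_zero]) hAn0 s
    (by rw [hA]; exact pt3_ne hG hc s)
  rw [hA, hAn] at h6
  exact h6

/-- The discriminant is a square. -/
theorem os_zero_aux (hF : Sm F) (h : Nf F G a b e) (ha : a ≠ 0) {g : Polynomial (Om k)}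
    (hD : b ^ 2 - 4 * a * e = g ^ 2) : OS hF.hom G a b e = ⊥ := by
  have key : ∀ (v : Place k (Om k)) (s : Om k), a.eval s ≠ 0 →
      cv hF.hom v (pW G a b s (g.eval s)) = cv hF.hom v (pW G a b s (-(g.eval s))) := by
    intro v s₀ hs₀
    have h2a : (2 * a : Polynomial (Om k)) ≠ 0 := mul_ne_zero two_ne_zero ha
    obtain ⟨δ, α, β, hα, hδ, e1, e2, hc⟩ := exists_prim (2 * a) (g - b) h2a
    obtain ⟨δ', α', β', hα', hδ', e1', e2', hc'⟩ := exists_prim (2 * a) (-g - b) h2a
    have p1 : ∀ s : Om k, pW G a b s (g.eval s) = δ.eval s • pt3 G α β s := by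
      intro s
      have f1 := congrArg (Polynomial.eval s) e1
      have f2 := congrArg (Polynomial.eval s) e2
      simp only [Polynomial.eval_mul, Polynomial.eval_sub, Polynomial.eval_ofNat] at f1 f2
      rw [pW, pt3, f1, f2, smul_add, smul_add, smul_smul, smul_smul, smul_smul, mul_assoc]
    have p2 : ∀ s : Om k, pW G a b s (-(g.eval s)) = δ'.eval s • pt3 G α' β' s := by
      intro s
      have f1 := congrArg (Polynomial.eval s) e1'
      have f2 := congrArg (Polynomial.eval s) e2'
      simp only [Polynomial.eval_mul, Polynomial.eval_sub, Polynomial.eval_neg,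
        Polynomial.eval_ofNat] at f1 f2
      rw [pW, pt3, f1, f2, smul_add, smul_add, smul_smul, smul_smul, smul_smul, mul_assoc]
    have o1 : ∀ s : Om k, MvPolynomial.aeval (pt3 G α β s) F = 0 := by
      refine on_of hF.hom hδ fun s => ?_
      rw [← p1]
      refine pW_on hF h ?_
      rw [hD, Polynomial.eval_pow]
    have o2 : ∀ s : Om k, MvPolynomial.aeval (pt3 G α' β' s) F = 0 := by
      refine on_of hF.hom hδ' fun s => ?_
      rw [← p2]
      refine pW_on hF h ?_
      rw [hD, Polynomial.eval_pow, neg_sq]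
    have d1 : δ.eval s₀ ≠ 0 := by
      intro h0
      have f1 := congrArg (Polynomial.eval s₀) e1
      simp only [Polynomial.eval_mul, Polynomial.eval_ofNat] at f1
      rw [h0, zero_mul] at f1
      exact mul_ne_zero two_ne_zero hs₀ f1
    have d2 : δ'.eval s₀ ≠ 0 := by
      intro h0
      have f1 := congrArg (Polynomial.eval s₀) e1'
      simp only [Polynomial.eval_mul, Polynomial.eval_ofNat] at f1
      rw [h0, zero_mul] at f1
      exact mul_ne_zero two_ne_zero hs₀ f1
    rw [p1, p2, cv_smul _ _ d1, cv_smul _ _ d2]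
    by_cases hR : ∃ s₁ : Om k, (β * α' - α * β').eval s₁ = 0
    · obtain ⟨s₁, hs₁⟩ := hR
      rw [Polynomial.eval_sub, Polynomial.eval_mul, Polynomial.eval_mul, sub_eq_zero] at hs₁
      obtain ⟨c, hc0, hx, hy⟩ := exists_prop (coprime_eval hc s₁) (coprime_eval hc' s₁)
        (show α.eval s₁ * β'.eval s₁ = β.eval s₁ * α'.eval s₁ from hs₁.symm)
      have q1 := chain_poly hF.hom (v := v) (po3 G α β) (fun s => by
        rw [eval_po3]; exact o1 s) (s := s₀) (s' := s₁) (by
        rw [eval_po3]; exact pt3_ne h.li hc s₀) (by rw [eval_po3]; exact pt3_ne h.li hc s₁)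
      have q2 := chain_poly hF.hom (v := v) (po3 G α' β') (fun s => by
        rw [eval_po3]; exact o2 s) (s := s₀) (s' := s₁) (by
        rw [eval_po3]; exact pt3_ne h.li hc' s₀) (by rw [eval_po3]; exact pt3_ne h.li hc' s₁)
      rw [eval_po3, eval_po3] at q1 q2
      rw [q1, q2]
      have q3 : pt3 G α' β' s₁ = c • pt3 G α β s₁ := by
        rw [pt3, pt3, hx, hy, smul_add, smul_add, smul_smul, smul_smul, smul_smul, mul_assoc]
      rw [q3, cv_smul _ _ hc0]
    · push Not at hR
      have hdeg : (β * α' - α * β').degree = 0 := by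
        by_contra h0
        obtain ⟨s₁, hs₁⟩ := IsAlgClosed.exists_root (β * α' - α * β') h0
        exact hR s₁ hs₁
      obtain ⟨n, n1, n2, n3, n4, n5⟩ := to_inf hF.hom h.li v hα hc o1
      obtain ⟨m, m1, m2, m3, m4, m5⟩ := to_inf hF.hom h.li v hα' hc' o2
      have hcoef : (α * Polynomial.X).coeff n * β'.coeff m =
          β.coeff n * (α' * Polynomial.X).coeff m := by
        rw [← Polynomial.coeff_mul_add_eq_of_natDegree_le n2 m3,
          ← Polynomial.coeff_mul_add_eq_of_natDegree_le n3 m2, ← sub_eq_zero,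
          ← Polynomial.coeff_sub]
        have f1 : α * Polynomial.X * β' - β * (α' * Polynomial.X) =
            -((β * α' - α * β') * Polynomial.X) := by ring
        rw [f1, Polynomial.coeff_neg, neg_eq_zero, Polynomial.eq_C_of_degree_eq_zero hdeg]
        obtain ⟨j, hj⟩ : ∃ j, n + m = j + 1 + 1 := ⟨n + m - 2, by omega⟩
        rw [hj, Polynomial.coeff_mul_X, Polynomial.coeff_C_succ]
      obtain ⟨c, hc0, hx, hy⟩ := exists_prop n4 m4 hcoef
      rw [n5, m5, hx, hy]
      have q3 : (c * (α * Polynomial.X).coeff n) • G 0 + (c * β.coeff n) • G 1 =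
          c • ((α * Polynomial.X).coeff n • G 0 + β.coeff n • G 1) := by
        rw [smul_add, smul_smul, smul_smul]
      rw [q3, cv_smul _ _ hc0]
  rw [OS, Submodule.span_eq_bot]
  rintro c ⟨v, s, t₁, t₂, hs, ht, rfl⟩
  obtain ⟨w, hw, w1, w2⟩ := pW_two h hs ht
  have h2 : (2 * a.eval s : Om k) ≠ 0 := mul_ne_zero two_ne_zero hs
  rw [← cv_smul hF.hom v h2 (pP G s t₁), ← cv_smul hF.hom v h2 (pP G s t₂), ← w1, ← w2]
  rw [hD, Polynomial.eval_pow] at hw
  have hw' : w = g.eval s ∨ w = -g.eval s := sq_eq_sq_iff_eq_or_eq_neg.1 hw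
  rcases hw' with rfl | rfl
  · rw [key v s hs, sub_self]
  · rw [neg_neg, key v s hs, sub_self]

end Pool.Agent.QRT
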