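import Pool.Agent.QRT.RatA
import Pool.Agent.QRT.OsZero

/-!
# Plane sections which are the union of two rational curves
-/

set_option autoImplicit false

noncomputable section

namespace Pool.Agent.QRT

open Pool.Agent.ZCyc Pool.Agent.Dess Pool.Agent.GT Pool.Agent.CUB
open Pool.Agent.VFP (Om tt)
open scoped Classical

variable {k : Type} [Field k] [IsAlgClosed k] [CharZero k]
  {F : MvPolynomial (Fin 4) k} {G : Fin 3 → Fin 4 → Om k} {a b e : Polynomial (Om k)}

/-- `D = g²`, `a ≠ 0`. If `g = 0` the two points over `s` are the same. Let `g ≠ 0`. The two vectors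
`φ = (2 a s, g - b, 2 a)`, `φ' = (2 a s, - g - b, 2 a)` of polynomials in `s` (coordinates with respect to
`G 0`, `G 1`, `G 2`) give the two points. Let `φ = δ ψ`, `φ' = δ' ψ'` with primitive `ψ`, `ψ'` (divide by the
gcd of the coordinates, so `ψ(s) ≠ 0`, `ψ'(s) ≠ 0` for all `s`). By `chain_poly` (and `chain` for the value at
infinity) the classes of all `ψ(s)` and of the coefficient vector `L` of the highest power of `s` in `ψ` are
the same, also for `ψ'`, `L'`. So it is enough to find `s` with `ψ(s)`, `ψ'(s)` proportional, or that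
`L`, `L'` are proportional. The vector product of `φ` and `φ'` is `4 a g (-1, 0, s)` up to sign, so the
vector product of `ψ` and `ψ'` is `R (-1, 0, s)` with a polynomial `R` (`δ δ'` divides `4 a g`: it divides
`4 a g` times `-1`). If `R` has a zero `s` then `ψ(s)`, `ψ'(s)` are proportional. Otherwise `R` is a
constant. The degrees of `ψ` and `ψ'` are at least one (the first coordinate is `s` times the third,
which is not zero), so the coefficient of `s ^ (deg ψ + deg ψ')` in `R (-1, 0, s)` is zero, and this is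
the vector product of `L` and `L'`. -/
theorem os_zero (hF : Sm F) (h : Nf F G a b e) (ha : a ≠ 0) {g : Polynomial (Om k)}
    (hD : b ^ 2 - 4 * a * e = g ^ 2) : OS hF.hom G a b e = ⊥ := os_zero_aux hF h ha hD

private theorem os_split (hF : Sm F) (h : Nf F G a b e) (ha : a ≠ 0) {x y : Polynomial (Om k)}
    (hD : b ^ 2 - 4 * a * e = x ^ 2 * y) (hy : y.natDegree ≤ 2) :
    OS hF.hom G a b e = ⊥ := by
  by_cases hy0 : y = 0
  · exact os_zero hF h ha (g := 0) (by rw [hD, hy0]; ring)
  have hlc : y.leadingCoeff ≠ 0 := Polynomial.leadingCoeff_ne_zero.2 hy0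
  obtain ⟨m, hm⟩ := Polynomial.splits_iff_exists_multiset.mp (IsAlgClosed.splits y)
  obtain ⟨γ, hγ⟩ := IsAlgClosed.exists_pow_nat_eq y.leadingCoeff (n := 2) (by norm_num)
  have hc : Multiset.card m ≤ 2 := by
    have h1 : y.natDegree = Multiset.card m := by
      conv_lhs => rw [hm]
      rw [Polynomial.natDegree_C_mul hlc, Polynomial.natDegree_multiset_prod_X_sub_C_eq_card]
    omega
  generalize y.leadingCoeff = δ at hm hγ hlc
  have hcc : Multiset.card m = 0 ∨ Multiset.card m = 1 ∨ Multiset.card m = 2 := by omega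
  rcases hcc with hm0 | hm1 | hm2
  · rw [Multiset.card_eq_zero] at hm0
    refine os_zero hF h ha (g := x * Polynomial.C γ) ?_
    rw [hD, hm, hm0, Multiset.map_zero, Multiset.prod_zero, mul_one, ← hγ, Polynomial.C_pow]
    ring
  · obtain ⟨ε, rfl⟩ := Multiset.card_eq_one.1 hm1
    refine os_one hF h (g := x) (δ := δ) (ε := ε) hlc ?_
    rw [hD, hm, Multiset.map_singleton, Multiset.prod_singleton]
  · obtain ⟨ε₁, ε₂, rfl⟩ := Multiset.card_eq_two.1 hm2
    have hy2 : y = Polynomial.C δ * (Polynomial.X - Polynomial.C ε₁) *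
        (Polynomial.X - Polynomial.C ε₂) := by
      rw [hm, Multiset.insert_eq_cons, Multiset.map_cons, Multiset.prod_cons,
        Multiset.map_singleton, Multiset.prod_singleton, mul_assoc]
    by_cases hε : ε₁ = ε₂
    · refine os_zero hF h ha (g := x * (Polynomial.C γ * (Polynomial.X - Polynomial.C ε₁))) ?_
      rw [hD, hy2, ← hε, ← hγ, Polynomial.C_pow]
      ring
    · exact os_two hF h (g := x) hlc hε (by rw [hD, hy2])

/-- All rational cases: if the discriminant `D ≠ 0` is not squarefree, or its degree is at most two,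
then `D = g² D'` with `D'` squarefree of degree at most two (`D` is a product of linear factors;
`dD`): `os_zero`, `os_one`, `os_two`. -/
theorem os_rat (hF : Sm F) (h : Nf F G a b e) (ha : a ≠ 0)
    (hD : ¬ (Squarefree (b ^ 2 - 4 * a * e) ∧ 3 ≤ (b ^ 2 - 4 * a * e).natDegree)) :
    OS hF.hom G a b e = ⊥ := by
  by_cases h0 : b ^ 2 - 4 * a * e = 0
  · exact os_zero hF h ha (g := 0) (by rw [h0]; ring)
  by_cases hsf : Squarefree (b ^ 2 - 4 * a * e)
  · refine os_split hF h ha (x := 1) (y := b ^ 2 - 4 * a * e) (by ring) ?_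
    by_contra hlt
    exact hD ⟨hsf, by omega⟩
  · rw [Squarefree] at hsf
    push Not at hsf
    obtain ⟨x, ⟨y, hxy⟩, hx⟩ := hsf
    refine os_split hF h ha (x := x) (y := y) (by rw [hxy]; ring) ?_
    have hx0 : x ≠ 0 := by
      rintro rfl
      rw [mul_zero, zero_mul] at hxy
      exact h0 hxy
    have hy0 : y ≠ 0 := by
      rintro rfl
      rw [mul_zero] at hxy
      exact h0 hxy
    have hdx : 1 ≤ x.natDegree := by
      by_contra hlt
      have h1 : x.natDegree = 0 := by omega
      rw [Polynomial.natDegree_eq_zero] at h1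
      obtain ⟨c, rfl⟩ := h1
      apply hx
      rw [Polynomial.isUnit_C]
      exact isUnit_iff_ne_zero.2 fun hc => hx0 (by rw [hc, Polynomial.C_0])
    have hdD := h.dD
    rw [hxy, Polynomial.natDegree_mul (mul_ne_zero hx0 hx0) hy0,
      Polynomial.natDegree_mul hx0 hx0] at hdD
    omega

end Pool.Agent.QRT
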