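import Pool.Agent.QRT.EllB
import Pool.Agent.QRT.RatB

/-!
# Zero-cycles on smooth quartic surfaces
-/

set_option autoImplicit false

noncomputable section

namespace Pool.Agent.QRT

open Pool.Agent.ZCyc Pool.Agent.Dess Pool.Agent.GT Pool.Agent.CUB
open Pool.Agent.VFP (Om tt)
open scoped Classical

variable {k : Type} [Field k] [IsAlgClosed k] [CharZero k] {F : MvPolynomial (Fin 4) k}

/-- The classes `cp x - cX / 4` of all points are in a subspace of which the alternating products are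
zero. -/
theorem exists_sub (hF : Sm F) : ∃ S : Submodule ℚ (CH (m := 3) {F} Unit),
    (∀ x : Fin 4 → k, x ≠ 0 → MvPolynomial.aeval x F = 0 →
      cp hF.hom x - (1 / 4 : ℚ) • cX hF ∈ S) ∧
    ∃ N : ℕ, ∀ n, N ≤ n → ∀ w : Fin n → CH (m := 3) {F} Unit, (∀ j, w j ∈ S) →
      Alt (Ext (homX hF.hom) n) w = 0 := by
  have hbot : ∃ N : ℕ, ∀ n, N ≤ n → ∀ w : Fin n → CH (m := 3) {F} Unit,
      (∀ j, w j ∈ (⊥ : Submodule ℚ (CH (m := 3) {F} Unit))) →
      Alt (Ext (homX hF.hom) n) w = 0 := by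
    refine ⟨1, fun n hn w hw => ?_⟩
    exact Alt_zero _ w ⟨0, hn⟩ ((Submodule.mem_bot ℚ).1 (hw ⟨0, hn⟩))
  obtain ⟨G₀, q, v₀, hli, hnc, hq, hN, hE⟩ := exists_fam hF
  obtain ⟨G, a, b, e, h, hspan⟩ := exists_nf hli hnc hq hN
  rw [← hspan] at hE
  by_cases ha : a = 0
  · refine ⟨⊥, fun x hx hFx => ?_, hbot⟩
    rw [cp_const hF h ha hx hFx, sub_self]
    exact Submodule.zero_mem _
  · by_cases hD : Squarefree (b ^ 2 - 4 * a * e) ∧ 3 ≤ (b ^ 2 - 4 * a * e).natDegree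
    · obtain ⟨α, B, M, hM, hOS, hMs⟩ := exists_ell hF h hD.1 hD.2
      refine ⟨Submodule.span ℚ (HVs (homX hF.hom) hM), fun x hx hFx =>
        hOS (cp_mem hF h ha hx hFx), ?_⟩
      exact ell_alt (homX hF.hom) hM (hV_zero hF hM hMs hE)
    · refine ⟨⊥, fun x hx hFx => ?_, hbot⟩
      rw [← os_rat hF h ha hD]
      exact cp_mem hF h ha hx hFx

/-- **Smooth quartic surfaces.** -/
theorem main (hF : Sm F) : ∃ N : ℕ, ∀ n, N ≤ n → ∀ z : Fin n → (Pt (m := 3) {F} k →₀ ℚ),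
    (∀ j, ((z j).sum fun _ a => a) = 0) →
    ∑ π : Equiv.Perm (Fin n), ((Equiv.Perm.sign π : ℤˣ) : ℤ) • GT.ext (fun j => z (π j)) ∈
      Rat (m := 3) {F} (Fin n) := by
  obtain ⟨S, hS, N, hN⟩ := exists_sub hF
  refine ⟨N, fun n hn z hz => ?_⟩
  rw [← Submodule.Quotient.mk_eq_zero, cl_alt (homX hF.hom)]
  exact hN n hn _ fun j => cl_mem hF.hom hS (hz j)

end Pool.Agent.QRT
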