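import Pool.Agent.QRT.Defs

/-!
# Binary forms as products of linear forms
-/

set_option autoImplicit false

noncomputable section

namespace Pool.Agent.QRT

open Pool.Agent.ZCyc Pool.Agent.Dess Pool.Agent.GT
open Pool.Agent.VFP (Om tt)
open scoped Classical

private theorem bf_fac {K : Type} [Field K] [IsAlgClosed K] (n : ℕ) : ∀ c : ℕ → K,
    (∃ i ≤ n, c i ≠ 0) → ∃ (κ : K) (α β : Fin n → K), κ ≠ 0 ∧ (∀ i, α i ≠ 0 ∨ β i ≠ 0) ∧
      ∀ x y : K, ∑ i ∈ Finset.range (n + 1), c i * x ^ (n - i) * y ^ i =
        κ * ∏ i, (β i * x - α i * y) := by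
  induction n with
  | zero =>
    rintro c ⟨i, hi, hc⟩
    obtain rfl : i = 0 := by omega
    refine ⟨c 0, Fin.elim0, Fin.elim0, hc, fun i => i.elim0, fun x y => ?_⟩
    simp
  | succ n ih =>
    rintro c ⟨j, hj, hc⟩
    by_cases h0 : c 0 = 0
    · have hj0 : j ≠ 0 := by
        rintro rfl
        exact hc h0
      obtain ⟨κ, α, β, hκ, hαβ, h⟩ := ih (fun i => c (i + 1))
        ⟨j - 1, by omega, by rwa [Nat.sub_add_cancel (by omega)]⟩
      refine ⟨κ, Fin.cons (-1) α, Fin.cons 0 β, hκ, ?_, fun x y => ?_⟩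
      · intro i
        refine Fin.cases ?_ (fun i => ?_) i
        · left
          rw [Fin.cons_zero]
          exact neg_ne_zero.2 one_ne_zero
        · rw [Fin.cons_succ, Fin.cons_succ]
          exact hαβ i
      · rw [Fin.prod_univ_succ, Fin.cons_zero, Fin.cons_zero]
        simp only [Fin.cons_succ]
        have h1 := h x y
        rw [Finset.sum_range_succ', h0]
        have h2 : ∑ i ∈ Finset.range (n + 1), c (i + 1) * x ^ (n + 1 - (i + 1)) * y ^ (i + 1) =
            y * ∑ i ∈ Finset.range (n + 1), c (i + 1) * x ^ (n - i) * y ^ i := by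
          rw [Finset.mul_sum]
          refine Finset.sum_congr rfl fun i _ => ?_
          rw [Nat.add_sub_add_right, pow_succ]
          ring
        rw [h2, h1]
        ring
    · -- a root
      have hroot : ∃ x₀ : K, ∑ i ∈ Finset.range (n + 2), c i * x₀ ^ (n + 1 - i) = 0 := by
        let p : Polynomial K := ∑ i ∈ Finset.range (n + 2),
          Polynomial.C (c i) * Polynomial.X ^ (n + 1 - i)
        have hcoef : p.coeff (n + 1) = c 0 := by
          rw [Polynomial.finsetSum_coeff, Finset.sum_eq_single 0]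
          · simp
          · intro i hi hi0
            rw [Polynomial.coeff_C_mul, Polynomial.coeff_X_pow, if_neg, mul_zero]
            have := Finset.mem_range.1 hi
            omega
          · intro h
            exact absurd (Finset.mem_range.2 (by omega)) h
        have hdeg : p.degree ≠ 0 := by
          intro hd
          have h1 : ((n + 1 : ℕ) : WithBot ℕ) ≤ p.degree :=
            Polynomial.le_degree_of_ne_zero (by rwa [hcoef])
          rw [hd] at h1
          have h2 : n + 1 ≤ 0 := by exact_mod_cast h1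
          omega
        obtain ⟨x₀, hx₀⟩ := IsAlgClosed.exists_root p hdeg
        refine ⟨x₀, ?_⟩
        rw [Polynomial.IsRoot.def, Polynomial.eval_finsetSum] at hx₀
        simpa using hx₀
      obtain ⟨x₀, hx₀⟩ := hroot
      let d : ℕ → K := fun m => ∑ i ∈ Finset.range (m + 1), c i * x₀ ^ (m - i)
      have hd0 : d 0 = c 0 := by simp [d]
      have hds : ∀ m, d (m + 1) = c (m + 1) + x₀ * d m := by
        intro m
        change ∑ i ∈ Finset.range (m + 1 + 1), c i * x₀ ^ (m + 1 - i) = _
        rw [Finset.sum_range_succ, Nat.sub_self, pow_zero, mul_one, add_comm]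
        congr 1
        change _ = x₀ * ∑ i ∈ Finset.range (m + 1), c i * x₀ ^ (m - i)
        rw [Finset.mul_sum]
        refine Finset.sum_congr rfl fun i hi => ?_
        have hi' := Finset.mem_range.1 hi
        rw [show m + 1 - i = (m - i) + 1 by omega, pow_succ]
        ring
      have hdn : d (n + 1) = 0 := hx₀
      obtain ⟨κ, α, β, hκ, hαβ, h⟩ := ih d ⟨0, Nat.zero_le _, by rwa [hd0]⟩
      refine ⟨κ, Fin.cons x₀ α, Fin.cons 1 β, hκ, ?_, fun x y => ?_⟩
      · intro i
        refine Fin.cases ?_ (fun i => ?_) i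
        · right
          rw [Fin.cons_zero]
          exact one_ne_zero
        · rw [Fin.cons_succ, Fin.cons_succ]
          exact hαβ i
      · rw [Fin.prod_univ_succ, Fin.cons_zero, Fin.cons_zero]
        simp only [Fin.cons_succ]
        have h1 := h x y
        have h3 : ∑ i ∈ Finset.range (n + 2), d i * x ^ (n + 1 - i) * y ^ i =
            x * ∑ i ∈ Finset.range (n + 1), d i * x ^ (n - i) * y ^ i := by
          rw [Finset.sum_range_succ, hdn, zero_mul, zero_mul, add_zero, Finset.mul_sum]
          refine Finset.sum_congr rfl fun i hi => ?_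
          have hi' := Finset.mem_range.1 hi
          rw [show n + 1 - i = (n - i) + 1 by omega, pow_succ]
          ring
        have h4 : ∑ i ∈ Finset.range (n + 2), d i * x ^ (n + 1 - i) * y ^ i =
            ∑ i ∈ Finset.range (n + 2), c i * x ^ (n + 1 - i) * y ^ i +
              x₀ * y * ∑ i ∈ Finset.range (n + 1), d i * x ^ (n - i) * y ^ i := by
          rw [Finset.sum_range_succ',
            Finset.sum_range_succ' (fun i => c i * x ^ (n + 1 - i) * y ^ i), hd0, Finset.mul_sum]
          have h5 : ∀ i ∈ Finset.range (n + 1), d (i + 1) * x ^ (n + 1 - (i + 1)) * y ^ (i + 1) =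
              c (i + 1) * x ^ (n + 1 - (i + 1)) * y ^ (i + 1) +
                x₀ * y * (d i * x ^ (n - i) * y ^ i) := by
            intro i _
            rw [hds, Nat.add_sub_add_right, pow_succ y i]
            ring
          rw [Finset.sum_congr rfl h5, Finset.sum_add_distrib]
          ring
        have h6 : ∑ i ∈ Finset.range (n + 2), c i * x ^ (n + 1 - i) * y ^ i =
            (x - x₀ * y) * ∑ i ∈ Finset.range (n + 1), d i * x ^ (n - i) * y ^ i := by
          linear_combination h3 - h4
        rw [show n + 1 + 1 = n + 2 from rfl, h6, h1]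
        ring

/-- Over an algebraically closed field a nonzero binary form of degree `n` is a product of linear
forms. Induction on `n`: if the coefficient `c 0` of `x ^ n` is zero then the form is divisible by
`y` (`β = 0`, `α = -1`); otherwise `∑ c i x ^ (n - i)` has a root `x₀`, the form is divisible by
`x - x₀ y` (`β = 1`, `α = x₀`). (Or: use `Polynomial.roots` of `∑ c i X ^ (n - i)`, the number of
factors `y` is `n` minus the degree.) -/
theorem exists_fac {K : Type} [Field K] [IsAlgClosed K] {n : ℕ} (c : Fin (n + 1) → K)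
    (hc : c ≠ 0) : ∃ (κ : K) (α β : Fin n → K), κ ≠ 0 ∧ (∀ i, α i ≠ 0 ∨ β i ≠ 0) ∧
      ∀ x y : K, ∑ i : Fin (n + 1), c i * x ^ (n - (i : ℕ)) * y ^ (i : ℕ) =
        κ * ∏ i, (β i * x - α i * y) := by
  let c' : ℕ → K := fun i => if h : i < n + 1 then c ⟨i, h⟩ else 0
  have hc' : ∀ i : Fin (n + 1), c' i = c i := fun i => dif_pos i.2
  have hne : ∃ i ≤ n, c' i ≠ 0 := by
    obtain ⟨i, hi⟩ := Function.ne_iff.1 hc
    refine ⟨i, by omega, ?_⟩
    rw [hc']
    exact hi
  obtain ⟨κ, α, β, hκ, hαβ, h⟩ := bf_fac n c' hne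
  refine ⟨κ, α, β, hκ, hαβ, fun x y => ?_⟩
  rw [← h x y, ← Fin.sum_univ_eq_sum_range (fun i => c' i * x ^ (n - i) * y ^ i)]
  refine Finset.sum_congr rfl fun i _ => ?_
  rw [hc']

/-- the vector `(a, b)` is a multiple of `(a', b')` -/
private theorem bf_mul {K : Type} [Field K] {a b a' b' : K} (h : a ≠ 0 ∨ b ≠ 0)
    (h' : a' ≠ 0 ∨ b' ≠ 0) (he : b' * a - a' * b = 0) :
    ∃ c : K, c ≠ 0 ∧ a = c * a' ∧ b = c * b' := by
  have key : ∃ c : K, a = c * a' ∧ b = c * b' := by
    by_cases ha : a' = 0
    · have hb : b' ≠ 0 := h'.resolve_left (fun h => h ha)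
      refine ⟨b / b', ?_, by field_simp⟩
      subst ha
      rw [zero_mul, sub_zero] at he
      rw [(mul_eq_zero.1 he).resolve_left hb, mul_zero]
    · refine ⟨a / a', by field_simp, ?_⟩
      field_simp
      linear_combination -he
  obtain ⟨c, h1, h2⟩ := key
  refine ⟨c, ?_, h1, h2⟩
  rintro rfl
  rw [zero_mul] at h1 h2
  rcases h with h | h
  · exact h h1
  · exact h h2

/-- an identity of products of linear forms which holds where a linear form is not zero -/
private theorem bf_dense {K : Type} [Field K] [Infinite K] {n : ℕ} {κ κ' : K}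
    {α β α' β' : Fin n → K} {a b : K} (hab : a ≠ 0 ∨ b ≠ 0)
    (heq : ∀ x y : K, b * x - a * y ≠ 0 →
      κ * ∏ i, (β i * x - α i * y) = κ' * ∏ i, (β' i * x - α' i * y)) (x y : K) :
    κ * ∏ i, (β i * x - α i * y) = κ' * ∏ i, (β' i * x - α' i * y) := by
  by_cases hxy : b * x - a * y = 0
  · obtain ⟨u, w, huw⟩ : ∃ u w : K, b * u - a * w ≠ 0 := by
      by_cases hb : b = 0
      · refine ⟨0, 1, ?_⟩
        rw [mul_zero, mul_one, zero_sub]
        exact neg_ne_zero.2 (hab.resolve_right (fun h => h hb))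
      · exact ⟨1, 0, by rwa [mul_zero, mul_one, sub_zero]⟩
    let P : Polynomial K := Polynomial.C κ * ∏ i, (Polynomial.C (β i * x - α i * y) +
        Polynomial.C (β i * u - α i * w) * Polynomial.X) -
      Polynomial.C κ' * ∏ i, (Polynomial.C (β' i * x - α' i * y) +
        Polynomial.C (β' i * u - α' i * w) * Polynomial.X)
    have hev : ∀ t, P.eval t = κ * ∏ i, (β i * (x + t * u) - α i * (y + t * w)) -
        κ' * ∏ i, (β' i * (x + t * u) - α' i * (y + t * w)) := by
      intro t
      simp only [P, Polynomial.eval_sub, Polynomial.eval_mul, Polynomial.eval_C,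
        Polynomial.eval_prod, Polynomial.eval_add, Polynomial.eval_X]
      congr 1
      · congr 1
        refine Finset.prod_congr rfl fun i _ => ?_
        ring
      · congr 1
        refine Finset.prod_congr rfl fun i _ => ?_
        ring
    have hP : P = 0 := by
      refine Polynomial.eq_zero_of_infinite_isRoot P ?_
      have hinf : ({0}ᶜ : Set K).Infinite := (Set.finite_singleton (0 : K)).infinite_compl
      refine hinf.mono fun t ht => ?_
      have ht' : t ≠ 0 := ht
      change P.eval t = 0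
      rw [hev, heq (x + t * u) (y + t * w), sub_self]
      have h1 : b * (x + t * u) - a * (y + t * w) = t * (b * u - a * w) := by
        linear_combination hxy
      rw [h1]
      exact mul_ne_zero ht' huw
    have h2 := hev 0
    rw [hP, Polynomial.eval_zero] at h2
    simp only [zero_mul, add_zero] at h2
    exact (sub_eq_zero.1 h2.symm)
  · exact heq x y hxy

/-- The factors are unique. Induction on `n`: put `x = α i`, `y = β i` for `i = 0`: some factor of
the other side is zero there, so it is proportional; cancel it (the identity for polynomials, or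
for all `(x, y)` where the factor is not zero, and then a nonzero polynomial argument on an
infinite field). -/
theorem fac_unique {K : Type} [Field K] [Infinite K] {n : ℕ} {κ κ' : K} (hκ : κ ≠ 0)
    (hκ' : κ' ≠ 0) {α β α' β' : Fin n → K} (h : ∀ i, α i ≠ 0 ∨ β i ≠ 0)
    (h' : ∀ i, α' i ≠ 0 ∨ β' i ≠ 0)
    (heq : ∀ x y : K, κ * ∏ i, (β i * x - α i * y) = κ' * ∏ i, (β' i * x - α' i * y)) :
    ∃ σ : Equiv.Perm (Fin n), ∀ i, ∃ c : K, c ≠ 0 ∧ α i = c * α' (σ i) ∧
      β i = c * β' (σ i) := by
  induction n generalizing κ κ' with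
  | zero => exact ⟨Equiv.refl _, fun i => i.elim0⟩
  | succ n ih =>
    obtain ⟨j, c, hc, hα, hβ⟩ : ∃ j, ∃ c : K, c ≠ 0 ∧ α 0 = c * α' j ∧ β 0 = c * β' j := by
      have h1 := heq (α 0) (β 0)
      rw [Fin.prod_univ_succ, mul_comm (β 0) (α 0), sub_self, zero_mul, mul_zero] at h1
      have h2 := (mul_eq_zero.1 h1.symm).resolve_left hκ'
      obtain ⟨j, -, hj⟩ := Finset.prod_eq_zero_iff.1 h2
      exact ⟨j, bf_mul (h 0) (h' j) hj⟩
    have heq' : ∀ x y : K, (κ * c) * ∏ i : Fin n, (β i.succ * x - α i.succ * y) =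
        κ' * ∏ i : Fin n, (β' (j.succAbove i) * x - α' (j.succAbove i) * y) := by
      refine bf_dense (h' j) fun x y hxy => ?_
      have h1 := heq x y
      rw [Fin.prod_univ_succ, Fin.prod_univ_succAbove _ j, hα, hβ] at h1
      refine mul_left_cancel₀ hxy ?_
      linear_combination h1
    obtain ⟨σ, hσ⟩ := ih (mul_ne_zero hκ hc) hκ' (fun i => h i.succ)
      (fun i => h' (j.succAbove i)) heq'
    let f : Fin (n + 1) → Fin (n + 1) := Fin.cons j fun i => j.succAbove (σ i)
    have hf : Function.Injective f := by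
      refine Fin.cons_injective_iff.2 ⟨?_, ?_⟩
      · rintro ⟨i, hi⟩
        exact Fin.succAbove_ne j (σ i) hi
      · exact (Fin.succAbove_right_injective).comp σ.injective
    refine ⟨Equiv.ofBijective f (Finite.injective_iff_bijective.1 hf), fun i => ?_⟩
    rw [Equiv.ofBijective_apply]
    refine Fin.cases ?_ (fun i => ?_) i
    · exact ⟨c, hc, hα, hβ⟩
    · exact hσ i

/-- a product of nonzero linear forms over an infinite field is not zero somewhere -/
private theorem exists_prod_ne {k : Type} [Field k] [Infinite k] {n : ℕ} {α β : Fin n → k}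
    (hne : ∀ i, α i ≠ 0 ∨ β i ≠ 0) : ∃ x y : k, ∏ i, (β i * x - α i * y) ≠ 0 := by
  have h1 : (∏ i, (Polynomial.C (β i) * Polynomial.X - Polynomial.C (α i))) ≠ 0 := by
    rw [Finset.prod_ne_zero_iff]
    intro i _ h0
    rcases hne i with h | h
    · apply h
      have h2 := congrArg (fun p : Polynomial k => p.coeff 0) h0
      simpa using h2
    · apply h
      have h2 := congrArg (fun p : Polynomial k => p.coeff 1) h0
      simpa using h2
  obtain ⟨x, hx⟩ : ∃ x : k, (∏ i, (Polynomial.C (β i) * Polynomial.X -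
      Polynomial.C (α i))).eval x ≠ 0 := by
    by_contra hcon
    push Not at hcon
    exact h1 (Polynomial.zero_of_eval_zero _ hcon)
  refine ⟨x, 1, ?_⟩
  rw [Polynomial.eval_prod] at hx
  simpa using hx

/-- Limits of a factorization. `κ` has a value: at some `x`, `y` in `k` the product of the limits
of the linear forms is not zero. -/
theorem fac_lim {k : Type} [Field k] [Infinite k] {K : Type} [Field K] [Algebra k K]
    [HasRes k K] {v : Place k K} {n : ℕ} {κ : K} {α β : Fin n → K} {α' β' : Fin n → k}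
    (hα : ∀ i, v.At (α i) (α' i)) (hβ : ∀ i, v.At (β i) (β' i))
    (hne : ∀ i, α' i ≠ 0 ∨ β' i ≠ 0) {g : k → k → k}
    (hg : ∀ x y : k, v.At (κ * ∏ i, (β i * algebraMap k K x - α i * algebraMap k K y)) (g x y)) :
    ∃ κ' : k, v.At κ κ' ∧ ∀ x y, g x y = κ' * ∏ i, (β' i * x - α' i * y) := by
  have hP : ∀ x y : k, v.At (∏ i, (β i * algebraMap k K x - α i * algebraMap k K y))
      (∏ i, (β' i * x - α' i * y)) := fun x y => Place.At.prod fun i _ =>
    ((hβ i).mul (Place.at_const x)).sub ((hα i).mul (Place.at_const y))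
  obtain ⟨x, y, hxy⟩ := exists_prod_ne hne
  have h0 : ∏ i, (β i * algebraMap k K x - α i * algebraMap k K y) ≠ 0 := by
    intro h0
    apply hxy
    have h1 := hP x y
    rw [h0] at h1
    have h2 := Place.at_const (v := v) (0 : k)
    rw [map_zero] at h2
    exact Place.At.unique h1 h2
  have h1 := (hg x y).div (hP x y) hxy
  rw [mul_div_assoc, div_self h0, mul_one] at h1
  exact ⟨_, h1, fun x' y' => (hg x' y').unique (h1.mul (hP x' y'))⟩

variable {k : Type} [Field k] {F : MvPolynomial (Fin 4) k}

/-- the value of a binary form -/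
private theorem eval_binary {K : Type} [Field K] {n : ℕ} {G : MvPolynomial (Fin 2) K}
    (hG : G.IsHomogeneous n) (x y : K) : MvPolynomial.eval ![x, y] G =
      ∑ i : Fin (n + 1), G.coeff (Finsupp.single 0 (n - (i : ℕ)) + Finsupp.single 1 (i : ℕ)) *
        x ^ (n - (i : ℕ)) * y ^ (i : ℕ) := by
  set e : Fin (n + 1) → (Fin 2 →₀ ℕ) := fun i =>
    Finsupp.single 0 (n - (i : ℕ)) + Finsupp.single 1 (i : ℕ) with he
  have he0 : ∀ i, e i 0 = n - (i : ℕ) := fun i => by simp [he]
  have he1 : ∀ i, e i 1 = (i : ℕ) := fun i => by simp [he]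
  have hinj : Function.Injective e := by
    intro i j hij
    apply Fin.ext
    rw [← he1 i, ← he1 j, hij]
  rw [MvPolynomial.eval_eq']
  have h1 : ∀ d : Fin 2 →₀ ℕ, ∏ i, (![x, y] : Fin 2 → K) i ^ d i = x ^ d 0 * y ^ d 1 := by
    intro d
    rw [Fin.prod_univ_two]
    rfl
  simp only [h1]
  have h2 : ∑ i : Fin (n + 1), G.coeff (e i) * x ^ (n - (i : ℕ)) * y ^ (i : ℕ) =
      ∑ d ∈ Finset.univ.image e, G.coeff d * (x ^ d 0 * y ^ d 1) := by
    rw [Finset.sum_image fun i _ j _ hij => hinj hij]
    refine Finset.sum_congr rfl fun i _ => ?_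
    rw [he0, he1, mul_assoc]
  rw [h2]
  refine Finset.sum_subset ?_ ?_
  · intro d hd
    have h3 : d 0 + d 1 = n := by
      by_contra hne
      rw [MvPolynomial.mem_support_iff] at hd
      apply hd
      refine hG.coeff_eq_zero ?_
      rw [Finsupp.degree_eq_sum, Fin.sum_univ_two]
      exact hne
    rw [Finset.mem_image]
    refine ⟨⟨d 1, by omega⟩, Finset.mem_univ _, ?_⟩
    ext i
    fin_cases i
    · change e _ 0 = d 0
      rw [he0]
      change n - d 1 = d 0
      omega
    · change e _ 1 = d 1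
      rw [he1]
  · intro d _ hd
    rw [MvPolynomial.notMem_support_iff.1 hd, zero_mul]

/-- A quartic form on a line. (The coefficients exist by homogeneity.) Then `exists_fac`. -/
theorem line_fac (hF : F.IsHomogeneous 4) {K : Type} [Field K] [Algebra k K] [IsAlgClosed K]
    (A B : Fin 4 → K) (h : ∃ x y : K, MvPolynomial.aeval (x • A + y • B) F ≠ 0) :
    ∃ (κ : K) (α β : Fin 4 → K), κ ≠ 0 ∧ (∀ i, α i ≠ 0 ∨ β i ≠ 0) ∧
      ∀ x y : K, MvPolynomial.aeval (x • A + y • B) F = κ * ∏ i, (β i * x - α i * y) := by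
  set G : MvPolynomial (Fin 2) K := MvPolynomial.aeval (fun j =>
    MvPolynomial.C (A j) * MvPolynomial.X 0 + MvPolynomial.C (B j) * MvPolynomial.X 1) F with hGdef
  have hG : G.IsHomogeneous 4 := by
    have h1 := hF.aeval (S := K) (τ := Fin 2) (n := 1) (fun j =>
      MvPolynomial.C (A j) * MvPolynomial.X 0 + MvPolynomial.C (B j) * MvPolynomial.X 1)
      fun j => ((MvPolynomial.isHomogeneous_X K 0).C_mul _).add
        ((MvPolynomial.isHomogeneous_X K 1).C_mul _)
    exact h1
  have hval : ∀ x y : K, MvPolynomial.aeval (x • A + y • B) F = MvPolynomial.eval ![x, y] G := by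
    intro x y
    have h1 := MvPolynomial.comp_aeval_apply (fun j =>
      MvPolynomial.C (A j) * MvPolynomial.X 0 + MvPolynomial.C (B j) * MvPolynomial.X 1)
      ((MvPolynomial.aeval (R := K) (![x, y] : Fin 2 → K)).restrictScalars k) F
    have h2 : (fun j => ((MvPolynomial.aeval (R := K) (![x, y] : Fin 2 → K)).restrictScalars k)
        (MvPolynomial.C (A j) * MvPolynomial.X 0 + MvPolynomial.C (B j) * MvPolynomial.X 1)) =
        x • A + y • B := by
      funext j
      simp [mul_comm]
    rw [h2] at h1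
    rw [← h1, hGdef]
    rfl
  have hval' : ∀ x y : K, MvPolynomial.aeval (x • A + y • B) F =
      ∑ i : Fin (4 + 1), G.coeff (Finsupp.single 0 (4 - (i : ℕ)) + Finsupp.single 1 (i : ℕ)) *
        x ^ (4 - (i : ℕ)) * y ^ (i : ℕ) := fun x y => by rw [hval, eval_binary hG]
  obtain ⟨κ, α, β, h1, h2, h3⟩ := exists_fac (n := 4) (fun i : Fin (4 + 1) =>
      G.coeff (Finsupp.single 0 (4 - (i : ℕ)) + Finsupp.single 1 (i : ℕ))) (by
    intro h0
    obtain ⟨x, y, hxy⟩ := h
    apply hxy
    rw [hval']
    refine Finset.sum_eq_zero fun i _ => ?_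
    have := congrFun h0 i
    simp only [Pi.zero_apply] at this
    rw [this, zero_mul, zero_mul])
  exact ⟨κ, α, β, h1, h2, fun x y => by rw [hval']; exact h3 x y⟩

end Pool.Agent.QRT
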