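import Pool.Agent.QRT.NodB

/-!
# Families of planes through a given plane
-/

set_option autoImplicit false

noncomputable section

namespace Pool.Agent.QRT

open Pool.Agent.ZCyc Pool.Agent.Dess Pool.Agent.GT Pool.Agent.CUB
open Pool.Agent.VFP (Om tt)
open scoped Classical

variable {k : Type} [Field k]

/-- constant vectors over `Om k` -/
def cn {n : ℕ} (x : Fin n → k) : Fin n → Om k := fun i => algebraMap k (Om k) (x i)

/-- the plane near the plane `g 0`, `g 1`, `g 2` -/
def Gz (g : Fin 4 → Fin 4 → k) (z : Fin 7 → Om k) : Fin 3 → Fin 4 → Om k :=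
  ![cn (g 0) + z 3 • cn (g 2) + z 0 • cn (g 3), cn (g 1) + z 4 • cn (g 2) + z 1 • cn (g 3),
    cn (g 2) + z 2 • cn (g 3)]

/-- The space is not contained in a constant plane. -/
def Ncst (W : Submodule (Om k) (Fin 4 → Om k)) : Prop :=
  ¬ ∃ η : Fin 4 → k, η ≠ 0 ∧ ∀ y ∈ W, ∑ i, algebraMap k (Om k) (η i) * y i = 0

/-- pairing of a constant form with a vector in the span of constant vectors -/
private theorem pair_cn (η x : Fin 4 → k) :
    ∑ i, algebraMap k (Om k) (η i) * cn x i = algebraMap k (Om k) (∑ i, η i * x i) := by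
  rw [map_sum]
  exact Finset.sum_congr rfl fun i _ => by rw [map_mul]; rfl

private theorem pair_add (η : Fin 4 → k) (x y : Fin 4 → Om k) :
    ∑ i, algebraMap k (Om k) (η i) * (x + y) i =
      ∑ i, algebraMap k (Om k) (η i) * x i + ∑ i, algebraMap k (Om k) (η i) * y i := by
  rw [← Finset.sum_add_distrib]
  exact Finset.sum_congr rfl fun i _ => by rw [Pi.add_apply, mul_add]

private theorem pair_smul (η : Fin 4 → k) (c : Om k) (x : Fin 4 → Om k) :
    ∑ i, algebraMap k (Om k) (η i) * (c • x) i =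
      c * ∑ i, algebraMap k (Om k) (η i) * x i := by
  rw [Finset.mul_sum]
  exact Finset.sum_congr rfl fun i _ => by rw [Pi.smul_apply, smul_eq_mul]; ring

/-- If `z 0`, `z 1`, `z 2` are not all zero, and all `z i` have the value zero, then the plane is not
constant: if `η` is zero on it then `η (g 2) + z 2 η (g 3) = 0`, so `η (g 2) = 0` (the value) and
`z 2 η (g 3) = 0`, in the same way `η (g 0) = η (g 1) = 0` and `z 0 η (g 3) = z 1 η (g 3) = 0`, so
`η = 0`. -/
theorem ncst_Gz {g : Fin 4 → Fin 4 → k} (hg : LinearIndependent k g) {z : Fin 7 → Om k}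
    {v : Place k (Om k)} (hz : ∀ i, v.At (z i) 0) (h : z 0 ≠ 0 ∨ z 1 ≠ 0 ∨ z 2 ≠ 0) :
    Ncst (Submodule.span (Om k) (Set.range (Gz g z))) := by
  rintro ⟨η, hη, h1⟩
  have h2 : ∀ j, ∑ i, algebraMap k (Om k) (η i) * Gz g z j i = 0 := fun j =>
    h1 _ (Submodule.subset_span ⟨j, rfl⟩)
  set E : Fin 4 → k := fun j => ∑ i, η i * g j i with hE
  have e0 : algebraMap k (Om k) (E 0) + z 3 * algebraMap k (Om k) (E 2) +
      z 0 * algebraMap k (Om k) (E 3) = 0 := by
    have h3 := h2 0
    change ∑ i, algebraMap k (Om k) (η i) *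
      (cn (g 0) + z 3 • cn (g 2) + z 0 • cn (g 3)) i = 0 at h3
    rw [pair_add, pair_add, pair_smul, pair_smul, pair_cn, pair_cn, pair_cn] at h3
    exact h3
  have e1 : algebraMap k (Om k) (E 1) + z 4 * algebraMap k (Om k) (E 2) +
      z 1 * algebraMap k (Om k) (E 3) = 0 := by
    have h3 := h2 1
    change ∑ i, algebraMap k (Om k) (η i) *
      (cn (g 1) + z 4 • cn (g 2) + z 1 • cn (g 3)) i = 0 at h3
    rw [pair_add, pair_add, pair_smul, pair_smul, pair_cn, pair_cn, pair_cn] at h3
    exact h3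
  have e2 : algebraMap k (Om k) (E 2) + z 2 * algebraMap k (Om k) (E 3) = 0 := by
    have h3 := h2 2
    change ∑ i, algebraMap k (Om k) (η i) * (cn (g 2) + z 2 • cn (g 3)) i = 0 at h3
    rw [pair_add, pair_smul, pair_cn, pair_cn] at h3
    exact h3
  have hv0 : v.At (0 : Om k) 0 := by
    have := Place.at_const (v := v) (0 : k)
    rwa [map_zero] at this
  have E2 : E 2 = 0 := by
    have h3 := (Place.at_const (v := v) (E 2)).add ((hz 2).mul (Place.at_const (v := v) (E 3)))
    rw [e2, zero_mul, add_zero] at h3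
    exact h3.unique hv0
  have E0 : E 0 = 0 := by
    have h3 := ((Place.at_const (v := v) (E 0)).add
      ((hz 3).mul (Place.at_const (v := v) (E 2)))).add
      ((hz 0).mul (Place.at_const (v := v) (E 3)))
    rw [e0, zero_mul, zero_mul, add_zero, add_zero] at h3
    exact h3.unique hv0
  have E1 : E 1 = 0 := by
    have h3 := ((Place.at_const (v := v) (E 1)).add
      ((hz 4).mul (Place.at_const (v := v) (E 2)))).add
      ((hz 1).mul (Place.at_const (v := v) (E 3)))
    rw [e1, zero_mul, zero_mul, add_zero, add_zero] at h3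
    exact h3.unique hv0
  have E3 : E 3 = 0 := by
    rw [E2, map_zero, zero_add] at e2
    rw [E0, E2, map_zero, mul_zero, add_zero, zero_add] at e0
    rw [E1, E2, map_zero, mul_zero, add_zero, zero_add] at e1
    have key : ∀ c : Om k, c ≠ 0 → c * algebraMap k (Om k) (E 3) = 0 → E 3 = 0 := by
      intro c hc hc'
      exact (map_eq_zero (algebraMap k (Om k))).1 ((mul_eq_zero.1 hc').resolve_left hc)
    rcases h with h | h | h
    · exact key _ h e0
    · exact key _ h e1
    · exact key _ h e2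
  apply hη
  have hu : IsUnit (Matrix.of g) := Matrix.linearIndependent_rows_iff_isUnit.1 hg
  have hd : (Matrix.of g).det ≠ 0 := ((Matrix.isUnit_iff_isUnit_det _).1 hu).ne_zero
  refine Matrix.eq_zero_of_mulVec_eq_zero hd ?_
  funext j
  have h3 : (Matrix.of g).mulVec η j = E j := by
    rw [hE]
    change ∑ i, g j i * η i = ∑ i, η i * g j i
    exact Finset.sum_congr rfl fun i _ => mul_comm _ _
  rw [h3, Pi.zero_apply]
  fin_cases j
  · exact E0
  · exact E1
  · exact E2
  · exact E3

/-- the six equations for the coefficients `f`, `Q = s² + A s t + B t²` -/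
private def eqs {R : Type} [CommRing R] (f : ℕ → ℕ → R) (A B : R) : Fin 6 → R :=
  ![f 3 1 - 2 * A * f 4 0, f 2 2 - (A ^ 2 + 2 * B) * f 4 0, f 1 3 - 2 * A * B * f 4 0,
    f 0 4 - B ^ 2 * f 4 0, f 1 2 - (A * (f 2 1 - A * f 3 0) + B * f 3 0),
    f 0 3 - B * (f 2 1 - A * f 3 0)]

private theorem eqs_map {R R' : Type} [CommRing R] [CommRing R'] (φ : R →+* R')
    (f : ℕ → ℕ → R) (A B : R) (i : Fin 6) :
    φ (eqs f A B i) = eqs (fun a b => φ (f a b)) (φ A) (φ B) i := by
  have h2 : φ 2 = 2 := map_ofNat φ 2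
  fin_cases i <;> simp [eqs, h2]

private theorem nod_of_eqs {K : Type} [Field K] [Algebra k K] {F : MvPolynomial (Fin 4) k}
    (hF : F.IsHomogeneous 4) {G : Fin 3 → Fin 4 → K} {A B : K}
    (h : ∀ i, eqs (cc F G) A B i = 0) : NodQ F G ![1, A, B] := by
  have h0 : cc F G 3 1 - 2 * A * cc F G 4 0 = 0 := h 0
  have h1 : cc F G 2 2 - (A ^ 2 + 2 * B) * cc F G 4 0 = 0 := h 1
  have h2 : cc F G 1 3 - 2 * A * B * cc F G 4 0 = 0 := h 2
  have h3 : cc F G 0 4 - B ^ 2 * cc F G 4 0 = 0 := h 3
  have h4 : cc F G 1 2 - (A * (cc F G 2 1 - A * cc F G 3 0) + B * cc F G 3 0) = 0 := h 4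
  have h5 : cc F G 0 3 - B * (cc F G 2 1 - A * cc F G 3 0) = 0 := h 5
  refine ⟨cc F G 4 0, ![cc F G 3 0, cc F G 2 1 - A * cc F G 3 0],
    ![cc F G 2 0, cc F G 1 1, cc F G 0 2, cc F G 1 0, cc F G 0 1, cc F G 0 0], ?_⟩
  intro s t u
  change MvPolynomial.aeval (s • G 0 + t • G 1 + u • G 2) F = _
  rw [cc_q4 hF]
  have e : q4 (cc F G) s t u = cc F G 0 0 * u ^ 4 + cc F G 0 1 * t * u ^ 3 +
      cc F G 0 2 * t ^ 2 * u ^ 2 + cc F G 0 3 * t ^ 3 * u + cc F G 0 4 * t ^ 4 +
      cc F G 1 0 * s * u ^ 3 + cc F G 1 1 * s * t * u ^ 2 + cc F G 1 2 * s * t ^ 2 * u +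
      cc F G 1 3 * s * t ^ 3 + cc F G 2 0 * s ^ 2 * u ^ 2 + cc F G 2 1 * s ^ 2 * t * u +
      cc F G 2 2 * s ^ 2 * t ^ 2 + cc F G 3 0 * s ^ 3 * u + cc F G 3 1 * s ^ 3 * t +
      cc F G 4 0 * s ^ 4 := by
    simp only [q4, Finset.sum_range_succ, Finset.sum_range_zero]
    norm_num
    ring
  rw [e]
  simp only [Matrix.cons_val]
  linear_combination s ^ 3 * t * h0 + s ^ 2 * t ^ 2 * h1 + s * t ^ 3 * h2 + t ^ 4 * h3 +
    s * t ^ 2 * u * h4 + t ^ 3 * u * h5

private theorem eqs_of_nod {K : Type} [Field K] [Infinite K] [Algebra k K]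
    {F : MvPolynomial (Fin 4) k} (hF : F.IsHomogeneous 4) {G : Fin 3 → Fin 4 → K} {A B : K}
    (h : NodQ F G ![1, A, B]) (i : Fin 6) : eqs (cc F G) A B i = 0 := by
  obtain ⟨c, l, m, h⟩ := h
  have h' : ∀ s t u : K, q4 (cc F G) s t u = q4 (fun i j => match i, j with
      | 4, 0 => c | 3, 1 => 2 * A * c | 2, 2 => (A ^ 2 + 2 * B) * c | 1, 3 => 2 * A * B * c
      | 0, 4 => B ^ 2 * c | 3, 0 => l 0 | 2, 1 => l 1 + A * l 0 | 1, 2 => A * l 1 + B * l 0
      | 0, 3 => B * l 1 | 2, 0 => m 0 | 1, 1 => m 1 | 0, 2 => m 2 | 1, 0 => m 3 | 0, 1 => m 4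
      | 0, 0 => m 5 | _, _ => 0) s t u := by
    intro s t u
    rw [← cc_q4 hF]
    refine (h s t u).trans ?_
    simp only [q4, Finset.sum_range_succ, Finset.sum_range_zero, Matrix.cons_val]
    norm_num
    ring
  have f40 : cc F G 4 0 = c := q4_inj h' (by norm_num)
  have f31 : cc F G 3 1 = 2 * A * c := q4_inj h' (by norm_num)
  have f22 : cc F G 2 2 = (A ^ 2 + 2 * B) * c := q4_inj h' (by norm_num)
  have f13 : cc F G 1 3 = 2 * A * B * c := q4_inj h' (by norm_num)
  have f04 : cc F G 0 4 = B ^ 2 * c := q4_inj h' (by norm_num)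
  have f30 : cc F G 3 0 = l 0 := q4_inj h' (by norm_num)
  have f21 : cc F G 2 1 = l 1 + A * l 0 := q4_inj h' (by norm_num)
  have f12 : cc F G 1 2 = A * l 1 + B * l 0 := q4_inj h' (by norm_num)
  have f03 : cc F G 0 3 = B * l 1 := q4_inj h' (by norm_num)
  fin_cases i
  · change cc F G 3 1 - 2 * A * cc F G 4 0 = 0
    rw [f31, f40]; ring
  · change cc F G 2 2 - (A ^ 2 + 2 * B) * cc F G 4 0 = 0
    rw [f22, f40]; ring
  · change cc F G 1 3 - 2 * A * B * cc F G 4 0 = 0
    rw [f13, f40]; ring
  · change cc F G 0 4 - B ^ 2 * cc F G 4 0 = 0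
    rw [f04, f40]; ring
  · change cc F G 1 2 - (A * (cc F G 2 1 - A * cc F G 3 0) + B * cc F G 3 0) = 0
    rw [f12, f21, f30]; ring
  · change cc F G 0 3 - B * (cc F G 2 1 - A * cc F G 3 0) = 0
    rw [f03, f21, f30]; ring

/-- the generic plane -/
private def GR (g : Fin 4 → Fin 4 → k) : Fin 3 → Fin 4 → MvPolynomial (Fin 7) k :=
  ![fun i => MvPolynomial.C (g 0 i) + MvPolynomial.X 3 * MvPolynomial.C (g 2 i) +
      MvPolynomial.X 0 * MvPolynomial.C (g 3 i),
    fun i => MvPolynomial.C (g 1 i) + MvPolynomial.X 4 * MvPolynomial.C (g 2 i) +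
      MvPolynomial.X 1 * MvPolynomial.C (g 3 i),
    fun i => MvPolynomial.C (g 2 i) + MvPolynomial.X 2 * MvPolynomial.C (g 3 i)]

private theorem GR_om (g : Fin 4 → Fin 4 → k) (z : Fin 7 → Om k) :
    (fun a b => MvPolynomial.aeval z (GR g a b)) = Gz g z := by
  funext a b
  fin_cases a <;> simp [GR, Gz, cn]

private theorem GR_zero (g : Fin 4 → Fin 4 → k) :
    (fun a b => MvPolynomial.aeval (0 : Fin 7 → k) (GR g a b)) = ![g 0, g 1, g 2] := by
  funext a b
  fin_cases a <;> simp [GR]

variable [IsAlgClosed k] [CharZero k]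

/-- Seven unknowns, six equations. Let `G = Gz g z`, `Q = s² + A s t + B t²`, `A = a + z 5`,
`B = b + z 6`, and `f i j = cc F G i j`, polynomials in `z` (`cc` over the ring
`MvPolynomial (Fin 7) k`, `cc_map`). The equations (`c = f 4 0`, `l = f 3 0`,
`l' = f 2 1 - A f 3 0`): `f 3 1 = 2 A c`, `f 2 2 = (A² + 2 B) c`, `f 1 3 = 2 A B c`, `f 0 4 = B² c`,
`f 1 2 = A l' + B l`, `f 0 3 = B l'`. They say exactly that `NodQ F G ![1, A, B]` (`cc_q4`, `q4_inj`).
They hold at the origin. `curve_sel`. -/
theorem exists_z {F : MvPolynomial (Fin 4) k} (hF : F.IsHomogeneous 4)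
    {g : Fin 4 → Fin 4 → k} {a b : k} (h : NodQ F ![g 0, g 1, g 2] ![1, a, b]) :
    ∃ (z : Fin 7 → Om k) (v : Place k (Om k)), z ≠ 0 ∧ (∀ i, v.At (z i) 0) ∧
      NodQ F (Gz g z) ![1, algebraMap k (Om k) a + z 5, algebraMap k (Om k) b + z 6] := by
  have key : ∀ {K : Type} [Field K] [Algebra k K] (x : Fin 7 → K) (i : Fin 6),
      MvPolynomial.aeval x (eqs (cc F (GR g)) (MvPolynomial.C a + MvPolynomial.X 5)
        (MvPolynomial.C b + MvPolynomial.X 6) i) =
      eqs (cc F (fun a b => MvPolynomial.aeval x (GR g a b))) (algebraMap k K a + x 5)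
        (algebraMap k K b + x 6) i := by
    intro K _ _ x i
    have h1 := eqs_map ((MvPolynomial.aeval x : MvPolynomial (Fin 7) k →ₐ[k] K) :
      MvPolynomial (Fin 7) k →+* K) (cc F (GR g)) (MvPolynomial.C a + MvPolynomial.X 5)
        (MvPolynomial.C b + MvPolynomial.X 6) i
    refine h1.trans ?_
    congr 1
    · funext i j
      exact cc_map (MvPolynomial.aeval x) F (GR g) i j
    · simp
    · simp
  obtain ⟨z, v, hz, hv, h1⟩ := curve_sel (k := k) (ι := Fin 7) (κ := Fin 6) (by simp)
    (eqs (cc F (GR g)) (MvPolynomial.C a + MvPolynomial.X 5)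
      (MvPolynomial.C b + MvPolynomial.X 6)) (by
      intro i
      have h2 := key (0 : Fin 7 → k) i
      rw [GR_zero] at h2
      have h3 : eqs (cc F ![g 0, g 1, g 2]) (algebraMap k k a + (0 : Fin 7 → k) 5)
          (algebraMap k k b + (0 : Fin 7 → k) 6) i = 0 := by
        have : Infinite k := CharZero.infinite k
        refine eqs_of_nod hF ?_ i
        simpa using h
      rw [h3] at h2
      rw [← MvPolynomial.coe_aeval_eq_eval]
      exact h2)
  refine ⟨z, v, hz, hv, ?_⟩
  refine nod_of_eqs hF fun i => ?_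
  have h2 := key z i
  rw [GR_om, h1 i] at h2
  exact h2.symm

omit [CharZero k] in
private theorem cone_trans {x : Om k} (h : ∀ c : k, x ≠ algebraMap k (Om k) c) :
    Transcendental k x := by
  intro hx
  have h1 := IsAlgClosed.degree_eq_one_of_irreducible k (minpoly.irreducible hx.isIntegral)
  obtain ⟨c, hc⟩ := minpoly.mem_range_of_degree_eq_one k x h1
  exact h c hc.symm

omit [IsAlgClosed k] [CharZero k] in
private theorem cone_const {v : Place k (Om k)} {x : Om k} {c : k} (h : x = algebraMap k (Om k) c)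
    (hv : v.At x 0) : x = 0 := by
  rw [h] at hv ⊢
  rw [(Place.at_const (v := v) c).unique hv, map_zero]

omit [IsAlgClosed k] [CharZero k] in
/-- coordinate functionals of a basis -/
private theorem cone_coord {g : Fin 4 → Fin 4 → k} (hg : LinearIndependent k g) :
    ∃ N : Fin 4 → Fin 4 → k, (∀ j l, ∑ i, N j i * g l i = if j = l then 1 else 0) ∧
      ∀ i i', ∑ j, g j i * N j i' = if i = i' then 1 else 0 := by
  set M : Matrix (Fin 4) (Fin 4) k := Matrix.of g with hM
  have hu : IsUnit M := by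
    rw [← Matrix.linearIndependent_rows_iff_isUnit]
    exact hg
  have hd : IsUnit M.det := (Matrix.isUnit_iff_isUnit_det M).1 hu
  have h1 : M * M⁻¹ = 1 := Matrix.mul_nonsing_inv M hd
  have h2 : M⁻¹ * M = 1 := Matrix.nonsing_inv_mul M hd
  refine ⟨fun j i => M⁻¹ i j, fun j l => ?_, fun i i' => ?_⟩
  · have h := congrFun (congrFun h1 l) j
    rw [Matrix.mul_apply, Matrix.one_apply] at h
    simp only [eq_comm (a := j)]
    rw [← h]
    exact Finset.sum_congr rfl fun i _ => mul_comm _ _
  · have h := congrFun (congrFun h2 i') i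
    rw [Matrix.mul_apply, Matrix.one_apply] at h
    simp only [eq_comm (a := i)]
    rw [← h]
    exact Finset.sum_congr rfl fun j _ => mul_comm _ _

omit [IsAlgClosed k] [CharZero k] in
/-- the double point of a plane section: the differential at a zero of `Q` is zero on the plane -/
private theorem cone_df {F : MvPolynomial (Fin 4) k} {G : Fin 3 → Fin 4 → Om k} {A B ρ : Om k}
    (hN : NodQ F G ![1, A, B]) (hρ : ρ ^ 2 + A * ρ + B = 0) (w : Fin 3 → Om k) :
    df F (ρ • G 0 + G 1) (w 0 • G 0 + w 1 • G 1 + w 2 • G 2) = 0 := by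
  obtain ⟨c, l, m, h⟩ := hN
  obtain ⟨p, hp⟩ := df_line F (ρ • G 0 + G 1) (w 0 • G 0 + w 1 • G 1 + w 2 • G 2)
  set D := df F (ρ • G 0 + G 1) (w 0 • G 0 + w 1 • G 1 + w 2 • G 2) with hD
  set k0 : Om k := 2 * ρ * w 0 + A * (ρ * w 1 + w 0) + 2 * B * w 1 with hk0
  set k1 : Om k := w 0 ^ 2 + A * w 0 * w 1 + B * w 1 ^ 2 with hk1
  -- the value as a function of the parameter
  have key : ∀ s : Om k, MvPolynomial.aeval ((ρ • G 0 + G 1) +
      s • (w 0 • G 0 + w 1 • G 1 + w 2 • G 2)) F =
      s ^ 2 * (c * (k0 + s * k1) ^ 2 + w 2 * (k0 + s * k1) * (l 0 * (ρ + s * w 0) +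
        l 1 * (1 + s * w 1)) + w 2 ^ 2 * (m 0 * (ρ + s * w 0) ^ 2 +
        m 1 * (ρ + s * w 0) * (1 + s * w 1) + m 2 * (1 + s * w 1) ^ 2 +
        m 3 * (ρ + s * w 0) * (s * w 2) + m 4 * (1 + s * w 1) * (s * w 2) +
        m 5 * (s * w 2) ^ 2)) := by
    intro s
    have h1 : (ρ • G 0 + G 1) + s • (w 0 • G 0 + w 1 • G 1 + w 2 • G 2) =
        (ρ + s * w 0) • G 0 + (1 + s * w 1) • G 1 + (s * w 2) • G 2 := by
      funext i
      simp only [Pi.add_apply, Pi.smul_apply, smul_eq_mul]
      ring
    rw [h1]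
    have h2 := h (ρ + s * w 0) (1 + s * w 1) (s * w 2)
    simp only [Matrix.cons_val_zero, Matrix.cons_val_one, Matrix.cons_val] at h2
    rw [h2]
    have h3 : (1 : Om k) * (ρ + s * w 0) ^ 2 + A * (ρ + s * w 0) * (1 + s * w 1) +
        B * (1 + s * w 1) ^ 2 = s * (k0 + s * k1) := by
      rw [hk0, hk1]
      linear_combination hρ
    rw [h3]
    ring
  have h0 : MvPolynomial.aeval (ρ • G 0 + G 1) F = 0 := by
    have h1 := key 0
    rw [zero_smul, add_zero] at h1
    rw [h1]
    ring
  -- comparison of polynomials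
  let T : Polynomial (Om k) := Polynomial.C D + Polynomial.X * p - Polynomial.X *
    (Polynomial.C c * (Polynomial.C k0 + Polynomial.X * Polynomial.C k1) ^ 2 +
      Polynomial.C (w 2) * (Polynomial.C k0 + Polynomial.X * Polynomial.C k1) *
        (Polynomial.C (l 0) * (Polynomial.C ρ + Polynomial.X * Polynomial.C (w 0)) +
          Polynomial.C (l 1) * (1 + Polynomial.X * Polynomial.C (w 1))) +
      Polynomial.C (w 2) ^ 2 * (Polynomial.C (m 0) *
          (Polynomial.C ρ + Polynomial.X * Polynomial.C (w 0)) ^ 2 +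
        Polynomial.C (m 1) * (Polynomial.C ρ + Polynomial.X * Polynomial.C (w 0)) *
          (1 + Polynomial.X * Polynomial.C (w 1)) +
        Polynomial.C (m 2) * (1 + Polynomial.X * Polynomial.C (w 1)) ^ 2 +
        Polynomial.C (m 3) * (Polynomial.C ρ + Polynomial.X * Polynomial.C (w 0)) *
          (Polynomial.X * Polynomial.C (w 2)) +
        Polynomial.C (m 4) * (1 + Polynomial.X * Polynomial.C (w 1)) *
          (Polynomial.X * Polynomial.C (w 2)) +
        Polynomial.C (m 5) * (Polynomial.X * Polynomial.C (w 2)) ^ 2))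
  have hT : ∀ s : Om k, s ≠ 0 → T.eval s = 0 := by
    intro s hs
    have h1 := hp s
    rw [key s, h0, zero_add] at h1
    refine mul_left_cancel₀ hs ?_
    simp only [T, Polynomial.eval_add, Polynomial.eval_sub, Polynomial.eval_mul,
      Polynomial.eval_pow, Polynomial.eval_C, Polynomial.eval_X, Polynomial.eval_one]
    linear_combination -h1
  have hT0 : T = 0 := by
    refine Polynomial.eq_zero_of_infinite_isRoot T ?_
    refine Set.Infinite.mono (s := {0}ᶜ) (fun s hs => hT s hs) ?_
    exact (Set.finite_singleton 0).infinite_compl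
  have h2 := congrArg (Polynomial.eval 0) hT0
  simpa [T] using h2

/-- If the plane does not move then its section is a cone. Let `z 0 = z 1 = z 2 = 0`. Let `ρ` be a root of
`Q(ρ, 1) = 0` in `Om k` and `P = ρ G 0 + G 1`, a point with zero differential on the plane (`NodQ`); in the
basis `g`: `P = ρ g 0 + g 1 + (ρ z 3 + z 4) g 2`. By `gauss` (`η` = the equation of the plane) `P` is
constant, so `ρ` and `ρ z 3 + z 4` are constant, `ρ z 3 + z 4 = 0` (its value). If there are two different
roots `ρ` then `z 3 = z 4 = 0`, and `Q` is constant, `z 5 = z 6 = 0`, contradiction. So there is one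
root `ρ` in `k`, `Q = (s - ρ t)²`, constant, `z 5 = z 6 = 0`, `z 4 = - ρ z 3`, `z 3 ≠ 0` is not constant. Let
`σ = s - ρ t` and `φ(σ, t, u) = F (s g 0 + t g 1 + u g 2)`, a form over `k`. Then
`s G 0 + t G 1 + (u - z 3 σ) g 2 = s g 0 + t g 1 + u g 2`, so
`φ = c σ⁴ + (u - z 3 σ) σ² L + (u - z 3 σ)² M`. Compare the coefficients of the powers of `t`: the
coefficients of `t⁴` and `t³` are zero, the coefficient of `t²` is `m (u - z 3 σ)²`, a binary
form over `k` in `σ`, `u`, so it is zero (a nonzero form over `k` is not divisible by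
`u - z 3 σ`), the coefficient of `t` is divisible by `u - z 3 σ`, so it is zero. -/
theorem cone_of_z {F : MvPolynomial (Fin 4) k} (hF : Sm F) {g : Fin 4 → Fin 4 → k}
    (hg : LinearIndependent k g) {a b : k} {z : Fin 7 → Om k} {v : Place k (Om k)} (hz : z ≠ 0)
    (hv : ∀ i, v.At (z i) 0) (h : z 0 = 0 ∧ z 1 = 0 ∧ z 2 = 0)
    (hN : NodQ F (Gz g z) ![1, algebraMap k (Om k) a + z 5, algebraMap k (Om k) b + z 6]) :
    ∃ ρ : k, ∀ s t u : k, MvPolynomial.aeval (s • g 0 + t • g 1 + u • g 2) F =
      MvPolynomial.aeval ((s - ρ * t) • g 0 + u • g 2) F := by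
  obtain ⟨hz0, hz1, hz2⟩ := h
  obtain ⟨N, hN1, hN2⟩ := cone_coord hg
  set A : Om k := algebraMap k (Om k) a + z 5 with hA
  set B : Om k := algebraMap k (Om k) b + z 6 with hB
  have hG0 : Gz g z 0 = cn (g 0) + z 3 • cn (g 2) := by
    simp [Gz, hz0]
  have hG1 : Gz g z 1 = cn (g 1) + z 4 • cn (g 2) := by
    simp [Gz, hz1]
  have hG2 : Gz g z 2 = cn (g 2) := by
    simp [Gz, hz2]
  -- coordinates of a combination of the `g j`
  have hco : ∀ (j : Fin 4) (x : Fin 4 → Om k), ∑ i, algebraMap k (Om k) (N j i) *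
      (∑ l, x l • cn (g l)) i = x j := by
    intro j x
    have h1 : ∀ i, algebraMap k (Om k) (N j i) * (∑ l, x l • cn (g l)) i =
        ∑ l, x l * algebraMap k (Om k) (N j i * g l i) := by
      intro i
      rw [Finset.sum_apply, Finset.mul_sum]
      refine Finset.sum_congr rfl fun l _ => ?_
      rw [Pi.smul_apply, smul_eq_mul, map_mul]
      unfold cn
      ring
    simp_rw [h1]
    rw [Finset.sum_comm]
    simp_rw [← Finset.mul_sum, ← map_sum, hN1]
    simp
  -- a root of `Q` is constant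
  have hroot : ∀ ρ : Om k, ρ ^ 2 + A * ρ + B = 0 →
      (∃ r : k, ρ = algebraMap k (Om k) r) ∧ ρ * z 3 + z 4 = 0 := by
    intro ρ hρ
    have hP : ρ • Gz g z 0 + Gz g z 1 =
        ∑ l, (![ρ, 1, ρ * z 3 + z 4, 0] : Fin 4 → Om k) l • cn (g l) := by
      rw [hG0, hG1, Fin.sum_univ_four]
      funext i
      simp only [Pi.add_apply, Pi.smul_apply, smul_eq_mul, Matrix.cons_val_zero,
        Matrix.cons_val_one, Matrix.cons_val]
      ring
    have hP0 : ρ • Gz g z 0 + Gz g z 1 ≠ 0 := by
      intro h0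
      have h1 := hco 1 ![ρ, 1, ρ * z 3 + z 4, 0]
      rw [← hP, h0] at h1
      simp at h1
    have hη : (fun i => N 3 i) ≠ 0 := by
      intro h0
      have h1 := hN1 3 3
      simp only [show ∀ i, N 3 i = 0 from fun i => congrFun h0 i] at h1
      simp at h1
    obtain ⟨c, a', hc, hca⟩ := gauss hF hP0 hη (fun W hW => by
      -- `W` is in the plane
      set w : Fin 4 → Om k := fun j => ∑ i, algebraMap k (Om k) (N j i) * W i with hw
      have hW1 : W = ∑ l, w l • cn (g l) := by
        funext i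
        rw [Finset.sum_apply]
        simp only [Pi.smul_apply, smul_eq_mul, hw, Finset.sum_mul]
        rw [Finset.sum_comm]
        have h1 : ∀ i', ∑ l, algebraMap k (Om k) (N l i') * W i' * cn (g l) i =
            W i' * algebraMap k (Om k) (∑ l, g l i * N l i') := by
          intro i'
          rw [map_sum, Finset.mul_sum]
          refine Finset.sum_congr rfl fun l _ => ?_
          rw [map_mul]
          unfold cn
          ring
        simp_rw [h1, hN2]
        simp
      have hW2 : W = (w 0) • Gz g z 0 + (w 1) • Gz g z 1 +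
          (w 2 - w 0 * z 3 - w 1 * z 4) • Gz g z 2 := by
        conv_lhs => rw [hW1]
        have h3 : w 3 = 0 := hW
        rw [hG0, hG1, hG2, Fin.sum_univ_four, h3]
        funext i
        simp only [Pi.add_apply, Pi.smul_apply, smul_eq_mul]
        ring
      have h4 := cone_df hN hρ ![w 0, w 1, w 2 - w 0 * z 3 - w 1 * z 4]
      simp only [Matrix.cons_val_zero, Matrix.cons_val_one, Matrix.cons_val] at h4
      rw [← hW2] at h4
      exact h4)
    have hcc : ∀ j, c * (![ρ, 1, ρ * z 3 + z 4, 0] : Fin 4 → Om k) j =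
        algebraMap k (Om k) (∑ i, N j i * a' i) := by
      intro j
      rw [← hco j ![ρ, 1, ρ * z 3 + z 4, 0], ← hP, Finset.mul_sum, map_sum]
      refine Finset.sum_congr rfl fun i _ => ?_
      rw [map_mul, ← hca i]
      ring
    have hc1 : c = algebraMap k (Om k) (∑ i, N 1 i * a' i) := by
      have := hcc 1
      simpa using this
    have hc0 : (∑ i, N 1 i * a' i) ≠ 0 := by
      intro h0
      rw [h0, map_zero] at hc1
      exact hc hc1
    have hdiv : ∀ (x : Om k) (y : k), c * x = algebraMap k (Om k) y →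
        x = algebraMap k (Om k) (y / ∑ i, N 1 i * a' i) := by
      intro x y hxy
      rw [map_div₀, ← hc1, ← hxy]
      field_simp
    have h3 := hdiv ρ _ (hcc 0)
    have h2 := hdiv (ρ * z 3 + z 4) _ (hcc 2)
    refine ⟨⟨_, h3⟩, ?_⟩
    refine cone_const (v := v) h2 ?_
    have h4 := ((Place.at_const (v := v) ((∑ i, N 0 i * a' i) / ∑ i, N 1 i * a' i)).mul
      (hv 3)).add (hv 4)
    rw [mul_zero, add_zero, ← h3] at h4
    exact h4
  -- the roots
  obtain ⟨δ, hδ⟩ := IsAlgClosed.exists_pow_nat_eq (A ^ 2 - 4 * B) (n := 2) (by norm_num)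
  have hr1 := hroot ((-A + δ) / 2) (by linear_combination hδ / 4)
  have hr2 := hroot ((-A - δ) / 2) (by linear_combination hδ / 4)
  obtain ⟨⟨r, hr⟩, hrz⟩ := hr1
  obtain ⟨⟨r', hr'⟩, hrz'⟩ := hr2
  have hz5 : z 5 = 0 := by
    have h1 : z 5 = algebraMap k (Om k) (-(r + r') - a) := by
      rw [map_sub, map_neg, map_add, ← hr, ← hr']
      rw [hA]
      ring
    exact cone_const h1 (hv 5)
  have hz6 : z 6 = 0 := by
    have h1 : z 6 = algebraMap k (Om k) (r * r' - b) := by
      rw [map_sub, map_mul, ← hr, ← hr']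
      have : z 6 = B - algebraMap k (Om k) b := by rw [hB]; ring
      rw [this]
      linear_combination hδ / 4
    exact cone_const h1 (hv 6)
  have hz3 : z 3 ≠ 0 := by
    intro h3
    apply hz
    have h4 : z 4 = 0 := by
      rw [h3, mul_zero, zero_add] at hrz
      exact hrz
    funext i
    fin_cases i
    · exact hz0
    · exact hz1
    · exact hz2
    · exact h3
    · exact h4
    · exact hz5
    · exact hz6
  have hδ0 : δ = 0 := by
    have h1 : δ * z 3 = 0 := by linear_combination hrz - hrz'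
    exact (mul_eq_zero.1 h1).resolve_right hz3
  have hAr : A = -2 * algebraMap k (Om k) r := by
    rw [← hr, hδ0]
    ring
  have hBr : B = algebraMap k (Om k) r ^ 2 := by
    rw [← hr, hδ0]
    rw [hδ0] at hδ
    linear_combination hδ / 4
  have hz4 : z 4 = -(algebraMap k (Om k) r * z 3) := by
    rw [← hr]
    linear_combination hrz
  have hz3c : ∀ c : k, z 3 ≠ algebraMap k (Om k) c := fun c hc => hz3 (cone_const hc (hv 3))
  refine ⟨r, ?_⟩
  obtain ⟨c, l, m, hN'⟩ := hN
  -- the value over `Om k`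
  have hval : ∀ σ t : k, MvPolynomial.aeval (fun i => algebraMap k (Om k)
      (((σ + r * t) • g 0 + t • g 1) i) + z 3 * algebraMap k (Om k) (σ * g 2 i)) F =
      c * algebraMap k (Om k) σ ^ 4 := by
    intro σ t
    have h1 := hN' (algebraMap k (Om k) (σ + r * t)) (algebraMap k (Om k) t) 0
    simp only [Matrix.cons_val_zero, Matrix.cons_val_one, Matrix.cons_val] at h1
    have h2 : (fun i => algebraMap k (Om k) (((σ + r * t) • g 0 + t • g 1) i) +
        z 3 * algebraMap k (Om k) (σ * g 2 i)) = algebraMap k (Om k) (σ + r * t) • Gz g z 0 +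
          algebraMap k (Om k) t • Gz g z 1 + (0 : Om k) • Gz g z 2 := by
      rw [hG0, hG1, hG2, hz4]
      funext i
      simp only [Pi.add_apply, Pi.smul_apply, smul_eq_mul, map_add, map_mul, cn]
      ring
    rw [h2, h1, hAr, hBr, map_add, map_mul]
    ring
  -- polynomials over `k`
  have hpol : ∀ σ t u : k, σ ≠ 0 → MvPolynomial.aeval ((σ + r * t) • g 0 + t • g 1 + u • g 2) F =
      MvPolynomial.aeval (σ • g 0 + u • g 2) F := by
    intro σ t u hσ
    let q : k → Polynomial k := fun t => MvPolynomial.aeval (fun i =>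
      Polynomial.C (((σ + r * t) • g 0 + t • g 1) i) +
        Polynomial.X * Polynomial.C (σ * g 2 i)) F
    have hq1 : ∀ t, Polynomial.aeval (z 3) (q t) = c * algebraMap k (Om k) σ ^ 4 := by
      intro t
      rw [← hval σ t]
      simp only [q]
      rw [← AlgHom.comp_apply, MvPolynomial.comp_aeval]
      congr 2
      funext i
      simp
    have hq2 : ∀ t x : k, Polynomial.eval x (q t) =
        MvPolynomial.aeval ((σ + r * t) • g 0 + t • g 1 + (σ * x) • g 2) F := by
      intro t x
      rw [← Polynomial.coe_aeval_eq_eval]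
      simp only [q]
      rw [← AlgHom.comp_apply, MvPolynomial.comp_aeval]
      congr 2
      funext i
      simp
      ring
    have hq3 : q t = q 0 := by
      have h1 : Polynomial.aeval (z 3) (q t - q 0) = 0 := by
        rw [map_sub, hq1, hq1, sub_self]
      by_contra hne
      exact cone_trans hz3c ⟨q t - q 0, sub_ne_zero.2 hne, h1⟩
    have h4 := hq2 t (u / σ)
    have h5 := hq2 0 (u / σ)
    rw [← hq3, h4] at h5
    rw [mul_div_cancel₀ u hσ] at h5
    rw [h5]
    congr 2
    funext i
    simp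
  -- all `s`
  intro s t u
  let q' : Polynomial k := MvPolynomial.aeval (fun i =>
      Polynomial.C ((t * r) * g 0 i + t * g 1 i + u * g 2 i) + Polynomial.X * Polynomial.C (g 0 i)) F -
    MvPolynomial.aeval (fun i => Polynomial.C (u * g 2 i) + Polynomial.X * Polynomial.C (g 0 i)) F
  have hq' : ∀ σ : k, Polynomial.eval σ q' =
      MvPolynomial.aeval ((σ + r * t) • g 0 + t • g 1 + u • g 2) F -
        MvPolynomial.aeval (σ • g 0 + u • g 2) F := by
    intro σ
    rw [← Polynomial.coe_aeval_eq_eval]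
    simp only [q']
    rw [map_sub, ← AlgHom.comp_apply, MvPolynomial.comp_aeval, ← AlgHom.comp_apply,
      MvPolynomial.comp_aeval]
    congr 3
    · funext i
      simp
      ring
    · funext i
      simp
      ring
  have hq0 : q' = 0 := by
    refine Polynomial.eq_zero_of_infinite_isRoot q' ?_
    refine Set.Infinite.mono (s := {0}ᶜ) (fun σ hσ => ?_) ?_
    · change Polynomial.eval σ q' = 0
      rw [hq', hpol σ t u hσ, sub_self]
    · exact (Set.finite_singleton 0).infinite_compl
  have h1 := hq' (s - r * t)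
  rw [hq0, Polynomial.eval_zero, sub_add_cancel] at h1
  exact (sub_eq_zero.1 h1.symm)

omit [IsAlgClosed k] [CharZero k] in
private theorem lf_unique0 {v : Place k (Om k)} {c : k} (h : v.At (0 : Om k) c) : c = 0 := by
  have h1 := Place.at_const (v := v) (0 : k)
  rw [map_zero] at h1
  exact Place.At.unique h h1

private theorem lf_q4_split {K : Type} [Field K] (c : ℕ → ℕ → K) (s t u : K) :
    q4 c s t u = q4 c s t 0 +
      u * (c 3 0 * s ^ 3 + c 2 1 * s ^ 2 * t + c 1 2 * s * t ^ 2 + c 0 3 * t ^ 3) +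
      u ^ 2 * (c 2 0 * s ^ 2 + c 1 1 * s * t + c 0 2 * t ^ 2 + c 1 0 * s * u + c 0 1 * t * u +
        c 0 0 * u ^ 2) := by
  simp only [q4, Finset.sum_range_succ, Finset.sum_range_zero]
  norm_num
  ring

private theorem lf_q4_z0 {K : Type} [Field K] (c : ℕ → ℕ → K) (s t : K) :
    q4 c s t 0 = c 4 0 * s ^ 4 + c 3 1 * s ^ 3 * t + c 2 2 * s ^ 2 * t ^ 2 + c 1 3 * s * t ^ 3 +
      c 0 4 * t ^ 4 := by
  simp only [q4, Finset.sum_range_succ, Finset.sum_range_zero]
  norm_num
  ring

omit [IsAlgClosed k] in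
/-- a form which is zero on a constant line -/
private theorem lf_zero_line {F : MvPolynomial (Fin 4) k} (hF : F.IsHomogeneous 4)
    {A B C : Fin 4 → k} (h : ∀ s t : k, MvPolynomial.aeval (s • A + t • B) F = 0)
    (s t : Om k) : MvPolynomial.aeval (s • cn A + t • cn B) F = 0 := by
  have h1 : ∀ i j, i + j = 4 → cc F ![A, B, C] i j = 0 := by
    intro i j hij
    have h2 := q4_inj (K := k)
      (c := fun i j => if i + j = 4 then cc F ![A, B, C] i j else 0) (c' := fun _ _ => 0)
      (i := i) (j := j) ?_ hij.le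
    · simpa [hij] using h2
    · intro s t u
      have h3 := cc_q4 hF ![A, B, C] s t 0
      simp only [Matrix.cons_val_zero, Matrix.cons_val_one, Matrix.cons_val, zero_smul,
        add_zero] at h3
      rw [h, lf_q4_z0] at h3
      simp only [q4, Finset.sum_range_succ, Finset.sum_range_zero]
      norm_num
      linear_combination -h3
  have h2 : ∀ i j, i + j = 4 → cc F (fun a b => algebraMap k (Om k) (![A, B, C] a b)) i j = 0 := by
    intro i j hij
    have h3 := cc_map (Algebra.ofId k (Om k)) F ![A, B, C] i j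
    rw [h1 i j hij, map_zero] at h3
    exact h3.symm
  have h3 := cc_q4 hF (fun a b => algebraMap k (Om k) (![A, B, C] a b)) s t 0
  rw [lf_q4_z0, h2 4 0 rfl, h2 3 1 rfl, h2 2 2 rfl, h2 1 3 rfl, h2 0 4 rfl] at h3
  rw [zero_smul, add_zero] at h3
  refine Eq.trans ?_ (h3.trans (by ring))
  rfl

omit [IsAlgClosed k] in
/-- the cubic form in the direction `C` -/
private theorem lf_df_of_q4 {F : MvPolynomial (Fin 4) k} (hF : F.IsHomogeneous 4)
    {A B C : Fin 4 → k} (h : ∀ s t : k, MvPolynomial.aeval (s • A + t • B) F = 0)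
    (h30 : cc F ![A, B, C] 3 0 = 0) (h21 : cc F ![A, B, C] 2 1 = 0)
    (h12 : cc F ![A, B, C] 1 2 = 0) (h03 : cc F ![A, B, C] 0 3 = 0) (s t : k) :
    df F (s • A + t • B) C = 0 := by
  obtain ⟨p, hp⟩ := df_line F (s • A + t • B) C
  set c := cc F ![A, B, C] with hc
  have h1 : ∀ u : k, u * df F (s • A + t • B) C + u ^ 2 * p.eval u =
      u ^ 2 * (c 2 0 * s ^ 2 + c 1 1 * s * t + c 0 2 * t ^ 2 + c 1 0 * s * u + c 0 1 * t * u +
        c 0 0 * u ^ 2) := by
    intro u
    have h2 := hp u
    have h3 := cc_q4 hF ![A, B, C] s t u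
    have h4 := cc_q4 hF ![A, B, C] s t 0
    simp only [Matrix.cons_val_zero, Matrix.cons_val_one, Matrix.cons_val, zero_smul,
      add_zero] at h3 h4
    rw [h] at h4
    rw [lf_q4_split, ← hc, h30, h21, h12, h03] at h3
    rw [← hc] at h4
    rw [h2, h, ← h4] at h3
    linear_combination h3
  have h2 : Polynomial.X * Polynomial.C (df F (s • A + t • B) C) + Polynomial.X ^ 2 * p =
      Polynomial.X ^ 2 * (Polynomial.C (c 2 0 * s ^ 2 + c 1 1 * s * t + c 0 2 * t ^ 2) +
        Polynomial.C (c 1 0 * s + c 0 1 * t) * Polynomial.X +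
        Polynomial.C (c 0 0) * Polynomial.X ^ 2) := by
    apply Polynomial.funext
    intro u
    simp only [Polynomial.eval_add, Polynomial.eval_mul, Polynomial.eval_pow, Polynomial.eval_X,
      Polynomial.eval_C]
    rw [h1 u]
    ring
  have h3 := congrArg (fun q => Polynomial.coeff q 1) h2
  simp only [Polynomial.coeff_add] at h3
  rw [mul_comm Polynomial.X (Polynomial.C _), Polynomial.coeff_C_mul, Polynomial.coeff_X_one,
    mul_one, Polynomial.coeff_X_pow_mul', Polynomial.coeff_X_pow_mul'] at h3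
  simpa using h3

/-- The planes through a line of the surface. `g 0`, `g 1` span a line on the surface. Let
`G = (g 0, g 1, g 2 + t g 3)`, `t = tt k`. The form on `G` is zero on the line `u = 0`, so it is
`u (κ(s, t) + u ..)`, `κ` is a binary cubic form over `Om k`, it is not zero: at a place where `tt` has the
value zero its value is `df F (s g 0 + t g 1) (g 2)`, not zero by `nonred`. A factorization of `κ` in
linear forms (`exists_fac`), `κ = Q L`, `c = 0`. -/
theorem line_fam {F : MvPolynomial (Fin 4) k} (hF : Sm F) {g : Fin 4 → Fin 4 → k}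
    (hg : LinearIndependent k g)
    (h : ∀ s t : k, MvPolynomial.aeval (s • g 0 + t • g 1) F = 0) :
    ∃ q : Fin 3 → Om k, q ≠ 0 ∧
      NodQ F ![cn (g 0), cn (g 1), cn (g 2) + tt k • cn (g 3)] q := by
  set G : Fin 3 → Fin 4 → Om k := ![cn (g 0), cn (g 1), cn (g 2) + tt k • cn (g 3)] with hG
  have hne : (![cc F G 3 0, cc F G 2 1, cc F G 1 2, cc F G 0 3] : Fin 4 → Om k) ≠ 0 := by
    intro h0
    have e30 : cc F G 3 0 = 0 := congrFun h0 0
    have e21 : cc F G 2 1 = 0 := congrFun h0 1
    have e12 : cc F G 1 2 = 0 := congrFun h0 2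
    have e03 : cc F G 0 3 = 0 := congrFun h0 3
    obtain ⟨v, hv⟩ := exists_place_at (x := tt k) (fun c => VFP.tt_ne c) 0
    have hat : ∀ a b, v.At (G a b) ((![g 0, g 1, g 2] : Fin 3 → Fin 4 → k) a b) := by
      intro a b
      fin_cases a
      · exact Place.at_const _
      · exact Place.at_const _
      · have h1 := (Place.at_const (v := v) (g 2 b)).add (hv.mul (Place.at_const (v := v) (g 3 b)))
        rw [zero_mul, add_zero] at h1
        exact h1
    have z30 := cc_at F hat 3 0
    have z21 := cc_at F hat 2 1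
    have z12 := cc_at F hat 1 2
    have z03 := cc_at F hat 0 3
    rw [e30] at z30
    rw [e21] at z21
    rw [e12] at z12
    rw [e03] at z03
    refine nonred hF (A := g 0) (B := g 1) (C := g 2) ?_ h
      (lf_df_of_q4 hF.hom h (lf_unique0 z30) (lf_unique0 z21) (lf_unique0 z12) (lf_unique0 z03))
    have h1 := hg.comp (fun i : Fin 3 => i.castSucc) (Fin.castSucc_injective 3)
    convert h1 using 1
    funext i
    fin_cases i <;> rfl
  obtain ⟨κ, α, β, -, hab, hfac⟩ := exists_fac (n := 3) _ hne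
  refine ⟨![β 0 * β 1, -(β 0 * α 1 + α 0 * β 1), α 0 * α 1], ?_, 0, ![κ * β 2, -(κ * α 2)],
    ![cc F G 2 0, cc F G 1 1, cc F G 0 2, cc F G 1 0, cc F G 0 1, cc F G 0 0], ?_⟩
  · intro h0
    have e0 : β 0 * β 1 = 0 := congrFun h0 0
    have e1 : -(β 0 * α 1 + α 0 * β 1) = 0 := congrFun h0 1
    have e2 : α 0 * α 1 = 0 := congrFun h0 2
    rcases mul_eq_zero.1 e0 with hb | hb
    · have ha : α 0 ≠ 0 := (hab 0).resolve_right fun h => h hb
      have ha1 := (mul_eq_zero.1 e2).resolve_left ha
      have hb1 : β 1 ≠ 0 := (hab 1).resolve_left fun h => h ha1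
      rw [hb, zero_mul, zero_add, neg_eq_zero] at e1
      exact mul_ne_zero ha hb1 e1
    · have ha : α 1 ≠ 0 := (hab 1).resolve_right fun h => h hb
      have ha1 := (mul_eq_zero.1 e2).resolve_right ha
      have hb1 : β 0 ≠ 0 := (hab 0).resolve_left fun h => h ha1
      rw [hb, mul_zero, add_zero, neg_eq_zero] at e1
      exact mul_ne_zero hb1 ha e1
  · intro s t u
    have h1 := cc_q4 hF.hom G s t u
    have h2 := cc_q4 hF.hom G s t 0
    have h3 : s • G 0 + t • G 1 + (0 : Om k) • G 2 = s • cn (g 0) + t • cn (g 1) := by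
      rw [zero_smul, add_zero]
      rfl
    rw [h3, lf_zero_line (C := g 2) hF.hom h] at h2
    have h4 : cc F G 3 0 * s ^ 3 + cc F G 2 1 * s ^ 2 * t + cc F G 1 2 * s * t ^ 2 +
        cc F G 0 3 * t ^ 3 =
        κ * ((β 0 * s - α 0 * t) * (β 1 * s - α 1 * t) * (β 2 * s - α 2 * t)) := by
      have h5 := (Fin.sum_univ_four (fun i : Fin 4 =>
        (![cc F G 3 0, cc F G 2 1, cc F G 1 2, cc F G 0 3] : Fin 4 → Om k) i *
          s ^ (3 - (i : ℕ)) * t ^ (i : ℕ))).symm.trans (hfac s t)
      rw [Fin.prod_univ_three] at h5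
      rw [← h5]
      simp
    change MvPolynomial.aeval (s • G 0 + t • G 1 + u • G 2) F = _
    rw [h1, lf_q4_split, ← h2]
    simp only [Matrix.cons_val_zero, Matrix.cons_val_one, Matrix.cons_val]
    linear_combination u * h4

/-- vectors with independent values are independent -/
private theorem lf_li_of_at {v : Place k (Om k)} {n m : ℕ} {G : Fin n → Fin m → Om k}
    {g : Fin n → Fin m → k} (h : ∀ a b, v.At (G a b) (g a b)) (hg : LinearIndependent k g) :
    LinearIndependent (Om k) G := by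
  rw [Fintype.linearIndependent_iff]
  intro c hc
  by_contra hcon
  have hc0 : c ≠ 0 := by
    rintro rfl
    exact hcon fun _ => rfl
  obtain ⟨l, y, -, hy, hly⟩ := exists_scale v c hc0
  apply hy
  funext i
  refine Fintype.linearIndependent_iff.1 hg y ?_ i
  funext b
  have h1 : v.At (∑ i, l * c i * G i b) (∑ i, y i * g i b) :=
    Place.At.sum fun i _ => (hly i).mul (h i b)
  have h2 : ∑ i, l * c i * G i b = 0 := by
    have h3 := congrFun hc b
    simp only [Finset.sum_apply, Pi.smul_apply, smul_eq_mul, Pi.zero_apply] at h3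
    rw [← mul_zero l, ← h3, Finset.mul_sum]
    exact Finset.sum_congr rfl fun i _ => by ring
  rw [h2] at h1
  simpa using lf_unique0 h1

/-- the limit of a subspace with a basis which has independent values -/
private theorem lf_lim_le {v : Place k (Om k)} {n m : ℕ} {G : Fin n → Fin m → Om k}
    {g : Fin n → Fin m → k} (h : ∀ a b, v.At (G a b) (g a b)) (hg : LinearIndependent k g) :
    limW v (Submodule.span (Om k) (Set.range G)) ≤ Submodule.span k (Set.range g) := by
  have h1 : Submodule.span k (Set.range g) ≤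
      limW v (Submodule.span (Om k) (Set.range G)) := by
    rw [Submodule.span_le]
    rintro _ ⟨i, rfl⟩
    exact mem_limW.2 ⟨G i, Submodule.subset_span ⟨i, rfl⟩, h i⟩
  have h2 := finrank_limW v (Submodule.span (Om k) (Set.range G))
  rw [finrank_span_eq_card (lf_li_of_at h hg), ← finrank_span_eq_card hg] at h2
  exact (Submodule.eq_of_le_of_finrank_eq h1 h2.symm).ge

/-- the case of a line on the surface -/
private theorem fam_of_line {F : MvPolynomial (Fin 4) k} (hF : Sm F) {g : Fin 4 → Fin 4 → k}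
    (hg : LinearIndependent k g) (h : ∀ s t : k, MvPolynomial.aeval (s • g 0 + t • g 1) F = 0)
    (hE : Eqv hF.hom (Submodule.span k {g 0, g 1, g 2})) :
    ∃ (G : Fin 3 → Fin 4 → Om k) (q : Fin 3 → Om k) (v₀ : Place k (Om k)),
      LinearIndependent (Om k) G ∧ Ncst (Submodule.span (Om k) (Set.range G)) ∧ q ≠ 0 ∧
      NodQ F G q ∧ Eqv hF.hom (limW v₀ (Submodule.span (Om k) (Set.range G))) := by
  obtain ⟨q, hq, hN⟩ := line_fam hF hg h
  obtain ⟨v, hv⟩ := exists_place_at (x := tt k) (fun c => VFP.tt_ne c) 0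
  set G : Fin 3 → Fin 4 → Om k := ![cn (g 0), cn (g 1), cn (g 2) + tt k • cn (g 3)] with hG
  have hat : ∀ a b, v.At (G a b) ((![g 0, g 1, g 2] : Fin 3 → Fin 4 → k) a b) := by
    intro a b
    fin_cases a
    · exact Place.at_const _
    · exact Place.at_const _
    · have h1 := (Place.at_const (v := v) (g 2 b)).add (hv.mul (Place.at_const (v := v) (g 3 b)))
      rw [zero_mul, add_zero] at h1
      exact h1
  have hg3 : LinearIndependent k (![g 0, g 1, g 2] : Fin 3 → Fin 4 → k) := by
    have h1 := hg.comp (fun i : Fin 3 => i.castSucc) (Fin.castSucc_injective 3)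
    convert h1 using 1
    funext i
    fin_cases i <;> rfl
  refine ⟨G, q, v, lf_li_of_at hat hg3, ?_, hq, hN, ?_⟩
  · rintro ⟨η, hη, h1⟩
    apply hη
    have h2 : ∀ i, ∑ j, η j * g i j = 0 := by
      have e : ∀ i, ∑ j, algebraMap k (Om k) (η j) * cn (g i) j =
          algebraMap k (Om k) (∑ j, η j * g i j) := by
        intro i
        rw [map_sum]
        exact Finset.sum_congr rfl fun j _ => by rw [map_mul]; rfl
      have e0 := h1 (G 0) (Submodule.subset_span ⟨0, rfl⟩)
      have e1 := h1 (G 1) (Submodule.subset_span ⟨1, rfl⟩)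
      have e2 := h1 (G 2) (Submodule.subset_span ⟨2, rfl⟩)
      have e0' : ∑ j, η j * g 0 j = 0 := by
        apply (algebraMap k (Om k)).injective
        rw [← e 0, map_zero]
        exact e0
      have e1' : ∑ j, η j * g 1 j = 0 := by
        apply (algebraMap k (Om k)).injective
        rw [← e 1, map_zero]
        exact e1
      have e2' : algebraMap k (Om k) (∑ j, η j * g 2 j) +
          tt k * algebraMap k (Om k) (∑ j, η j * g 3 j) = 0 := by
        rw [← e 2, ← e 3, Finset.mul_sum, ← Finset.sum_add_distrib, ← e2]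
        refine Finset.sum_congr rfl fun j _ => ?_
        change _ = _ * (cn (g 2) j + tt k * cn (g 3) j)
        ring
      have e3 : ∑ j, η j * g 3 j = 0 := by
        by_contra h3
        refine VFP.tt_ne (-(∑ j, η j * g 2 j) / ∑ j, η j * g 3 j) ?_
        have h4 : algebraMap k (Om k) (∑ j, η j * g 3 j) ≠ 0 := by
          intro h5
          exact h3 ((algebraMap k (Om k)).injective (by rw [h5, map_zero]))
        rw [map_div₀, map_neg, eq_div_iff h4]
        linear_combination e2'
      have e2'' : ∑ j, η j * g 2 j = 0 := by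
        apply (algebraMap k (Om k)).injective
        rw [e3, map_zero, mul_zero, add_zero] at e2'
        rw [e2', map_zero]
      intro i
      fin_cases i
      · exact e0'
      · exact e1'
      · exact e2''
      · exact e3
    have h3 : (Matrix.of g).mulVec η = 0 := by
      funext i
      simp only [Matrix.mulVec, dotProduct, Matrix.of_apply, Pi.zero_apply]
      rw [← h2 i]
      exact Finset.sum_congr rfl fun j _ => mul_comm _ _
    have h4 : IsUnit (Matrix.of g) := by
      rw [← Matrix.linearIndependent_rows_iff_isUnit]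
      exact hg
    exact (Matrix.mulVec_injective_iff_isUnit.2 h4) (by rw [h3, Matrix.mulVec_zero])
  · intro x hx x' hx'
    refine hE x ?_ x' ?_
    · have h1 := lf_lim_le hat hg3 hx
      refine Submodule.span_mono ?_ h1
      rintro _ ⟨i, rfl⟩
      fin_cases i <;> simp
    · have h1 := lf_lim_le hat hg3 hx'
      refine Submodule.span_mono ?_ h1
      rintro _ ⟨i, rfl⟩
      fin_cases i <;> simp

/-- **The family.** A plane over `Om k` which is not constant, with the required form of the plane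
section, and a place `v₀` where all points in the limit plane are equivalent. Proof: `exists_nod_g`,
`exists_z`. If `z 0`, `z 1`, `z 2` are not all zero: `ncst_Gz`, the limit of the plane is the span of
`g 0`, `g 1`, `g 2` (`finrank_limW`). Otherwise `cone_of_z`: with the vertex `P = ρ g 0 + g 1`; the
binary form `F (s g 0 + u g 2)` has a zero `(s, u) ≠ 0`, the line spanned by `P` and `s g 0 + u g 2` is on
the surface. Choose a basis `g'` with this line as `g' 0`, `g' 1`, `g' 2` in the plane, `g' 3` not in the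
plane: `line_fam`, a place where `tt` has the value zero (`exists_place_at`). -/
theorem exists_fam {F : MvPolynomial (Fin 4) k} (hF : Sm F) :
    ∃ (G : Fin 3 → Fin 4 → Om k) (q : Fin 3 → Om k) (v₀ : Place k (Om k)),
      LinearIndependent (Om k) G ∧ Ncst (Submodule.span (Om k) (Set.range G)) ∧ q ≠ 0 ∧
      NodQ F G q ∧ Eqv hF.hom (limW v₀ (Submodule.span (Om k) (Set.range G))) := by
  obtain ⟨g, a, b, hg, hN, hE⟩ := exists_nod_g hF
  obtain ⟨z, v, hz, hv, hN'⟩ := exists_z hF.hom hN
  by_cases h : z 0 ≠ 0 ∨ z 1 ≠ 0 ∨ z 2 ≠ 0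
  · have hat : ∀ i b, v.At (Gz g z i b) ((![g 0, g 1, g 2] : Fin 3 → Fin 4 → k) i b) := by
      intro i b
      have h0 : ∀ (j l : Fin 7) (p r s : Fin 4), v.At
          (cn (g p) b + z j * cn (g r) b + z l * cn (g s) b) (g p b) := by
        intro j l p r s
        have h1 := ((Place.at_const (v := v) (g p b)).add
          ((hv j).mul (Place.at_const (v := v) (g r b)))).add
          ((hv l).mul (Place.at_const (v := v) (g s b)))
        rw [zero_mul, zero_mul, add_zero, add_zero] at h1
        exact h1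
      fin_cases i
      · exact h0 3 0 0 2 3
      · exact h0 4 1 1 2 3
      · have h1 := (Place.at_const (v := v) (g 2 b)).add
          ((hv 2).mul (Place.at_const (v := v) (g 3 b)))
        rw [zero_mul, add_zero] at h1
        exact h1
    have hg3 : LinearIndependent k (![g 0, g 1, g 2] : Fin 3 → Fin 4 → k) := by
      have h1 := hg.comp (fun i : Fin 3 => i.castSucc) (Fin.castSucc_injective 3)
      convert h1 using 1
      funext i
      fin_cases i <;> rfl
    refine ⟨Gz g z, _, v, lf_li_of_at hat hg3, ncst_Gz hg hv h, ?_, hN', ?_⟩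
    · intro h0
      exact one_ne_zero (congrFun h0 0)
    · intro x hx x' hx'
      refine hE x ?_ x' ?_
      · have h1 := lf_lim_le hat hg3 hx
        refine Submodule.span_mono ?_ h1
        rintro _ ⟨i, rfl⟩
        fin_cases i <;> simp
      · have h1 := lf_lim_le hat hg3 hx'
        refine Submodule.span_mono ?_ h1
        rintro _ ⟨i, rfl⟩
        fin_cases i <;> simp
  · push Not at h
    obtain ⟨ρ, hρ⟩ := cone_of_z hF hg hz hv h hN'
    obtain ⟨s₀, u₀, hsu, h0⟩ : ∃ s u : k, (s ≠ 0 ∨ u ≠ 0) ∧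
        MvPolynomial.aeval (s • g 0 + u • g 2) F = 0 := by
      by_cases h1 : ∃ x y : k, MvPolynomial.aeval (x • g 0 + y • g 2) F ≠ 0
      · obtain ⟨κ, α, β, -, hab, h2⟩ := line_fac hF.hom (g 0) (g 2) h1
        refine ⟨α 0, β 0, hab 0, ?_⟩
        rw [h2, Finset.prod_eq_zero (Finset.mem_univ 0) (by ring), mul_zero]
      · push Not at h1
        exact ⟨1, 0, Or.inl one_ne_zero, h1 1 0⟩
    -- the line through the vertex
    have hline : ∀ x y : k, MvPolynomial.aeval
        (x • (ρ • g 0 + g 1) + y • (s₀ • g 0 + u₀ • g 2)) F = 0 := by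
      intro x y
      have h1 : x • (ρ • g 0 + g 1) + y • (s₀ • g 0 + u₀ • g 2) =
          (x * ρ + y * s₀) • g 0 + x • g 1 + (y * u₀) • g 2 := by
        module
      rw [h1, hρ]
      have h2 : (x * ρ + y * s₀ - ρ * x) • g 0 + (y * u₀) • g 2 =
          y • (s₀ • g 0 + u₀ • g 2) := by
        module
      rw [h2, aeval_smul hF.hom, h0, mul_zero]
    -- the new basis
    obtain ⟨w, hw, hli⟩ : ∃ w ∈ Submodule.span k {g 0, g 1, g 2}, LinearIndependent k
        ![ρ • g 0 + g 1, s₀ • g 0 + u₀ • g 2, w, g 3] := by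
      rw [Fintype.linearIndependent_iff] at hg
      by_cases hu : u₀ = 0
      · have hs : s₀ ≠ 0 := hsu.resolve_right fun h => h hu
        refine ⟨g 2, Submodule.subset_span (by simp), ?_⟩
        rw [Fintype.linearIndependent_iff]
        intro c hc
        have h1 := hg ![c 0 * ρ + c 1 * s₀, c 0, c 1 * u₀ + c 2, c 3] (by
          rw [← hc]
          simp only [Fin.sum_univ_four, Matrix.cons_val_zero, Matrix.cons_val_one,
            Matrix.cons_val]
          module)
        have e0 : c 0 * ρ + c 1 * s₀ = 0 := h1 0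
        have e1 : c 0 = 0 := h1 1
        have e2 : c 1 * u₀ + c 2 = 0 := h1 2
        have e3 : c 3 = 0 := h1 3
        rw [e1, zero_mul, zero_add] at e0
        have e4 : c 1 = 0 := (mul_eq_zero.1 e0).resolve_right hs
        rw [e4, zero_mul, zero_add] at e2
        intro i
        fin_cases i
        · exact e1
        · exact e4
        · exact e2
        · exact e3
      · refine ⟨g 0, Submodule.subset_span (by simp), ?_⟩
        rw [Fintype.linearIndependent_iff]
        intro c hc
        have h1 := hg ![c 0 * ρ + c 1 * s₀ + c 2, c 0, c 1 * u₀, c 3] (by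
          rw [← hc]
          simp only [Fin.sum_univ_four, Matrix.cons_val_zero, Matrix.cons_val_one,
            Matrix.cons_val]
          module)
        have e0 : c 0 * ρ + c 1 * s₀ + c 2 = 0 := h1 0
        have e1 : c 0 = 0 := h1 1
        have e2 : c 1 * u₀ = 0 := h1 2
        have e3 : c 3 = 0 := h1 3
        have e4 : c 1 = 0 := (mul_eq_zero.1 e2).resolve_right hu
        rw [e1, zero_mul, zero_add, e4, zero_mul, zero_add] at e0
        intro i
        fin_cases i
        · exact e1
        · exact e4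
        · exact e0
        · exact e3
    refine fam_of_line hF hli hline ?_
    intro x hx x' hx'
    have hle : Submodule.span k {(![ρ • g 0 + g 1, s₀ • g 0 + u₀ • g 2, w, g 3] :
        Fin 4 → Fin 4 → k) 0, (![ρ • g 0 + g 1, s₀ • g 0 + u₀ • g 2, w, g 3] :
        Fin 4 → Fin 4 → k) 1, (![ρ • g 0 + g 1, s₀ • g 0 + u₀ • g 2, w, g 3] :
        Fin 4 → Fin 4 → k) 2} ≤ Submodule.span k {g 0, g 1, g 2} := by
      have m0 : g 0 ∈ Submodule.span k {g 0, g 1, g 2} := Submodule.subset_span (by simp)
      have m1 : g 1 ∈ Submodule.span k {g 0, g 1, g 2} := Submodule.subset_span (by simp)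
      have m2 : g 2 ∈ Submodule.span k {g 0, g 1, g 2} := Submodule.subset_span (by simp)
      rw [Submodule.span_le]
      rintro y (rfl | rfl | rfl)
      · exact Submodule.add_mem _ (Submodule.smul_mem _ _ m0) m1
      · exact Submodule.add_mem _ (Submodule.smul_mem _ _ m0) (Submodule.smul_mem _ _ m2)
      · exact hw
    exact hE x (hle hx) x' (hle hx')

end Pool.Agent.QRT
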