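import Mathlib.RingTheory.NoetherNormalization
import Pool.Agent.ZIso.Krull
import Pool.Agent.GT.Fld

/-!
# Curve selection

Fewer equations than unknowns, all satisfied at the origin: there is a curve of solutions through the
origin. The curve is given by a point with coordinates in `Om k` and a place.

Proof. Let `R = k[z]`, `m` the maximal ideal of the origin, of height `n` (as in `ZIso/Krull.lean`:
`MvPolynomial.ringKrullDim_of_isNoetherianRing`; all maximal ideals have the height `n`, translate the
one of `Ideal.exists_isMaximal_height` as there), `p ⊆ m` a minimal prime ideal over the ideal of the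
`f i`: its height is at most `r` (`Ideal.height_le_card_of_mem_minimalPrimes_span`), so `p ≠ m`.
`B = R / p` is a domain, `m_B = m / p ≠ 0`. Noether normalization: an injective finite homomorphism
`k[y_1, .., y_s] → B` (`exists_integral_inj_algHom_of_fg`); after a translation of the `y_i` all of
them are in `m_B` (their values are in `k`, because `k` is algebraically closed; here `B / m_B = k`
anyway). `s ≥ 1`, otherwise `B` is a field. Let `P₀ = (y_2, .., y_s)`, a prime ideal contained in
`m_B ∩ k[y] = (y_1, .., y_s)`. Going down (`k[y]` is integrally closed, `B` is an integral domain;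
`Mathlib/RingTheory/IntegralClosure/GoingDown.lean`): a prime ideal `Q₀ ⊆ m_B` with
`Q₀ ∩ k[y] = P₀`. `C = B / Q₀` is a domain which is integral over `k[y] / P₀ = k[T]`; embed it in `Om k`
over `k[T] → Om k`, `T ↦ tt k` (`IsAlgClosed.lift`; or extend by hand, Om k is algebraically closed). The
images `z_i` of the coordinates satisfy the equations, they are not all zero (`tt` is a polynomial in
the `z_i` without constant term). The place: `Ideal.image_subset_nonunits_valuationSubring` for the
image of `B` and the ideal `m_B` (as in `ZCyc/Places.lean`, `exists_place`); it is not trivial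
because `tt ≠ 0` is not a unit.
-/

set_option autoImplicit false

noncomputable section

namespace Pool.Agent.QRT

open Pool.Agent.ZCyc Pool.Agent.Dess Pool.Agent.GT
open Pool.Agent.VFP (Om tt)
open scoped Classical

variable {k : Type} [Field k]

/-- the prime ideal of a component of the translated system -/
private theorem cs_prime [IsAlgClosed k] {ι κ : Type} [Fintype ι] [Fintype κ]
    (h : Fintype.card κ < Fintype.card ι)
    (f : κ → MvPolynomial ι k) (hf : ∀ i, MvPolynomial.eval (0 : ι → k) (f i) = 0) :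
    ∃ (a : ι → k) (P : Ideal (MvPolynomial ι k)), P.IsPrime ∧
      P ≤ RingHom.ker (MvPolynomial.aeval a : MvPolynomial ι k →ₐ[k] k) ∧
      P ≠ RingHom.ker (MvPolynomial.aeval a : MvPolynomial ι k →ₐ[k] k) ∧
      ∀ i, MvPolynomial.bind₁ (fun j => MvPolynomial.X j - MvPolynomial.C (a j)) (f i) ∈ P := by
  -- a maximal ideal of maximal height
  have hdim : ringKrullDim (MvPolynomial ι k) = (Fintype.card ι : WithBot ℕ∞) := by
    rw [MvPolynomial.ringKrullDim_of_isNoetherianRing, ringKrullDim_eq_zero_of_field, zero_add,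
      Nat.card_eq_fintype_card]
  have : FiniteRingKrullDim (MvPolynomial ι k) := by
    rw [finiteRingKrullDim_iff_ne_bot_and_top, hdim]
    exact ⟨WithBot.natCast_ne_bot _, fun h => by
      have : ((Fintype.card ι : ℕ∞) : WithBot ℕ∞) = ((⊤ : ℕ∞) : WithBot ℕ∞) := h
      exact ENat.natCast_ne_top _ (WithBot.coe_injective this)⟩
  obtain ⟨p, hp, hht⟩ := Ideal.exists_isMaximal_height (R := MvPolynomial ι k)
  obtain ⟨a, ha⟩ := MvPolynomial.isMaximal_iff_eq_vanishingIdeal_singleton.1 hp
  have hker : p = RingHom.ker (MvPolynomial.aeval a : MvPolynomial ι k →ₐ[k] k) := by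
    rw [ha]
    ext x
    rw [MvPolynomial.mem_vanishingIdeal_singleton_iff, RingHom.mem_ker]
  -- the translated polynomials
  set g : κ → MvPolynomial ι k := fun i =>
    MvPolynomial.bind₁ (fun j => MvPolynomial.X j - MvPolynomial.C (a j)) (f i) with hg
  have hev : ∀ (x : ι → k) i, MvPolynomial.eval x (g i) = MvPolynomial.eval (x - a) (f i) := by
    intro x i
    simp only [hg]
    have h1 := MvPolynomial.eval₂Hom_bind₁ (RingHom.id k) x
      (fun j => MvPolynomial.X j - MvPolynomial.C (a j)) (f i)
    change MvPolynomial.eval x _ = _ at h1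
    rw [h1]
    change MvPolynomial.eval _ (f i) = _
    congr 2
    ext j
    simp
  have hle : Ideal.span (Set.range g) ≤ p := by
    rw [Ideal.span_le]
    rintro _ ⟨i, rfl⟩
    rw [ha, SetLike.mem_coe, MvPolynomial.mem_vanishingIdeal_singleton_iff]
    have h1 := hev a i
    rw [sub_self, hf] at h1
    rwa [MvPolynomial.aeval_eq_eval]
  have hpp := hp.isPrime
  obtain ⟨P, hP, hPp⟩ := Ideal.exists_minimalPrimes_le hle
  refine ⟨a, P, hP.1.1, hker ▸ hPp, ?_, fun i => hP.1.2 (Ideal.subset_span ⟨i, rfl⟩)⟩
  rw [← hker]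
  rintro rfl
  have h3 := Ideal.height_le_card_of_mem_minimalPrimes_span (Set.finite_range g) hP
  have h4 : (Set.range g).ncard ≤ Fintype.card κ := by
    rw [← Set.image_univ]
    refine (Set.ncard_image_le Set.finite_univ).trans ?_
    rw [Set.ncard_univ, Nat.card_eq_fintype_card]
  have h5 : (P.height : WithBot ℕ∞) ≤ ((Fintype.card κ : ℕ∞) : WithBot ℕ∞) :=
    WithBot.coe_le_coe.2 (h3.trans (by exact_mod_cast h4))
  rw [hht, hdim] at h5
  have h6 : ((Fintype.card ι : ℕ∞) : WithBot ℕ∞) ≤ ((Fintype.card κ : ℕ∞) : WithBot ℕ∞) := h5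
  have h7 := WithBot.coe_le_coe.1 h6
  exact absurd (by exact_mod_cast h7) (not_le.2 h)

/-- a domain which is integral over `k[T]` embeds into an algebraically closed field, `T` goes to
a given transcendental element -/
private theorem cs_embed {C M : Type} [CommRing C] [IsDomain C] [Algebra k C] [Field M]
    [Algebra k M] [IsAlgClosed M] {t : M} (ht : Transcendental k t) (χ : Polynomial k →ₐ[k] C)
    (hχ : Function.Injective χ) (hi : (χ : Polynomial k →+* C).IsIntegral) :
    ∃ φ : C →ₐ[k] M, Function.Injective φ ∧ φ (χ Polynomial.X) = t := by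
  let a1 : Algebra (Polynomial k) C := (χ : Polynomial k →+* C).toAlgebra
  let a2 : Algebra (Polynomial k) M :=
    ((Polynomial.aeval t : Polynomial k →ₐ[k] M) : Polynomial k →+* M).toAlgebra
  have hM : Function.Injective (algebraMap (Polynomial k) M) := transcendental_iff_injective.1 ht
  have f1 : FaithfulSMul (Polynomial k) C := (faithfulSMul_iff_algebraMap_injective _ _).2 hχ
  have f2 : FaithfulSMul (Polynomial k) M := (faithfulSMul_iff_algebraMap_injective _ _).2 hM
  have i1 : Algebra.IsIntegral (Polynomial k) C := ⟨hi⟩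
  let φ : C →ₐ[Polynomial k] M := IsAlgClosed.lift
  have hφ : ∀ p, φ (χ p) = Polynomial.aeval t p := fun p => φ.commutes p
  refine ⟨{ (φ : C →+* M) with commutes' := ?_ }, ?_, ?_⟩
  · intro c
    change φ (algebraMap k C c) = algebraMap k M c
    have h1 := hφ (Polynomial.C c)
    rw [Polynomial.aeval_C] at h1
    rw [← h1]
    congr 1
    exact (χ.commutes c).symm
  · change Function.Injective φ
    have h1 : (RingHom.ker (φ : C →+* M)).comap (algebraMap (Polynomial k) C) = ⊥ := by
      rw [eq_bot_iff]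
      intro p hp
      rw [Ideal.mem_comap, RingHom.mem_ker] at hp
      have h2 : Polynomial.aeval t p = 0 := (hφ p).symm.trans hp
      exact (map_eq_zero_iff _ hM).1 h2
    have h2 := Ideal.eq_bot_of_comap_eq_bot h1
    exact (RingHom.injective_iff_ker_eq_bot (φ : C →+* M)).2 h2
  · change φ (χ Polynomial.X) = t
    rw [hφ, Polynomial.aeval_X]

/-- a place above a point -/
private theorem cs_place {C M : Type} [CommRing C] [Algebra k C] [Field M] [Algebra k M]
    (φ : C →ₐ[k] M) (hφ : Function.Injective φ) (ev : C →ₐ[k] k) {b : C}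
    (ht : Transcendental k (φ b)) : ∃ v : Place k M, ∀ c, ev c = 0 → v.At (φ c) 0 := by
  set A : Subring M := (φ : C →+* M).range with hA
  let e : C ≃+* A := RingEquiv.ofBijective (φ : C →+* M).rangeRestrict
    ⟨fun x y hxy => hφ (congrArg Subtype.val hxy), (φ : C →+* M).rangeRestrict_surjective⟩
  have he : ∀ c, (e c : M) = φ c := fun c => rfl
  set I : Ideal A := RingHom.ker ((ev : C →+* k).comp (e.symm : A →+* C)) with hI
  have hItop : I ≠ ⊤ := RingHom.ker_ne_top _
  obtain ⟨V, hV1, hV2⟩ := Ideal.image_subset_nonunits_valuationSubring I hItop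
  have hmem : ∀ c, ev c = 0 → φ c ∈ V.nonunits := by
    intro c hc
    apply hV2
    refine ⟨e c, ?_, he c⟩
    rw [hI, SetLike.mem_coe, RingHom.mem_ker]
    change ev (e.symm (e c)) = 0
    rw [e.symm_apply_apply, hc]
  refine ⟨⟨V, ?_, ?_⟩, ?_⟩
  · intro a
    apply hV1
    rw [hA]
    exact ⟨algebraMap k C a, φ.commutes a⟩
  · rintro rfl
    have h1 := hmem (b - algebraMap k C (ev b)) (by rw [map_sub, ev.commutes]; exact sub_self _)
    rw [ValuationSubring.mem_nonunits_iff_or] at h1
    rcases h1 with h | h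
    · apply ht
      rw [map_sub, φ.commutes, sub_eq_zero] at h
      rw [h]
      exact isAlgebraic_algebraMap _
    · exact h (ValuationSubring.mem_top _)
  · intro c hc
    rw [Place.at_zero_iff]
    exact hmem c hc

/-- the ring-theoretic form -/
private theorem cs_dom [IsAlgClosed k] {B : Type} [CommRing B] [IsDomain B] [Algebra k B]
    [Algebra.FiniteType k B] (ev : B →ₐ[k] k) (hev : RingHom.ker ev ≠ ⊥) {M : Type} [Field M]
    [Algebra k M] [IsAlgClosed M] {t : M} (ht : Transcendental k t) :
    ∃ (φ : B →ₐ[k] M) (v : Place k M), (∀ b, ev b = 0 → v.At (φ b) 0) ∧ ∃ b, φ b = t := by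
  obtain ⟨s, g, hg, hgi⟩ := exists_integral_inj_algHom_of_fg k B
  obtain _ | n := s
  · exfalso
    apply hev
    have h1 : (algebraMap k (MvPolynomial (Fin 0) k)).IsIntegral :=
      RingHom.isIntegral_of_surjective _ (MvPolynomial.C_surjective (Fin 0))
    have h2 := RingHom.IsIntegral.trans _ _ h1 hgi
    have h3 : (g : MvPolynomial (Fin 0) k →+* B).comp (algebraMap k (MvPolynomial (Fin 0) k)) =
        algebraMap k B := by
      ext c
      exact g.commutes c
    have : Algebra.IsIntegral k B := ⟨by
      intro x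
      have := h2 x
      change (algebraMap k B).IsIntegralElem x
      rw [← h3]
      exact this⟩
    have h4 := (IsAlgClosed.algebraMap_bijective_of_isIntegral (k := k) (K := B)).2
    rw [eq_bot_iff]
    intro x hx
    obtain ⟨c, rfl⟩ := h4 x
    rw [RingHom.mem_ker, ev.commutes] at hx
    have hc : c = 0 := hx
    rw [hc, map_zero]
    exact Ideal.zero_mem _
  -- the projection to the first coordinate
  set c : Fin (n + 1) → k := fun i => ev (g (MvPolynomial.X i)) with hc
  let ψ : MvPolynomial (Fin (n + 1)) k →ₐ[k] Polynomial k :=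
    MvPolynomial.aeval (Fin.cons Polynomial.X (fun i : Fin n => Polynomial.C (c i.succ)))
  have hψ0 : ψ (MvPolynomial.X 0) = Polynomial.X := by
    simp only [ψ, MvPolynomial.aeval_X, Fin.cons_zero]
  have hψs : ∀ i : Fin n, ψ (MvPolynomial.X i.succ) = Polynomial.C (c i.succ) := by
    intro i
    simp only [ψ, MvPolynomial.aeval_X, Fin.cons_succ]
  have hψev : ∀ F, ev (g F) = Polynomial.aeval (c 0) (ψ F) := by
    intro F
    have : ev.comp g = (Polynomial.aeval (c 0)).comp ψ := by
      ext i
      refine Fin.cases ?_ (fun i => ?_) i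
      · rw [AlgHom.comp_apply, AlgHom.comp_apply, hψ0, Polynomial.aeval_X]
      · rw [AlgHom.comp_apply, AlgHom.comp_apply, hψs, Polynomial.aeval_C]
        rfl
    exact DFunLike.congr_fun this F
  let a1 : Algebra (MvPolynomial (Fin (n + 1)) k) B :=
    (g : MvPolynomial (Fin (n + 1)) k →+* B).toAlgebra
  have i1 : Algebra.IsIntegral (MvPolynomial (Fin (n + 1)) k) B := ⟨hgi⟩
  have f1 : FaithfulSMul (MvPolynomial (Fin (n + 1)) k) B :=
    (faithfulSMul_iff_algebraMap_injective _ _).2 hg
  set P₀ : Ideal (MvPolynomial (Fin (n + 1)) k) := RingHom.ker ψ with hP₀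
  have hP₀p : P₀.IsPrime := RingHom.ker_isPrime _
  have hevp : (RingHom.ker ev).IsPrime := RingHom.ker_isPrime _
  set q : Ideal (MvPolynomial (Fin (n + 1)) k) :=
    (RingHom.ker ev).under (MvPolynomial (Fin (n + 1)) k) with hq
  have hle : P₀ ≤ q := by
    intro F hF
    change ev (g F) = 0
    have hF' : ψ F = 0 := hF
    rw [hψev, hF', map_zero]
  obtain ⟨Q₀, hQle, hQp, hQl⟩ :=
    Ideal.exists_ideal_le_liesOver_of_le (q := q) (RingHom.ker ev) hle
  have hQ : ∀ F, g F ∈ Q₀ ↔ ψ F = 0 := by
    intro F
    have h1 : P₀ = Q₀.comap (algebraMap (MvPolynomial (Fin (n + 1)) k) B) := hQl.over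
    have h2 : F ∈ P₀ ↔ F ∈ Q₀.comap (algebraMap (MvPolynomial (Fin (n + 1)) k) B) := by rw [h1]
    exact h2.symm
  -- the curve
  let π : B →ₐ[k] B ⧸ Q₀ := Ideal.Quotient.mkₐ k Q₀
  have hπ0 : ∀ x, π x = 0 ↔ x ∈ Q₀ := fun x => Ideal.Quotient.eq_zero_iff_mem
  let χ : Polynomial k →ₐ[k] B ⧸ Q₀ := Polynomial.aeval (π (g (MvPolynomial.X 0)))
  have hχ : ∀ F, π (g F) = χ (ψ F) := by
    intro F
    have : π.comp g = χ.comp ψ := by
      ext i
      refine Fin.cases ?_ (fun i => ?_) i
      · rw [AlgHom.comp_apply, AlgHom.comp_apply, hψ0]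
        simp only [χ, Polynomial.aeval_X]
      · rw [AlgHom.comp_apply, AlgHom.comp_apply, hψs]
        simp only [χ, Polynomial.aeval_C]
        have h1 : MvPolynomial.X i.succ - MvPolynomial.C (c i.succ) ∈ P₀ := by
          rw [hP₀, RingHom.mem_ker, map_sub, hψs]
          change _ - ψ (algebraMap k _ (c i.succ)) = 0
          rw [ψ.commutes]
          exact sub_self _
        have h2 := (hπ0 _).2 ((hQ _).2 h1)
        rw [map_sub, map_sub, sub_eq_zero] at h2
        rw [h2]
        change π (g (algebraMap k _ (c i.succ))) = _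
        rw [g.commutes, π.commutes]
    exact DFunLike.congr_fun this F
  have hχinj : Function.Injective χ := by
    rw [injective_iff_map_eq_zero]
    intro p hp
    have h1 : ψ (Polynomial.aeval (MvPolynomial.X 0) p) = p := by
      rw [← Polynomial.aeval_algHom_apply, hψ0, Polynomial.aeval_X_left, AlgHom.id_apply]
    have h2 := hχ (Polynomial.aeval (MvPolynomial.X 0) p)
    rw [h1, hp, hπ0, hQ, h1] at h2
    exact h2
  have hχi : (χ : Polynomial k →+* B ⧸ Q₀).IsIntegral := by
    have h1 : (π : B →+* B ⧸ Q₀).IsIntegral :=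
      RingHom.isIntegral_of_surjective _ Ideal.Quotient.mk_surjective
    have h2 := RingHom.IsIntegral.trans _ _ hgi h1
    have h3 : (π : B →+* B ⧸ Q₀).comp (g : MvPolynomial (Fin (n + 1)) k →+* B) =
        (χ : Polynomial k →+* B ⧸ Q₀).comp (ψ : MvPolynomial (Fin (n + 1)) k →+* Polynomial k) := by
      ext F
      · exact congrArg _ rfl |>.trans (hχ (MvPolynomial.C F))
      · exact hχ _
    exact RingHom.IsIntegral.tower_top _ _ (h3 ▸ h2)
  obtain ⟨φ, hφ, hφt⟩ := cs_embed ht χ hχinj hχi
  let evC : (B ⧸ Q₀) →ₐ[k] k := Ideal.Quotient.liftₐ Q₀ ev (fun a ha => hQle ha)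
  have hX : χ Polynomial.X = π (g (MvPolynomial.X 0)) := by
    simp only [χ, Polynomial.aeval_X]
  obtain ⟨v, hv⟩ := cs_place φ hφ evC (b := χ Polynomial.X) (by rw [hφt]; exact ht)
  refine ⟨φ.comp π, v, ?_, g (MvPolynomial.X 0), ?_⟩
  · intro b hb
    rw [AlgHom.comp_apply]
    apply hv
    change ev b = 0
    exact hb
  · rw [AlgHom.comp_apply, ← hX, hφt]

variable [IsAlgClosed k] [CharZero k]

/-- Fewer equations than unknowns: a curve of solutions through the origin. -/
theorem curve_sel {ι κ : Type} [Fintype ι] [Fintype κ] (h : Fintype.card κ < Fintype.card ι)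
    (f : κ → MvPolynomial ι k) (h0 : ∀ i, MvPolynomial.eval (0 : ι → k) (f i) = 0) :
    ∃ (z : ι → Om k) (v : Place k (Om k)), z ≠ 0 ∧ (∀ i, v.At (z i) 0) ∧
      ∀ i, MvPolynomial.aeval z (f i) = 0 := by
  obtain ⟨a, P, hP, hle, hne, hfP⟩ := cs_prime h f h0
  let ev : (MvPolynomial ι k ⧸ P) →ₐ[k] k :=
    Ideal.Quotient.liftₐ P (MvPolynomial.aeval a) (fun x hx => hle hx)
  have hev : ∀ F, ev (Ideal.Quotient.mkₐ k P F) = MvPolynomial.aeval a F := fun F => rfl
  have hker : RingHom.ker ev ≠ ⊥ := by
    intro hb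
    apply hne
    refine le_antisymm hle ?_
    intro F hF
    rw [RingHom.mem_ker] at hF
    have h1 : Ideal.Quotient.mkₐ k P F ∈ RingHom.ker ev := by
      rw [RingHom.mem_ker, hev, hF]
    rw [hb, Ideal.mem_bot] at h1
    exact Ideal.Quotient.eq_zero_iff_mem.1 h1
  obtain ⟨φ, v, hv, b, hb⟩ := cs_dom ev hker (Pool.Agent.VFP.tt_transc (k := k))
  set Φ : MvPolynomial ι k →ₐ[k] Om k := φ.comp (Ideal.Quotient.mkₐ k P) with hΦ
  refine ⟨fun i => Φ (MvPolynomial.X i - MvPolynomial.C (a i)), v, ?_, ?_, ?_⟩
  · intro hz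
    obtain ⟨F, rfl⟩ := Ideal.Quotient.mkₐ_surjective k P b
    have h1 : ∀ i, Φ (MvPolynomial.X i) = algebraMap k (Om k) (a i) := by
      intro i
      have := congrFun hz i
      simp only [Pi.zero_apply] at this
      rw [map_sub, sub_eq_zero] at this
      rw [this]
      exact Φ.commutes (a i)
    have h2 : Φ = (Algebra.ofId k (Om k)).comp (MvPolynomial.aeval a) := by
      ext i
      rw [h1, AlgHom.comp_apply, MvPolynomial.aeval_X]
      rfl
    have h3 : Φ F = tt k := hb
    rw [h2, AlgHom.comp_apply] at h3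
    exact Pool.Agent.VFP.tt_ne (k := k) (MvPolynomial.aeval a F) h3.symm
  · intro i
    apply hv
    change MvPolynomial.aeval a (MvPolynomial.X i - MvPolynomial.C (a i)) = 0
    rw [map_sub, MvPolynomial.aeval_X]
    change a i - MvPolynomial.aeval a (algebraMap k _ (a i)) = 0
    rw [AlgHom.commutes]
    exact sub_self _
  · intro i
    have h1 : MvPolynomial.aeval (fun j => Φ (MvPolynomial.X j - MvPolynomial.C (a j))) (f i) =
        Φ (MvPolynomial.bind₁ (fun j => MvPolynomial.X j - MvPolynomial.C (a j)) (f i)) := by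
      have : MvPolynomial.aeval (fun j => Φ (MvPolynomial.X j - MvPolynomial.C (a j))) =
          Φ.comp (MvPolynomial.bind₁ (fun j => MvPolynomial.X j - MvPolynomial.C (a j))) := by
        ext j
        rw [AlgHom.comp_apply, MvPolynomial.bind₁_X_right, MvPolynomial.aeval_X]
      exact DFunLike.congr_fun this (f i)
    rw [h1, hΦ, AlgHom.comp_apply]
    have h2 : Ideal.Quotient.mkₐ k P
        (MvPolynomial.bind₁ (fun j => MvPolynomial.X j - MvPolynomial.C (a j)) (f i)) = 0 :=
      Ideal.Quotient.eq_zero_iff_mem.2 (hfP i)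
    rw [h2, map_zero]

end Pool.Agent.QRT
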