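import Pool.Agent.QRT.P1

/-!
# Limits of rational curves

The values of the points of a rational curve over `Om k` are all equivalent: the limit of the curve is
a chain of rational curves (Newton polygon of the vector of polynomials).
-/

set_option autoImplicit false

noncomputable section

namespace Pool.Agent.QRT

open Pool.Agent.ZCyc Pool.Agent.Dess Pool.Agent.GT
open Pool.Agent.VFP (Om tt)
open scoped Classical

variable {k : Type} [Field k] [IsAlgClosed k] [CharZero k] {F F₀ : MvPolynomial (Fin 4) k}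

omit [IsAlgClosed k] in
/-- a polynomial identity along a rational curve for all parameters which are not zero -/
private theorem chain_poly0 (m : ℕ) (c : ℕ → Fin 4 → k)
    (h : ∀ r : k, r ≠ 0 →
      MvPolynomial.aeval (∑ j ∈ Finset.range (m + 1), r ^ j • c j) F = 0) (r : k) :
    MvPolynomial.aeval (∑ j ∈ Finset.range (m + 1), r ^ j • c j) F = 0 := by
  set P : Polynomial k := MvPolynomial.aeval
    (fun i => ∑ j ∈ Finset.range (m + 1), Polynomial.X ^ j * Polynomial.C (c j i)) F with hP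
  have key : ∀ s : k, P.eval s =
      MvPolynomial.aeval (∑ j ∈ Finset.range (m + 1), s ^ j • c j) F := by
    intro s
    have h1 : P.eval s = Polynomial.aeval s P := (Polynomial.coe_aeval_eq_eval s ▸ rfl)
    rw [h1, hP, MvPolynomial.comp_aeval_apply]
    congr 2
    funext i
    rw [map_sum, Finset.sum_apply]
    refine Finset.sum_congr rfl fun j _ => ?_
    rw [map_mul, map_pow, Polynomial.aeval_X, Polynomial.aeval_C, Pi.smul_apply, smul_eq_mul]
    rfl
  have h2 : Polynomial.X * P = 0 := by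
    refine Polynomial.funext fun s => ?_
    rw [Polynomial.eval_mul, Polynomial.eval_X, Polynomial.eval_zero]
    by_cases hs : s = 0
    · rw [hs, zero_mul]
    · rw [key s, h s hs, mul_zero]
  have h3 : P = 0 := (mul_eq_zero.1 h2).resolve_left Polynomial.X_ne_zero
  rw [← key r, h3, Polynomial.eval_zero]

/-- The reduction at one scale: if `e ≠ 0` and `l ≠ 0` are such that all vectors `l e ^ j a j` have
values `b j`, and `i₀ ≤ i₁` are the first and the last index with `b i ≠ 0`, then the classes of the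
values of `a i₀` and `a i₁` are the same. Proof: `p1` for the vectors `b (i₀ + j)`, `j ≤ i₁ - i₀`: for
`r` in `k` take the value of `l ^ 4 (F + θ F₀)(∑ (e r) ^ j a j) = 0`, `θ` has the value zero
(for `r ≠ 0` divide by `r ^ i₀`; a polynomial identity for all `r ≠ 0` holds for `r = 0`). -/
theorem chain_step (hF : F.IsHomogeneous 4) (hF₀ : F₀.IsHomogeneous 4) {v : Place k (Om k)}
    {θ : Om k} (hθ : v.At θ 0) {n : ℕ} (a : ℕ → Fin 4 → Om k)
    (h : ∀ s : Om k, MvPolynomial.aeval (∑ j ∈ Finset.range (n + 1), s ^ j • a j) F +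
      θ * MvPolynomial.aeval (∑ j ∈ Finset.range (n + 1), s ^ j • a j) F₀ = 0)
    {e l : Om k} (b : ℕ → Fin 4 → k)
    (hb : ∀ j ≤ n, ∀ i, v.At (l * e ^ j * a j i) (b j i)) {i₀ i₁ : ℕ} (hi : i₀ ≤ i₁)
    (hi₁ : i₁ ≤ n) (h₀ : b i₀ ≠ 0) (h₁ : b i₁ ≠ 0) (hlow : ∀ j < i₀, b j = 0)
    (hup : ∀ j, i₁ < j → j ≤ n → b j = 0) : cv hF v (a i₀) = cv hF v (a i₁) := by
  have hK : ∀ r : k, r ≠ 0 →
      MvPolynomial.aeval (∑ j ∈ Finset.range (i₁ - i₀ + 1), r ^ j • b (i₀ + j)) F = 0 := by
    intro r hr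
    have h1 : ∀ i : Fin 4, v.At ((l • ∑ j ∈ Finset.range (n + 1),
        (e * algebraMap k (Om k) r) ^ j • a j) i) ((∑ j ∈ Finset.range (n + 1), r ^ j • b j) i) := by
      intro i
      rw [Pi.smul_apply, Finset.sum_apply, Finset.sum_apply, smul_eq_mul, Finset.mul_sum]
      refine Place.At.sum fun j hj => ?_
      have h2 := (Place.at_const (v := v) (r ^ j)).mul
        (hb j (Nat.lt_succ_iff.1 (Finset.mem_range.1 hj)) i)
      rw [Pi.smul_apply, Pi.smul_apply, smul_eq_mul, smul_eq_mul]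
      have h3 : l * ((e * algebraMap k (Om k) r) ^ j * a j i) =
          algebraMap k (Om k) (r ^ j) * (l * e ^ j * a j i) := by
        rw [map_pow]
        ring
      rw [h3]
      exact h2
    have h2 := (aeval_at h1 F).add (hθ.mul (aeval_at h1 F₀))
    rw [aeval_smul hF, aeval_smul hF₀] at h2
    have h3 : l ^ 4 * MvPolynomial.aeval (∑ j ∈ Finset.range (n + 1),
        (e * algebraMap k (Om k) r) ^ j • a j) F + θ * (l ^ 4 * MvPolynomial.aeval
        (∑ j ∈ Finset.range (n + 1), (e * algebraMap k (Om k) r) ^ j • a j) F₀) = 0 := by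
      linear_combination l ^ 4 * h (e * algebraMap k (Om k) r)
    rw [h3, zero_mul, add_zero] at h2
    have h4 := Place.at_const (v := v) (0 : k)
    rw [map_zero] at h4
    have h5 := Place.At.unique h2 h4
    have h6 : ∑ j ∈ Finset.range (n + 1), r ^ j • b j =
        r ^ i₀ • ∑ j ∈ Finset.range (i₁ - i₀ + 1), r ^ j • b (i₀ + j) := by
      have h7 : Finset.range (n + 1) = Finset.range (i₀ + ((i₁ - i₀ + 1) + (n - i₁))) := by
        congr 1
        omega
      rw [h7, Finset.sum_range_add, Finset.sum_range_add, Finset.smul_sum]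
      rw [Finset.sum_eq_zero fun j hj => by rw [hlow j (Finset.mem_range.1 hj), smul_zero], zero_add,
        Finset.sum_eq_zero (s := Finset.range (n - i₁)) fun j hj => by
          have hj' := Finset.mem_range.1 hj
          rw [hup _ (by omega) (by omega), smul_zero], add_zero]
      refine Finset.sum_congr rfl fun j _ => ?_
      rw [pow_add, mul_smul]
    rw [h6, aeval_smul hF] at h5
    exact (mul_eq_zero.1 h5).resolve_left (pow_ne_zero 4 (pow_ne_zero _ hr))
  have h2 := p1 hF (n := i₁ - i₀) (fun j => b (i₀ + j)) h₀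
    (by rw [Nat.add_sub_cancel' hi]; exact h₁) (chain_poly0 _ _ hK)
  rw [Nat.add_sub_cancel' hi] at h2
  rw [cv_eq hF (hb i₀ (hi.trans hi₁)) h₀, cv_eq hF (hb i₁ hi₁) h₁]
  exact h2

/-- The Newton polygon: the next vertex. -/
private theorem chain0_np {K Γ : Type*} [Field K] [IsAlgClosed K]
    [LinearOrderedCommGroupWithZero Γ] (V : Valuation K Γ) (ν : ℕ → K) {n i : ℕ} (hin : i < n)
    (hi : ν i ≠ 0) (hn : ν n ≠ 0)
    (hinv : i = 0 ∨ ∃ e : K, e ≠ 0 ∧ (∀ j < i, V (ν j * e ^ j) ≤ V (ν i * e ^ i)) ∧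
      ∀ j, i < j → j ≤ n → V (ν j * e ^ j) < V (ν i * e ^ i)) :
    ∃ (e : K) (i' : ℕ), e ≠ 0 ∧ i < i' ∧ i' ≤ n ∧ ν i' ≠ 0 ∧
      (∀ j < i, V (ν j * e ^ j) < V (ν i * e ^ i)) ∧
      (∀ j ≤ n, V (ν j * e ^ j) ≤ V (ν i * e ^ i)) ∧ V (ν i' * e ^ i') = V (ν i * e ^ i) ∧
      ∀ j, i' < j → j ≤ n → V (ν j * e ^ j) < V (ν i * e ^ i) := by
  have hroot : ∀ l, ∃ r : K, i < l → ν l ≠ 0 → r ≠ 0 ∧ ν l * r ^ (l - i) = ν i := by
    intro l
    by_cases h : i < l ∧ ν l ≠ 0
    · obtain ⟨r, hr⟩ := IsAlgClosed.exists_pow_nat_eq (ν i / ν l) (n := l - i) (by omega)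
      refine ⟨r, fun _ _ => ⟨?_, ?_⟩⟩
      · rintro rfl
        rw [zero_pow (by omega)] at hr
        exact div_ne_zero hi h.2 hr.symm
      · rw [hr, mul_div_cancel₀ _ h.2]
    · exact ⟨0, fun h1 h2 => absurd ⟨h1, h2⟩ h⟩
  choose r hr using hroot
  let J := (Finset.range (n + 1)).filter fun l => i < l ∧ ν l ≠ 0
  have hJ : ∀ l, l ∈ J ↔ l ≤ n ∧ i < l ∧ ν l ≠ 0 := by
    intro l
    rw [Finset.mem_filter, Finset.mem_range, Nat.lt_succ_iff]
  obtain ⟨l₀, hl₀, hmin⟩ := J.exists_min_image (fun l => V (r l))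
    ⟨n, (hJ n).2 ⟨le_rfl, hin, hn⟩⟩
  obtain ⟨h1, h2, h3⟩ := (hJ l₀).1 hl₀
  obtain ⟨he, hre⟩ := hr l₀ h2 h3
  have hVe : 0 < V (r l₀) := zero_lt_iff.2 ((Valuation.ne_zero_iff V).2 he)
  have hVi : 0 < V (ν i) := zero_lt_iff.2 ((Valuation.ne_zero_iff V).2 hi)
  have hpow : ∀ (e : K) (j : ℕ), i ≤ j →
      V (ν j * e ^ j) = V (ν j) * V e ^ (j - i) * V e ^ i := by
    intro e j hj
    rw [map_mul, map_pow, mul_assoc, ← pow_add, Nat.sub_add_cancel hj]
  have hA : ∀ l, i < l → ν l ≠ 0 → V (ν l) * V (r l) ^ (l - i) = V (ν i) := by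
    intro l hl hl'
    have := congrArg V (hr l hl hl').2
    rwa [map_mul, map_pow] at this
  have hlt : ∀ j < i, V (ν j * r l₀ ^ j) < V (ν i * r l₀ ^ i) := by
    intro j hj
    rcases hinv with h | ⟨e₀, he₀, hlow, hup⟩
    · omega
    · have hVe₀ : 0 < V e₀ := zero_lt_iff.2 ((Valuation.ne_zero_iff V).2 he₀)
      have h4 : V e₀ < V (r l₀) := by
        have h5 := hup l₀ h2 h1
        rw [hpow e₀ l₀ h2.le, map_mul, map_pow, ← hA l₀ h2 h3] at h5
        have h7 : V e₀ ^ (l₀ - i) < V (r l₀) ^ (l₀ - i) :=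
          lt_of_mul_lt_mul_left (lt_of_mul_lt_mul_right h5 zero_le) zero_le
        exact lt_of_pow_lt_pow_left₀ _ zero_le h7
      have h5 := hlow j hj
      rw [map_mul, map_pow, map_mul, map_pow] at h5
      have h6 : V (ν j) ≤ V (ν i) * V e₀ ^ (i - j) := by
        have e1 : V e₀ ^ i = V e₀ ^ (i - j) * V e₀ ^ j := by
          rw [← pow_add, Nat.sub_add_cancel hj.le]
        rw [e1, ← mul_assoc] at h5
        exact le_of_mul_le_mul_right h5 (pow_pos hVe₀ j)
      rw [map_mul, map_pow, map_mul, map_pow]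
      calc V (ν j) * V (r l₀) ^ j ≤ V (ν i) * V e₀ ^ (i - j) * V (r l₀) ^ j :=
            mul_le_mul_of_nonneg_right h6 zero_le
        _ < V (ν i) * V (r l₀) ^ (i - j) * V (r l₀) ^ j :=
            mul_lt_mul_of_pos_right (mul_lt_mul_of_pos_left
              (pow_lt_pow_left₀ h4 zero_le (by omega)) hVi) (pow_pos hVe j)
        _ = V (ν i) * V (r l₀) ^ i := by
            rw [mul_assoc, ← pow_add, Nat.sub_add_cancel hj.le]
  have hle : ∀ j ≤ n, V (ν j * r l₀ ^ j) ≤ V (ν i * r l₀ ^ i) := by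
    intro j hj
    rcases lt_trichotomy j i with h | h | h
    · exact (hlt j h).le
    · rw [h]
    · by_cases h0 : ν j = 0
      · rw [h0, zero_mul, map_zero]
        exact zero_le
      · rw [hpow _ j h.le, map_mul, map_pow, ← hA j h h0]
        refine mul_le_mul_of_nonneg_right (mul_le_mul_of_nonneg_left ?_ zero_le) zero_le
        exact pow_le_pow_left₀ zero_le (hmin j ((hJ j).2 ⟨hj, h, h0⟩)) _
  have heq : V (ν l₀ * r l₀ ^ l₀) = V (ν i * r l₀ ^ i) := by
    rw [hpow _ l₀ h2.le, hA l₀ h2 h3, map_mul, map_pow]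
  let T := (Finset.range (n + 1)).filter fun l => V (ν l * r l₀ ^ l) = V (ν i * r l₀ ^ i)
  have hT : ∀ l, l ∈ T ↔ l ≤ n ∧ V (ν l * r l₀ ^ l) = V (ν i * r l₀ ^ i) := by
    intro l
    rw [Finset.mem_filter, Finset.mem_range, Nat.lt_succ_iff]
  have hl₀T : l₀ ∈ T := (hT l₀).2 ⟨h1, heq⟩
  obtain ⟨i', hi', hmax⟩ := T.exists_max_image id ⟨l₀, hl₀T⟩
  obtain ⟨g1, g2⟩ := (hT i').1 hi'
  have g3 : l₀ ≤ i' := hmax l₀ hl₀T
  refine ⟨r l₀, i', he, by omega, g1, ?_, hlt, hle, g2, fun j hj hjn => ?_⟩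
  · intro h
    rw [h, zero_mul, map_zero, map_mul, map_pow] at g2
    exact (mul_pos hVi (pow_pos hVe i)).ne g2
  · refine lt_of_le_of_ne (hle j hjn) fun h => ?_
    have h5 : j ≤ i' := hmax j ((hT j).2 ⟨hjn, h⟩)
    omega

/-- the scaled vectors -/
private theorem chain0_scale (v : Place k (Om k)) (a : Fin 4 → Om k) :
    ∃ (ν : Om k) (y : Fin 4 → k), (a ≠ 0 → ν ≠ 0 ∧ y ≠ 0) ∧ (ν ≠ 0 → a ≠ 0) ∧
      ∀ (c : Om k) (γ : k), v.At (c * ν) γ → ∀ i, v.At (c * a i) (γ * y i) := by
  by_cases ha : a = 0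
  · refine ⟨0, 0, fun h => absurd ha h, fun h => absurd rfl h, fun c γ _ i => ?_⟩
    rw [ha, Pi.zero_apply, Pi.zero_apply, mul_zero, mul_zero]
    have h2 := Place.at_const (v := v) (0 : k)
    rwa [map_zero] at h2
  · obtain ⟨l, y, hl, hy, h⟩ := exists_scale v a ha
    refine ⟨l⁻¹, y, fun _ => ⟨inv_ne_zero hl, hy⟩, fun _ => ha, fun c γ hc i => ?_⟩
    have h1 := hc.mul (h i)
    have h2 : c * l⁻¹ * (l * a i) = c * a i := by
      field_simp
    rwa [h2] at h1

/-- The chain. Let `a j = ` the coefficient vectors, `n j` in `Om k` such that `a j / n j` has a value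
which is not zero if `a j ≠ 0` (`exists_scale`). If `a 0 ≠ 0` and `a n ≠ 0` then the classes of the
values of `a 0` and `a n` are the same. Proof (with `|x| = v.ring.valuation x`): by induction: for an
index `i < n` with `a i ≠ 0` such that for some `e ≠ 0` we have `|n l e ^ l| ≤ |n i e ^ i|` for all `l`,
and `<` for all `l > i` with `a l ≠ 0`, there is an index `i' > i` of the same kind (or `i' = n`) with
the same class: for every `l > i` with `a l ≠ 0` let `e_l ^ (l - i) = n i / n l` (roots exist in `Om k`),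
let `e'` be the `e_l` with the smallest valuation. Then `|n l e' ^ l| ≤ |n i e' ^ i|` for all `l ≥ i`,
with equality for some `l > i`, and `|e| < |e'|`, so `|n l e' ^ l| < |n i e' ^ i|` for `l < i`.
`chain_step` for `e'`, `l = (n i e' ^ i)⁻¹`, `i₀ = i`, `i₁ = i'` = the last index with equality.
The start `i = 0`: an `e ≠ 0` with very small valuation (take the smallest of `π` and
`π n 0 / n l`, where `π ≠ 0` is not a unit; all `|e| ≤ |π| < 1`). -/
theorem chain0 (hF : F.IsHomogeneous 4) (hF₀ : F₀.IsHomogeneous 4) {v : Place k (Om k)}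
    {θ : Om k} (hθ : v.At θ 0) {n : ℕ} (a : ℕ → Fin 4 → Om k)
    (h : ∀ s : Om k, MvPolynomial.aeval (∑ j ∈ Finset.range (n + 1), s ^ j • a j) F +
      θ * MvPolynomial.aeval (∑ j ∈ Finset.range (n + 1), s ^ j • a j) F₀ = 0)
    (h0 : a 0 ≠ 0) (hn : a n ≠ 0) : cv hF v (a 0) = cv hF v (a n) := by
  choose ν y hν hν' hsc using fun j => chain0_scale v (a j)
  have key : ∀ m i, n - i ≤ m → i ≤ n → a i ≠ 0 → (i = 0 ∨ ∃ e : Om k, e ≠ 0 ∧
      (∀ j < i, v.ring.valuation (ν j * e ^ j) ≤ v.ring.valuation (ν i * e ^ i)) ∧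
      ∀ j, i < j → j ≤ n → v.ring.valuation (ν j * e ^ j) < v.ring.valuation (ν i * e ^ i)) →
      cv hF v (a i) = cv hF v (a n) := by
    intro m
    induction m with
    | zero =>
      intro i h1 h2 _ _
      rw [show i = n by omega]
    | succ m ih =>
      intro i h1 h2 hai hinv
      rcases h2.eq_or_lt with h3 | h3
      · rw [h3]
      obtain ⟨e, i', he, hii', hi'n, hνi', hlt, hle, heq, hup⟩ :=
        chain0_np v.ring.valuation ν h3 (hν i hai).1 (hν n hn).1 hinv
      obtain ⟨l, hl⟩ : ∃ l, l = (ν i * e ^ i)⁻¹ := ⟨_, rfl⟩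
      have hne : ν i * e ^ i ≠ 0 := mul_ne_zero (hν i hai).1 (pow_ne_zero _ he)
      have hl1 : v.ring.valuation l * v.ring.valuation (ν i * e ^ i) = 1 := by
        rw [← map_mul, hl, inv_mul_cancel₀ hne, map_one]
      have hl0 : 0 < v.ring.valuation l :=
        zero_lt_iff.2 ((Valuation.ne_zero_iff _).2 (by rw [hl]; exact inv_ne_zero hne))
      have hVl : ∀ j, v.ring.valuation (l * e ^ j * ν j) =
          v.ring.valuation l * v.ring.valuation (ν j * e ^ j) := by
        intro j
        rw [← map_mul]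
        congr 1
        ring
      have hc : ∀ j, ∃ c : k, j ≤ n → v.At (l * e ^ j * ν j) c := by
        intro j
        by_cases hj : j ≤ n
        · have h5 : l * e ^ j * ν j ∈ v.ring := by
            rw [← v.ring.valuation_le_one_iff, hVl, ← hl1]
            exact mul_le_mul_of_nonneg_left (hle j hj) zero_le
          obtain ⟨c, hc⟩ := HasRes.res v _ h5
          exact ⟨c, fun _ => hc⟩
        · exact ⟨0, fun h => absurd h hj⟩
      choose γ hγ using hc
      have hγ0 : ∀ j ≤ n, v.ring.valuation (ν j * e ^ j) < v.ring.valuation (ν i * e ^ i) →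
          γ j = 0 := by
        intro j hj h5
        refine (hγ j hj).unique (Place.at_zero_iff.2 ?_)
        rw [Place.vanishes_iff, hVl, ← hl1]
        exact mul_lt_mul_of_pos_left h5 hl0
      have hγ1 : ∀ j ≤ n, v.ring.valuation (ν j * e ^ j) = v.ring.valuation (ν i * e ^ i) →
          γ j ≠ 0 := by
        intro j hj h5 h6
        have h7 := hγ j hj
        rw [h6, Place.at_zero_iff, Place.vanishes_iff, hVl, h5, hl1] at h7
        exact lt_irrefl _ h7
      have hai' : a i' ≠ 0 := hν' i' hνi'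
      have h5 := chain_step hF hF₀ hθ a h (e := e) (l := l) (fun j => γ j • y j)
        (fun j hj i₁ => hsc j (l * e ^ j) (γ j) (hγ j hj) i₁) (i₀ := i) (i₁ := i') hii'.le hi'n
        (smul_ne_zero (hγ1 i h2 rfl) (hν i hai).2)
        (smul_ne_zero (hγ1 i' hi'n heq) (hν i' hai').2)
        (fun j hj => by
          change γ j • y j = 0
          rw [hγ0 j (by omega) (hlt j hj), zero_smul])
        (fun j hj hjn => by
          change γ j • y j = 0
          rw [hγ0 j hjn (hup j hj hjn), zero_smul])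
      rw [h5]
      exact ih i' (by omega) hi'n hai' (Or.inr ⟨e, he,
        fun j hj => (hle j (by omega)).trans_eq heq.symm,
        fun j hj hjn => (hup j hj hjn).trans_eq heq.symm⟩)
  exact key n 0 (by omega) (Nat.zero_le _) h0 (Or.inl rfl)

/-- The polynomials with the coefficient vectors `a j`. -/
private def pol (a : ℕ → Fin 4 → Om k) (n : ℕ) (m : Fin 4) : Polynomial (Om k) :=
  ∑ j ∈ Finset.range (n + 1), Polynomial.C (a j m) * Polynomial.X ^ j

omit [IsAlgClosed k] [CharZero k] in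
private theorem eval_pol (a : ℕ → Fin 4 → Om k) (n : ℕ) (m : Fin 4) (x : Om k) :
    (pol a n m).eval x = (∑ j ∈ Finset.range (n + 1), x ^ j • a j) m := by
  unfold pol
  rw [Polynomial.eval_finsetSum, Finset.sum_apply]
  refine Finset.sum_congr rfl fun j _ => ?_
  rw [Polynomial.eval_mul, Polynomial.eval_C, Polynomial.eval_pow, Polynomial.eval_X,
    Pi.smul_apply, smul_eq_mul, mul_comm]

omit [IsAlgClosed k] [CharZero k] in
private theorem natDegree_pol (a : ℕ → Fin 4 → Om k) (n : ℕ) (m : Fin 4) :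
    (pol a n m).natDegree ≤ n := by
  unfold pol
  refine Polynomial.natDegree_sum_le_of_forall_le _ _ fun j hj => ?_
  exact (Polynomial.natDegree_C_mul_X_pow_le _ _).trans (Nat.lt_succ_iff.1 (Finset.mem_range.1 hj))

omit [IsAlgClosed k] [CharZero k] in
private theorem coeff_pol (a : ℕ → Fin 4 → Om k) (n : ℕ) (m : Fin 4) :
    (pol a n m).coeff n = a n m := by
  unfold pol
  rw [Polynomial.finsetSum_coeff, Finset.sum_eq_single n]
  · simp
  · intro j _ hj
    rw [Polynomial.coeff_C_mul, Polynomial.coeff_X_pow, if_neg hj.symm, mul_zero]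
  · intro h
    exact absurd (Finset.mem_range.2 (Nat.lt_succ_self n)) h

/-- All points of the rational curve have values in the class of the value at infinity: `chain0` for
the translated polynomials `∑ j, (s + X) ^ j a j`, the highest coefficient is the same. -/
theorem chain (hF : F.IsHomogeneous 4) (hF₀ : F₀.IsHomogeneous 4) {v : Place k (Om k)}
    {θ : Om k} (hθ : v.At θ 0) {n : ℕ} (a : ℕ → Fin 4 → Om k)
    (h : ∀ s : Om k, MvPolynomial.aeval (∑ j ∈ Finset.range (n + 1), s ^ j • a j) F +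
      θ * MvPolynomial.aeval (∑ j ∈ Finset.range (n + 1), s ^ j • a j) F₀ = 0)
    (hn : a n ≠ 0) (s : Om k) (hs : ∑ j ∈ Finset.range (n + 1), s ^ j • a j ≠ 0) :
    cv hF v (∑ j ∈ Finset.range (n + 1), s ^ j • a j) = cv hF v (a n) := by
  set b : ℕ → Fin 4 → Om k := fun j m => (Polynomial.taylor s (pol a n m)).coeff j with hb
  have hsum : ∀ x : Om k, ∑ j ∈ Finset.range (n + 1), x ^ j • b j =
      ∑ j ∈ Finset.range (n + 1), (x + s) ^ j • a j := by
    intro x
    funext m
    rw [← eval_pol a n m (x + s), ← Polynomial.taylor_eval, Finset.sum_apply,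
      Polynomial.eval_eq_sum_range' (n := n + 1)]
    · refine Finset.sum_congr rfl fun j _ => ?_
      rw [Pi.smul_apply, smul_eq_mul, mul_comm]
    · rw [Polynomial.natDegree_taylor]
      exact Nat.lt_succ_of_le (natDegree_pol a n m)
  have hb0 : b 0 = ∑ j ∈ Finset.range (n + 1), s ^ j • a j := by
    funext m
    rw [← eval_pol a n m s, hb]
    exact Polynomial.taylor_coeff_zero _ _
  have hbn : b n = a n := by
    funext m
    rw [hb]
    change (Polynomial.taylor s (pol a n m)).coeff n = a n m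
    rcases (natDegree_pol a n m).lt_or_eq with h1 | h1
    · rw [← coeff_pol a n m, Polynomial.coeff_eq_zero_of_natDegree_lt h1,
        Polynomial.coeff_eq_zero_of_natDegree_lt]
      rw [Polynomial.natDegree_taylor]
      exact h1
    · rw [← coeff_pol a n m]
      have h2 := Polynomial.coeff_taylor_natDegree (r := s) (f := pol a n m)
      rw [h1] at h2
      rw [h2, Polynomial.leadingCoeff, h1]
  have h1 := chain0 hF hF₀ hθ b (n := n) (fun x => by rw [hsum]; exact h (x + s))
    (by rw [hb0]; exact hs) (by rw [hbn]; exact hn)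
  rw [hb0, hbn] at h1
  exact h1

/-- As `chain_poly`, for the equation `F + θ F₀ = 0`. -/
theorem chain_poly_gen (hF : F.IsHomogeneous 4) (hF₀ : F₀.IsHomogeneous 4) {v : Place k (Om k)}
    {θ : Om k} (hθ : v.At θ 0) (p : Fin 4 → Polynomial (Om k))
    (h : ∀ s : Om k, MvPolynomial.aeval (fun i => (p i).eval s) F +
      θ * MvPolynomial.aeval (fun i => (p i).eval s) F₀ = 0) {s s' : Om k}
    (hs : (fun i => (p i).eval s) ≠ 0) (hs' : (fun i => (p i).eval s') ≠ 0) :
    cv hF v (fun i => (p i).eval s) = cv hF v (fun i => (p i).eval s') := by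
  set N : ℕ := Finset.univ.sup fun i => (p i).natDegree with hN
  have hle : ∀ i, (p i).natDegree ≤ N := fun i => Finset.le_sup (f := fun i => (p i).natDegree)
    (Finset.mem_univ i)
  set a : ℕ → Fin 4 → Om k := fun j i => (p i).coeff j with ha
  have hsum : ∀ x : Om k, ∑ j ∈ Finset.range (N + 1), x ^ j • a j = fun i => (p i).eval x := by
    intro x
    funext i
    rw [Finset.sum_apply, Polynomial.eval_eq_sum_range' (Nat.lt_succ_of_le (hle i))]
    refine Finset.sum_congr rfl fun j _ => ?_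
    rw [Pi.smul_apply, smul_eq_mul, mul_comm]
  have haN : a N ≠ 0 := by
    obtain ⟨i, -, hi⟩ := Finset.exists_mem_eq_sup Finset.univ Finset.univ_nonempty
      fun i => (p i).natDegree
    have hi' : (p i).natDegree = N := hi.symm
    intro h0
    have h1 : (p i).coeff N = 0 := congrFun h0 i
    rw [← hi'] at h1
    have h2 : p i = 0 := Polynomial.leadingCoeff_eq_zero.1 h1
    have hN0 : N = 0 := by rw [← hi', h2, Polynomial.natDegree_zero]
    apply hs
    rw [← hsum s, hN0]
    rw [hN0] at h0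
    simp [h0]
  have key : ∀ x : Om k, (fun i => (p i).eval x) ≠ 0 →
      cv hF v (fun i => (p i).eval x) = cv hF v (a N) := by
    intro x hx
    rw [← hsum x] at hx ⊢
    exact chain hF hF₀ hθ a (fun y => by rw [hsum]; exact h y) haN x hx
  rw [key s hs, key s' hs']

/-- The same for a vector of polynomials `p` which satisfies the equation: two of its values are
equivalent. (`p ≠ 0`; `a j` = the coefficient vectors, `n` = the last index with `a n ≠ 0`.) -/
theorem chain_poly (hF : F.IsHomogeneous 4) {v : Place k (Om k)} (p : Fin 4 → Polynomial (Om k))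
    (h : ∀ s : Om k, MvPolynomial.aeval (fun i => (p i).eval s) F = 0) {s s' : Om k}
    (hs : (fun i => (p i).eval s) ≠ 0) (hs' : (fun i => (p i).eval s') ≠ 0) :
    cv hF v (fun i => (p i).eval s) = cv hF v (fun i => (p i).eval s') := by
  have h0 : v.At (0 : Om k) 0 := by
    have h2 := Place.at_const (v := v) (0 : k)
    rwa [map_zero] at h2
  exact chain_poly_gen hF (F₀ := 0) (MvPolynomial.isHomogeneous_zero (R := k) (σ := Fin 4) 4) h0 p
    (fun x => by rw [h x, zero_mul, add_zero]) hs hs'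

end Pool.Agent.QRT
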