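import Mathlib

/-!
# Parametrization of a conic
-/

set_option autoImplicit false

noncomputable section

namespace Pool.Agent.QRT

open scoped Classical

section

variable {K : Type} [Field K] (A B C D E H : K)

/-- the quadratic form -/
private def cq (p : Fin 3 → K) : K :=
  B * p 0 ^ 2 + C * p 1 ^ 2 + A * p 2 ^ 2 + D * p 1 * p 2 + E * p 0 * p 2 + H * p 0 * p 1

/-- its polar form -/
private def cb (p s : Fin 3 → K) : K :=
  2 * B * p 0 * s 0 + 2 * C * p 1 * s 1 + 2 * A * p 2 * s 2 + D * (p 1 * s 2 + p 2 * s 1) +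
    E * (p 0 * s 2 + p 2 * s 0) + H * (p 0 * s 1 + p 1 * s 0)

private theorem cq_add (p s : Fin 3 → K) :
    cq A B C D E H (p + s) = cq A B C D E H p + cq A B C D E H s + cb A B C D E H p s := by
  simp only [cq, cb, Pi.add_apply]
  ring

private theorem cq_smul (a : K) (p : Fin 3 → K) :
    cq A B C D E H (a • p) = a ^ 2 * cq A B C D E H p := by
  simp only [cq, Pi.smul_apply, smul_eq_mul]
  ring

private theorem cb_self (p : Fin 3 → K) : cb A B C D E H p p = 2 * cq A B C D E H p := by
  simp only [cq, cb]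
  ring

private theorem cb_comm (p s : Fin 3 → K) : cb A B C D E H p s = cb A B C D E H s p := by
  simp only [cb]
  ring

private theorem cb_add (p s s' : Fin 3 → K) :
    cb A B C D E H p (s + s') = cb A B C D E H p s + cb A B C D E H p s' := by
  simp only [cb, Pi.add_apply]
  ring

private theorem cb_smul (a : K) (p s : Fin 3 → K) :
    cb A B C D E H p (a • s) = a * cb A B C D E H p s := by
  simp only [cb, Pi.smul_apply, smul_eq_mul]
  ring

private theorem cb_smul' (a : K) (p s : Fin 3 → K) :
    cb A B C D E H (a • p) s = a * cb A B C D E H p s := by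
  rw [cb_comm, cb_smul, cb_comm]

private theorem cb_add' (p p' s : Fin 3 → K) :
    cb A B C D E H (p + p') s = cb A B C D E H p s + cb A B C D E H p' s := by
  rw [cb_comm, cb_add, cb_comm, cb_comm A B C D E H s p']

/-- the polar form as a linear form -/
private def cl (p : Fin 3 → K) : (Fin 3 → K) →ₗ[K] K where
  toFun := cb A B C D E H p
  map_add' := cb_add A B C D E H p
  map_smul' a s := cb_smul A B C D E H a p s

private theorem cl_apply (p s : Fin 3 → K) : cl A B C D E H p s = cb A B C D E H p s := rfl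

/-- nondegenerate -/
private theorem cb_nondeg [CharZero K]
    (hdet : 4 * A * B * C + D * E * H - A * H ^ 2 - B * D ^ 2 - C * E ^ 2 ≠ 0) {p : Fin 3 → K}
    (h : cl A B C D E H p = 0) : p = 0 := by
  have e0 : 2 * B * p 0 + H * p 1 + E * p 2 = 0 := by
    have := congrArg (fun f => f (Pi.single 0 1)) h
    simp only [cl_apply, cb, LinearMap.zero_apply] at this
    simp at this
    linear_combination this
  have e1 : H * p 0 + 2 * C * p 1 + D * p 2 = 0 := by
    have := congrArg (fun f => f (Pi.single 1 1)) h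
    simp only [cl_apply, cb, LinearMap.zero_apply] at this
    simp at this
    linear_combination this
  have e2 : E * p 0 + D * p 1 + 2 * A * p 2 = 0 := by
    have := congrArg (fun f => f (Pi.single 2 1)) h
    simp only [cl_apply, cb, LinearMap.zero_apply] at this
    simp at this
    linear_combination this
  have h2 : (2 : K) ≠ 0 := two_ne_zero
  have hd : 2 * (4 * A * B * C + D * E * H - A * H ^ 2 - B * D ^ 2 - C * E ^ 2) ≠ 0 :=
    mul_ne_zero h2 hdet
  funext i
  fin_cases i
  · refine (mul_eq_zero.1 (?_ : (2 * (4 * A * B * C + D * E * H - A * H ^ 2 - B * D ^ 2 -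
      C * E ^ 2)) * p 0 = 0)).resolve_left hd
    linear_combination (4 * A * C - D ^ 2) * e0 - (2 * A * H - D * E) * e1 +
      (H * D - 2 * C * E) * e2
  · refine (mul_eq_zero.1 (?_ : (2 * (4 * A * B * C + D * E * H - A * H ^ 2 - B * D ^ 2 -
      C * E ^ 2)) * p 1 = 0)).resolve_left hd
    linear_combination -(2 * A * H - D * E) * e0 + (4 * A * B - E ^ 2) * e1 -
      (2 * B * D - H * E) * e2
  · refine (mul_eq_zero.1 (?_ : (2 * (4 * A * B * C + D * E * H - A * H ^ 2 - B * D ^ 2 -
      C * E ^ 2)) * p 2 = 0)).resolve_left hd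
    linear_combination (H * D - 2 * C * E) * e0 - (2 * B * D - H * E) * e1 +
      (4 * B * C - H ^ 2) * e2

/-- a point of the conic -/
private theorem exists_cq [IsAlgClosed K] [CharZero K] :
    ∃ p : Fin 3 → K, p ≠ 0 ∧ cq A B C D E H p = 0 := by
  by_cases hB : B = 0
  · refine ⟨![1, 0, 0], ?_, ?_⟩
    · intro h
      exact one_ne_zero (congrFun h 0)
    · simp [cq, hB]
  · obtain ⟨s, hs⟩ := IsAlgClosed.exists_pow_nat_eq (H ^ 2 - 4 * B * C) (n := 2) two_pos
    refine ⟨![-H + s, 2 * B, 0], ?_, ?_⟩
    · intro h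
      exact mul_ne_zero two_ne_zero hB (congrFun h 1)
    · change B * (-H + s) ^ 2 + C * (2 * B) ^ 2 + A * 0 ^ 2 + D * (2 * B) * 0 +
        E * (-H + s) * 0 + H * (-H + s) * (2 * B) = 0
      linear_combination B * hs

end

/-- A nondegenerate conic over an algebraically closed field of characteristic zero has a quadratic
parametrization. Proof: choose a point `c₂` of the conic (fix two coordinates such that the third is a
root of a quadratic equation, or a zero of a binary form). Let `b` be the polar form of `q`. For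
independent `d₁`, `d₂` which complete `c₂` to a basis the second intersection of the line through `c₂`
with the direction `d = r d₁ + d₂` is `q(d) c₂ - b(c₂, d) d`. Choose `d₁` in the tangent line of `c₂`
(`b(c₂, d₁) = 0`, then `q(d₁) ≠ 0`, otherwise the conic contains a line, and its determinant is
zero), and `b(c₂, d₂) ≠ 0`. Then the polynomial `q(r d₁ + d₂) c₂ - b(c₂, d₂) (r d₁ + d₂)` has the
coefficient `q(d₁) c₂` at `r²`, the coefficient vectors are independent, and all points except `c₂` are
obtained for some `r`: a point is `α c₂ + β (r d₁ + d₂)` or `α c₂ + β d₁`, in the second case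
`β² q(d₁) = 0`. -/
theorem exists_conic {K : Type} [Field K] [IsAlgClosed K] [CharZero K] {A B C D E H : K}
    (hdet : 4 * A * B * C + D * E * H - A * H ^ 2 - B * D ^ 2 - C * E ^ 2 ≠ 0) :
    ∃ c : Fin 3 → Fin 3 → K, LinearIndependent K c ∧
      (∀ r : K, ∀ p : Fin 3 → K, p = c 0 + r • c 1 + r ^ 2 • c 2 →
        B * p 0 ^ 2 + C * p 1 ^ 2 + A * p 2 ^ 2 + D * p 1 * p 2 + E * p 0 * p 2 +
          H * p 0 * p 1 = 0) ∧
      ∀ p : Fin 3 → K, p ≠ 0 →
        B * p 0 ^ 2 + C * p 1 ^ 2 + A * p 2 ^ 2 + D * p 1 * p 2 + E * p 0 * p 2 +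
          H * p 0 * p 1 = 0 →
        (∃ r a : K, a ≠ 0 ∧ p = a • (c 0 + r • c 1 + r ^ 2 • c 2)) ∨
          ∃ a : K, a ≠ 0 ∧ p = a • c 2 := by
  obtain ⟨u, hu, hqu⟩ := exists_cq A B C D E H
  have hf : cl A B C D E H u ≠ 0 := fun h => hu (cb_nondeg A B C D E H hdet h)
  -- the vector outside of the tangent line
  obtain ⟨d₂, hd₂⟩ : ∃ d₂, cb A B C D E H u d₂ = 1 := by
    obtain ⟨x, hx⟩ := DFunLike.ne_iff.1 hf
    rw [LinearMap.zero_apply, cl_apply] at hx
    exact ⟨(cb A B C D E H u x)⁻¹ • x, by rw [cb_smul, inv_mul_cancel₀ hx]⟩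
  -- the vector in the tangent line
  obtain ⟨d₁, hd₁, hd₁u⟩ : ∃ d₁, cb A B C D E H u d₁ = 0 ∧ d₁ ∉ Submodule.span K {u} := by
    by_contra hcon
    push Not at hcon
    have h1 : (cl A B C D E H u).ker ≤ Submodule.span K {u} := fun x hx =>
      hcon x (LinearMap.mem_ker.1 hx)
    have h2 := Submodule.finrank_mono h1
    rw [finrank_span_singleton hu] at h2
    have h3 := (cl A B C D E H u).finrank_range_add_finrank_ker
    have h4 := Submodule.finrank_le (cl A B C D E H u).range
    rw [Module.finrank_self] at h4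
    rw [Module.finrank_fin_fun] at h3
    omega
  have hli : ∀ α β γ : K, α • u + β • d₁ + γ • d₂ = 0 → α = 0 ∧ β = 0 ∧ γ = 0 := by
    intro α β γ h
    have h1 : cb A B C D E H u (α • u + β • d₁ + γ • d₂) = γ := by
      rw [cb_add, cb_add, cb_smul, cb_smul, cb_smul, cb_self, hqu, hd₁, hd₂]
      ring
    have hγ : γ = 0 := by
      rw [← h1, h]
      simp [cb]
    subst hγ
    have hβ : β = 0 := by
      by_contra hβ
      apply hd₁u
      rw [Submodule.mem_span_singleton]
      refine ⟨-(β⁻¹ * α), ?_⟩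
      have h2 : β • d₁ = -(α • u) := by
        rw [zero_smul, add_zero] at h
        exact eq_neg_of_add_eq_zero_right h
      calc -(β⁻¹ * α) • u = β⁻¹ • (-(α • u)) := by rw [neg_smul, smul_neg, smul_smul]
        _ = β⁻¹ • (β • d₁) := by rw [h2]
        _ = d₁ := by rw [smul_smul, inv_mul_cancel₀ hβ, one_smul]
    subst hβ
    refine ⟨?_, rfl, rfl⟩
    rw [zero_smul, zero_smul, add_zero, add_zero] at h
    exact (smul_eq_zero.1 h).resolve_right hu
  have hbasis : LinearIndependent K ![u, d₁, d₂] := by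
    rw [Fintype.linearIndependent_iff]
    intro g hg
    rw [Fin.sum_univ_three] at hg
    have h := hli (g 0) (g 1) (g 2) hg
    intro i
    fin_cases i
    · exact h.1
    · exact h.2.1
    · exact h.2.2
  have hspan : ∀ p : Fin 3 → K, ∃ α β γ : K, p = α • u + β • d₁ + γ • d₂ := by
    intro p
    have h1 : Submodule.span K (Set.range ![u, d₁, d₂]) = ⊤ :=
      hbasis.span_eq_top_of_card_eq_finrank (by simp)
    have hp : p ∈ Submodule.span K (Set.range ![u, d₁, d₂]) := by
      rw [h1]
      exact Submodule.mem_top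
    rw [Submodule.mem_span_range_iff_exists_fun] at hp
    obtain ⟨c, hc⟩ := hp
    refine ⟨c 0, c 1, c 2, ?_⟩
    rw [← hc, Fin.sum_univ_three]
    rfl
  -- the tangent line is not contained in the conic
  have hq₁ : cq A B C D E H d₁ ≠ 0 := by
    intro h0
    have h1 : cl A B C D E H (d₁ + (-cb A B C D E H d₁ d₂) • u) = 0 := by
      refine LinearMap.ext fun p => ?_
      obtain ⟨α, β, γ, rfl⟩ := hspan p
      rw [cl_apply, LinearMap.zero_apply]
      simp only [cb_add, cb_add', cb_smul, cb_smul', cb_self, hqu, h0, hd₁, hd₂]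
      rw [cb_comm A B C D E H d₁ u, hd₁]
      ring
    have h2 := cb_nondeg A B C D E H hdet h1
    have h3 := hli (-cb A B C D E H d₁ d₂) 1 0 (by
      rw [← h2, one_smul, zero_smul, add_zero, add_comm])
    exact one_ne_zero h3.2.1
  refine ⟨![cq A B C D E H d₂ • u - d₂, cb A B C D E H d₁ d₂ • u - d₁, cq A B C D E H d₁ • u],
    ?_, ?_, ?_⟩
  · rw [Fintype.linearIndependent_iff]
    intro g hg
    rw [Fin.sum_univ_three] at hg
    have h := hli (g 0 * cq A B C D E H d₂ + g 1 * cb A B C D E H d₁ d₂ +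
      g 2 * cq A B C D E H d₁) (-g 1) (-g 0) (by
        rw [← hg]
        change _ = g 0 • (cq A B C D E H d₂ • u - d₂) + g 1 • (cb A B C D E H d₁ d₂ • u - d₁) +
          g 2 • (cq A B C D E H d₁ • u)
        module)
    have h0 : g 0 = 0 := neg_eq_zero.1 h.2.2
    have h1 : g 1 = 0 := neg_eq_zero.1 h.2.1
    have h2 : g 2 = 0 := by
      have h3 := h.1
      rw [h0, h1, zero_mul, zero_mul, zero_add, zero_add] at h3
      exact (mul_eq_zero.1 h3).resolve_right hq₁
    intro i
    fin_cases i
    · exact h0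
    · exact h1
    · exact h2
  · intro r p hp
    change cq A B C D E H p = 0
    have h1 : p = (cq A B C D E H d₂ + r * cb A B C D E H d₁ d₂ + r ^ 2 * cq A B C D E H d₁) • u +
        (-1 : K) • (r • d₁ + d₂) := by
      rw [hp]
      change (cq A B C D E H d₂ • u - d₂) + r • (cb A B C D E H d₁ d₂ • u - d₁) +
        r ^ 2 • (cq A B C D E H d₁ • u) = _
      module
    rw [h1]
    simp only [cq_add, cq_smul, cb_add, cb_smul, cb_smul', hqu, hd₁, hd₂]
    ring
  · intro p hp0 hp
    change cq A B C D E H p = 0 at hp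
    obtain ⟨α, β, γ, rfl⟩ := hspan p
    simp only [cq_add, cq_smul, cb_add', cb_smul, cb_smul', hqu, hd₁, hd₂] at hp
    by_cases hγ : γ = 0
    · right
      subst hγ
      have hβ : β = 0 := by
        have h1 : β ^ 2 * cq A B C D E H d₁ = 0 := by linear_combination hp
        exact (pow_eq_zero_iff two_ne_zero).1 ((mul_eq_zero.1 h1).resolve_right hq₁)
      subst hβ
      have hα : α ≠ 0 := by
        rintro rfl
        apply hp0
        simp
      refine ⟨α / cq A B C D E H d₁, div_ne_zero hα hq₁, ?_⟩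
      change _ = (α / cq A B C D E H d₁) • (cq A B C D E H d₁ • u)
      rw [smul_smul, div_mul_cancel₀ _ hq₁]
      simp
    · left
      refine ⟨β / γ, -γ, neg_ne_zero.2 hγ, ?_⟩
      change _ = (-γ) • ((cq A B C D E H d₂ • u - d₂) +
        (β / γ) • (cb A B C D E H d₁ d₂ • u - d₁) + (β / γ) ^ 2 • (cq A B C D E H d₁ • u))
      have h1 : α = -γ * (cq A B C D E H d₂ + (β / γ) * cb A B C D E H d₁ d₂ +
          (β / γ) ^ 2 * cq A B C D E H d₁) := by
        field_simp
        linear_combination hp
      have h2 : β • d₁ = (γ * (β / γ)) • d₁ := by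
        rw [mul_div_cancel₀ _ hγ]
      rw [h2, h1]
      module

end Pool.Agent.QRT
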