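import Pool.Agent.QRT.Nf

/-!
# The planes cover the space
-/

set_option autoImplicit false

noncomputable section

namespace Pool.Agent.QRT

open Pool.Agent.ZCyc Pool.Agent.Dess Pool.Agent.GT Pool.Agent.CUB
open Pool.Agent.VFP (Om tt)
open scoped Classical

variable {k : Type} [Field k] [IsAlgClosed k] [CharZero k]

/-- Every point is in some limit of a plane which is not constant. Proof: let `η ≠ 0` be the equation of
`W` over `Om k`, and `σ = ∑ η i x i`. If `σ = 0` then `x` (as a constant vector) is in `W`, every place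
works. Otherwise `η / σ` is not constant (it would be a constant equation of `W`, but `Ncst W`), so by
`pole` there are a place `v` and `l` with value zero such that `l η / σ` has a value `η' ≠ 0`. Then
`∑ η' i x i` is the value of `l`, zero, and `limW v W` is the plane with the equation `η'`
(`limW v W` is contained in this plane, and the dimensions agree, `finrank_limW`). -/
theorem cover {W : Submodule (Om k) (Fin 4 → Om k)} (hW : Module.finrank (Om k) W = 3)
    (hn : Ncst W) (x : Fin 4 → k) : ∃ v : Place k (Om k), x ∈ limW v W := by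
  have hker : ∀ {K : Type} [Field K] (f : (Fin 4 → K) →ₗ[K] K), f ≠ 0 →
      Module.finrank K (LinearMap.ker f) = 3 := by
    intro K _ f hf
    have h1 := LinearMap.finrank_range_add_finrank_ker f
    rw [LinearMap.range_eq_top.2 (LinearMap.surjective hf), finrank_top, Module.finrank_self,
      Module.finrank_fin_fun] at h1
    omega
  have hlt : W < ⊤ := by
    refine lt_top_iff_ne_top.2 fun h => ?_
    rw [h, finrank_top, Module.finrank_fin_fun] at hW
    omega
  obtain ⟨f, hf, hfW⟩ := Submodule.exists_le_ker_of_lt_top W hlt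
  have hWf : W = LinearMap.ker f := Submodule.eq_of_le_of_finrank_eq hfW (by rw [hW, hker f hf])
  obtain ⟨η, hη⟩ : ∃ η : Fin 4 → Om k, ∀ y, f y = ∑ i, η i * y i := by
    refine ⟨fun i => f (fun j => if i = j then 1 else 0), fun y => ?_⟩
    rw [LinearMap.pi_apply_eq_sum_univ f y]
    exact Finset.sum_congr rfl fun i _ => by rw [smul_eq_mul, mul_comm]
  have hη0 : η ≠ 0 := by
    rintro rfl
    apply hf
    ext y
    simp [hη]
  have hWm : ∀ y, y ∈ W ↔ ∑ i, η i * y i = 0 := by
    intro y
    rw [hWf, LinearMap.mem_ker, hη]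
  -- a vector proportional to `η` is not constant
  have hnc : ∀ c : Om k, c ≠ 0 → ¬ ∃ a : Fin 4 → k, ∀ i, (c * η i) = algebraMap k (Om k) (a i) := by
    rintro c hc ⟨a, ha⟩
    refine hn ⟨a, ?_, fun y hy => ?_⟩
    · rintro rfl
      apply hη0
      funext i
      have := ha i
      rw [Pi.zero_apply, map_zero] at this
      exact (mul_eq_zero.1 this).resolve_left hc
    · have h1 := (hWm y).1 hy
      calc ∑ i, algebraMap k (Om k) (a i) * y i = c * ∑ i, η i * y i := by
            rw [Finset.mul_sum]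
            exact Finset.sum_congr rfl fun i _ => by rw [← ha i, mul_assoc]
        _ = 0 := by rw [h1, mul_zero]
  have h00 : ∀ v : Place k (Om k), v.At 0 0 := by
    intro v
    have h2 := Place.at_const (v := v) (0 : k)
    rwa [map_zero] at h2
  by_cases hσ : ∑ i, η i * algebraMap k (Om k) (x i) = 0
  · obtain ⟨v, -⟩ := pole (hnc 1 one_ne_zero)
    exact ⟨v, mem_limW.2 ⟨fun i => algebraMap k (Om k) (x i), (hWm _).2 hσ,
      fun i => Place.at_const (x i)⟩⟩
  · set σ := ∑ i, η i * algebraMap k (Om k) (x i) with hσd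
    obtain ⟨v, l, η', hl, hl0, hη'0, hv⟩ := pole (hnc σ⁻¹ (inv_ne_zero hσ))
    refine ⟨v, ?_⟩
    let f' : (Fin 4 → k) →ₗ[k] k := ∑ i, η' i • LinearMap.proj i
    have hf' : ∀ b, f' b = ∑ i, η' i * b i := by
      intro b
      simp [f']
    have hf'0 : f' ≠ 0 := by
      intro h
      apply hη'0
      funext i
      have h1 := hf' (Pi.single i 1)
      rw [h] at h1
      simpa [Pi.single_apply] using h1.symm
    have hle : limW v W ≤ LinearMap.ker f' := by
      intro b hb
      obtain ⟨a, haW, hab⟩ := mem_limW.1 hb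
      rw [LinearMap.mem_ker, hf']
      have h1 : v.At (∑ i, l * (σ⁻¹ * η i) * a i) (∑ i, η' i * b i) :=
        Place.At.sum fun i _ => (hv i).mul (hab i)
      have h2 : ∑ i, l * (σ⁻¹ * η i) * a i = 0 := by
        calc ∑ i, l * (σ⁻¹ * η i) * a i = l * σ⁻¹ * ∑ i, η i * a i := by
              rw [Finset.mul_sum]
              exact Finset.sum_congr rfl fun i _ => by ring
          _ = 0 := by rw [(hWm a).1 haW, mul_zero]
      rw [h2] at h1
      exact Place.At.unique h1 (h00 v)
    have heq : limW v W = LinearMap.ker f' :=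
      Submodule.eq_of_le_of_finrank_eq hle (by rw [finrank_limW, hW, hker f' hf'0])
    rw [heq, LinearMap.mem_ker, hf']
    have h1 : v.At (∑ i, l * (σ⁻¹ * η i) * algebraMap k (Om k) (x i)) (∑ i, η' i * x i) :=
      Place.At.sum fun i _ => (hv i).mul (Place.at_const (x i))
    have h2 : ∑ i, l * (σ⁻¹ * η i) * algebraMap k (Om k) (x i) = l := by
      calc ∑ i, l * (σ⁻¹ * η i) * algebraMap k (Om k) (x i) =
            l * σ⁻¹ * ∑ i, η i * algebraMap k (Om k) (x i) := by
            rw [Finset.mul_sum]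
            exact Finset.sum_congr rfl fun i _ => by ring
        _ = l := by
            rw [← hσd, mul_assoc, inv_mul_cancel₀ hσ, mul_one]
    rw [h2] at h1
    exact Place.At.unique h1 hl0

variable {F : MvPolynomial (Fin 4) k} {G : Fin 3 → Fin 4 → Om k} {a b e : Polynomial (Om k)}

omit [IsAlgClosed k] [CharZero k] in
/-- finitely many representatives of the zeros of `F` on a line -/
private theorem line_pts (hF : F.IsHomogeneous 4) (A B : Fin 4 → Om k) :
    ∃ Δ : Finset (Fin 4 → Om k), (∃ x y : Om k, MvPolynomial.aeval (x • A + y • B) F ≠ 0) →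
      ∀ x y : Om k, MvPolynomial.aeval (x • A + y • B) F = 0 →
        ∃ σ ∈ Δ, ∃ c : Om k, x • A + y • B = c • σ := by
  by_cases h : ∃ x y : Om k, MvPolynomial.aeval (x • A + y • B) F ≠ 0
  · obtain ⟨κ, α, β, hκ, hne, hfac⟩ := line_fac hF A B h
    refine ⟨Finset.univ.image fun i => α i • A + β i • B, fun _ x y hxy => ?_⟩
    rw [hfac] at hxy
    have h1 : ∏ i, (β i * x - α i * y) = 0 := (mul_eq_zero.1 hxy).resolve_left hκ
    obtain ⟨i, -, hi⟩ := Finset.prod_eq_zero_iff.1 h1
    refine ⟨α i • A + β i • B, Finset.mem_image_of_mem _ (Finset.mem_univ i), ?_⟩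
    have h2 : β i * x = α i * y := sub_eq_zero.1 hi
    by_cases hα : α i = 0
    · have hβ : β i ≠ 0 := (hne i).resolve_left (not_not.2 hα)
      have hx : x = 0 := by
        rw [hα, zero_mul] at h2
        exact (mul_eq_zero.1 h2).resolve_left hβ
      refine ⟨y / β i, ?_⟩
      rw [hα, hx, zero_smul, zero_add, zero_add, smul_smul, div_mul_cancel₀ _ hβ]
    · refine ⟨x / α i, ?_⟩
      rw [smul_add, smul_smul, smul_smul, div_mul_cancel₀ _ hα]
      congr 2
      rw [div_mul_eq_mul_div, mul_comm x, h2, mul_div_cancel_left₀ _ hα]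
  · exact ⟨∅, fun h' => absurd h' h⟩

/-- a point with the value `x` is not on a line where `F` vanishes -/
private theorem off_line (hF : Sm F) {v : Place k (Om k)} {x : Fin 4 → k} (hx0 : x ≠ 0)
    (hl : ¬ OnL F x) {A B : Fin 4 → Om k} (hAB : LinearIndependent (Om k) ![A, B])
    {p q : Om k} (hP : ∀ i, v.At ((p • A + q • B) i) (x i))
    (h : ∀ x y : Om k, MvPolynomial.aeval (x • A + y • B) F = 0) : False := by
  have h1 : ∀ i, v.At (1 * (p • A + q • B) i) (x i) := fun i => by
    rw [one_mul]
    exact hP i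
  obtain ⟨h0, c, hc, h2⟩ := vl_eq h1 hx0
  have hpq : p ≠ 0 ∨ q ≠ 0 := by
    by_contra hcon
    push Not at hcon
    apply h0
    rw [hcon.1, hcon.2, zero_smul, zero_smul, add_zero]
  obtain ⟨A₁, B₁, hli, hz, s, t, hst⟩ := line_v' hF v hAB h hpq
  apply hl
  refine ⟨A₁, B₁, hli, hz, c⁻¹ * s, c⁻¹ * t, ?_⟩
  rw [h2] at hst
  rw [mul_smul, mul_smul, ← smul_add, ← hst, smul_smul, inv_mul_cancel₀ hc, one_smul]

omit [IsAlgClosed k] [CharZero k] in
private theorem li_a (h : LinearIndependent (Om k) G) :
    LinearIndependent (Om k) ![G 0, G 1] := by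
  rw [LinearIndependent.pair_iff]
  intro s t hst
  have h1 := Fintype.linearIndependent_iff.1 h ![s, t, 0] (by
    rw [Fin.sum_univ_three]
    simpa using hst)
  exact ⟨h1 0, h1 1⟩

omit [IsAlgClosed k] [CharZero k] in
private theorem li_b (h : LinearIndependent (Om k) G) (c : Om k) :
    LinearIndependent (Om k) ![G 1, c • G 0 + G 2] := by
  rw [LinearIndependent.pair_iff]
  intro s t hst
  have h1 := Fintype.linearIndependent_iff.1 h ![t * c, s, t] (by
    rw [Fin.sum_univ_three]
    simp only [Matrix.cons_val_zero, Matrix.cons_val_one, Matrix.cons_val_two, Matrix.head_cons,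
      Matrix.tail_cons]
    rw [← hst, smul_add, smul_smul]
    abel)
  exact ⟨h1 1, h1 2⟩

/-- A point `x` of the surface in the limit of the plane, which is not on a line of the surface, is the
value of a point `P = (s, t, 1)` of the plane section, and `s` is not in a given finite set. Proof:
`exists_dir`, `lift_pt` (with `θ = 0`, `F₀ = F`). The line `u = 0` of the plane (spanned by `G 0`, `G 1`), and
the lines `s = c` (spanned by `G 1` and `c G 0 + G 2`) for `c` in the finite set: if `F` is zero on such a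
line and `P` is on it then the value of `P` is on a line of the surface (`line_v'`), a contradiction
(`x` is proportional to `vl v P`). Otherwise there are only finitely many points of this line with
`F = 0`, up to proportionality (`line_fac`); take the finite set `Γ` of all these points for `lift_pt`.
So `P = s' G 0 + t' G 1 + u' G 2` with `u' ≠ 0`; divide by `u'`. If `a(s) = b(s) = e(s) = 0` then `F` is
zero on the line through `P` and `G 1` (`Nf.hom`), again by `line_v'`. -/
theorem good_pt (hF : Sm F) (h : Nf F G a b e) {v : Place k (Om k)} {x : Fin 4 → k}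
    (hx : x ∈ limW v (Submodule.span (Om k) (Set.range G))) (hx0 : x ≠ 0)
    (hFx : MvPolynomial.aeval x F = 0) (hl : ¬ OnL F x) (Γ : Finset (Om k)) :
    ∃ s t l : Om k, s ∉ Γ ∧ MvPolynomial.aeval (pP G s t) F = 0 ∧
      (∀ i, v.At (l * pP G s t i) (x i)) ∧
      ¬ (a.eval s = 0 ∧ b.eval s = 0 ∧ e.eval s = 0) := by
  have hfr : Module.finrank k (limW v (Submodule.span (Om k) (Set.range G))) = 3 := by
    rw [finrank_limW, finrank_span_eq_card h.li, Fintype.card_fin]
  obtain ⟨y, hy, y₂, hy₂, hli, hs⟩ := exists_dir hF hfr hx hx0 hFx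
  choose Δ hΔ using fun A B : Fin 4 → Om k => line_pts (k := k) hF.hom A B
  obtain ⟨P, hPW, hPx, hP0, hPΓ⟩ := lift_pt hF.hom hF.hom (v := v) (θ := 0)
    (by simpa using Place.at_const (v := v) (0 : k)) hx hy hy₂ hli hFx hs
    (Δ (G 0) (G 1) ∪ Γ.biUnion fun c => Δ (G 1) (c • G 0 + G 2))
  rw [zero_mul, add_zero] at hP0
  have key : ∀ A B : Fin 4 → Om k, LinearIndependent (Om k) ![A, B] →
      (∀ σ ∈ Δ A B, ∀ c : Om k, P ≠ c • σ) → ∀ p q : Om k, P ≠ p • A + q • B := by
    intro A B hAB hσ p q hP
    by_cases hne : ∃ x y : Om k, MvPolynomial.aeval (x • A + y • B) F ≠ 0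
    · obtain ⟨σ, hσ', c, hc⟩ := hΔ A B hne p q (by rw [← hP]; exact hP0)
      exact hσ σ hσ' c (hP.trans hc)
    · push Not at hne
      exact off_line hF hx0 hl hAB (p := p) (q := q) (fun i => by rw [← hP]; exact hPx i) hne
  obtain ⟨w, hw⟩ := (Submodule.mem_span_range_iff_exists_fun (Om k)).1 hPW
  rw [Fin.sum_univ_three] at hw
  have hu : w 2 ≠ 0 := by
    intro hu
    refine key (G 0) (G 1) (li_a h.li) (fun σ hσ => hPΓ σ (Finset.mem_union_left _ hσ))
      (w 0) (w 1) ?_
    rw [← hw, hu, zero_smul, add_zero]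
  have hPs : P = w 2 • pP G (w 0 / w 2) (w 1 / w 2) := by
    unfold pP
    rw [← hw, smul_add, smul_add, smul_smul, smul_smul, mul_div_cancel₀ _ hu,
      mul_div_cancel₀ _ hu]
  refine ⟨w 0 / w 2, w 1 / w 2, w 2, ?_, ?_, ?_, ?_⟩
  · intro hmem
    refine key (G 1) ((w 0 / w 2) • G 0 + G 2) (li_b h.li _) (fun σ hσ => hPΓ σ
      (Finset.mem_union_right _ (Finset.mem_biUnion.2 ⟨_, hmem, hσ⟩))) (w 1) (w 2) ?_
    rw [← hw, smul_add, smul_smul, mul_div_cancel₀ _ hu]
    abel
  · have h1 := hP0
    rw [hPs, aeval_smul hF.hom] at h1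
    exact (mul_eq_zero.1 h1).resolve_left (pow_ne_zero 4 hu)
  · intro i
    have h1 := hPx i
    rw [hPs] at h1
    exact h1
  · rintro ⟨h1, h2, h3⟩
    refine off_line hF hx0 hl (li_b h.li (w 0 / w 2)) (p := w 1) (q := w 2) (v := v) ?_ ?_
    · intro i
      have h4 : w 1 • G 1 + w 2 • ((w 0 / w 2) • G 0 + G 2) = P := by
        rw [← hw, smul_add, smul_smul, mul_div_cancel₀ _ hu]
        abel
      rw [h4]
      exact hPx i
    · intro p q
      have h4 := h.hom hF.hom (w 0 / w 2) p q
      rw [h1, h2, h3] at h4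
      rw [add_comm, h4]
      ring

/-- The differences of the two points over the same `s`. -/
def OS (hF : F.IsHomogeneous 4) (G : Fin 3 → Fin 4 → Om k) (a b e : Polynomial (Om k)) :
    Submodule ℚ (CH (m := 3) {F} Unit) :=
  Submodule.span ℚ {c | ∃ (v : Place k (Om k)) (s t₁ t₂ : Om k), a.eval s ≠ 0 ∧
    (∀ t : Om k, a.eval s * t ^ 2 + b.eval s * t + e.eval s =
      a.eval s * ((t - t₁) * (t - t₂))) ∧ c = cv hF v (pP G s t₁) - cv hF v (pP G s t₂)}

/-- If `a ≠ 0`: modulo the differences all points of the surface are equivalent. Let `c = cX / 4`. For a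
point on a line: `cp_onL`. Let `x` be another point of the surface: `cover`, `good_pt` with the zeros of
`a` as `Γ`: `cp x = cv P`, `P = (s, t₁, 1)`, `P' = (s, t₂, 1)` the other point over `s`. By `Nf.two`
`cv P + cv P' = cX - 2 cv (G 1)`, and `cv P - cv P'` is in `OS`. So it is enough that `cv (G 1) - c` is in `OS` for
every place `v`. Let `n = vl v (G 1)`, a point of the surface in the limit of the plane. If `n` is on a
line: `cp_onL`. Otherwise apply the same to `x = n` and this place `v`: `cp n = cv P`,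
`cp n + cv P' = cX - 2 cp n`, so `cv P - cv P' = 4 cp n - cX`. -/
theorem cp_mem (hF : Sm F) (h : Nf F G a b e) (ha : a ≠ 0) {x : Fin 4 → k} (hx : x ≠ 0)
    (hFx : MvPolynomial.aeval x F = 0) :
    cp hF.hom x - (1 / 4 : ℚ) • cX hF ∈ OS hF.hom G a b e := by
  -- the class of a point on a line
  have hline : ∀ y : Fin 4 → k, y ≠ 0 → OnL F y → cp hF.hom y = (1 / 4 : ℚ) • cX hF := by
    intro y hy hl
    rw [← cp_onL hF hy hl, smul_smul]
    norm_num
  -- a point which is not on a line, in the limit at `v`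
  have hgen : ∀ (v : Place k (Om k)) (y : Fin 4 → k), y ≠ 0 → MvPolynomial.aeval y F = 0 →
      ¬ OnL F y → y ∈ limW v (Submodule.span (Om k) (Set.range G)) →
      cp hF.hom y - ((1 / 2 : ℚ) • cX hF - cv hF.hom v (G 1)) ∈ OS hF.hom G a b e := by
    intro v y hy hFy hl hlim
    obtain ⟨s, t, l, hs, hP, hval, -⟩ := good_pt hF h hlim hy hFy hl a.roots.toFinset
    have has : a.eval s ≠ 0 := by
      intro h0
      apply hs
      rw [Multiset.mem_toFinset, Polynomial.mem_roots ha]
      exact h0
    have hP' : a.eval s * t ^ 2 + b.eval s * t + e.eval s = 0 := by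
      rw [← h.eq s t]
      exact hP
    have hsplit : ∀ t' : Om k, a.eval s * t' ^ 2 + b.eval s * t' + e.eval s =
        a.eval s * ((t' - t) * (t' - (-(b.eval s / a.eval s) - t))) := by
      intro t'
      have h1 : a.eval s * (b.eval s / a.eval s) = b.eval s := mul_div_cancel₀ _ has
      have h2 : a.eval s * ((t' - t) * (t' - (-(b.eval s / a.eval s) - t))) =
          a.eval s * t' ^ 2 - a.eval s * t ^ 2 + (a.eval s * (b.eval s / a.eval s)) * (t' - t) := by
        ring
      rw [h2, h1]
      linear_combination hP'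
    have h2 := Nf.two hF h v has hsplit
    have h3 : cv hF.hom v (pP G s t) - cv hF.hom v (pP G s (-(b.eval s / a.eval s) - t)) ∈
        OS hF.hom G a b e :=
      Submodule.subset_span ⟨v, s, t, _, has, hsplit, rfl⟩
    have h4 : cp hF.hom y = cv hF.hom v (pP G s t) := (cv_eq hF.hom hval hy).symm
    have h5 : cp hF.hom y - ((1 / 2 : ℚ) • cX hF - cv hF.hom v (G 1)) =
        (1 / 2 : ℚ) • (cv hF.hom v (pP G s t) -
          cv hF.hom v (pP G s (-(b.eval s / a.eval s) - t))) := by
      rw [h4, ← h2]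
      module
    rw [h5]
    exact Submodule.smul_mem _ _ h3
  -- the point `G 1`
  have hG1 : ∀ v : Place k (Om k),
      cv hF.hom v (G 1) - (1 / 4 : ℚ) • cX hF ∈ OS hF.hom G a b e := by
    intro v
    have hne : G 1 ≠ 0 := h.li.ne_zero 1
    have hF1 : MvPolynomial.aeval (G 1) F = 0 := by
      have h1 := Nf.hom hF.hom h 0 1 0
      simpa using h1
    obtain ⟨h0, l, hl, h1⟩ := vl_spec v hne
    have hFn : MvPolynomial.aeval (vl v (G 1)) F = 0 := by
      have h3 := aeval_at h1 F
      have h4 : (fun i => l * G 1 i) = l • G 1 := rfl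
      rw [h4, aeval_smul hF.hom, hF1, mul_zero] at h3
      have h5 := Place.at_const (v := v) (0 : k)
      rw [map_zero] at h5
      exact Place.At.unique h3 h5
    have hmem : vl v (G 1) ∈ limW v (Submodule.span (Om k) (Set.range G)) :=
      ⟨l • G 1, Submodule.smul_mem _ _ (Submodule.subset_span ⟨1, rfl⟩), h1⟩
    by_cases hOn : OnL F (vl v (G 1))
    · have h6 : cv hF.hom v (G 1) = (1 / 4 : ℚ) • cX hF := hline _ h0 hOn
      rw [h6, sub_self]
      exact Submodule.zero_mem _
    · have h6 := hgen v _ h0 hFn hOn hmem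
      have h7 : cv hF.hom v (G 1) - (1 / 4 : ℚ) • cX hF =
          (1 / 2 : ℚ) • (cp hF.hom (vl v (G 1)) - ((1 / 2 : ℚ) • cX hF - cv hF.hom v (G 1))) := by
        have h8 : cp hF.hom (vl v (G 1)) = cv hF.hom v (G 1) := rfl
        rw [h8]
        module
      rw [h7]
      exact Submodule.smul_mem _ _ h6
  by_cases hOn : OnL F x
  · rw [hline x hx hOn, sub_self]
    exact Submodule.zero_mem _
  · have hrank : Module.finrank (Om k) (Submodule.span (Om k) (Set.range G)) = 3 := by
      rw [finrank_span_eq_card h.li, Fintype.card_fin]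
    obtain ⟨v, hv⟩ := cover hrank h.nc x
    have h1 := hgen v x hx hFx hOn hv
    have h2 := hG1 v
    have h3 : cp hF.hom x - (1 / 4 : ℚ) • cX hF =
        (cp hF.hom x - ((1 / 2 : ℚ) • cX hF - cv hF.hom v (G 1))) -
          (cv hF.hom v (G 1) - (1 / 4 : ℚ) • cX hF) := by
      module
    rw [h3]
    exact Submodule.sub_mem _ h1 h2

/-- If `a = 0` then all points are equivalent: as before with `Nf.one`: `cp x = cX - 3 cv (G 1)` for the
points which are not on a line (by `good_pt`, `b(s) ≠ 0`: if `a(s) = b(s) = 0` then `e(s) = 0` because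
`F P = 0`), also for `x = n`: `4 cp n = cX`. -/
theorem cp_const (hF : Sm F) (h : Nf F G a b e) (ha : a = 0) {x : Fin 4 → k} (hx : x ≠ 0)
    (hFx : MvPolynomial.aeval x F = 0) : cp hF.hom x = (1 / 4 : ℚ) • cX hF := by
  have hline : ∀ y : Fin 4 → k, y ≠ 0 → OnL F y → cp hF.hom y = (1 / 4 : ℚ) • cX hF := by
    intro y hy hl
    rw [← cp_onL hF hy hl, smul_smul]
    norm_num
  have hgen : ∀ (v : Place k (Om k)) (y : Fin 4 → k), y ≠ 0 → MvPolynomial.aeval y F = 0 →
      ¬ OnL F y → y ∈ limW v (Submodule.span (Om k) (Set.range G)) →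
      (3 : ℚ) • cv hF.hom v (G 1) + cp hF.hom y = cX hF := by
    intro v y hy hFy hl hlim
    obtain ⟨s, t, l, -, hP, hval, hnz⟩ := good_pt hF h hlim hy hFy hl ∅
    have has : a.eval s = 0 := by rw [ha, Polynomial.eval_zero]
    have hP' : b.eval s * t + e.eval s = 0 := by
      have h1 := h.eq s t
      rw [hP, has] at h1
      linear_combination -h1
    have hbs : b.eval s ≠ 0 := by
      intro h0
      apply hnz
      refine ⟨has, h0, ?_⟩
      rw [h0, zero_mul, zero_add] at hP'
      exact hP'
    have h2 := Nf.one hF h v has hbs hP'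
    have h4 : cp hF.hom y = cv hF.hom v (pP G s t) := (cv_eq hF.hom hval hy).symm
    rw [h4]
    exact h2
  have hG1 : ∀ v : Place k (Om k), cv hF.hom v (G 1) = (1 / 4 : ℚ) • cX hF := by
    intro v
    have hne : G 1 ≠ 0 := h.li.ne_zero 1
    have hF1 : MvPolynomial.aeval (G 1) F = 0 := by
      have h1 := Nf.hom hF.hom h 0 1 0
      simpa using h1
    obtain ⟨h0, l, hl, h1⟩ := vl_spec v hne
    have hFn : MvPolynomial.aeval (vl v (G 1)) F = 0 := by
      have h3 := aeval_at h1 F
      have h4 : (fun i => l * G 1 i) = l • G 1 := rfl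
      rw [h4, aeval_smul hF.hom, hF1, mul_zero] at h3
      have h5 := Place.at_const (v := v) (0 : k)
      rw [map_zero] at h5
      exact Place.At.unique h3 h5
    have hmem : vl v (G 1) ∈ limW v (Submodule.span (Om k) (Set.range G)) :=
      ⟨l • G 1, Submodule.smul_mem _ _ (Submodule.subset_span ⟨1, rfl⟩), h1⟩
    by_cases hOn : OnL F (vl v (G 1))
    · exact hline _ h0 hOn
    · have h6 := hgen v _ h0 hFn hOn hmem
      have h8 : cp hF.hom (vl v (G 1)) = cv hF.hom v (G 1) := rfl
      rw [h8] at h6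
      rw [← h6]
      module
  by_cases hOn : OnL F x
  · exact hline x hx hOn
  · have hrank : Module.finrank (Om k) (Submodule.span (Om k) (Set.range G)) = 3 := by
      rw [finrank_span_eq_card h.li, Fintype.card_fin]
    obtain ⟨v, hv⟩ := cover hrank h.nc x
    have h1 := hgen v x hx hFx hOn hv
    rw [hG1 v] at h1
    have h2 : cp hF.hom x = cX hF - (3 : ℚ) • ((1 / 4 : ℚ) • cX hF) := eq_sub_iff_add_eq'.2 h1
    rw [h2]
    module

end Pool.Agent.QRT
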