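import Pool.Agent.CUB.LimW
import Pool.Agent.CUB.Pole
import Pool.Agent.GT.IsoT

/-!
# Points of a quartic surface and their classes

`F` is a quartic form in four variables, `X` the surface `F = 0`. `cp` is the class of a point given by
a vector, `vl` the value of a vector at a place (scaled such that it is not zero), `cv` the class of
the value. A point over `Om k` is a point of a curve with a map to the space.
-/

set_option autoImplicit false

noncomputable section

namespace Pool.Agent.QRT

open Pool.Agent.ZCyc Pool.Agent.Dess Pool.Agent.GT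
open Pool.Agent.VFP (Om tt)
open scoped Classical

variable {k : Type} [Field k]

/-- `F = 0` is a smooth quartic surface. -/
structure Sm (F : MvPolynomial (Fin 4) k) : Prop where
  hom : F.IsHomogeneous 4
  ns : ∀ x : Fin 4 → k, (∀ i, MvPolynomial.eval x (MvPolynomial.pderiv i F) = 0) → x = 0

variable {F : MvPolynomial (Fin 4) k}

theorem homX (hF : F.IsHomogeneous 4) : Hom (m := 3) {F} := by
  intro f hf
  rw [Set.mem_singleton_iff.1 hf]
  exact ⟨4, hF⟩

/-- the class of the point with the coordinates `y` (zero if `y = 0` or `y` is not on the surface) -/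
def cp (hF : F.IsHomogeneous 4) (y : Fin 4 → k) : CH (m := 3) {F} Unit :=
  if h : y ≠ 0 ∧ MvPolynomial.aeval y F = 0 then
    cl1 (m := 3) {F} (Finsupp.single (mkPt (homX hF) y h.1 fun f hf => by
      rw [Set.mem_singleton_iff.1 hf]
      exact h.2) 1)
  else 0

theorem cp_pos (hF : F.IsHomogeneous 4) {y : Fin 4 → k} (h : y ≠ 0)
    (h' : MvPolynomial.aeval y F = 0) : cp hF y =
      cl1 (m := 3) {F} (Finsupp.single (mkPt (homX hF) y h fun f hf => by
        rw [Set.mem_singleton_iff.1 hf]
        exact h') 1) := dif_pos ⟨h, h'⟩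

theorem aeval_smul {K : Type} [Field K] [Algebra k K] (hF : F.IsHomogeneous 4) (c : K)
    (y : Fin 4 → K) : MvPolynomial.aeval (c • y) F = c ^ 4 * MvPolynomial.aeval y F := by
  exact aeval_smul_homog hF c y

theorem cp_smul (hF : F.IsHomogeneous 4) {c : k} (hc : c ≠ 0) (y : Fin 4 → k) :
    cp hF (c • y) = cp hF y := by
  have h1 : (c • y ≠ 0 ∧ MvPolynomial.aeval (c • y) F = 0) ↔
      (y ≠ 0 ∧ MvPolynomial.aeval y F = 0) := by
    rw [aeval_smul hF, smul_ne_zero_iff]
    constructor
    · rintro ⟨⟨-, h⟩, h'⟩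
      exact ⟨h, (mul_eq_zero.1 h').resolve_left (pow_ne_zero 4 hc)⟩
    · rintro ⟨h, h'⟩
      exact ⟨⟨hc, h⟩, by rw [h', mul_zero]⟩
  unfold cp
  by_cases h : y ≠ 0 ∧ MvPolynomial.aeval y F = 0
  · rw [dif_pos h, dif_pos (h1.2 h)]
    congr 2
    apply Subtype.ext
    unfold mkPt
    dsimp only
    rw [Projectivization.mk_eq_mk_iff']
    exact ⟨c, rfl⟩
  · rw [dif_neg h, dif_neg fun h' => h (h1.1 h')]

theorem cp_neg (hF : F.IsHomogeneous 4) (y : Fin 4 → k) : cp hF (-y) = cp hF y := by
  rw [← neg_one_smul k y]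
  exact cp_smul hF (neg_ne_zero.2 one_ne_zero) y

section Val

variable {K : Type} [Field K] [Algebra k K] [HasRes k K] {n : ℕ}

/-- the value of a vector at a place, scaled such that it is not zero -/
def vl (v : Place k K) (y : Fin n → K) : Fin n → k :=
  if h : y ≠ 0 then (exists_scale v y h).choose_spec.choose else 0

theorem vl_spec (v : Place k K) {y : Fin n → K} (h : y ≠ 0) :
    vl v y ≠ 0 ∧ ∃ l : K, l ≠ 0 ∧ ∀ i, v.At (l * y i) (vl v y i) := by
  unfold vl
  rw [dif_pos h]
  exact ⟨(exists_scale v y h).choose_spec.choose_spec.2.1, _,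
    (exists_scale v y h).choose_spec.choose_spec.1,
    (exists_scale v y h).choose_spec.choose_spec.2.2⟩

theorem vl_eq {v : Place k K} {y : Fin n → K} {y' : Fin n → k} {l : K}
    (h : ∀ i, v.At (l * y i) (y' i)) (hy' : y' ≠ 0) :
    y ≠ 0 ∧ ∃ c : k, c ≠ 0 ∧ vl v y = c • y' := by
  have hy : y ≠ 0 := by
    rintro rfl
    apply hy'
    funext i
    have h1 := h i
    rw [Pi.zero_apply, mul_zero] at h1
    have h2 := Place.at_const (v := v) (0 : k)
    rw [map_zero] at h2
    exact Place.At.unique h1 h2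
  refine ⟨hy, ?_⟩
  obtain ⟨h0, l', -, h1⟩ := vl_spec v hy
  obtain ⟨c, hc, h2⟩ := scale_unique hy' h0 h h1
  exact ⟨c, hc, h2⟩

/-- the class of the value of a vector at a place -/
def cv (hF : F.IsHomogeneous 4) (v : Place k K) (y : Fin 4 → K) : CH (m := 3) {F} Unit :=
  cp hF (vl v y)

theorem cv_eq (hF : F.IsHomogeneous 4) {v : Place k K} {y : Fin 4 → K} {y' : Fin 4 → k} {l : K}
    (h : ∀ i, v.At (l * y i) (y' i)) (hy' : y' ≠ 0) : cv hF v y = cp hF y' := by
  obtain ⟨-, c, hc, h1⟩ := vl_eq h hy'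
  unfold cv
  rw [h1, cp_smul hF hc]

theorem cv_smul (hF : F.IsHomogeneous 4) (v : Place k K) {c : K} (hc : c ≠ 0) (y : Fin 4 → K) :
    cv hF v (c • y) = cv hF v y := by
  by_cases hy : y = 0
  · rw [hy, smul_zero]
  · obtain ⟨h0, l, hl, h1⟩ := vl_spec v hy
    have h2 : ∀ i, v.At (l * c⁻¹ * (c • y) i) (vl v y i) := by
      intro i
      have : l * c⁻¹ * (c • y) i = l * y i := by
        rw [Pi.smul_apply, smul_eq_mul]
        field_simp
      rw [this]
      exact h1 i
    rw [cv_eq hF h2 h0]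
    rfl

end Val

/-- the value of a polynomial at a place -/
theorem aeval_at {K : Type} [Field K] [Algebra k K] {ι : Type} {v : Place k K} {x : ι → K}
    {y : ι → k} (h : ∀ i, v.At (x i) (y i)) (f : MvPolynomial ι k) :
    v.At (MvPolynomial.aeval x f) (MvPolynomial.aeval y f) := by
  induction f using MvPolynomial.induction_on with
  | C a =>
    rw [MvPolynomial.aeval_C, MvPolynomial.aeval_C]
    exact Place.at_const a
  | add f g hf hg =>
    rw [map_add, map_add]
    exact hf.add hg
  | mul_X f i hf =>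
    rw [map_mul, map_mul, MvPolynomial.aeval_X, MvPolynomial.aeval_X]
    exact hf.mul (h i)

variable [IsAlgClosed k] [CharZero k]

omit [IsAlgClosed k] [CharZero k] in
theorem lim_cv {K : Type} [Field K] [Algebra k K] [HasRes k K] (hF : F.IsHomogeneous 4)
    (v : Place k K) {y : Fin 4 → K} (hy : y ≠ 0) (hy' : MvPolynomial.aeval y F = 0) :
    lim (homX hF) v (Finsupp.single (fun _ : Unit => mkPt (m := 3) (homX hF) y hy fun f hf => by
      rw [Set.mem_singleton_iff.1 hf]
      exact hy') (1 : ℚ)) = cv hF v y := by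
  obtain ⟨h0, l, hl, h1⟩ := vl_spec v hy
  have h2 : MvPolynomial.aeval (vl v y) F = 0 := by
    have h3 := aeval_at h1 F
    have h4 : (fun i => l * y i) = l • y := rfl
    rw [h4, aeval_smul hF, hy', mul_zero] at h3
    have h5 := Place.at_const (v := v) (0 : k)
    rw [map_zero] at h5
    exact Place.At.unique h3 h5
  rw [lim_single]
  unfold cv
  rw [cp_pos hF h0 h2]
  have h6 : pv (homX hF) v (mkPt (m := 3) (homX hF) y hy fun f hf => by
      rw [Set.mem_singleton_iff.1 hf]
      exact hy') = mkPt (m := 3) (homX hF) (vl v y) h0 (fun f hf => by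
      rw [Set.mem_singleton_iff.1 hf]
      exact h2) := pv_eq (isVal_mkPt h1)
  rw [h6]
  change _ = Submodule.Quotient.mk (Finsupp.mapDomain _ _)
  rw [Finsupp.mapDomain_single]

/-- Two values of points over the parameter line (`GT.bridge` for the cycle of these points). -/
theorem cv_bridge (hF : F.IsHomogeneous 4) {I : Type} [Fintype I] (y : I → Fin 4 → Om k)
    (hy : ∀ i, y i ≠ 0 ∧ MvPolynomial.aeval (y i) F = 0) {c₀ c₁ : k}
    {C₀ C₁ : CH (m := 3) {F} Unit}
    (h₀ : ∀ v : Place k (Om k), v.At (tt k) c₀ → ∑ i, cv hF v (y i) = C₀)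
    (h₁ : ∀ v : Place k (Om k), v.At (tt k) c₁ → ∑ i, cv hF v (y i) = C₁) : C₀ = C₁ := by
  have key : ∀ v : Place k (Om k), lim (homX hF) v (∑ i, Finsupp.single (fun _ : Unit =>
      mkPt (m := 3) (homX hF) (y i) (hy i).1 fun f hf => by
        rw [Set.mem_singleton_iff.1 hf]
        exact (hy i).2) (1 : ℚ)) = ∑ i, cv hF v (y i) := by
    intro v
    rw [map_sum]
    exact Finset.sum_congr rfl fun i _ => lim_cv hF v (hy i).1 (hy i).2
  exact bridge (homX hF) _ (fun v hv => by rw [key]; exact h₀ v hv)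
    (fun v hv => by rw [key]; exact h₁ v hv)

/-- the limit of the image of a point -/
theorem lmp_cv (hF : F.IsHomogeneous 4) {α B : Om k} {M : Mp (Om k) 3}
    (hM : M.Ok α B {F}) (v : Place k (Om k)) {x y : Om k} (hxy : (Ec α B).Nonsingular x y)
    (h : M.co x y ≠ 0) : lmp (homX hF) hM v (.some x y hxy) = cv hF v (M.co x y) := by
  have hN : M.Ns (.some x y hxy : (Ec α B).Point) := h
  have h0 : MvPolynomial.aeval (M.co x y) F = 0 :=
    hM.onX F rfl x y (eqn_iff.1 hxy.1)
  rw [← lim_cv hF v h h0]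
  have h6 : cyc (homX hF) hM (.some x y hxy) =
      Finsupp.single (phi (homX hF) hM (.some x y hxy) hN) 1 := dif_pos hN
  unfold lmp
  rw [h6]
  change lim (homX hF) v (Finsupp.mapDomain _ _) = _
  rw [Finsupp.mapDomain_single]
  rfl

/-- Cycles of degree zero: their classes are in every subspace which contains the differences of the
classes of the points from a fixed class. -/
theorem cl_mem (hF : F.IsHomogeneous 4) {c : CH (m := 3) {F} Unit}
    {S : Submodule ℚ (CH (m := 3) {F} Unit)}
    (h : ∀ y : Fin 4 → k, y ≠ 0 → MvPolynomial.aeval y F = 0 → cp hF y - c ∈ S)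
    {z : Pt (m := 3) {F} k →₀ ℚ} (hz : (z.sum fun _ a => a) = 0) : cl1 (m := 3) {F} z ∈ S := by
  have h1 : ∀ x : Pt (m := 3) {F} k, cl1 (m := 3) {F} (Finsupp.single x 1) - c ∈ S := by
    intro x
    have h0 : MvPolynomial.aeval x.1.rep F = 0 := x.2 F rfl
    have h2 := h x.1.rep x.1.rep_nonzero h0
    rw [cp_pos hF x.1.rep_nonzero h0] at h2
    have h3 : mkPt (m := 3) (homX hF) x.1.rep x.1.rep_nonzero (fun f hf => by
        rw [Set.mem_singleton_iff.1 hf]
        exact h0) = x := Subtype.ext (Projectivization.mk_rep x.1)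
    rwa [h3] at h2
  have h2 : cl1 (m := 3) {F} z = z.sum fun x a => a • (cl1 (m := 3) {F} (Finsupp.single x 1) - c) := by
    have h3 : (z.sum fun x a => a • (cl1 (m := 3) {F} (Finsupp.single x 1) - c)) =
        (z.sum fun x a => a • cl1 (m := 3) {F} (Finsupp.single x 1)) -
          (z.sum fun _ a => a) • c := by
      unfold Finsupp.sum
      rw [Finset.sum_smul, ← Finset.sum_sub_distrib]
      exact Finset.sum_congr rfl fun x _ => smul_sub _ _ _
    rw [h3, hz, zero_smul, sub_zero]
    conv_lhs => rw [← Finsupp.sum_single z]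
    rw [Finsupp.sum, map_sum]
    refine Finset.sum_congr rfl fun x _ => ?_
    change _ = z x • cl1 (m := 3) {F} (Finsupp.single x 1)
    rw [← map_smul, Finsupp.smul_single, smul_eq_mul, mul_one]
  rw [h2]
  exact Submodule.sum_mem _ fun x _ => Submodule.smul_mem _ _ (h1 x)

end Pool.Agent.QRT
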