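import Mathlib

/-!
# Squarefree polynomials of degree three and four in Weierstrass form
-/

set_option autoImplicit false

noncomputable section

namespace Pool.Agent.QRT

open Polynomial

variable {K : Type} [Field K] [IsAlgClosed K] [CharZero K]

/-- a product of three different linear factors, shifted and scaled -/
private theorem ella_cub {c b₁ b₂ b₃ : K} (hc : c ≠ 0) (h₁₂ : b₁ ≠ b₂) (h₁₃ : b₁ ≠ b₃)
    (h₂₃ : b₂ ≠ b₃) : ∃ μ ν α B : K, μ ≠ 0 ∧ B ^ 2 ≠ 4 * α ^ 3 ∧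
      ∀ x : K, c * ((μ * x + ν - b₁) * (μ * x + ν - b₂) * (μ * x + ν - b₃)) =
        x ^ 3 - 3 * α * x + B := by
  obtain ⟨μ, hμ⟩ := IsAlgClosed.exists_pow_nat_eq c⁻¹ (n := 3) (by norm_num)
  have hμ0 : μ ≠ 0 := by
    rintro rfl
    rw [zero_pow three_ne_zero] at hμ
    exact inv_ne_zero hc hμ.symm
  have hcμ : c * μ ^ 3 = 1 := by rw [hμ, mul_inv_cancel₀ hc]
  have h3 : (3 : K) ≠ 0 := by norm_num
  set ν : K := (b₁ + b₂ + b₃) / 3 with hν
  obtain ⟨a₁, ha₁⟩ : ∃ a, a = (b₁ - ν) / μ := ⟨_, rfl⟩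
  obtain ⟨a₂, ha₂⟩ : ∃ a, a = (b₂ - ν) / μ := ⟨_, rfl⟩
  obtain ⟨a₃, ha₃⟩ : ∃ a, a = (b₃ - ν) / μ := ⟨_, rfl⟩
  have e₁ : μ * a₁ = b₁ - ν := by rw [ha₁, mul_div_cancel₀ _ hμ0]
  have e₂ : μ * a₂ = b₂ - ν := by rw [ha₂, mul_div_cancel₀ _ hμ0]
  have e₃ : μ * a₃ = b₃ - ν := by rw [ha₃, mul_div_cancel₀ _ hμ0]
  have hsum : a₃ = -a₁ - a₂ := by
    have h1 : μ * (a₁ + a₂ + a₃) = 0 := by
      rw [mul_add, mul_add, e₁, e₂, e₃, hν]
      field_simp
      ring
    have h2 := (mul_eq_zero.1 h1).resolve_left hμ0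
    linear_combination h2
  have d₁₂ : a₁ - a₂ ≠ 0 := fun h => h₁₂ (by linear_combination e₂ - e₁ + μ * h)
  have d₁₃ : a₁ - a₃ ≠ 0 := fun h => h₁₃ (by linear_combination e₃ - e₁ + μ * h)
  have d₂₃ : a₂ - a₃ ≠ 0 := fun h => h₂₃ (by linear_combination e₃ - e₂ + μ * h)
  refine ⟨μ, ν, -(a₁ * a₂ + a₁ * a₃ + a₂ * a₃) / 3, -(a₁ * a₂ * a₃), hμ0, ?_, fun x => ?_⟩
  · intro h
    have h4 : ((a₁ - a₂) * (a₁ - a₃) * (a₂ - a₃)) ^ 2 = 0 := by
      have h5 : 27 * ((a₁ * a₂ * a₃) ^ 2) = -(4 * (a₁ * a₂ + a₁ * a₃ + a₂ * a₃) ^ 3) := by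
        field_simp at h
        linear_combination h
      rw [hsum] at h5 ⊢
      linear_combination -h5
    have h6 := pow_eq_zero_iff two_ne_zero |>.1 h4
    exact mul_ne_zero (mul_ne_zero d₁₂ d₁₃) d₂₃ h6
  · have h4 : (μ * x + ν - b₁) * (μ * x + ν - b₂) * (μ * x + ν - b₃) =
        μ ^ 3 * ((x - a₁) * (x - a₂) * (x - a₃)) := by
      have f₁ : μ * x + ν - b₁ = μ * (x - a₁) := by linear_combination e₁
      have f₂ : μ * x + ν - b₂ = μ * (x - a₂) := by linear_combination e₂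
      have f₃ : μ * x + ν - b₃ = μ * (x - a₃) := by linear_combination e₃
      rw [f₁, f₂, f₃]
      ring
    rw [h4, ← mul_assoc, hcμ, one_mul]
    have h5 : a₁ + a₂ + a₃ = 0 := by rw [hsum]; ring
    linear_combination (-x ^ 2) * h5

/-- factorization of a squarefree polynomial of degree three -/
private theorem ella_fac {D : K[X]} (hD : Squarefree D) (h3 : D.natDegree = 3) :
    ∃ c b₁ b₂ b₃ : K, c ≠ 0 ∧ b₁ ≠ b₂ ∧ b₁ ≠ b₃ ∧ b₂ ≠ b₃ ∧
      D = C c * ((X - C b₁) * (X - C b₂) * (X - C b₃)) := by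
  have hD0 : D ≠ 0 := by
    rintro rfl
    rw [natDegree_zero] at h3
    omega
  have hsep : D.Separable := PerfectField.separable_iff_squarefree.2 hD
  have hnd := Polynomial.nodup_roots hsep
  have hspl := (IsAlgClosed.splits D)
  have hcard : Multiset.card D.roots = 3 := by
    rw [← hspl.natDegree_eq_card_roots, h3]
  obtain ⟨b₁, b₂, b₃, hb⟩ := Multiset.card_eq_three.1 hcard
  have heq := hspl.eq_prod_roots
  rw [hb] at heq hnd
  refine ⟨D.leadingCoeff, b₁, b₂, b₃, leadingCoeff_ne_zero.2 hD0, ?_, ?_, ?_, ?_⟩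
  · rintro rfl
    simp at hnd
  · rintro rfl
    simp at hnd
  · rintro rfl
    simp at hnd
  · conv_lhs => rw [heq]
    simp [mul_assoc]

/-- A squarefree polynomial of degree three or four is `x ^ 3 - 3 α x + B` in a linear fractional
coordinate. -/
theorem exists_mob {D : K[X]} (hD : Squarefree D) (h3 : 3 ≤ D.natDegree)
    (h4 : D.natDegree ≤ 4) : ∃ (S T : K[X]) (α B : K), B ^ 2 ≠ 4 * α ^ 3 ∧ T ≠ 0 ∧
      (∀ x s : K, T.eval x ≠ 0 → S.eval x = s * T.eval x →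
        T.eval x ^ 4 * D.eval s = x ^ 3 - 3 * α * x + B) ∧
      ∀ s : K, D.eval s ≠ 0 → ∃ x : K, T.eval x ≠ 0 ∧ S.eval x = s * T.eval x := by
  rcases Nat.lt_or_ge D.natDegree 4 with h | h
  · obtain ⟨c, b₁, b₂, b₃, hc, h₁₂, h₁₃, h₂₃, hDe⟩ := ella_fac hD (by omega)
    obtain ⟨μ, ν, α, B, hμ, hd, hx⟩ := ella_cub hc h₁₂ h₁₃ h₂₃
    refine ⟨C μ * X + C ν, 1, α, B, hd, one_ne_zero, fun x s _ hs => ?_, fun s _ => ?_⟩
    · rw [← hx x, hDe]
      simp only [eval_one, mul_one, eval_add, eval_mul, eval_C, eval_X, eval_sub] at hs ⊢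
      rw [hs]
      ring
    · refine ⟨(s - ν) / μ, by simp, ?_⟩
      simp only [eval_one, mul_one, eval_add, eval_mul, eval_C, eval_X]
      rw [mul_div_cancel₀ _ hμ, sub_add_cancel]
  · have h5 : D.natDegree = 4 := le_antisymm h4 h
    have hdeg : D.degree ≠ 0 := by
      rw [degree_eq_natDegree (by rintro rfl; rw [natDegree_zero] at h5; omega), h5]
      norm_num
    obtain ⟨e, he⟩ := IsAlgClosed.exists_root D hdeg
    obtain ⟨D₁, hD₁⟩ := dvd_iff_isRoot.2 he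
    have hD₁0 : D₁ ≠ 0 := by
      rintro rfl
      rw [mul_zero] at hD₁
      rw [hD₁, natDegree_zero] at h5
      omega
    have hn : D₁.natDegree = 3 := by
      have h6 := congrArg natDegree hD₁
      rw [natDegree_mul (X_sub_C_ne_zero e) hD₁0, natDegree_X_sub_C, h5] at h6
      omega
    have hsq : Squarefree D₁ := hD.squarefree_of_dvd ⟨X - C e, by rw [hD₁]; ring⟩
    have heD : D₁.eval e ≠ 0 := by
      intro h6
      obtain ⟨D₂, hD₂⟩ := dvd_iff_isRoot.2 h6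
      have h7 : (X - C e) * (X - C e) ∣ D := ⟨D₂, by rw [hD₁, hD₂]; ring⟩
      have h8 := hD _ h7
      exact (not_isUnit_X_sub_C e) h8
    obtain ⟨c, e₁, e₂, e₃, hc, h₁₂, h₁₃, h₂₃, hDe⟩ := ella_fac hsq hn
    have hne : e - e₁ ≠ 0 ∧ e - e₂ ≠ 0 ∧ e - e₃ ≠ 0 := by
      rw [hDe] at heD
      simp only [eval_mul, eval_C, eval_sub, eval_X, ne_eq, mul_eq_zero, not_or] at heD
      exact ⟨heD.2.1.1, heD.2.1.2, heD.2.2⟩
    obtain ⟨n₁, n₂, n₃⟩ := hne
    have m₁ : e₁ - e ≠ 0 := fun h => n₁ (by linear_combination -h)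
    have m₂ : e₂ - e ≠ 0 := fun h => n₂ (by linear_combination -h)
    have m₃ : e₃ - e ≠ 0 := fun h => n₃ (by linear_combination -h)
    have inj : ∀ {u w : K}, u ≠ w → (u - e)⁻¹ ≠ (w - e)⁻¹ := fun h h' =>
      h (sub_left_injective (inv_injective h'))
    obtain ⟨μ, ν, α, B, hμ, hd, hx⟩ := ella_cub
      (c := c * ((e - e₁) * (e - e₂) * (e - e₃))) (b₁ := (e₁ - e)⁻¹) (b₂ := (e₂ - e)⁻¹)
      (b₃ := (e₃ - e)⁻¹) (mul_ne_zero hc (mul_ne_zero (mul_ne_zero n₁ n₂) n₃)) (inj h₁₂)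
      (inj h₁₃) (inj h₂₃)
    refine ⟨C e * (C μ * X + C ν) + 1, C μ * X + C ν, α, B, hd, ?_, fun x s hT hs => ?_,
      fun s hs => ?_⟩
    · intro h0
      have h6 := congrArg (fun p => coeff p 1) h0
      simp at h6
      exact hμ h6
    · rw [← hx x, hD₁, hDe]
      simp only [eval_one, eval_add, eval_mul, eval_C, eval_X, eval_sub] at hT hs ⊢
      set t : K := μ * x + ν with ht
      have hs' : s = e + t⁻¹ := by
        field_simp
        linear_combination -hs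
      rw [hs']
      field_simp
      ring
    · have hse : s - e ≠ 0 := by
        intro h6
        apply hs
        rw [hD₁, eval_mul, eval_sub, eval_X, eval_C, h6, zero_mul]
      refine ⟨((s - e)⁻¹ - ν) / μ, ?_, ?_⟩
      · simp only [eval_add, eval_mul, eval_C, eval_X]
        rw [mul_div_cancel₀ _ hμ, sub_add_cancel]
        exact inv_ne_zero hse
      · simp only [eval_one, eval_add, eval_mul, eval_C, eval_X]
        rw [mul_div_cancel₀ _ hμ, sub_add_cancel]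
        field_simp
        ring

end Pool.Agent.QRT
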