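import Pool.Agent.QRT.Cov
import Pool.Agent.QRT.Chain

/-!
# Homogenisation of a polynomial in one variable
-/

set_option autoImplicit false

namespace Pool.Agent.QRT

open Polynomial in
/-- the homogenisation of degree `n` of `f` at the point `(x, y)` -/
noncomputable def hgz {K : Type} [Field K] (n : ℕ) (f x y : Polynomial K) : Polynomial K :=
  ∑ i ∈ Finset.range (n + 1), C (f.coeff i) * x ^ i * y ^ (n - i)

theorem hgz_eval {K : Type} [Field K] {n : ℕ} {f : Polynomial K} (hf : f.natDegree ≤ n)
    (x y : Polynomial K) {r : K} (hy : y.eval r ≠ 0) :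
    (hgz n f x y).eval r = (y.eval r) ^ n * f.eval (x.eval r / y.eval r) := by
  unfold hgz
  rw [Polynomial.eval_finset_sum, Polynomial.eval_eq_sum_range' (Nat.lt_succ_of_le hf),
    Finset.mul_sum]
  refine Finset.sum_congr rfl fun i hi => ?_
  have hi' : i ≤ n := Nat.lt_succ_iff.1 (Finset.mem_range.1 hi)
  rw [Polynomial.eval_mul, Polynomial.eval_mul, Polynomial.eval_C, Polynomial.eval_pow,
    Polynomial.eval_pow]
  have h1 : (y.eval r) ^ n = (y.eval r) ^ (n - i) * (y.eval r) ^ i := by
    rw [← pow_add, Nat.sub_add_cancel hi']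
  rw [h1, div_pow]
  field_simp

end Pool.Agent.QRT
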