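import Pool.Agent.QRT.Cov
import Pool.Agent.QRT.Chain
import Pool.Agent.QRT.OsTwo

/-!
# Rational plane sections
-/

set_option autoImplicit false

noncomputable section

namespace Pool.Agent.QRT

open Pool.Agent.ZCyc Pool.Agent.Dess Pool.Agent.GT Pool.Agent.CUB
open Pool.Agent.VFP (Om tt)
open scoped Classical

variable {k : Type} [Field k] [IsAlgClosed k] [CharZero k]
  {F : MvPolynomial (Fin 4) k} {G : Fin 3 → Fin 4 → Om k} {a b e : Polynomial (Om k)}

/-- the vector `2 a (s G 0 + G 2) + (w - b) G 1`, proportional to the point `(s, t, 1)` with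
`w = 2 a t + b` if `a(s) ≠ 0` -/
def pW (G : Fin 3 → Fin 4 → Om k) (a b : Polynomial (Om k)) (s w : Om k) : Fin 4 → Om k :=
  (2 * a.eval s * s) • G 0 + (w - b.eval s) • G 1 + (2 * a.eval s) • G 2

omit [IsAlgClosed k] [CharZero k] in
private theorem eval_dd (s : Om k) : (b ^ 2 - 4 * a * e).eval s =
    b.eval s ^ 2 - 4 * a.eval s * e.eval s := by
  simp only [Polynomial.eval_sub, Polynomial.eval_pow, Polynomial.eval_mul, Polynomial.eval_ofNat]

/-- `F (pW s w) = (2 a)⁴ F(..) = 4 a³ .. (w² - D)`, more precisely it is zero if `w² = D(s)`,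
`D = b² - 4 a e` (for `a(s) ≠ 0` from `eq`; in general by `Nf.hom` with `w = 2 a(s)`) -/
theorem pW_on (hF : Sm F) (h : Nf F G a b e) {s w : Om k}
    (hw : w ^ 2 = (b ^ 2 - 4 * a * e).eval s) : MvPolynomial.aeval (pW G a b s w) F = 0 := by
  have h1 : pW G a b s w = (2 * a.eval s) • (s • G 0 + G 2) + (w - b.eval s) • G 1 := by
    unfold pW
    ext i
    simp only [Pi.add_apply, Pi.smul_apply, smul_eq_mul]
    ring
  rw [eval_dd] at hw
  rw [h1, Nf.hom hF.hom h]
  linear_combination 4 * a.eval s ^ 3 * hw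

/-- the two points over `s` in terms of `w` -/
theorem pW_two (h : Nf F G a b e) {s t₁ t₂ : Om k} (ha : a.eval s ≠ 0)
    (ht : ∀ t : Om k, a.eval s * t ^ 2 + b.eval s * t + e.eval s =
      a.eval s * ((t - t₁) * (t - t₂))) :
    ∃ w : Om k, w ^ 2 = (b ^ 2 - 4 * a * e).eval s ∧
      pW G a b s w = (2 * a.eval s) • pP G s t₁ ∧ pW G a b s (-w) = (2 * a.eval s) • pP G s t₂ := by
  have h0 := ht 0
  have h1 := ht 1
  have he : e.eval s = a.eval s * (t₁ * t₂) := by linear_combination h0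
  have hb : b.eval s = - (a.eval s * (t₁ + t₂)) := by linear_combination h1 - h0
  refine ⟨a.eval s * (t₁ - t₂), ?_, ?_, ?_⟩
  · rw [eval_dd, he, hb]
    ring
  · unfold pW pP
    ext i
    simp only [Pi.add_apply, Pi.smul_apply, smul_eq_mul]
    rw [hb]
    ring
  · unfold pW pP
    ext i
    simp only [Pi.add_apply, Pi.smul_apply, smul_eq_mul]
    rw [hb]
    ring

private theorem pP_ne (h : Nf F G a b e) (s t : Om k) : pP G s t ≠ 0 := by
  intro h0
  have h1 := Fintype.linearIndependent_iff.1 h.li ![s, t, 1] (by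
    rw [Fin.sum_univ_three]
    unfold pP at h0
    simpa using h0) 2
  simp at h1

/-- two values of a rational curve -/
private theorem cv_pair (hF : Sm F) (h : Nf F G a b e) (v : Place k (Om k))
    (p : Fin 4 → Polynomial (Om k))
    (hp : ∀ r : Om k, MvPolynomial.aeval (fun i => (p i).eval r) F = 0) {s t₁ t₂ c c' r r' : Om k}
    (hc : c ≠ 0) (hc' : c' ≠ 0) (h1 : (fun i => (p i).eval r) = c • pP G s t₁)
    (h2 : (fun i => (p i).eval r') = c' • pP G s t₂) :
    cv hF.hom v (pP G s t₁) - cv hF.hom v (pP G s t₂) = 0 := by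
  have h3 := chain_poly hF.hom (v := v) p hp (s := r) (s' := r')
    (by rw [h1]; exact smul_ne_zero hc (pP_ne h s t₁))
    (by rw [h2]; exact smul_ne_zero hc' (pP_ne h s t₂))
  rw [h1, h2, cv_smul hF.hom v hc, cv_smul hF.hom v hc'] at h3
  rw [h3, sub_self]

/-- `D = g² δ (X - ε)`. The point over `s` with `w = g(s) r`, `r² = δ (s - ε)`: `s = ε + r² / δ`, the vector
`pW G a b (ε + r² / δ) (g(..) r)` is a vector of polynomials in `r`; its values at `r` and `-r` are the two
points over `s`. `chain_poly`. -/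
theorem os_one (hF : Sm F) (h : Nf F G a b e) {g : Polynomial (Om k)} {δ ε : Om k} (hδ : δ ≠ 0)
    (hD : b ^ 2 - 4 * a * e = g ^ 2 * (Polynomial.C δ * (Polynomial.X - Polynomial.C ε))) :
    OS hF.hom G a b e = ⊥ := by
  unfold OS
  rw [Submodule.span_eq_bot]
  rintro c ⟨v, s, t₁, t₂, ha, ht, rfl⟩
  obtain ⟨w, hw, hw₁, hw₂⟩ := pW_two h ha ht
  have hDs : ∀ u : Om k, (b ^ 2 - 4 * a * e).eval u = g.eval u ^ 2 * (δ * (u - ε)) := by
    intro u
    rw [hD]
    simp
  obtain ⟨r, hr, hwr⟩ : ∃ r : Om k, r ^ 2 = δ * (s - ε) ∧ w = g.eval s * r := by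
    obtain ⟨r, hr⟩ := IsAlgClosed.exists_pow_nat_eq (δ * (s - ε)) (n := 2) (by norm_num)
    have h1 : w ^ 2 = (g.eval s * r) ^ 2 := by rw [hw, hDs, mul_pow, hr]
    rcases sq_eq_sq_iff_eq_or_eq_neg.1 h1 with h2 | h2
    · exact ⟨r, hr, h2⟩
    · exact ⟨-r, by rw [neg_sq, hr], by rw [h2]; ring⟩
  -- the rational curve
  let S : Polynomial (Om k) := Polynomial.C ε + Polynomial.C δ⁻¹ * Polynomial.X ^ 2
  let p : Fin 4 → Polynomial (Om k) := fun i =>
    2 * a.comp S * S * Polynomial.C (G 0 i) +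
      (g.comp S * Polynomial.X - b.comp S) * Polynomial.C (G 1 i) +
      2 * a.comp S * Polynomial.C (G 2 i)
  have hpe : ∀ u : Om k, (fun i => (p i).eval u) =
      pW G a b (ε + δ⁻¹ * u ^ 2) (g.eval (ε + δ⁻¹ * u ^ 2) * u) := by
    intro u
    have hS : S.eval u = ε + δ⁻¹ * u ^ 2 := by simp [S]
    unfold pW
    ext i
    simp only [p, Polynomial.eval_add, Polynomial.eval_sub, Polynomial.eval_mul,
      Polynomial.eval_comp, Polynomial.eval_C, Polynomial.eval_X, Polynomial.eval_ofNat, hS,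
      Pi.add_apply, Pi.smul_apply, smul_eq_mul]
  have hs : ε + δ⁻¹ * r ^ 2 = s := by
    rw [hr]
    field_simp
    ring
  have hs' : ε + δ⁻¹ * (-r) ^ 2 = s := by rw [neg_sq, hs]
  refine cv_pair hF h v p (fun u => ?_) (c := 2 * a.eval s) (c' := 2 * a.eval s) (r := r)
    (r' := -r) (mul_ne_zero two_ne_zero ha) (mul_ne_zero two_ne_zero ha) ?_ ?_
  · rw [hpe]
    refine pW_on hF h ?_
    rw [hDs]
    field_simp
    ring
  · rw [hpe, hs, ← hwr, hw₁]
  · rw [hpe, hs', mul_neg, ← hwr, hw₂]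

/-- `D = g² δ (X - ε₁) (X - ε₂)`, `ε₁ ≠ ε₂`. For `w = g(s) w'`, `w'² = δ (s - ε₁) (s - ε₂)`: if `s = ε₂` then
`w = 0` and the two points are the same. Otherwise `r = w' / (s - ε₂)`, `r² (s - ε₂) = δ (s - ε₁)`,
`s = (δ ε₁ - r² ε₂) / (δ - r²)`, `w' = r δ (ε₁ - ε₂) / (δ - r²)`. The degrees of `a`, `b` are at most two
and the degree of `g` is at most one (`dD`), so `(δ - r²)³ pW G a b s w` is a vector of polynomials in `r`;
its values at `r` and `-r` are proportional to the two points over `s` (`δ - r² ≠ 0` because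
`(δ - r²) (s - ε₂) = δ (ε₁ - ε₂)`). `chain_poly`. -/
theorem os_two (hF : Sm F) (h : Nf F G a b e) {g : Polynomial (Om k)} {δ ε₁ ε₂ : Om k}
    (hδ : δ ≠ 0) (hε : ε₁ ≠ ε₂)
    (hD : b ^ 2 - 4 * a * e = g ^ 2 *
      (Polynomial.C δ * (Polynomial.X - Polynomial.C ε₁) * (Polynomial.X - Polynomial.C ε₂))) :
    OS hF.hom G a b e = ⊥ := by
  have hF0 := hF.hom
  have hdg : g.natDegree ≤ 1 := by
    by_cases hg : g = 0
    · rw [hg, Polynomial.natDegree_zero]
      exact Nat.zero_le 1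
    · have h1 := h.dD
      rw [hD] at h1
      have hq1 : (Polynomial.X - Polynomial.C ε₁ : Polynomial (Om k)) ≠ 0 :=
        Polynomial.X_sub_C_ne_zero ε₁
      have hq2 : (Polynomial.X - Polynomial.C ε₂ : Polynomial (Om k)) ≠ 0 :=
        Polynomial.X_sub_C_ne_zero ε₂
      have hc : (Polynomial.C δ : Polynomial (Om k)) ≠ 0 := Polynomial.C_ne_zero.2 hδ
      rw [Polynomial.natDegree_mul (pow_ne_zero 2 hg) (mul_ne_zero (mul_ne_zero hc hq1) hq2),
        Polynomial.natDegree_mul (mul_ne_zero hc hq1) hq2, Polynomial.natDegree_mul hc hq1,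
        Polynomial.natDegree_pow, Polynomial.natDegree_C, Polynomial.natDegree_X_sub_C,
        Polynomial.natDegree_X_sub_C] at h1
      omega
  -- the polynomials
  set X : Polynomial (Om k) := Polynomial.C (δ * ε₁) - Polynomial.C ε₂ * Polynomial.X ^ 2 with hX
  set Y : Polynomial (Om k) := Polynomial.C δ - Polynomial.X ^ 2 with hY
  set κ : Om k := δ * (ε₁ - ε₂) with hκ
  have hXe : ∀ r, X.eval r = δ * ε₁ - ε₂ * r ^ 2 := by
    intro r
    rw [hX]
    simp
  have hYe : ∀ r, Y.eval r = δ - r ^ 2 := by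
    intro r
    rw [hY]
    simp
  have hY0 : Y ≠ 0 := by
    intro h0
    have h1 := hYe 0
    rw [h0, Polynomial.eval_zero] at h1
    apply hδ
    rw [h1]
    ring
  set p : Fin 4 → Polynomial (Om k) := fun i =>
    Polynomial.C (G 0 i) * (2 * hgz 2 a X Y * X) +
    Polynomial.C (G 1 i) * (Y * (hgz 1 g X Y * (Polynomial.C κ * Polynomial.X) - hgz 2 b X Y)) +
    Polynomial.C (G 2 i) * (2 * hgz 2 a X Y * Y) with hp
  have hpe : ∀ r : Om k, Y.eval r ≠ 0 → (fun i => (p i).eval r) =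
      (Y.eval r) ^ 3 • pW G a b (X.eval r / Y.eval r)
        (g.eval (X.eval r / Y.eval r) * (κ * r / Y.eval r)) := by
    intro r hr
    funext i
    rw [hp]
    simp only [Polynomial.eval_add, Polynomial.eval_mul, Polynomial.eval_C, Polynomial.eval_sub,
      Polynomial.eval_X, Polynomial.eval_ofNat, hgz_eval h.da X Y hr, hgz_eval h.db X Y hr,
      hgz_eval hdg X Y hr, pW, Pi.smul_apply, Pi.add_apply, smul_eq_mul]
    field_simp
  have hsq : ∀ r : Om k, Y.eval r ≠ 0 →
      (g.eval (X.eval r / Y.eval r) * (κ * r / Y.eval r)) ^ 2 =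
        (b ^ 2 - 4 * a * e).eval (X.eval r / Y.eval r) := by
    intro r hr
    rw [hD]
    simp only [Polynomial.eval_mul, Polynomial.eval_pow, Polynomial.eval_C, Polynomial.eval_sub,
      Polynomial.eval_X]
    have h1 : X.eval r / Y.eval r - ε₁ = r ^ 2 * (ε₁ - ε₂) / Y.eval r := by
      rw [eq_div_iff hr, sub_mul, div_mul_cancel₀ _ hr, hXe, hYe]
      ring
    have h2 : X.eval r / Y.eval r - ε₂ = κ / Y.eval r := by
      rw [eq_div_iff hr, sub_mul, div_mul_cancel₀ _ hr, hXe, hYe, hκ]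
      ring
    rw [h1, h2, hκ]
    ring
  have hzero : MvPolynomial.aeval p F = 0 := by
    have h1 : MvPolynomial.aeval p F * Y = 0 := by
      apply Polynomial.funext
      intro r
      rw [Polynomial.eval_mul, Polynomial.eval_zero]
      by_cases hr : Y.eval r = 0
      · rw [hr, mul_zero]
      · have h2 := MvPolynomial.comp_aeval_apply p
          ((Polynomial.aeval r : Polynomial (Om k) →ₐ[Om k] Om k).restrictScalars k) F
        simp only [AlgHom.restrictScalars_apply, Polynomial.coe_aeval_eq_eval] at h2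
        rw [h2, hpe r hr, aeval_smul hF0, pW_on hF h (hsq r hr), mul_zero, zero_mul]
    exact (mul_eq_zero.1 h1).resolve_right hY0
  have hall : ∀ r : Om k, MvPolynomial.aeval (fun i => (p i).eval r) F = 0 := by
    intro r
    have h2 := MvPolynomial.comp_aeval_apply p
      ((Polynomial.aeval r : Polynomial (Om k) →ₐ[Om k] Om k).restrictScalars k) F
    simp only [AlgHom.restrictScalars_apply, Polynomial.coe_aeval_eq_eval] at h2
    rw [← h2, hzero, Polynomial.eval_zero]
  have hpP : ∀ s t : Om k, pP G s t ≠ 0 := by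
    intro s t h0
    have hli := h.li
    rw [Fintype.linearIndependent_iff] at hli
    have h1 := hli ![s, t, 1] (by
      rw [Fin.sum_univ_three]
      simpa [pP] using h0) 2
    simp at h1
  unfold OS
  rw [Submodule.span_eq_bot]
  rintro _ ⟨v, s, t₁, t₂, ha, ht, rfl⟩
  rw [sub_eq_zero]
  obtain ⟨w, hw, hw1, hw2⟩ := pW_two h ha ht
  have h2a : 2 * a.eval s ≠ 0 := mul_ne_zero two_ne_zero ha
  rw [← cv_smul hF0 v h2a (pP G s t₁), ← cv_smul hF0 v h2a (pP G s t₂), ← hw1, ← hw2]
  by_cases hw0 : w = 0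
  · rw [hw0, neg_zero]
  · have hDs : w ^ 2 = (g.eval s) ^ 2 * (δ * (s - ε₁) * (s - ε₂)) := by
      rw [hw, hD]
      simp
    have hw20 : w ^ 2 ≠ 0 := pow_ne_zero 2 hw0
    rw [hDs] at hw20
    have hg0 : g.eval s ≠ 0 := by
      intro h0
      exact hw20 (by rw [h0]; ring)
    have hs2 : s - ε₂ ≠ 0 := by
      intro h0
      exact hw20 (by rw [h0]; ring)
    set r : Om k := w / (g.eval s * (s - ε₂)) with hr
    have hr2 : r ^ 2 * (s - ε₂) = δ * (s - ε₁) := by
      have h1 : r * (g.eval s * (s - ε₂)) = w := by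
        rw [hr, div_mul_cancel₀ _ (mul_ne_zero hg0 hs2)]
      have h2 : (g.eval s) ^ 2 * (s - ε₂) * (r ^ 2 * (s - ε₂)) =
          (g.eval s) ^ 2 * (s - ε₂) * (δ * (s - ε₁)) := by
        have h3 : (r * (g.eval s * (s - ε₂))) ^ 2 = w ^ 2 := by rw [h1]
        rw [hDs] at h3
        linear_combination h3
      exact mul_left_cancel₀ (mul_ne_zero (pow_ne_zero 2 hg0) hs2) h2
    have hYr : Y.eval r * (s - ε₂) = κ := by
      rw [hYe, hκ]
      linear_combination -hr2
    have hκ0 : κ ≠ 0 := mul_ne_zero hδ (sub_ne_zero.2 hε)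
    have hYr0 : Y.eval r ≠ 0 := by
      intro h0
      rw [h0, zero_mul] at hYr
      exact hκ0 hYr.symm
    have hsX : X.eval r / Y.eval r = s := by
      rw [div_eq_iff hYr0, hXe]
      have h1 : Y.eval r * (s - ε₂) = δ * (ε₁ - ε₂) := hYr
      rw [hYe] at h1 ⊢
      linear_combination -h1
    have hwr : g.eval s * (κ * r / Y.eval r) = w := by
      have h1 : r * (g.eval s * (s - ε₂)) = w := by
        rw [hr, div_mul_cancel₀ _ (mul_ne_zero hg0 hs2)]
      have h2 : κ * r / Y.eval r = (s - ε₂) * r := by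
        rw [← hYr, div_eq_iff hYr0]
        ring
      rw [h2]
      linear_combination h1
    have e1 : (fun i => (p i).eval r) = (Y.eval r) ^ 3 • pW G a b s w := by
      rw [hpe r hYr0, hsX, hwr]
    have hYn : Y.eval (-r) = Y.eval r := by
      rw [hYe, hYe, neg_sq]
    have hXn : X.eval (-r) = X.eval r := by
      rw [hXe, hXe, neg_sq]
    have e2 : (fun i => (p i).eval (-r)) = (Y.eval r) ^ 3 • pW G a b s (-w) := by
      rw [hpe (-r) (by rw [hYn]; exact hYr0), hYn, hXn, hsX]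
      have h1 : g.eval s * (κ * -r / Y.eval r) = -w := by
        rw [← hwr]
        ring
      rw [h1]
    have hY3 : (Y.eval r) ^ 3 ≠ 0 := pow_ne_zero 3 hYr0
    have n1 : (fun i => (p i).eval r) ≠ 0 := by
      rw [e1, hw1]
      exact smul_ne_zero hY3 (smul_ne_zero h2a (hpP s t₁))
    have n2 : (fun i => (p i).eval (-r)) ≠ 0 := by
      rw [e2, hw2]
      exact smul_ne_zero hY3 (smul_ne_zero h2a (hpP s t₂))
    have key := chain_poly hF0 (v := v) p hall n1 n2
    rw [e1, e2, cv_smul hF0 v hY3, cv_smul hF0 v hY3] at key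
    exact key

end Pool.Agent.QRT
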