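import Pool.Agent.QRT.EllA
import Pool.Agent.QRT.EllJ
import Pool.Agent.QRT.RatA

/-!
# Elliptic plane sections
-/

set_option autoImplicit false

noncomputable section

namespace Pool.Agent.QRT

open Pool.Agent.ZCyc Pool.Agent.Dess Pool.Agent.GT Pool.Agent.CUB
open Pool.Agent.VFP (Om tt)
open Polynomial (C)
open scoped Classical

variable {k : Type} [Field k]

/-- the homogeneous form of a quadratic polynomial -/
def hm (p S T : Polynomial (Om k)) : Polynomial (Om k) :=
  C (p.coeff 0) * T ^ 2 + C (p.coeff 1) * S * T + C (p.coeff 2) * S ^ 2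

theorem hm_eval {p S T : Polynomial (Om k)} (hp : p.natDegree ≤ 2) {x s : Om k}
    (h : S.eval x = s * T.eval x) : (hm p S T).eval x = T.eval x ^ 2 * p.eval s := by
  have h1 : p.eval s = p.coeff 0 + p.coeff 1 * s + p.coeff 2 * s ^ 2 := by
    rw [Polynomial.eval_eq_sum_range' (n := 3) (by omega), Finset.sum_range_succ,
      Finset.sum_range_succ, Finset.sum_range_one]
    ring
  unfold hm
  simp only [Polynomial.eval_add, Polynomial.eval_mul, Polynomial.eval_pow, Polynomial.eval_C]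
  rw [h1, h]
  ring

/-- the map from the elliptic curve to the plane section -/
def MM (G : Fin 3 → Fin 4 → Om k) (a b S T : Polynomial (Om k)) : Mp (Om k) 3 :=
  ⟨fun i => 2 * hm a S T * S * C (G 0 i) - T * hm b S T * C (G 1 i) +
      2 * hm a S T * T * C (G 2 i), fun i => T * C (G 1 i)⟩

theorem MM_co (G : Fin 3 → Fin 4 → Om k) (a b S T : Polynomial (Om k)) (x y : Om k) :
    (MM G a b S T).co x y = (2 * (hm a S T).eval x * S.eval x) • G 0 +
      (T.eval x * y - T.eval x * (hm b S T).eval x) • G 1 +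
      (2 * (hm a S T).eval x * T.eval x) • G 2 := by
  funext i
  unfold MM Mp.co
  simp only [Polynomial.eval_add, Polynomial.eval_sub, Polynomial.eval_mul, Polynomial.eval_C,
    Polynomial.eval_ofNat, Pi.add_apply, Pi.smul_apply, smul_eq_mul]
  ring

theorem MM_span (G : Fin 3 → Fin 4 → Om k) (a b S T : Polynomial (Om k)) (x y : Om k) :
    (MM G a b S T).co x y ∈ Submodule.span (Om k) (Set.range G) := by
  rw [MM_co]
  exact add_mem (add_mem (Submodule.smul_mem _ _ (Submodule.subset_span ⟨0, rfl⟩))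
    (Submodule.smul_mem _ _ (Submodule.subset_span ⟨1, rfl⟩)))
    (Submodule.smul_mem _ _ (Submodule.subset_span ⟨2, rfl⟩))

theorem MM_pW {G : Fin 3 → Fin 4 → Om k} {a b S T : Polynomial (Om k)} (ha : a.natDegree ≤ 2)
    (hb : b.natDegree ≤ 2) {x s w : Om k} (hS : S.eval x = s * T.eval x) :
    (MM G a b S T).co x (T.eval x ^ 2 * w) = T.eval x ^ 3 • pW G a b s w := by
  rw [MM_co, hm_eval ha hS, hm_eval hb hS, hS]
  unfold pW
  funext i
  simp only [Pi.add_apply, Pi.smul_apply, smul_eq_mul]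
  ring

variable [IsAlgClosed k] [CharZero k] {F : MvPolynomial (Fin 4) k} {G : Fin 3 → Fin 4 → Om k}
  {a b e : Polynomial (Om k)}

omit [IsAlgClosed k] [CharZero k] in
/-- `a(x) + b(x) y` -/
private theorem ellb_ab (α B : Om k) (M : Mp (Om k) 3) (f : MvPolynomial (Fin 4) k) :
    ∃ p q : Polynomial (Om k), ∀ x y : Om k, y ^ 2 = x ^ 3 - 3 * α * x + B →
      MvPolynomial.aeval (M.co x y) f = p.eval x + q.eval x * y := by
  induction f using MvPolynomial.induction_on with
  | C c =>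
    refine ⟨C (algebraMap k (Om k) c), 0, fun x y _ => ?_⟩
    rw [MvPolynomial.aeval_C, Polynomial.eval_C, Polynomial.eval_zero, zero_mul, add_zero]
  | add f g hf hg =>
    obtain ⟨p, q, h⟩ := hf
    obtain ⟨p', q', h'⟩ := hg
    refine ⟨p + p', q + q', fun x y hy => ?_⟩
    rw [map_add, h x y hy, h' x y hy, Polynomial.eval_add, Polynomial.eval_add]
    ring
  | mul_X f i hf =>
    obtain ⟨p, q, h⟩ := hf
    refine ⟨p * M.G i + q * M.H i * (Polynomial.X ^ 3 - C (3 * α) * Polynomial.X + C B),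
      p * M.H i + q * M.G i, fun x y hy => ?_⟩
    rw [map_mul, h x y hy, MvPolynomial.aeval_X]
    simp only [Mp.co, Polynomial.eval_add, Polynomial.eval_sub, Polynomial.eval_mul,
      Polynomial.eval_pow, Polynomial.eval_X, Polynomial.eval_C]
    linear_combination (q.eval x * (M.H i).eval x) * hy

/-- The map is a map to the surface. -/
theorem MM_ok (hF : Sm F) (h : Nf F G a b e) {S T : Polynomial (Om k)} {α B : Om k}
    (hd : B ^ 2 ≠ 4 * α ^ 3) (hT : T ≠ 0)
    (hS : ∀ x : Om k, T.eval x ≠ 0 → ∃ s : Om k, S.eval x = s * T.eval x)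
    (hD : ∀ x s : Om k, T.eval x ≠ 0 → S.eval x = s * T.eval x →
      T.eval x ^ 4 * (b ^ 2 - 4 * a * e).eval s = x ^ 3 - 3 * α * x + B) :
    (MM G a b S T).Ok α B {F} := by
  refine ⟨hd, ?_, ?_⟩
  · have h1 : G 1 ≠ 0 := h.li.ne_zero 1
    obtain ⟨i, hi⟩ := Function.ne_iff.1 h1
    refine ⟨i, Or.inr ?_⟩
    change T * C (G 1 i) ≠ 0
    exact mul_ne_zero hT (Polynomial.C_ne_zero.2 hi)
  · intro f hf x y hxy
    rw [Set.mem_singleton_iff.1 hf]
    obtain ⟨p, q, hpq⟩ := ellb_ab α B (MM G a b S T) F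
    have key : T * p = 0 ∧ T * q = 0 := by
      refine ab_zero α B _ _ fun x y hxy => ?_
      rw [Polynomial.eval_mul, Polynomial.eval_mul]
      have h1 : T.eval x * (p.eval x + q.eval x * y) = 0 := by
        rw [← hpq x y hxy]
        by_cases hTx : T.eval x = 0
        · rw [hTx, zero_mul]
        · obtain ⟨s, hs⟩ := hS x hTx
          have h2 := MM_pW (G := G) h.da h.db (w := y / T.eval x ^ 2) hs
          rw [mul_div_cancel₀ _ (pow_ne_zero 2 hTx)] at h2
          rw [h2, aeval_smul hF.hom, pW_on hF h, mul_zero, mul_zero]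
          have h3 := hD x s hTx hs
          rw [div_pow, hxy, ← h3]
          field_simp
      linear_combination h1
    rw [hpq x y hxy, (mul_eq_zero.1 key.1).resolve_left hT, (mul_eq_zero.1 key.2).resolve_left hT,
      Polynomial.eval_zero, zero_mul, add_zero]

/-- **Elliptic plane sections.** -/
theorem exists_ell (hF : Sm F) (h : Nf F G a b e)
    (hD : Squarefree (b ^ 2 - 4 * a * e)) (h3 : 3 ≤ (b ^ 2 - 4 * a * e).natDegree) :
    ∃ (α B : Om k) (M : Mp (Om k) 3) (hM : M.Ok α B {F}),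
      OS hF.hom G a b e ≤ Submodule.span ℚ (HVs (homX hF.hom) hM) ∧
      ∀ x y : Om k, M.co x y ∈ Submodule.span (Om k) (Set.range G) := by
  obtain ⟨S, T, α, B, hd, hT, hST, hex⟩ := exists_mob hD h3 h.dD
  have hM : (MM G a b S T).Ok α B {F} := MM_ok hF h hd hT
    (fun x hx => ⟨S.eval x / T.eval x, by field_simp⟩) hST
  refine ⟨α, B, MM G a b S T, hM, Submodule.span_le.2 ?_, MM_span G a b S T⟩
  rintro _ ⟨v, s, t₁, t₂, ha, ht, rfl⟩
  obtain ⟨w, hw, hw₁, hw₂⟩ := pW_two h ha ht
  have h2a : (2 * a.eval s : Om k) ≠ 0 := mul_ne_zero two_ne_zero ha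
  have e₁ : cv hF.hom v (pP G s t₁) = cv hF.hom v (pW G a b s w) := by
    rw [hw₁, cv_smul hF.hom v h2a]
  have e₂ : cv hF.hom v (pP G s t₂) = cv hF.hom v (pW G a b s (-w)) := by
    rw [hw₂, cv_smul hF.hom v h2a]
  rw [e₁, e₂, SetLike.mem_coe]
  by_cases hDs : (b ^ 2 - 4 * a * e).eval s = 0
  · have hw0 : w = 0 := by
      rw [hDs] at hw
      exact pow_eq_zero_iff two_ne_zero |>.1 hw
    rw [hw0, neg_zero, sub_self]
    exact Submodule.zero_mem _
  · obtain ⟨x, hTx, hSx⟩ := hex s hDs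
    have hxy : ∀ w' : Om k, w' ^ 2 = (b ^ 2 - 4 * a * e).eval s →
        (T.eval x ^ 2 * w') ^ 2 = x ^ 3 - 3 * α * x + B := by
      intro w' hw'
      rw [← hST x s hTx hSx, ← hw']
      ring
    have hns : ∀ (w' : Om k) (hw' : w' ^ 2 = (b ^ 2 - 4 * a * e).eval s),
        pW G a b s w' ≠ 0 := by
      intro w' _ h0
      have h5 : 2 * a.eval s = 0 := by
        have h6 := (Fintype.linearIndependent_iff.1 h.li) ![2 * a.eval s * s,
          w' - b.eval s, 2 * a.eval s] (by
            rw [Fin.sum_univ_three]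
            exact h0) 2
        exact h6
      exact h2a h5
    have hco : ∀ w' : Om k, (MM G a b S T).co x (T.eval x ^ 2 * w') =
        T.eval x ^ 3 • pW G a b s w' := fun w' => MM_pW h.da h.db hSx
    have hw' : (-w) ^ 2 = (b ^ 2 - 4 * a * e).eval s := by rw [neg_sq, hw]
    have hne : ∀ (w' : Om k) (_ : w' ^ 2 = (b ^ 2 - 4 * a * e).eval s),
        (MM G a b S T).co x (T.eval x ^ 2 * w') ≠ 0 := by
      intro w' hw'
      rw [hco]
      exact smul_ne_zero (pow_ne_zero 3 hTx) (hns w' hw')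
    have hl : ∀ (w' : Om k) (hw' : w' ^ 2 = (b ^ 2 - 4 * a * e).eval s),
        lmp (homX hF.hom) hM v (pt hd (hxy w' hw')) = cv hF.hom v (pW G a b s w') := by
      intro w' hw'
      refine (lmp_cv hF.hom hM v (nonsing hd (hxy w' hw')) (hne w' hw')).trans ?_
      rw [hco, cv_smul hF.hom v (pow_ne_zero 3 hTx)]
    have key := hV_spec (homX hF.hom) hM v
      (P := (pt hd (hxy w hw) - pt hd (hxy (-w) hw') : (Ec α B).Point))
      (Q := pt hd (hxy (-w) hw')) (hne (-w) hw') (by
        rw [sub_add_cancel]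
        exact hne w hw)
    rw [sub_add_cancel, hl w hw, hl (-w) hw'] at key
    rw [key]
    exact Submodule.subset_span ⟨v, _, rfl⟩

/-- The limit homomorphism is zero at a place where all points of the limit plane are equivalent. -/
theorem hV_zero (hF : Sm F) {α B : Om k} {M : Mp (Om k) 3} (hM : M.Ok α B {F})
    {W : Submodule (Om k) (Fin 4 → Om k)} (hW : ∀ x y : Om k, M.co x y ∈ W)
    {v₀ : Place k (Om k)} (hE : Eqv hF.hom (limW v₀ W)) (P : (Ec α B).Point) :
    hV (homX hF.hom) hM v₀ P = 0 := by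
  have := infinite_points hM.disc
  have h0 : {Q : (Ec α B).Point | ¬ M.Ns Q}.Finite := finite_bad hM.ne
  have h1 := h0.union (h0.preimage (f := fun Q => P + Q) (add_right_injective P).injOn)
  obtain ⟨Q, hQ⟩ := h1.exists_notMem
  have hQ1 : M.Ns Q := by
    by_contra hc
    exact hQ (Or.inl hc)
  have hQ2 : M.Ns (P + Q) := by
    by_contra hc
    exact hQ (Or.inr hc)
  have key : ∀ R : (Ec α B).Point, M.Ns R → ∃ y : Fin 4 → k, y ∈ limW v₀ W ∧ y ≠ 0 ∧
      MvPolynomial.aeval y F = 0 ∧ lmp (homX hF.hom) hM v₀ R = cp hF.hom y := by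
    intro R hR
    rcases R with _ | ⟨x, y, hxy⟩
    · exact hR.elim
    · have hne : M.co x y ≠ 0 := hR
      obtain ⟨h2, l, hl, h3⟩ := vl_spec v₀ hne
      refine ⟨vl v₀ (M.co x y), ?_, h2, ?_, lmp_cv hF.hom hM v₀ hxy hne⟩
      · rw [mem_limW]
        exact ⟨l • M.co x y, Submodule.smul_mem _ _ (hW x y), h3⟩
      · have h4 := aeval_at h3 F
        have h5 : (fun i => l * M.co x y i) = l • M.co x y := rfl
        rw [h5, aeval_smul hF.hom, hM.onX F rfl x y (eqn_iff.1 hxy.1), mul_zero] at h4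
        have h6 := Place.at_const (v := v₀) (0 : k)
        rw [map_zero] at h6
        exact Place.At.unique h4 h6
  obtain ⟨y, hy, hy0, hyF, hly⟩ := key Q hQ1
  obtain ⟨y', hy', hy0', hyF', hly'⟩ := key (P + Q) hQ2
  rw [← hV_spec (homX hF.hom) hM v₀ hQ1 hQ2, hly, hly', hE y hy y' hy' hy0 hy0' hyF hyF', sub_self]

end Pool.Agent.QRT
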