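import Pool.Agent.QRT.Defs

/-!
# Tangent planes of a smooth quartic surface
-/

set_option autoImplicit false

noncomputable section

namespace Pool.Agent.QRT

open Pool.Agent.ZCyc Pool.Agent.Dess Pool.Agent.GT Pool.Agent.CUB
open Pool.Agent.VFP (Om tt)
open scoped Classical

variable {k : Type} [Field k]

/-- the differential of `F` at the point `y` in the direction `w` -/
def df {K : Type} [Field K] [Algebra k K] (F : MvPolynomial (Fin 4) k) (y w : Fin 4 → K) : K :=
  ∑ i, w i * MvPolynomial.aeval y (MvPolynomial.pderiv i F)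

/-- Taylor expansion to the first order along a line. -/
theorem df_line {K : Type} [Field K] [Algebra k K] (F : MvPolynomial (Fin 4) k)
    (y w : Fin 4 → K) : ∃ p : Polynomial K, ∀ s : K, MvPolynomial.aeval (y + s • w) F =
      MvPolynomial.aeval y F + s * df F y w + s ^ 2 * p.eval s := by
  induction F using MvPolynomial.induction_on with
  | C a =>
    refine ⟨0, fun s => ?_⟩
    simp [df]
  | add f g hf hg =>
    obtain ⟨p, hp⟩ := hf
    obtain ⟨q, hq⟩ := hg
    refine ⟨p + q, fun s => ?_⟩
    have h1 : df (f + g) y w = df f y w + df g y w := by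
      simp only [df, map_add, mul_add]
      rw [Finset.sum_add_distrib]
    rw [map_add, map_add, hp, hq, h1, Polynomial.eval_add]
    ring
  | mul_X f i hf =>
    obtain ⟨p, hp⟩ := hf
    refine ⟨Polynomial.C (df f y w * w i) + p * Polynomial.C (y i) +
      Polynomial.X * p * Polynomial.C (w i), fun s => ?_⟩
    have h1 : df (f * MvPolynomial.X i) y w =
        df f y w * y i + MvPolynomial.aeval y f * w i := by
      have h2 : ∀ j, w j * MvPolynomial.aeval y (MvPolynomial.pderiv j (f * MvPolynomial.X i)) =
          w j * MvPolynomial.aeval y (MvPolynomial.pderiv j f) * y i +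
            (if j = i then MvPolynomial.aeval y f * w j else 0) := by
        intro j
        rw [MvPolynomial.pderiv_mul, MvPolynomial.pderiv_X, map_add, map_mul, map_mul,
          MvPolynomial.aeval_X]
        by_cases hji : j = i
        · subst hji
          rw [Pi.single_eq_same, map_one, if_pos rfl]
          ring
        · rw [Pi.single_eq_of_ne (Ne.symm hji), map_zero, if_neg hji]
          ring
      unfold df
      rw [Finset.sum_congr rfl fun j _ => h2 j, Finset.sum_add_distrib, Finset.sum_mul,
        Finset.sum_ite_eq' Finset.univ i, if_pos (Finset.mem_univ i)]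
    rw [map_mul, map_mul, MvPolynomial.aeval_X, MvPolynomial.aeval_X, hp, h1, Pi.add_apply,
      Pi.smul_apply, smul_eq_mul]
    simp only [Polynomial.eval_add, Polynomial.eval_mul, Polynomial.eval_C, Polynomial.eval_X]
    ring

private theorem grad_smul {K : Type} [Field K] [Algebra k K] {F : MvPolynomial (Fin 4) k}
    (hF : F.IsHomogeneous 4) (c : K) (y : Fin 4 → K) (i : Fin 4) :
    MvPolynomial.aeval (c • y) (MvPolynomial.pderiv i F) =
      c ^ 3 * MvPolynomial.aeval y (MvPolynomial.pderiv i F) :=
  aeval_smul_homog (hF.pderiv (i := i)) c y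

private theorem df_single {K : Type} [Field K] [Algebra k K] (F : MvPolynomial (Fin 4) k)
    (y : Fin 4 → K) (i : Fin 4) :
    df F y (Pi.single i 1) = MvPolynomial.aeval y (MvPolynomial.pderiv i F) := by
  unfold df
  rw [Finset.sum_eq_single i]
  · rw [Pi.single_eq_same, one_mul]
  · intro j _ hj
    rw [Pi.single_eq_of_ne hj, zero_mul]
  · intro h
    exact absurd (Finset.mem_univ i) h

/-- Euler: `dF(y)(y) = 4 F(y)` -/
theorem df_self {K : Type} [Field K] [Algebra k K] {F : MvPolynomial (Fin 4) k}
    (hF : F.IsHomogeneous 4) (y : Fin 4 → K) : df F y y = 4 * MvPolynomial.aeval y F := by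
  have h1 := congrArg (MvPolynomial.aeval y) hF.sum_X_mul_pderiv
  rw [map_sum, map_nsmul, nsmul_eq_mul] at h1
  simp only [map_mul, MvPolynomial.aeval_X] at h1
  unfold df
  rw [h1]
  norm_num

variable [IsAlgClosed k] [CharZero k] {F : MvPolynomial (Fin 4) k}

/-- smooth over `k`: the differential -/
theorem ns_k (hF : Sm F) {x : Fin 4 → k} (h : ∀ w : Fin 4 → k, df F x w = 0) : x = 0 := by
  refine hF.ns x fun i => ?_
  have h1 := h (Pi.single i 1)
  rw [df_single] at h1
  exact h1

/-- Smoothness over `Om k`: scale `x` such that it has a value which is not zero at some place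
(as `tri_ns_om` in `CUB/Base.lean`). -/
theorem ns_om (hF : Sm F) {x : Fin 4 → Om k} (h : ∀ w : Fin 4 → Om k, df F x w = 0) : x = 0 := by
  by_contra hx
  obtain ⟨v, -⟩ := exists_place_at (k := k) (x := tt k) (fun c => VFP.tt_ne c) 0
  obtain ⟨l, y, hl, hy, hxy⟩ := exists_scale v x hx
  refine hy (hF.ns y fun i => ?_)
  have h1 := aeval_at (v := v) hxy (MvPolynomial.pderiv i F)
  have h2 : MvPolynomial.aeval (fun i => l * x i) (MvPolynomial.pderiv i F) = 0 := by
    have h3 := grad_smul hF.hom l x i
    rw [← df_single F x i, h, mul_zero] at h3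
    exact h3
  rw [h2] at h1
  exact Place.At.unique h1 VFP.at_zero

/-- A nonconstant point has a nonconstant tangent plane: if the differential at `P` is zero on the
constant plane `η` then `P` is proportional to a constant vector. Proof: the gradient of `F` at `P` is
`κ η`, `κ ≠ 0` (`ns_om`). Let `ρ ^ 3 κ = 1`, then the gradient at `P' = ρ P` is the constant vector `η`. If
`P'` is not constant then by `pole` there are a place `v` and `l` with value zero such that `l P'` has a
value `z ≠ 0`; the gradient at `l P'` is `l ^ 3 η`, so the gradient at `z` is zero, contradiction. -/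
theorem gauss (hF : Sm F) {P : Fin 4 → Om k} (hP : P ≠ 0) {η : Fin 4 → k} (hη : η ≠ 0)
    (h : ∀ w : Fin 4 → Om k, ∑ i, algebraMap k (Om k) (η i) * w i = 0 → df F P w = 0) :
    Cst P := by
  set g : Fin 4 → Om k := fun i => MvPolynomial.aeval P (MvPolynomial.pderiv i F) with hg
  obtain ⟨j, hj⟩ : ∃ j, η j ≠ 0 := by
    by_contra hcon
    push Not at hcon
    exact hη (funext hcon)
  have hj' : algebraMap k (Om k) (η j) ≠ 0 := by
    rw [Ne, map_eq_zero]
    exact hj
  -- the gradient is proportional to the constant vector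
  set κ : Om k := g j / algebraMap k (Om k) (η j) with hκ
  have h1 : ∀ i, g i = κ * algebraMap k (Om k) (η i) := by
    intro i
    have h2 := h (algebraMap k (Om k) (η j) • Pi.single i 1 -
      algebraMap k (Om k) (η i) • Pi.single j 1) (by
        simp only [Pi.sub_apply, Pi.smul_apply, smul_eq_mul, mul_sub]
        rw [Finset.sum_sub_distrib, Finset.sum_eq_single i, Finset.sum_eq_single j]
        · rw [Pi.single_eq_same, Pi.single_eq_same]
          ring
        · intro b _ hb
          rw [Pi.single_eq_of_ne hb]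
          ring
        · intro hb
          exact absurd (Finset.mem_univ j) hb
        · intro b _ hb
          rw [Pi.single_eq_of_ne hb]
          ring
        · intro hb
          exact absurd (Finset.mem_univ i) hb)
    have h3 : df F P (algebraMap k (Om k) (η j) • Pi.single i 1 -
        algebraMap k (Om k) (η i) • Pi.single j 1) =
        algebraMap k (Om k) (η j) * df F P (Pi.single i 1) -
          algebraMap k (Om k) (η i) * df F P (Pi.single j 1) := by
      unfold df
      rw [Finset.mul_sum, Finset.mul_sum, ← Finset.sum_sub_distrib]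
      refine Finset.sum_congr rfl fun a _ => ?_
      rw [Pi.sub_apply, Pi.smul_apply, Pi.smul_apply, smul_eq_mul, smul_eq_mul]
      ring
    rw [h3, df_single, df_single] at h2
    have h4 : algebraMap k (Om k) (η j) * g i - algebraMap k (Om k) (η i) * g j = 0 := h2
    rw [hκ]
    field_simp
    linear_combination h4
  have hκ0 : κ ≠ 0 := by
    intro h0
    apply hP
    refine ns_om hF fun w => ?_
    unfold df
    refine Finset.sum_eq_zero fun i _ => ?_
    have h2 := h1 i
    rw [h0, zero_mul] at h2
    have h3 : MvPolynomial.aeval P (MvPolynomial.pderiv i F) = 0 := h2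
    rw [h3, mul_zero]
  obtain ⟨ρ, hρ⟩ := IsAlgClosed.exists_pow_nat_eq κ⁻¹ (n := 3) (by norm_num)
  have hρ0 : ρ ≠ 0 := by
    rintro rfl
    rw [zero_pow (by norm_num)] at hρ
    exact inv_ne_zero hκ0 hρ.symm
  have h2 : ∀ i, MvPolynomial.aeval (ρ • P) (MvPolynomial.pderiv i F) =
      algebraMap k (Om k) (η i) := by
    intro i
    rw [grad_smul hF.hom, hρ]
    have h3 : MvPolynomial.aeval P (MvPolynomial.pderiv i F) = κ * algebraMap k (Om k) (η i) :=
      h1 i
    rw [h3, inv_mul_cancel_left₀ hκ0]
  by_cases hc : ∃ a : Fin 4 → k, ∀ i, (ρ • P) i = algebraMap k (Om k) (a i)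
  · obtain ⟨a, ha⟩ := hc
    exact ⟨ρ, a, hρ0, ha⟩
  · exfalso
    obtain ⟨v, l, y, hl, hl0, hy, hly⟩ := pole hc
    refine hy (hF.ns y fun i => ?_)
    have h3 := aeval_at (v := v) hly (MvPolynomial.pderiv i F)
    have h4 : MvPolynomial.aeval (fun i => l * (ρ • P) i) (MvPolynomial.pderiv i F) =
        l ^ 3 * algebraMap k (Om k) (η i) := by
      rw [← h2]
      exact grad_smul hF.hom l (ρ • P) i
    rw [h4] at h3
    have h5 := (hl0.pow 3).mul (Place.at_const (v := v) (η i))
    rw [zero_pow (by norm_num), zero_mul] at h5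
    exact Place.At.unique h3 h5

omit [IsAlgClosed k] in
/-- the derivative of a function which is zero along a line -/
private theorem df_zero {y w : Fin 4 → k} (h : ∀ s : k, MvPolynomial.aeval (y + s • w) F = 0) :
    df F y w = 0 := by
  obtain ⟨p, hp⟩ := df_line F y w
  have h0 : MvPolynomial.aeval y F = 0 := by
    have := h 0
    rwa [zero_smul, add_zero] at this
  have h1 : Polynomial.X * (Polynomial.C (df F y w) + Polynomial.X * p) = 0 := by
    refine Polynomial.funext fun s => ?_
    have h2 := hp s
    rw [h s, h0] at h2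
    simp only [Polynomial.eval_mul, Polynomial.eval_X, Polynomial.eval_add, Polynomial.eval_C,
      Polynomial.eval_zero]
    linear_combination -h2
  have h2 : Polynomial.C (df F y w) + Polynomial.X * p = 0 :=
    (mul_eq_zero.1 h1).resolve_left Polynomial.X_ne_zero
  have h3 := congrArg (Polynomial.eval 0) h2
  simpa using h3

/-- the differential as a linear map of the direction -/
private def dfL (F : MvPolynomial (Fin 4) k) (y : Fin 4 → k) : (Fin 4 → k) →ₗ[k] k :=
  ∑ i, MvPolynomial.aeval y (MvPolynomial.pderiv i F) • LinearMap.proj i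

omit [IsAlgClosed k] [CharZero k] in
private theorem dfL_apply (F : MvPolynomial (Fin 4) k) (y w : Fin 4 → k) :
    dfL F y w = df F y w := by
  unfold dfL df
  rw [LinearMap.sum_apply]
  refine Finset.sum_congr rfl fun i _ => ?_
  rw [LinearMap.smul_apply, LinearMap.proj_apply, smul_eq_mul, mul_comm]

omit [IsAlgClosed k] [CharZero k] in
private theorem df_smulB {F : MvPolynomial (Fin 4) k} (hF : F.IsHomogeneous 4) (c : k)
    (y w : Fin 4 → k) : df F (c • y) w = c ^ 3 * df F y w := by
  unfold df
  rw [Finset.mul_sum]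
  refine Finset.sum_congr rfl fun i _ => ?_
  have h1 : (MvPolynomial.pderiv i F).IsHomogeneous 3 := hF.pderiv
  have h2 := aeval_smul_homog h1 c y
  have h3 : (fun i => c * y i) = c • y := rfl
  rw [h3] at h2
  rw [h2]
  ring

omit [IsAlgClosed k] [CharZero k] in
/-- restriction of a polynomial to a line -/
private theorem line_poly (f : MvPolynomial (Fin 4) k) (A B : Fin 4 → k) :
    ∃ q : Polynomial k, ∀ t : k, q.eval t = MvPolynomial.aeval (A + t • B) f := by
  refine ⟨MvPolynomial.aeval (fun i => Polynomial.C (A i) + Polynomial.X * Polynomial.C (B i)) f,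
    fun t => ?_⟩
  have h1 := MvPolynomial.comp_aeval_apply (R := k)
    (f := fun i => Polynomial.C (A i) + Polynomial.X * Polynomial.C (B i))
    (Polynomial.aeval t : Polynomial k →ₐ[k] k) f
  rw [Polynomial.coe_aeval_eq_eval] at h1
  rw [h1]
  congr 2
  funext i
  rw [Polynomial.eval_add, Polynomial.eval_mul, Polynomial.eval_C, Polynomial.eval_C,
    Polynomial.eval_X]
  rfl

omit [IsAlgClosed k] [CharZero k] in
private theorem line_df (F : MvPolynomial (Fin 4) k) (A B D : Fin 4 → k) :
    ∃ q : Polynomial k, ∀ t : k, q.eval t = df F (A + t • B) D := by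
  choose q hq using fun i => line_poly (MvPolynomial.pderiv i F) A B
  refine ⟨∑ i, Polynomial.C (D i) * q i, fun t => ?_⟩
  unfold df
  rw [Polynomial.eval_finsetSum]
  refine Finset.sum_congr rfl fun i _ => ?_
  rw [Polynomial.eval_mul, Polynomial.eval_C, hq]

/-- the zero of the binary cubic form -/
private theorem exists_zero_df (hF : F.IsHomogeneous 4) (A B D : Fin 4 → k) :
    ∃ s t : k, (s ≠ 0 ∨ t ≠ 0) ∧ df F (s • A + t • B) D = 0 := by
  obtain ⟨q, hq⟩ := line_df F A B D
  by_cases hd : q.degree = 0
  · rw [Polynomial.eq_C_of_degree_eq_zero hd] at hq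
    obtain ⟨g, hg⟩ := line_df F B A D
    have h1 : Polynomial.X * (g - Polynomial.C (q.coeff 0) * Polynomial.X ^ 3) = 0 := by
      refine Polynomial.funext fun s => ?_
      simp only [Polynomial.eval_mul, Polynomial.eval_X, Polynomial.eval_sub, Polynomial.eval_C,
        Polynomial.eval_pow, Polynomial.eval_zero]
      by_cases hs : s = 0
      · rw [hs, zero_mul]
      · have h2 : B + s • A = s • (A + s⁻¹ • B) := by
          rw [smul_add, smul_smul, mul_inv_cancel₀ hs, one_smul, add_comm]
        rw [hg, h2, df_smulB hF, ← hq s⁻¹, Polynomial.eval_C]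
        ring
    have h2 : g - Polynomial.C (q.coeff 0) * Polynomial.X ^ 3 = 0 :=
      (mul_eq_zero.1 h1).resolve_left Polynomial.X_ne_zero
    refine ⟨0, 1, Or.inr one_ne_zero, ?_⟩
    have h3 := hg 0
    rw [zero_smul, add_zero, sub_eq_zero.1 h2] at h3
    rw [zero_smul, one_smul, zero_add, ← h3]
    simp
  · obtain ⟨t, ht⟩ := IsAlgClosed.exists_root q hd
    refine ⟨1, t, Or.inl one_ne_zero, ?_⟩
    rw [one_smul, ← hq]
    exact ht

/-- Plane sections are reduced along lines: if `F` is zero on the line `A`, `B` then the differential in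
a third direction `C` is not zero at all points of this line. Proof: choose a fourth vector `D`. The
binary cubic form `dF(s A + t B)(D)` has a zero `(s, t) ≠ 0` (its coefficients: `df` is a cubic form
in the point), there the differential of `F` is zero in the directions `A`, `B`, `C`, `D`. -/
theorem nonred (hF : Sm F) {A B C : Fin 4 → k} (hli : LinearIndependent k ![A, B, C])
    (h : ∀ s t : k, MvPolynomial.aeval (s • A + t • B) F = 0)
    (h' : ∀ s t : k, df F (s • A + t • B) C = 0) : False := by
  have hlt : Submodule.span k (Set.range ![A, B, C]) < ⊤ := by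
    rw [lt_top_iff_ne_top]
    intro htop
    have h1 := finrank_span_eq_card hli
    rw [htop, finrank_top] at h1
    simp at h1
  obtain ⟨D, -, hD⟩ := SetLike.exists_of_lt hlt
  have hli4 : LinearIndependent k (Fin.snoc ![A, B, C] D : Fin 4 → Fin 4 → k) :=
    linearIndependent_finSnoc.2 ⟨hli, hD⟩
  have htop := hli4.span_eq_top_of_card_eq_finrank (by simp)
  obtain ⟨s, t, hst, hz⟩ := exists_zero_df hF.hom A B D
  have hy : s • A + t • B ≠ 0 := by
    intro h0
    have h1 := Fintype.linearIndependent_iff.1 hli ![s, t, 0] (by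
      simpa [Fin.sum_univ_three] using h0)
    rcases hst with h2 | h2
    · exact h2 (h1 0)
    · exact h2 (h1 1)
  apply hy
  refine ns_k hF fun w => ?_
  have hle : Submodule.span k (Set.range (Fin.snoc ![A, B, C] D : Fin 4 → Fin 4 → k)) ≤
      LinearMap.ker (dfL F (s • A + t • B)) := by
    rw [Submodule.span_le]
    rintro _ ⟨i, rfl⟩
    rw [SetLike.mem_coe, LinearMap.mem_ker, dfL_apply]
    fin_cases i
    · refine df_zero fun r => ?_
      have : s • A + t • B + r • A = (s + r) • A + t • B := by
        rw [add_smul]; abel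
      exact (congrArg (fun y => MvPolynomial.aeval y F) this).trans (h _ _)
    · refine df_zero fun r => ?_
      have : s • A + t • B + r • B = s • A + (t + r) • B := by
        rw [add_smul]; abel
      exact (congrArg (fun y => MvPolynomial.aeval y F) this).trans (h _ _)
    · exact h' s t
    · exact hz
  rw [htop, top_le_iff] at hle
  rw [← dfL_apply, ← LinearMap.mem_ker, hle]
  exact Submodule.mem_top

/-- `F` is not zero on a plane: `nonred` -/
theorem plane_ne (hF : Sm F) {A B C : Fin 4 → k} (hli : LinearIndependent k ![A, B, C]) :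
    ∃ s t u : k, MvPolynomial.aeval (s • A + t • B + u • C) F ≠ 0 := by
  by_contra hcon
  push Not at hcon
  refine nonred hF hli (fun s t => ?_) fun s t => df_zero fun r => hcon s t r
  have := hcon s t 0
  rwa [zero_smul, add_zero] at this

omit [IsAlgClosed k] [CharZero k] in
/-- extension of independent vectors in a submodule -/
private theorem ext_li {n : ℕ} {H : Submodule k (Fin 4 → k)} {v : Fin n → Fin 4 → k}
    (hn : n < Module.finrank k H) (hv : LinearIndependent k v) (hvH : ∀ i, v i ∈ H) :
    ∃ z ∈ H, LinearIndependent k (Fin.snoc v z : Fin (n + 1) → Fin 4 → k) := by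
  have hle : Submodule.span k (Set.range v) ≤ H := by
    rw [Submodule.span_le]
    rintro _ ⟨i, rfl⟩
    exact hvH i
  have hlt : Submodule.span k (Set.range v) < H := by
    refine lt_of_le_of_ne hle fun h1 => ?_
    have h2 := finrank_span_eq_card hv
    rw [h1, Fintype.card_fin] at h2
    omega
  obtain ⟨z, hz, hz'⟩ := SetLike.exists_of_lt hlt
  exact ⟨z, hz, linearIndependent_finSnoc.2 ⟨hv, hz'⟩⟩

/-- For a point `x` of a plane `H` (three-dimensional) there are `y`, `y₂` in `H` such that `x`, `y`, `y₂`
are independent and `F` is not zero on the line `x`, `y`: `plane_ne`. -/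
theorem exists_dir (hF : Sm F) {H : Submodule k (Fin 4 → k)} (hH : Module.finrank k H = 3)
    {x : Fin 4 → k} (hx : x ∈ H) (hx0 : x ≠ 0) (hFx : MvPolynomial.aeval x F = 0) :
    ∃ y ∈ H, ∃ y₂ ∈ H, LinearIndependent k ![x, y, y₂] ∧
      ∃ s : k, MvPolynomial.aeval (x + s • y) F ≠ 0 := by
  have h1 : LinearIndependent k (![x] : Fin 1 → Fin 4 → k) := by
    rw [linearIndependent_unique_iff]
    exact hx0
  obtain ⟨b, hb, hb'⟩ := ext_li (H := H) (by omega) h1 (by intro i; fin_cases i; exact hx)
  have e2 : (Fin.snoc ![x] b : Fin 2 → Fin 4 → k) = ![x, b] := by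
    funext i; fin_cases i <;> rfl
  rw [e2] at hb'
  obtain ⟨c, hc, hc'⟩ := ext_li (H := H) (by omega) hb' (by
    intro i; fin_cases i
    · exact hx
    · exact hb)
  have e3 : (Fin.snoc ![x, b] c : Fin 3 → Fin 4 → k) = ![x, b, c] := by
    funext i; fin_cases i <;> rfl
  rw [e3] at hc'
  obtain ⟨s, t, u, hne⟩ := plane_ne hF hc'
  set z : Fin 4 → k := t • b + u • c with hz
  have hzH : z ∈ H := H.add_mem (H.smul_mem _ hb) (H.smul_mem _ hc)
  have hne' : MvPolynomial.aeval (z + s • x) F ≠ 0 := by
    have : z + s • x = s • x + t • b + u • c := by rw [hz]; abel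
    rw [this]; exact hne
  have hFr : ∀ r : k, MvPolynomial.aeval (r • x) F = 0 := by
    intro r
    have h2 := aeval_smul_homog hF.hom r x
    rw [hFx, mul_zero] at h2
    exact h2
  have hli2 : LinearIndependent k ![x, z] := by
    rw [LinearIndependent.pair_iff' hx0]
    intro a ha
    apply hne'
    rw [← ha, ← add_smul]
    exact hFr _
  obtain ⟨y₂, hy₂, hy₂'⟩ := ext_li (H := H) (by omega) hli2 (by
    intro i; fin_cases i
    · exact hx
    · exact hzH)
  have e4 : (Fin.snoc ![x, z] y₂ : Fin 3 → Fin 4 → k) = ![x, z, y₂] := by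
    funext i; fin_cases i <;> rfl
  rw [e4] at hy₂'
  refine ⟨z, hzH, y₂, hy₂, hy₂', ?_⟩
  obtain ⟨q, hq⟩ := line_poly F z x
  have hq0 : Polynomial.X * q ≠ 0 := by
    refine mul_ne_zero Polynomial.X_ne_zero ?_
    rintro rfl
    apply hne'
    rw [← hq, Polynomial.eval_zero]
  obtain ⟨v, hv⟩ : ∃ v : k, (Polynomial.X * q).eval v ≠ 0 := by
    by_contra hcon
    push Not at hcon
    exact hq0 (Polynomial.funext fun v => by rw [hcon v, Polynomial.eval_zero])
  rw [Polynomial.eval_mul, Polynomial.eval_X, hq] at hv
  have hv0 : v ≠ 0 := left_ne_zero_of_mul hv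
  refine ⟨v⁻¹, ?_⟩
  intro h0
  apply right_ne_zero_of_mul hv
  have h2 : z + v • x = v • (x + v⁻¹ • z) := by
    rw [smul_add, smul_smul, mul_inv_cancel₀ hv0, one_smul, add_comm]
  have h3 := aeval_smul_homog hF.hom v (x + v⁻¹ • z)
  have h4 : (fun i => v * (x + v⁻¹ • z) i) = v • (x + v⁻¹ • z) := rfl
  rw [h4, h0, mul_zero] at h3
  rw [h2]
  exact h3

end Pool.Agent.QRT
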