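import Pool.Agent.QRT.LiftPoly

/-!
# Lifts of points of the limit
-/

set_option autoImplicit false

noncomputable section

namespace Pool.Agent.QRT

open Pool.Agent.ZCyc Pool.Agent.Dess Pool.Agent.GT Pool.Agent.CUB
open Pool.Agent.VFP (Om tt)
open scoped Classical

private theorem root_at_prod {k : Type} [Field k] {K : Type} [Field K] [Algebra k K]
    {v : Place k K} {a : K} (ha : a ∈ v.ring) (s : Multiset K) :
    (∀ x ∈ s, x - a ≠ 0 ∧ (x - a)⁻¹ ∈ v.ring) → ∃ R : Polynomial K,
      (∀ i, R.coeff i ∈ v.ring) ∧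
      (s.map fun x => Polynomial.X - Polynomial.C x).prod =
        Polynomial.C ((s.map fun x => Polynomial.X - Polynomial.C x).prod.eval a) * R := by
  induction s using Multiset.induction_on with
  | empty =>
    intro _
    refine ⟨1, fun i => ?_, by simp⟩
    rw [Polynomial.coeff_one]
    split_ifs
    · exact one_mem _
    · exact zero_mem _
  | cons x s ih =>
    intro hx
    obtain ⟨R, hR, h1⟩ := ih fun y hy => hx y (Multiset.mem_cons_of_mem hy)
    obtain ⟨h2, h3⟩ := hx x (Multiset.mem_cons_self x s)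
    set b : K := (x - a)⁻¹ with hb
    refine ⟨(Polynomial.C (1 + b * a) - Polynomial.C b * Polynomial.X) * R, fun i => ?_, ?_⟩
    · have hmem : 1 + b * a ∈ v.ring := add_mem (one_mem _) (mul_mem h3 ha)
      rw [sub_mul, mul_assoc, Polynomial.coeff_sub, Polynomial.coeff_C_mul,
        Polynomial.coeff_C_mul]
      refine sub_mem (mul_mem hmem (hR i)) (mul_mem h3 ?_)
      cases i with
      | zero =>
        rw [Polynomial.mul_coeff_zero, Polynomial.coeff_X_zero, zero_mul]
        exact zero_mem _
      | succ j =>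
        rw [mul_comm Polynomial.X R, Polynomial.coeff_mul_X]
        exact hR j
    · rw [Multiset.map_cons, Multiset.prod_cons, Polynomial.eval_mul]
      have h4 : (Polynomial.X - Polynomial.C x : Polynomial K) =
          Polynomial.C (a - x) * (Polynomial.C (1 + b * a) - Polynomial.C b * Polynomial.X) := by
        have h5 : (a - x) * b = -1 := by
          rw [hb]
          field_simp
          ring
        have h6 : (a - x) * (1 + b * a) = -x := by
          linear_combination a * h5
        rw [mul_sub, ← mul_assoc, ← Polynomial.C_mul, ← Polynomial.C_mul, h5, h6]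
        simp
        ring
      have h7 : Polynomial.eval a (Polynomial.X - Polynomial.C x : Polynomial K) = a - x := by
        simp
      rw [h7, Polynomial.C_mul]
      conv_lhs => rw [h1]
      rw [h4]
      ring

/-- Roots of the limit of a polynomial are limits of roots. Proof: let `p = ∑ c i X ^ i`, not zero; over
the algebraically closed field `K` it is `κ ∏ (X - x j)`. Suppose that no root `x j` has the value
`x'`. Then `x j - x'` is a unit at `v`, or `x j` is not in the ring. Write
`p = κ' ∏_{in the ring} (X - x j) ∏_{not in the ring} (x j⁻¹ X - 1)` (up to sign); the value of the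
product is not zero, so `κ'` has a value (otherwise multiply by `κ'⁻¹`, all values `c' i` would be
zero after this, but the product has a value which is not the zero polynomial), and the value of the
polynomial at `x'` is `κ'' ∏ (x' - x' j) ∏ (-1)`, it is not zero unless `κ'' = 0`, and `κ'' = 0` means
that all `c' i` are zero. -/
theorem root_at {k : Type} [Field k] {K : Type} [Field K] [Algebra k K] [HasRes k K]
    [IsAlgClosed K] [Infinite k] {v : Place k K} {n : ℕ} {c : ℕ → K} {c' : ℕ → k}
    (h : ∀ i ≤ n, v.At (c i) (c' i)) (hc : ∃ i ≤ n, c' i ≠ 0) {x' : k}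
    (hx : ∑ i ∈ Finset.range (n + 1), c' i * x' ^ i = 0) :
    ∃ x : K, v.At x x' ∧ ∑ i ∈ Finset.range (n + 1), c i * x ^ i = 0 := by
  by_contra hcon
  push Not at hcon
  set p : Polynomial K := ∑ i ∈ Finset.range (n + 1), Polynomial.C (c i) * Polynomial.X ^ i
    with hp
  have hev : ∀ x : K, p.eval x = ∑ i ∈ Finset.range (n + 1), c i * x ^ i := by
    intro x
    rw [hp, Polynomial.eval_finsetSum]
    simp
  have hcoeff : ∀ i ≤ n, p.coeff i = c i := by
    intro i hi
    rw [hp, Polynomial.finsetSum_coeff, Finset.sum_eq_single i]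
    · simp
    · intro j _ hj
      rw [Polynomial.coeff_C_mul, Polynomial.coeff_X_pow, if_neg (Ne.symm hj), mul_zero]
    · intro hi'
      exact absurd (Finset.mem_range.2 (by omega)) hi'
  obtain ⟨i₀, hi₀, hne⟩ := hc
  have hzero : v.At (0 : K) 0 := by
    have h2 := Place.at_const (v := v) (0 : k)
    rwa [map_zero] at h2
  have hp0 : p ≠ 0 := by
    intro h0
    have h1 := h i₀ hi₀
    rw [← hcoeff i₀ hi₀, h0, Polynomial.coeff_zero] at h1
    exact hne (Place.At.unique h1 hzero)
  set a : K := algebraMap k K x' with ha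
  have hroot : ∀ x ∈ p.roots, x - a ≠ 0 ∧ (x - a)⁻¹ ∈ v.ring := by
    intro x hx
    have h1 : p.eval x = 0 := (Polynomial.mem_roots hp0).1 hx
    rw [hev] at h1
    have h2 : ¬ v.At x x' := fun h3 => hcon x h3 h1
    rw [Place.At, v.vanishes_iff_or] at h2
    push Not at h2
    exact h2
  have hprod : p = Polynomial.C p.leadingCoeff *
      (p.roots.map fun x => Polynomial.X - Polynomial.C x).prod :=
    (IsAlgClosed.splits p).eq_prod_roots
  obtain ⟨R, hR, h1⟩ := root_at_prod (v.const_mem x') p.roots hroot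
  have h2 : p = Polynomial.C (p.eval a) * R := by
    have h3 : p.eval a = p.leadingCoeff *
        (p.roots.map fun x => Polynomial.X - Polynomial.C x).prod.eval a := by
      conv_lhs => rw [hprod]
      rw [Polynomial.eval_mul, Polynomial.eval_C]
    rw [h3, Polynomial.C_mul, mul_assoc, ← h1]
    exact hprod
  have h3 : v.Vanishes (p.eval a) := by
    rw [← Place.at_zero_iff, ← hx, hev]
    exact Place.At.sum fun i hi => (h i (by rw [Finset.mem_range] at hi; omega)).mul
      ((Place.at_const x').pow i)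
  have h4 : v.At (c i₀) 0 := by
    rw [Place.at_zero_iff, ← hcoeff i₀ hi₀, h2, Polynomial.coeff_C_mul]
    exact h3.mul v (hR i₀)
  exact hne (Place.At.unique (h i₀ hi₀) h4)

variable {k : Type} [Field k] [IsAlgClosed k] [CharZero k] {F F₀ : MvPolynomial (Fin 4) k}

/-- A point `x` of the limit of the plane `W` on the surface is the value of a point `P` in `W` on
`F + θ F₀ = 0` which is not proportional to one of finitely many given vectors. `x`, `y`, `y₂` are
three independent vectors in the limit, `F` is not zero on the line `x`, `y`. Proof: lift them to `a`, `b`,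
`b₂` in `W`. Let `G = F + θ F₀` on vectors over `Om k`. The polynomial `G(a + X b)` is not zero (its
value is `F(x + X y)`), so there is `ε ≠ 0` with value zero and `G(a + ε b) ≠ 0` (infinitely many
`ε`); replace `a` by `a + ε b`. For all but finitely many `μ` in `k` the polynomial
`F(x + X (y + μ y₂))` is not zero, it has the root zero, `root_at` gives `s` with value zero and
`G(a + s (b + μ b₂)) = 0`; `s ≠ 0` because `G(a) ≠ 0`. The points `P_μ = a + s (b + μ b₂)` are on
different lines through `a`, so only finitely many of them are proportional to one of the given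
vectors. -/
theorem lift_pt (hF : F.IsHomogeneous 4) (hF₀ : F₀.IsHomogeneous 4) {v : Place k (Om k)}
    {θ : Om k} (hθ : v.At θ 0) {W : Submodule (Om k) (Fin 4 → Om k)} {x y y₂ : Fin 4 → k}
    (hx : x ∈ limW v W) (hy : y ∈ limW v W) (hy₂ : y₂ ∈ limW v W)
    (hli : LinearIndependent k ![x, y, y₂]) (hFx : MvPolynomial.aeval x F = 0)
    (hFy : ∃ s : k, MvPolynomial.aeval (x + s • y) F ≠ 0) (Γ : Finset (Fin 4 → Om k)) :
    ∃ P ∈ W, (∀ i, v.At (P i) (x i)) ∧
      MvPolynomial.aeval P F + θ * MvPolynomial.aeval P F₀ = 0 ∧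
      ∀ σ ∈ Γ, ∀ c : Om k, P ≠ c • σ := by
  obtain ⟨a, haW, ha⟩ := mem_limW.1 hx
  obtain ⟨b, hbW, hb⟩ := mem_limW.1 hy
  obtain ⟨b₂, hb₂W, hb₂⟩ := mem_limW.1 hy₂
  obtain ⟨s₀, hs₀⟩ := hFy
  -- the polynomial of a line
  set G : (Fin 4 → Om k) → (Fin 4 → Om k) → Polynomial (Om k) := fun a b =>
    MvPolynomial.aeval (ln a b) F + Polynomial.C θ * MvPolynomial.aeval (ln a b) F₀ with hG
  have hGe : ∀ (a b : Fin 4 → Om k) (s : Om k), (G a b).eval s =
      MvPolynomial.aeval (a + s • b) F + θ * MvPolynomial.aeval (a + s • b) F₀ := by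
    intro a b s
    rw [hG]
    simp only
    rw [Polynomial.eval_add, Polynomial.eval_mul, Polynomial.eval_C, eval_ln, eval_ln]
  have hGat : ∀ {a b : Fin 4 → Om k} {x y : Fin 4 → k}, (∀ i, v.At (a i) (x i)) →
      (∀ i, v.At (b i) (y i)) → PAt v (G a b) (MvPolynomial.aeval (ln x y) F) := by
    intro a b x y ha hb
    have h1 := (PAt.aeval (PAt.ln ha hb) F).add
      ((PAt.const hθ).mul (PAt.aeval (PAt.ln ha hb) F₀))
    rwa [Polynomial.C_0, zero_mul, add_zero] at h1
  -- the first point
  have hq : MvPolynomial.aeval (ln x y) F ≠ (0 : Polynomial k) := by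
    intro h0
    apply hs₀
    rw [← eval_ln, h0, Polynomial.eval_zero]
  obtain ⟨ε, hε, hε0⟩ := exists_small v ((hGat ha hb).ne_zero hq)
  rw [hGe] at hε0
  set a' : Fin 4 → Om k := a + ε • b with ha'
  have ha'W : a' ∈ W := W.add_mem haW (W.smul_mem _ hbW)
  have ha'v : ∀ i, v.At (a' i) (x i) := by
    intro i
    have h1 := (ha i).add (hε.mul (hb i))
    rwa [zero_mul, add_zero] at h1
  -- the lines through the first point
  set r : Polynomial k := MvPolynomial.aeval (ln (x + s₀ • y) (s₀ • y₂)) F with hr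
  have hr0 : r ≠ 0 := by
    intro h0
    apply hs₀
    have h1 := eval_ln (x + s₀ • y) (s₀ • y₂) F 0
    rw [← hr, h0, Polynomial.eval_zero, zero_smul, add_zero] at h1
    exact h1.symm
  have key : ∀ μ : k, μ ∉ r.roots.toFinset → ∃ s : Om k, v.At s 0 ∧ s ≠ 0 ∧
      (G a' (b + algebraMap k (Om k) μ • b₂)).eval s = 0 := by
    intro μ hμ
    rw [Multiset.mem_toFinset, Polynomial.mem_roots hr0] at hμ
    have hbv : ∀ i, v.At ((b + algebraMap k (Om k) μ • b₂) i) ((y + μ • y₂) i) := fun i =>
      (hb i).add ((Place.at_const μ).mul (hb₂ i))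
    have hp := hGat ha'v hbv
    set p := G a' (b + algebraMap k (Om k) μ • b₂) with hpdef
    set q : Polynomial k := MvPolynomial.aeval (ln x (y + μ • y₂)) F with hqdef
    have hq0 : q ≠ 0 := by
      intro h0
      apply hμ
      have h1 := eval_ln (x + s₀ • y) (s₀ • y₂) F μ
      have h2 := eval_ln x (y + μ • y₂) F s₀
      have h3 : x + s₀ • y + μ • s₀ • y₂ = x + s₀ • (y + μ • y₂) := by
        rw [smul_add, add_assoc, smul_comm]
      rw [h3, ← h2, ← hqdef, h0, Polynomial.eval_zero] at h1
      exact h1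
    have hq1 : q.eval 0 = 0 := by
      rw [hqdef, eval_ln, zero_smul, add_zero, hFx]
    obtain ⟨i, hi⟩ : ∃ i, q.coeff i ≠ 0 := by
      by_contra hcon
      push Not at hcon
      exact hq0 (Polynomial.ext fun i => by rw [hcon i, Polynomial.coeff_zero])
    have hile : i ≤ max p.natDegree q.natDegree :=
      (Polynomial.le_natDegree_of_ne_zero hi).trans (le_max_right _ _)
    obtain ⟨s, hs, hs1⟩ := root_at (v := v) (n := max p.natDegree q.natDegree) (c := p.coeff)
      (c' := q.coeff) (fun i _ => hp i) ⟨i, hile, hi⟩ (x' := 0) (by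
        rw [← Polynomial.eval_eq_sum_range' (Nat.lt_succ_of_le (le_max_right _ _))]
        exact hq1)
    rw [← Polynomial.eval_eq_sum_range' (Nat.lt_succ_of_le (le_max_left _ _))] at hs1
    refine ⟨s, hs, ?_, hs1⟩
    rintro rfl
    rw [hpdef, hGe, zero_smul, add_zero] at hs1
    exact hε0 hs1
  by_contra hcon
  push Not at hcon
  have hbad : ∀ μ : {μ : k // μ ∉ r.roots.toFinset}, ∃ (σ : Γ) (c s : Om k), s ≠ 0 ∧
      a' + s • (b + algebraMap k (Om k) μ.1 • b₂) = c • σ.1 := by
    intro μ
    obtain ⟨s, hs, hs0, hs1⟩ := key μ.1 μ.2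
    obtain ⟨σ, hσ, c, hc⟩ := hcon (a' + s • (b + algebraMap k (Om k) μ.1 • b₂))
      (W.add_mem ha'W (W.smul_mem _ (W.add_mem hbW (W.smul_mem _ hb₂W)))) (fun i => by
        have h1 := (ha'v i).add (hs.mul ((hb i).add ((Place.at_const μ.1).mul (hb₂ i))))
        rwa [zero_mul, add_zero] at h1) (by rw [← hGe]; exact hs1)
    exact ⟨⟨σ, hσ⟩, c, s, hs0, hc⟩
  choose f c s hs0 hf using hbad
  have hinf : Infinite {μ : k // μ ∉ r.roots.toFinset} :=
    (Set.Infinite.to_subtype (Set.Finite.infinite_compl r.roots.toFinset.finite_toSet))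
  obtain ⟨μ, μ', hne, hff⟩ := Finite.exists_ne_map_eq_of_infinite f
  have h1 := hf μ
  have h2 := hf μ'
  rw [← hff] at h2
  have hABv : ∀ (j : Fin 3) i, v.At ((![a', b, b₂] : Fin 3 → Fin 4 → Om k) j i)
      ((![x, y, y₂] : Fin 3 → Fin 4 → k) j i) := by
    intro j i
    fin_cases j
    · exact ha'v i
    · exact hb i
    · exact hb₂ i
  have h3 : ∑ j, (![c μ' - c μ, c μ' * s μ - c μ * s μ',
      c μ' * s μ * algebraMap k (Om k) μ.1 - c μ * s μ' * algebraMap k (Om k) μ'.1] :
        Fin 3 → Om k) j • (![a', b, b₂] : Fin 3 → Fin 4 → Om k) j = 0 := by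
    funext i
    have h4 := congrFun h1 i
    have h5 := congrFun h2 i
    simp only [Pi.add_apply, Pi.smul_apply, smul_eq_mul] at h4 h5
    rw [Fin.sum_univ_three]
    simp only [Matrix.cons_val_zero, Matrix.cons_val_one, Matrix.cons_val_two, Matrix.head_cons,
      Matrix.tail_cons, Pi.add_apply, Pi.smul_apply, smul_eq_mul, Pi.zero_apply]
    linear_combination c μ' * h4 - c μ * h5
  have h6 := li_of_at hABv hli h3
  have e0 : c μ' = c μ := sub_eq_zero.1 (congrFun h6 0)
  have e1 : c μ' * s μ = c μ * s μ' := sub_eq_zero.1 (congrFun h6 1)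
  have e2 : c μ' * s μ * algebraMap k (Om k) μ.1 = c μ * s μ' * algebraMap k (Om k) μ'.1 :=
    sub_eq_zero.1 (congrFun h6 2)
  have hc0 : c μ ≠ 0 := by
    intro h0
    rw [h0, zero_smul] at h1
    have h7 : ∑ j, (![1, s μ, s μ * algebraMap k (Om k) μ.1] : Fin 3 → Om k) j •
        (![a', b, b₂] : Fin 3 → Fin 4 → Om k) j = 0 := by
      funext i
      have h4 := congrFun h1 i
      simp only [Pi.add_apply, Pi.smul_apply, smul_eq_mul, Pi.zero_apply] at h4
      rw [Fin.sum_univ_three]
      simp only [Matrix.cons_val_zero, Matrix.cons_val_one, Matrix.cons_val_two, Matrix.head_cons,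
        Matrix.tail_cons, Pi.add_apply, Pi.smul_apply, smul_eq_mul, Pi.zero_apply]
      linear_combination h4
    exact one_ne_zero (congrFun (li_of_at hABv hli h7) 0)
  rw [e0] at e1 e2
  have e3 : s μ = s μ' := mul_left_cancel₀ hc0 e1
  rw [← e3] at e2
  have e4 : algebraMap k (Om k) μ.1 = algebraMap k (Om k) μ'.1 :=
    mul_left_cancel₀ (mul_ne_zero hc0 (hs0 μ)) e2
  exact hne (Subtype.ext ((algebraMap k (Om k)).injective e4))

end Pool.Agent.QRT
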