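import Pool.Agent.QRT.Defs

/-!
# Values of polynomials in one variable, points on lines
-/

set_option autoImplicit false

noncomputable section

namespace Pool.Agent.QRT

open Pool.Agent.ZCyc Pool.Agent.Dess Pool.Agent.GT Pool.Agent.CUB
open Pool.Agent.VFP (Om tt)
open Polynomial
open scoped Classical

section Poly

variable {k : Type} [Field k] {K : Type} [Field K] [Algebra k K] {v : Place k K}

theorem at_zero' : v.At (0 : K) 0 := by simpa using Place.at_const (v := v) (0 : k)

theorem at_one' : v.At (1 : K) 1 := by simpa using Place.at_const (v := v) (1 : k)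

/-- the coefficients of `p` have the coefficients of `q` as values -/
def PAt (v : Place k K) (p : K[X]) (q : k[X]) : Prop := ∀ i, v.At (p.coeff i) (q.coeff i)

theorem PAt.add {p p' : K[X]} {q q' : k[X]} (h : PAt v p q) (h' : PAt v p' q') :
    PAt v (p + p') (q + q') := fun i => by
  rw [coeff_add, coeff_add]
  exact (h i).add (h' i)

theorem PAt.mul {p p' : K[X]} {q q' : k[X]} (h : PAt v p q) (h' : PAt v p' q') :
    PAt v (p * p') (q * q') := fun i => by
  rw [coeff_mul, coeff_mul]
  exact Place.At.sum fun j _ => (h _).mul (h' _)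

theorem PAt.const {a : K} {b : k} (h : v.At a b) : PAt v (C a) (C b) := fun i => by
  rw [coeff_C, coeff_C]
  split_ifs
  · exact h
  · exact at_zero'

theorem PAt.var : PAt v (X : K[X]) (X : k[X]) := fun i => by
  rw [coeff_X, coeff_X]
  split_ifs
  · exact at_one'
  · exact at_zero'

theorem PAt.aeval {ι : Type} {P : ι → K[X]} {Q : ι → k[X]} (h : ∀ i, PAt v (P i) (Q i))
    (f : MvPolynomial ι k) : PAt v (MvPolynomial.aeval P f) (MvPolynomial.aeval Q f) := by
  induction f using MvPolynomial.induction_on with
  | C a =>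
    rw [MvPolynomial.aeval_C, MvPolynomial.aeval_C]
    exact PAt.const (Place.at_const a)
  | add f g hf hg =>
    rw [map_add, map_add]
    exact hf.add hg
  | mul_X f i hf =>
    rw [map_mul, map_mul, MvPolynomial.aeval_X, MvPolynomial.aeval_X]
    exact hf.mul (h i)

theorem PAt.ne_zero {p : K[X]} {q : k[X]} (h : PAt v p q) (hq : q ≠ 0) : p ≠ 0 := by
  rintro rfl
  apply hq
  ext i
  have h1 := h i
  rw [coeff_zero] at h1
  rw [coeff_zero]
  exact Place.At.unique h1 at_zero'

/-- the point with the parameter `X` on the line through `a` and `b` -/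
def ln {ι : Type} (a b : ι → K) : ι → K[X] := fun i => C (a i) + X * C (b i)

theorem PAt.ln {ι : Type} {a b : ι → K} {x y : ι → k} (ha : ∀ i, v.At (a i) (x i))
    (hb : ∀ i, v.At (b i) (y i)) (i : ι) : PAt v (ln a b i) (ln x y i) :=
  (PAt.const (ha i)).add (PAt.var.mul (PAt.const (hb i)))

theorem eval_ln {ι : Type} (a b : ι → K) (f : MvPolynomial ι k) (s : K) :
    (MvPolynomial.aeval (ln a b) f).eval s = MvPolynomial.aeval (a + s • b) f := by
  induction f using MvPolynomial.induction_on with
  | C c =>
    rw [MvPolynomial.aeval_C, MvPolynomial.aeval_C]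
    exact eval_C
  | add f g hf hg => rw [map_add, map_add, eval_add, hf, hg]
  | mul_X f i hf =>
    rw [map_mul, map_mul, MvPolynomial.aeval_X, MvPolynomial.aeval_X, eval_mul, hf]
    unfold ln
    rw [eval_add, eval_mul, eval_C, eval_X, eval_C]
    rfl

/-- vectors with linearly independent values are linearly independent -/
theorem li_of_at [HasRes k K] {ι : Type} {n : ℕ} {A : Fin n → ι → K} {B : Fin n → ι → k}
    (h : ∀ j i, v.At (A j i) (B j i)) (hB : LinearIndependent k B) {c : Fin n → K}
    (hc : ∑ j, c j • A j = 0) : c = 0 := by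
  by_contra hc0
  obtain ⟨l, y, hl, hy, hly⟩ := exists_scale v c hc0
  apply hy
  have h3 := Fintype.linearIndependent_iff.1 hB y ?_
  · exact funext h3
  funext i
  have h1 : v.At (∑ j, l * c j * A j i) (∑ j, y j * B j i) :=
    Place.At.sum fun j _ => (hly j).mul (h j i)
  have h2 : ∑ j, l * c j * A j i = 0 := by
    have h4 := congrFun hc i
    rw [Finset.sum_apply] at h4
    simp only [Pi.smul_apply, smul_eq_mul, Pi.zero_apply] at h4
    calc ∑ j, l * c j * A j i = l * ∑ j, c j * A j i := by
          rw [Finset.mul_sum]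
          exact Finset.sum_congr rfl fun j _ => by ring
      _ = 0 := by rw [h4, mul_zero]
  rw [h2] at h1
  rw [Finset.sum_apply]
  simp only [Pi.smul_apply, smul_eq_mul, Pi.zero_apply]
  exact Place.At.unique h1 at_zero'

/-- there are infinitely many functions with value zero -/
theorem exists_small [Infinite k] (v : Place k K) {p : K[X]} (hp : p ≠ 0) :
    ∃ ε : K, v.At ε 0 ∧ p.eval ε ≠ 0 := by
  obtain ⟨z, hz⟩ : ∃ z : K, z ∉ v.ring := by
    by_contra hcon
    push Not at hcon
    apply v.ne_top
    ext z
    exact ⟨fun _ => ValuationSubring.mem_top z, fun _ => hcon z⟩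
  have hz0 : z ≠ 0 := by
    rintro rfl
    exact hz (zero_mem _)
  have hzi : v.At z⁻¹ 0 := by
    rw [Place.at_zero_iff, v.vanishes_iff_or]
    right
    rwa [inv_inv]
  have hinj : Function.Injective fun c : k => algebraMap k K c * z⁻¹ := by
    intro c c' h
    exact (algebraMap k K).injective (mul_right_cancel₀ (inv_ne_zero hz0) h)
  obtain ⟨c, hc⟩ := Infinite.exists_notMem_finset
    (p.roots.toFinset.preimage (fun c : k => algebraMap k K c * z⁻¹) hinj.injOn)
  rw [Finset.mem_preimage, Multiset.mem_toFinset, mem_roots hp] at hc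
  refine ⟨algebraMap k K c * z⁻¹, ?_, hc⟩
  have := (Place.at_const (v := v) c).mul hzi
  rwa [mul_zero] at this

end Poly

end Pool.Agent.QRT
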