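import Pool.Agent.QRT.Defs

/-!
# Rational curves on the surface
-/

set_option autoImplicit false

noncomputable section

namespace Pool.Agent.QRT

open Pool.Agent.ZCyc Pool.Agent.Dess Pool.Agent.GT
open Pool.Agent.VFP (Om tt)
open scoped Classical

variable {k : Type} [Field k] [IsAlgClosed k] [CharZero k] {F : MvPolynomial (Fin 4) k}

private theorem p1_at {v : Place k (Om k)} {x : Om k} {c : k} (h : v.At x c)
    (p : Polynomial k) : v.At (Polynomial.aeval x p) (p.eval c) := by
  induction p using Polynomial.induction_on' with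
  | add p q hp hq =>
    rw [map_add, Polynomial.eval_add]
    exact hp.add hq
  | monomial n a =>
    rw [Polynomial.aeval_monomial, Polynomial.eval_monomial]
    refine (Place.at_const a).mul ?_
    induction n with
    | zero =>
      rw [pow_zero, pow_zero]
      have h1 := Place.at_const (v := v) (1 : k)
      rwa [map_one] at h1
    | succ n ih =>
      rw [pow_succ, pow_succ]
      exact ih.mul h

/-- the coordinates of the curve -/
private def p1p (n : ℕ) (a : ℕ → Fin 4 → k) (i : Fin 4) : Polynomial k :=
  ∑ j ∈ Finset.range (n + 1), Polynomial.X ^ j * (1 - Polynomial.X) ^ (n - j) *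
    Polynomial.C (a j i)

private theorem p1p_zero (n : ℕ) (a : ℕ → Fin 4 → k) (i : Fin 4) :
    (p1p n a i).eval 0 = a 0 i := by
  unfold p1p
  rw [Polynomial.eval_finsetSum, Finset.sum_eq_single 0]
  · simp
  · intro j _ hj
    simp [hj]
  · intro h
    exact absurd (Finset.mem_range.2 (Nat.succ_pos n)) h

private theorem p1p_one (n : ℕ) (a : ℕ → Fin 4 → k) (i : Fin 4) :
    (p1p n a i).eval 1 = a n i := by
  unfold p1p
  rw [Polynomial.eval_finsetSum, Finset.sum_eq_single n]
  · simp
  · intro j hj hjn
    have h1 : n - j ≠ 0 := by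
      have := Finset.mem_range.1 hj
      omega
    simp [h1]
  · intro h
    exact absurd (Finset.mem_range.2 (Nat.lt_succ_self n)) h

private theorem p1p_eval (n : ℕ) (a : ℕ → Fin 4 → k) {r : k} (hr : r ≠ 1) :
    (fun i => (p1p n a i).eval r) =
      (1 - r) ^ n • ∑ j ∈ Finset.range (n + 1), (r / (1 - r)) ^ j • a j := by
  have h1 : (1 - r) ≠ 0 := sub_ne_zero.2 hr.symm
  funext i
  unfold p1p
  rw [Polynomial.eval_finsetSum, Pi.smul_apply, Finset.sum_apply, smul_eq_mul, Finset.mul_sum]
  refine Finset.sum_congr rfl fun j hj => ?_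
  have h2 : j ≤ n := Nat.lt_succ_iff.1 (Finset.mem_range.1 hj)
  have h3 : (1 - r) ^ n = (1 - r) ^ (n - j) * (1 - r) ^ j := by
    rw [← pow_add, Nat.sub_add_cancel h2]
  simp only [Polynomial.eval_mul, Polynomial.eval_pow, Polynomial.eval_X, Polynomial.eval_sub,
    Polynomial.eval_one, Polynomial.eval_C, Pi.smul_apply, smul_eq_mul]
  rw [h3, div_pow]
  field_simp

private theorem p1_poly (hF : F.IsHomogeneous 4) {n : ℕ} (a : ℕ → Fin 4 → k)
    (h : ∀ r : k, MvPolynomial.aeval (∑ j ∈ Finset.range (n + 1), r ^ j • a j) F = 0) :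
    MvPolynomial.aeval (p1p n a) F = 0 := by
  have hinf : ({r : k | r ≠ 1} : Set k).Infinite := by
    have := (Set.finite_singleton (1 : k)).infinite_compl
    exact this
  refine Polynomial.eq_zero_of_infinite_isRoot _ (hinf.mono fun r hr => ?_)
  show Polynomial.IsRoot _ r
  rw [Polynomial.IsRoot.def]
  have e1 : Polynomial.eval r (MvPolynomial.aeval (p1p n a) F) =
      MvPolynomial.aeval (fun i => (p1p n a i).eval r) F := by
    have h1 := MvPolynomial.comp_aeval_apply (p1p n a)
      (Polynomial.aeval r : Polynomial k →ₐ[k] k) F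
    rw [Polynomial.coe_aeval_eq_eval] at h1
    exact h1
  rw [e1, p1p_eval n a hr, aeval_smul hF, h, mul_zero]

/-- The value at zero and the value at infinity of a rational curve are equivalent. Proof:
`cv_bridge` (`I = Unit`) for the point `∑ t ^ j (1 - t) ^ (n - j) a j` over `Om k`, `t = tt k`: it
is on
the surface (a polynomial identity, it holds for all elements of the infinite field `k`, so it holds
over `Om k`; `t = 1` is no problem by homogeneity), its value at `t = 0` is `a 0`, its value at
`t = 1` is `a n`. -/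
theorem p1 (hF : F.IsHomogeneous 4) {n : ℕ} (a : ℕ → Fin 4 → k) (h0 : a 0 ≠ 0) (hn : a n ≠ 0)
    (h : ∀ r : k, MvPolynomial.aeval (∑ j ∈ Finset.range (n + 1), r ^ j • a j) F = 0) :
    cp hF (a 0) = cp hF (a n) := by
  let y : Unit → Fin 4 → Om k := fun _ i => Polynomial.aeval (tt k) (p1p n a i)
  have hat : ∀ (v : Place k (Om k)) (c : k), v.At (tt k) c → ∀ i,
      v.At (1 * y () i) ((p1p n a i).eval c) := by
    intro v c hv i
    rw [one_mul]
    exact p1_at hv _
  have hy : ∀ u, y u ≠ 0 ∧ MvPolynomial.aeval (y u) F = 0 := by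
    intro u
    constructor
    · obtain ⟨v, hv⟩ := CUB.exists_place_at (k := k) (x := tt k) (fun c => VFP.tt_ne c) 0
      refine (vl_eq (v := v) (y := y u) (y' := a 0) (l := 1) (fun i => ?_) h0).1
      have h1 := hat v 0 hv i
      rwa [p1p_zero] at h1
    · have e1 : MvPolynomial.aeval (y u) F =
          Polynomial.aeval (tt k) (MvPolynomial.aeval (p1p n a) F) :=
        (MvPolynomial.comp_aeval_apply (p1p n a)
          (Polynomial.aeval (tt k) : Polynomial k →ₐ[k] Om k) F).symm
      rw [e1, p1_poly hF a h, map_zero]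
  refine cv_bridge hF y hy (c₀ := 0) (c₁ := 1) (fun v hv => ?_) (fun v hv => ?_)
  · rw [Fintype.sum_unique]
    refine cv_eq hF (l := 1) (fun i => ?_) h0
    have h1 := hat v 0 hv i
    rwa [p1p_zero] at h1
  · rw [Fintype.sum_unique]
    refine cv_eq hF (l := 1) (fun i => ?_) hn
    have h1 := hat v 1 hv i
    rwa [p1p_one] at h1

/-- the points of a line on the surface: `p1` with `n = 1` for `a 0 = x A + y B`,
`a 1 = x' A + y' B`
if these two vectors are independent, otherwise they are proportional -/
theorem p1_line (hF : F.IsHomogeneous 4) {A B : Fin 4 → k} (hAB : LinearIndependent k ![A, B])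
    (h : ∀ x y : k, MvPolynomial.aeval (x • A + y • B) F = 0) {x y x' y' : k}
    (hxy : x ≠ 0 ∨ y ≠ 0) (hxy' : x' ≠ 0 ∨ y' ≠ 0) :
    cp hF (x • A + y • B) = cp hF (x' • A + y' • B) := by
  have hne : ∀ x y : k, (x ≠ 0 ∨ y ≠ 0) → x • A + y • B ≠ 0 := by
    intro x y hxy h0
    have h1 := LinearIndependent.pair_iff.1 hAB x y h0
    rcases hxy with h2 | h2
    · exact h2 h1.1
    · exact h2 h1.2
  have h1 := p1 hF (n := 1) (fun j => if j = 0 then x • A + y • B else x' • A + y' • B)
    (by simpa using hne x y hxy) (by simpa using hne x' y' hxy') (fun r => by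
      have e1 : ∑ j ∈ Finset.range (1 + 1), r ^ j •
          (if j = 0 then x • A + y • B else x' • A + y' • B) =
          (x + r * x') • A + (y + r * y') • B := by
        rw [Finset.sum_range_succ, Finset.sum_range_one]
        simp only [pow_zero, one_smul, if_true, pow_one, one_ne_zero, if_false]
        module
      rw [e1]
      exact h _ _)
  simpa using h1

end Pool.Agent.QRT
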