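import Pool.Agent.QRT.Bf
import Pool.Agent.QRT.P1

/-!
# The class of a line section
-/

set_option autoImplicit false

noncomputable section

namespace Pool.Agent.QRT

open Pool.Agent.ZCyc Pool.Agent.Dess Pool.Agent.GT
open Pool.Agent.VFP (Om tt)
open scoped Classical

variable {k : Type} [Field k] [IsAlgClosed k] [CharZero k] {F : MvPolynomial (Fin 4) k}

/-- finitely many nonzero linear forms do not vanish at a common pair -/
private theorem LineK_ne {n : ℕ} {α β : Fin n → k} (h : ∀ i, α i ≠ 0 ∨ β i ≠ 0) :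
    ∃ r : k, ∏ i, (β i * r - α i * 1) ≠ 0 := by
  have h1 : (∏ i, (Polynomial.C (β i) * Polynomial.X - Polynomial.C (α i))) ≠ 0 := by
    rw [Finset.prod_ne_zero_iff]
    intro i _ h2
    have h3 := congrArg (fun p => Polynomial.coeff p 0) h2
    have h4 := congrArg (fun p => Polynomial.coeff p 1) h2
    simp only [Polynomial.coeff_sub, Polynomial.coeff_C_mul, Polynomial.coeff_X_zero,
      Polynomial.coeff_C_zero, Polynomial.coeff_zero, Polynomial.coeff_X_one,
      Polynomial.coeff_C_succ, mul_zero, mul_one, zero_sub, sub_zero] at h3 h4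
    rcases h i with h5 | h5
    · exact h5 (neg_eq_zero.1 h3)
    · exact h5 h4
  obtain ⟨r, hr⟩ : ∃ r : k, (∏ i, (Polynomial.C (β i) * Polynomial.X -
      Polynomial.C (α i))).eval r ≠ 0 := by
    by_contra hcon
    push Not at hcon
    exact h1 (Polynomial.funext fun r => by rw [hcon r, Polynomial.eval_zero])
  refine ⟨r, ?_⟩
  rw [Polynomial.eval_prod] at hr
  simpa using hr

/-- the sum of the points of a line section does not depend on the factorization -/
private theorem LineK_unique (hF : Sm F) {A B : Fin 4 → k} {κ κ' : k} {α β α' β' : Fin 4 → k}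
    (hκ : κ ≠ 0) (hne : ∀ i, α i ≠ 0 ∨ β i ≠ 0) (hne' : ∀ i, α' i ≠ 0 ∨ β' i ≠ 0)
    (h : ∀ x y : k, MvPolynomial.aeval (x • A + y • B) F = κ * ∏ i, (β i * x - α i * y))
    (h' : ∀ x y : k, MvPolynomial.aeval (x • A + y • B) F = κ' * ∏ i, (β' i * x - α' i * y)) :
    ∑ i, cp hF.hom (α' i • A + β' i • B) = ∑ i, cp hF.hom (α i • A + β i • B) := by
  have hκ' : κ' ≠ 0 := by
    rintro rfl
    obtain ⟨r, hr⟩ := LineK_ne hne
    have h1 := h r 1
    rw [h' r 1, zero_mul] at h1
    exact mul_ne_zero hκ hr h1.symm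
  obtain ⟨σ, hσ⟩ := fac_unique hκ' hκ hne' hne fun x y => by rw [← h', ← h]
  rw [← Equiv.sum_comp σ fun i => cp hF.hom (α i • A + β i • B)]
  refine Finset.sum_congr rfl fun i _ => ?_
  obtain ⟨c, hc, h1, h2⟩ := hσ i
  rw [h1, h2, mul_smul, mul_smul, ← smul_add, cp_smul hF.hom hc]

/-- the values of the points of a line section over `Om k` -/
private theorem LineK_val (hF : Sm F) {v : Place k (Om k)} {A' B' : Fin 4 → Om k}
    {A B : Fin 4 → k} (hA : ∀ i, v.At (A' i) (A i)) (hB : ∀ i, v.At (B' i) (B i))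
    (hAB : LinearIndependent k ![A, B]) {κ : Om k} {α β : Fin 4 → Om k}
    (hne : ∀ i, α i ≠ 0 ∨ β i ≠ 0)
    (h : ∀ x y : Om k, MvPolynomial.aeval (x • A' + y • B') F = κ * ∏ i, (β i * x - α i * y)) :
    ∃ (κ' : k) (α' β' : Fin 4 → k), (∀ i, α' i ≠ 0 ∨ β' i ≠ 0) ∧
      (∀ x y : k, MvPolynomial.aeval (x • A + y • B) F = κ' * ∏ i, (β' i * x - α' i * y)) ∧
      ∀ i, cv hF.hom v (α i • A' + β i • B') = cp hF.hom (α' i • A + β' i • B) := by
  have h1 : ∀ i, ∃ (l : Om k) (a b : k), l ≠ 0 ∧ (a ≠ 0 ∨ b ≠ 0) ∧ v.At (l * α i) a ∧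
      v.At (l * β i) b := by
    intro i
    have h2 : (![α i, β i] : Fin 2 → Om k) ≠ 0 := by
      intro h3
      rcases hne i with h4 | h4
      · exact h4 (congrFun h3 0)
      · exact h4 (congrFun h3 1)
    obtain ⟨l, y, hl, hy, hly⟩ := exists_scale v _ h2
    refine ⟨l, y 0, y 1, hl, ?_, hly 0, hly 1⟩
    by_contra hcon
    push Not at hcon
    apply hy
    funext j
    fin_cases j
    · exact hcon.1
    · exact hcon.2
  choose l a b hl hab ha hb using h1
  have hg : ∀ x y : k, v.At (κ * (∏ i, (l i)⁻¹) * ∏ i, (l i * β i * algebraMap k (Om k) x -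
      l i * α i * algebraMap k (Om k) y)) (MvPolynomial.aeval (x • A + y • B) F) := by
    intro x y
    have h2 : κ * (∏ i, (l i)⁻¹) * ∏ i, (l i * β i * algebraMap k (Om k) x -
        l i * α i * algebraMap k (Om k) y) = MvPolynomial.aeval (algebraMap k (Om k) x • A' +
          algebraMap k (Om k) y • B') F := by
      rw [h, mul_assoc, ← Finset.prod_mul_distrib]
      congr 1
      refine Finset.prod_congr rfl fun i _ => ?_
      have := hl i
      field_simp
    rw [h2]
    refine aeval_at (fun i => ?_) F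
    exact ((Place.at_const (v := v) x).mul (hA i)).add ((Place.at_const (v := v) y).mul (hB i))
  obtain ⟨κ', -, h2⟩ := fac_lim (v := v) ha hb hab hg
  refine ⟨κ', a, b, hab, h2, fun i => ?_⟩
  refine cv_eq hF.hom (l := l i) (fun j => ?_) ?_
  · have h3 : l i * (α i • A' + β i • B') j = l i * α i * A' j + l i * β i * B' j := by
      simp only [Pi.add_apply, Pi.smul_apply, smul_eq_mul]
      ring
    rw [h3]
    exact ((ha i).mul (hA j)).add ((hb i).mul (hB j))
  · intro h3
    have h4 := LinearIndependent.pair_iff.1 hAB _ _ h3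
    rcases hab i with h5 | h5
    · exact h5 h4.1
    · exact h5 h4.2

/-- Two lines: the sums of the points of the two sections are the same. -/
private theorem LineK_move (hF : Sm F) {A₀ B₀ A B : Fin 4 → k}
    (h₀ : LinearIndependent k ![A₀, B₀]) (h : LinearIndependent k ![A, B])
    (hne : ∃ x y : k, MvPolynomial.aeval (x • A₀ + y • B₀) F ≠ 0)
    {C₀ C₁ : CH (m := 3) {F} Unit}
    (H₀ : ∀ (κ : k) (α β : Fin 4 → k), (∀ i, α i ≠ 0 ∨ β i ≠ 0) →
      (∀ x y : k, MvPolynomial.aeval (x • A₀ + y • B₀) F = κ * ∏ i, (β i * x - α i * y)) →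
      ∑ i, cp hF.hom (α i • A₀ + β i • B₀) = C₀)
    (H₁ : ∀ (κ : k) (α β : Fin 4 → k), (∀ i, α i ≠ 0 ∨ β i ≠ 0) →
      (∀ x y : k, MvPolynomial.aeval (x • A + y • B) F = κ * ∏ i, (β i * x - α i * y)) →
      ∑ i, cp hF.hom (α i • A + β i • B) = C₁) : C₀ = C₁ := by
  set t := tt k with ht
  set A' : Fin 4 → Om k := fun i => (1 - t) * algebraMap k (Om k) (A₀ i) +
    t * algebraMap k (Om k) (A i) with hA'
  set B' : Fin 4 → Om k := fun i => (1 - t) * algebraMap k (Om k) (B₀ i) +
    t * algebraMap k (Om k) (B i) with hB'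
  have hval : ∀ (v : Place k (Om k)) (c x y : k), v.At t c →
      v.At ((1 - t) * algebraMap k (Om k) x + t * algebraMap k (Om k) y)
        ((1 - c) * x + c * y) := by
    intro v c x y hv
    have h1 := Place.at_const (v := v) (1 : k)
    rw [map_one] at h1
    exact ((h1.sub hv).mul (Place.at_const x)).add (hv.mul (Place.at_const y))
  have hv0 : ∀ (v : Place k (Om k)) (x y : Fin 4 → k), v.At t 0 → ∀ i,
      v.At ((1 - t) * algebraMap k (Om k) (x i) + t * algebraMap k (Om k) (y i)) (x i) := by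
    intro v x y hv i
    have h1 := hval v 0 (x i) (y i) hv
    rwa [sub_zero, one_mul, zero_mul, add_zero] at h1
  have hv1 : ∀ (v : Place k (Om k)) (x y : Fin 4 → k), v.At t 1 → ∀ i,
      v.At ((1 - t) * algebraMap k (Om k) (x i) + t * algebraMap k (Om k) (y i)) (y i) := by
    intro v x y hv i
    have h1 := hval v 1 (x i) (y i) hv
    rwa [sub_self, zero_mul, one_mul, zero_add] at h1
  obtain ⟨v₀, hv₀⟩ := CUB.exists_place_at (VFP.tt_ne (k := k)) (0 : k)
  -- the form is not zero
  have hne' : ∃ x y : Om k, MvPolynomial.aeval (x • A' + y • B') F ≠ 0 := by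
    obtain ⟨x, y, hxy⟩ := hne
    refine ⟨algebraMap k (Om k) x, algebraMap k (Om k) y, fun h1 => hxy ?_⟩
    have h2 : v₀.At (MvPolynomial.aeval (algebraMap k (Om k) x • A' +
        algebraMap k (Om k) y • B') F) (MvPolynomial.aeval (x • A₀ + y • B₀) F) :=
      aeval_at (fun i => ((Place.at_const (v := v₀) x).mul (hv0 v₀ A₀ A hv₀ i)).add
        ((Place.at_const (v := v₀) y).mul (hv0 v₀ B₀ B hv₀ i))) F
    rw [h1] at h2
    have h3 := Place.at_const (v := v₀) (0 : k)
    rw [map_zero] at h3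
    exact Place.At.unique h2 h3
  -- the vectors are independent
  have hind : ∀ a b : Om k, a • A' + b • B' = 0 → a = 0 ∧ b = 0 := by
    intro a b hab
    by_contra hcon
    have h2 : (![a, b] : Fin 2 → Om k) ≠ 0 := fun h3 =>
      hcon ⟨congrFun h3 0, congrFun h3 1⟩
    obtain ⟨l, y, hl, hy, hly⟩ := exists_scale v₀ _ h2
    have h3 : y 0 • A₀ + y 1 • B₀ = 0 := by
      funext i
      have h4 : v₀.At (l * a * A' i + l * b * B' i) (y 0 * A₀ i + y 1 * B₀ i) :=
        ((hly 0).mul (hv0 v₀ A₀ A hv₀ i)).add ((hly 1).mul (hv0 v₀ B₀ B hv₀ i))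
      have h5 : l * a * A' i + l * b * B' i = 0 := by
        have h6 := congrFun hab i
        simp only [Pi.add_apply, Pi.smul_apply, smul_eq_mul, Pi.zero_apply] at h6
        rw [mul_assoc, mul_assoc, ← mul_add, h6, mul_zero]
      rw [h5] at h4
      have h7 := Place.at_const (v := v₀) (0 : k)
      rw [map_zero] at h7
      exact Place.At.unique h4 h7
    have h4 := LinearIndependent.pair_iff.1 h₀ _ _ h3
    apply hy
    funext j
    fin_cases j
    · exact h4.1
    · exact h4.2
  obtain ⟨κ, α, β, hκ, hαβ, hfac⟩ := line_fac hF.hom A' B' hne'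
  refine cv_bridge hF.hom (I := Fin 4) (c₀ := 0) (c₁ := 1) (fun i => α i • A' + β i • B')
    (fun i => ⟨fun h1 => ?_, ?_⟩) (fun v hv => ?_) (fun v hv => ?_)
  · have h2 := hind _ _ h1
    rcases hαβ i with h3 | h3
    · exact h3 h2.1
    · exact h3 h2.2
  · rw [hfac, Finset.prod_eq_zero (Finset.mem_univ i) (by ring), mul_zero]
  · obtain ⟨κ', α', β', h1, h2, h3⟩ := LineK_val hF (hv0 v A₀ A hv) (hv0 v B₀ B hv) h₀ hαβ hfac
    rw [Finset.sum_congr rfl fun i _ => h3 i]
    exact H₀ κ' α' β' h1 h2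
  · obtain ⟨κ', α', β', h1, h2, h3⟩ := LineK_val hF (hv1 v A₀ A hv) (hv1 v B₀ B hv) h hαβ hfac
    rw [Finset.sum_congr rfl fun i _ => h3 i]
    exact H₁ κ' α' β' h1 h2

/-- The sum of the four points of a line section is constant, and if a line is on the surface then
four times the class of each of its points is the same class. Proof: there is a vector with
`F ≠ 0` (`F ≠ 0` because it is smooth), let `A₀`, `B₀` span a line through it, with a factorization
(`line_fac`) and the sum `c`. For another line `A`, `B` let `A' = (1 - t) A₀ + t A`,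
`B' = (1 - t) B₀ + t B` over `Om k`, `t = tt k`. The form `F (x A' + y B')` is not zero (value at a place
above `t = 0`), factorize it over `Om k` (`line_fac`). `cv_bridge` for the four points
`α i A' + β i B'` (not zero, because `A'`, `B'` are independent, see the values at `t = 0`),
`c₀ = 0`, `c₁ = 1`. At a place above `t = 0`: scale the pairs `(α i, β i)` such that they have values
(`exists_scale`, `cv_smul`, move the factors to `κ`), `fac_lim` for `g x y = F (x A₀ + y B₀)`, the
value of `κ` is not zero, `fac_unique`, so the sum is `c`. At a place above `t = 1`: if `F` is not zero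
on the line `A`, `B` then in the same way the sum is the sum of the points of the given
factorization. If `F` is zero on this line then the four values are points of this line, their
classes are the same (`p1_line`), and the sum is four times this class. -/
theorem exists_cX (hF : Sm F) : ∃ c : CH (m := 3) {F} Unit,
    (∀ (A B : Fin 4 → k) (κ : k) (α β : Fin 4 → k), LinearIndependent k ![A, B] → κ ≠ 0 →
      (∀ i, α i ≠ 0 ∨ β i ≠ 0) →
      (∀ x y : k, MvPolynomial.aeval (x • A + y • B) F = κ * ∏ i, (β i * x - α i * y)) →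
      ∑ i, cp hF.hom (α i • A + β i • B) = c) ∧
    ∀ A B : Fin 4 → k, LinearIndependent k ![A, B] →
      (∀ x y : k, MvPolynomial.aeval (x • A + y • B) F = 0) → ∀ x y : k, (x ≠ 0 ∨ y ≠ 0) →
        (4 : ℚ) • cp hF.hom (x • A + y • B) = c := by
  -- a line which is not on the surface
  obtain ⟨A₀, hA₀⟩ : ∃ x : Fin 4 → k, MvPolynomial.aeval x F ≠ 0 := by
    by_contra hcon
    push Not at hcon
    have h1 : F = 0 := MvPolynomial.funext fun x => by
      rw [map_zero, ← hcon x]
      exact (MvPolynomial.aeval_def x F).symm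
    have h2 := hF.ns (fun _ => 1) fun i => by rw [h1, map_zero, map_zero]
    exact one_ne_zero (congrFun h2 0)
  have hA0 : A₀ ≠ 0 := by
    rintro rfl
    apply hA₀
    have h1 := aeval_smul hF.hom (0 : k) (0 : Fin 4 → k)
    rwa [smul_zero, zero_pow (by norm_num), zero_mul] at h1
  obtain ⟨i, hi⟩ : ∃ i, A₀ i ≠ 0 := by
    by_contra hcon
    push Not at hcon
    exact hA0 (funext hcon)
  obtain ⟨j, hj⟩ : ∃ j : Fin 4, j ≠ i := exists_ne i
  set B₀ : Fin 4 → k := Pi.single j 1 with hB₀
  have hli : LinearIndependent k ![A₀, B₀] := by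
    rw [LinearIndependent.pair_iff]
    intro a b hab
    have h1 := congrFun hab i
    have h2 := congrFun hab j
    simp only [hB₀, Pi.add_apply, Pi.smul_apply, smul_eq_mul, Pi.zero_apply,
      Pi.single_eq_of_ne' hj, Pi.single_eq_same, mul_zero, mul_one, add_zero] at h1 h2
    have h3 : a = 0 := (mul_eq_zero.1 h1).resolve_right hi
    refine ⟨h3, ?_⟩
    rwa [h3, zero_mul, zero_add] at h2
  have hne : ∃ x y : k, MvPolynomial.aeval (x • A₀ + y • B₀) F ≠ 0 :=
    ⟨1, 0, by rwa [one_smul, zero_smul, add_zero]⟩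
  obtain ⟨κ₀, α₀, β₀, hκ₀, hαβ₀, hfac₀⟩ := line_fac hF.hom A₀ B₀ hne
  refine ⟨∑ i, cp hF.hom (α₀ i • A₀ + β₀ i • B₀), ?_, ?_⟩
  · intro A B κ α β hAB hκ hαβ hfac
    symm
    refine LineK_move hF hli hAB hne (fun κ' α' β' h1 h2 => ?_) (fun κ' α' β' h1 h2 => ?_)
    · exact LineK_unique hF hκ₀ hαβ₀ h1 hfac₀ h2
    · exact LineK_unique hF hκ hαβ h1 hfac h2
  · intro A B hAB h0 x y hxy
    symm
    refine LineK_move hF hli hAB hne (fun κ' α' β' h1 h2 => ?_) (fun κ' α' β' h1 h2 => ?_)
    · exact LineK_unique hF hκ₀ hαβ₀ h1 hfac₀ h2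
    · rw [Finset.sum_congr rfl fun i _ => p1_line hF.hom hAB h0 (h1 i) hxy, Finset.sum_const,
        Finset.card_univ, Fintype.card_fin, ← Nat.cast_smul_eq_nsmul ℚ]
      norm_num

/-- the class of a line section -/
def cX (hF : Sm F) : CH (m := 3) {F} Unit := (exists_cX hF).choose

theorem line_k (hF : Sm F) {A B : Fin 4 → k} {κ : k} {α β : Fin 4 → k}
    (hAB : LinearIndependent k ![A, B]) (hκ : κ ≠ 0) (hne : ∀ i, α i ≠ 0 ∨ β i ≠ 0)
    (h : ∀ x y : k, MvPolynomial.aeval (x • A + y • B) F = κ * ∏ i, (β i * x - α i * y)) :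
    ∑ i, cp hF.hom (α i • A + β i • B) = cX hF :=
  (exists_cX hF).choose_spec.1 A B κ α β hAB hκ hne h

theorem line_k' (hF : Sm F) {A B : Fin 4 → k} (hAB : LinearIndependent k ![A, B])
    (h : ∀ x y : k, MvPolynomial.aeval (x • A + y • B) F = 0) {x y : k} (hxy : x ≠ 0 ∨ y ≠ 0) :
    (4 : ℚ) • cp hF.hom (x • A + y • B) = cX hF :=
  (exists_cX hF).choose_spec.2 A B hAB h x y hxy

/-- the points on lines of the surface -/
def OnL (F : MvPolynomial (Fin 4) k) (x : Fin 4 → k) : Prop :=
  ∃ A B : Fin 4 → k, LinearIndependent k ![A, B] ∧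
    (∀ s t : k, MvPolynomial.aeval (s • A + t • B) F = 0) ∧ ∃ s t : k, x = s • A + t • B

theorem cp_onL (hF : Sm F) {x : Fin 4 → k} (hx : x ≠ 0) (h : OnL F x) :
    (4 : ℚ) • cp hF.hom x = cX hF := by
  obtain ⟨A, B, hAB, h0, s, t, rfl⟩ := h
  refine line_k' hF hAB h0 ?_
  by_contra hcon
  push Not at hcon
  apply hx
  rw [hcon.1, hcon.2, zero_smul, zero_smul, add_zero]

end Pool.Agent.QRT
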