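import Pool.Agent.QRT.LineK

/-!
# Limits of line sections
-/

set_option autoImplicit false

noncomputable section

namespace Pool.Agent.QRT

open Pool.Agent.ZCyc Pool.Agent.Dess Pool.Agent.GT Pool.Agent.CUB
open Pool.Agent.VFP (Om tt)
open scoped Classical

/-- two vectors are independent iff a minor is not zero -/
private theorem li_iff {L : Type} [Field L] {ι : Type} {a b : ι → L} :
    LinearIndependent L ![a, b] ↔ ∃ i j, a i * b j - a j * b i ≠ 0 := by
  rw [LinearIndependent.pair_iff]
  constructor
  · intro h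
    by_contra hcon
    push Not at hcon
    have ha : a ≠ 0 := by
      rintro rfl
      have h1 := h 1 0 (by rw [smul_zero, zero_smul, add_zero])
      exact one_ne_zero h1.1
    obtain ⟨i, hi⟩ : ∃ i, a i ≠ 0 := by
      by_contra h2
      push Not at h2
      exact ha (funext h2)
    have h1 := h (b i) (-(a i)) (by
      funext j
      have h2 := hcon i j
      simp only [Pi.add_apply, Pi.smul_apply, smul_eq_mul, Pi.zero_apply]
      linear_combination -h2)
    exact hi (neg_eq_zero.1 h1.2)
  · rintro ⟨i, j, hij⟩ s t hst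
    have hi := congrFun hst i
    have hj := congrFun hst j
    simp only [Pi.add_apply, Pi.smul_apply, smul_eq_mul, Pi.zero_apply] at hi hj
    have h1 : s * (a i * b j - a j * b i) = 0 := by linear_combination b j * hi - b i * hj
    have h2 : t * (a i * b j - a j * b i) = 0 := by linear_combination a i * hj - a j * hi
    exact ⟨(mul_eq_zero.1 h1).resolve_right hij, (mul_eq_zero.1 h2).resolve_right hij⟩

private theorem at_zero {k : Type} [Field k] {K : Type} [Field K] [Algebra k K] {v : Place k K}
    {c : k} (h : v.At 0 c) : c = 0 := by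
  have h1 := Place.at_const (v := v) (0 : k)
  rw [map_zero] at h1
  exact h.unique h1

private theorem at_ne {k : Type} [Field k] {K : Type} [Field K] [Algebra k K] {v : Place k K}
    {f : K} {c : k} (h : v.At f c) (hc : c ≠ 0) : f ≠ 0 := by
  rintro rfl
  exact hc (at_zero h)

/-- Adapted basis of a line at a place: vectors `A'`, `B'` which span the same space and have
independent values. (As `exists_adapted` in `CUB/LnA.lean` for `Fin 6`: `finrank_limW`.) -/
theorem adapt2 {k : Type} [Field k] {K : Type} [Field K] [Algebra k K] [HasRes k K] {n : ℕ}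
    (v : Place k K) {A B : Fin n → K} (hAB : LinearIndependent K ![A, B]) :
    ∃ (p q r s : K) (A₁ B₁ : Fin n → k), p * s - q * r ≠ 0 ∧ LinearIndependent k ![A₁, B₁] ∧
      (∀ i, v.At ((p • A + q • B) i) (A₁ i)) ∧ ∀ i, v.At ((r • A + s • B) i) (B₁ i) := by
  rw [LinearIndependent.pair_iff] at hAB
  have hA : A ≠ 0 := by
    rintro rfl
    have h1 := hAB 1 0 (by rw [smul_zero, zero_smul, add_zero])
    exact one_ne_zero h1.1
  obtain ⟨l, y, hl, hy, hly⟩ := exists_scale v A hA
  obtain ⟨i, hi⟩ : ∃ i, y i ≠ 0 := by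
    by_contra h2
    push Not at h2
    exact hy (funext h2)
  have hli := at_ne (hly i) hi
  have hAi : A i ≠ 0 := right_ne_zero_of_mul hli
  have hB : B - (B i / A i) • A ≠ 0 := by
    intro h
    have h1 := hAB (-(B i / A i)) 1 (by
      rw [← h]
      funext j
      simp only [Pi.add_apply, Pi.sub_apply, Pi.smul_apply, smul_eq_mul]
      ring)
    exact one_ne_zero h1.2
  obtain ⟨l₂, y₂, hl₂, hy₂, hly₂⟩ := exists_scale v _ hB
  have hy₂i : y₂ i = 0 := by
    have h1 := hly₂ i
    have h2 : l₂ * (B - (B i / A i) • A) i = 0 := by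
      simp only [Pi.sub_apply, Pi.smul_apply, smul_eq_mul]
      field_simp
      ring
    rw [h2] at h1
    exact at_zero h1
  obtain ⟨j, hj⟩ : ∃ j, y₂ j ≠ 0 := by
    by_contra h2
    push Not at h2
    exact hy₂ (funext h2)
  refine ⟨l, 0, -(l₂ * (B i / A i)), l₂, y, y₂, ?_, li_iff.2 ⟨i, j, ?_⟩, fun m => ?_, fun m => ?_⟩
  · rw [zero_mul, sub_zero]
    exact mul_ne_zero hl hl₂
  · rw [hy₂i, mul_zero, sub_zero]
    exact mul_ne_zero hi hj
  · have h1 : (l • A + (0 : K) • B) m = l * A m := by
      simp only [Pi.add_apply, Pi.smul_apply, smul_eq_mul]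
      ring
    rw [h1]
    exact hly m
  · have h1 : ((-(l₂ * (B i / A i))) • A + l₂ • B) m = l₂ * (B - (B i / A i) • A) m := by
      simp only [Pi.add_apply, Pi.sub_apply, Pi.smul_apply, smul_eq_mul]
      ring
    rw [h1]
    exact hly₂ m

/-- The value of a vector of a line with an adapted basis: its coordinates have values. -/
private theorem span_val {k : Type} [Field k] {K : Type} [Field K] [Algebra k K] {n : ℕ}
    {v : Place k K} {A B : Fin n → K} {A₁ B₁ : Fin n → k} (h : LinearIndependent k ![A₁, B₁])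
    (hA : ∀ i, v.At (A i) (A₁ i)) (hB : ∀ i, v.At (B i) (B₁ i)) {s t : K} {c : Fin n → k}
    (hc : ∀ i, v.At ((s • A + t • B) i) (c i)) : ∃ s₁ t₁ : k, c = s₁ • A₁ + t₁ • B₁ := by
  obtain ⟨i, j, hij⟩ := li_iff.1 h
  have hδ : v.At (A i * B j - A j * B i) (A₁ i * B₁ j - A₁ j * B₁ i) :=
    ((hA i).mul (hB j)).sub ((hA j).mul (hB i))
  have hδ0 := at_ne hδ hij
  have hci := hc i
  have hcj := hc j
  have hs : v.At s ((c i * B₁ j - c j * B₁ i) / (A₁ i * B₁ j - A₁ j * B₁ i)) := by
    have h1 := ((hci.mul (hB j)).sub (hcj.mul (hB i))).div hδ hij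
    have h2 : ((s • A + t • B) i * B j - (s • A + t • B) j * B i) /
        (A i * B j - A j * B i) = s := by
      rw [div_eq_iff hδ0]
      simp only [Pi.add_apply, Pi.smul_apply, smul_eq_mul]
      ring
    rwa [h2] at h1
  have ht : v.At t ((A₁ i * c j - A₁ j * c i) / (A₁ i * B₁ j - A₁ j * B₁ i)) := by
    have h1 := (((hA i).mul hcj).sub ((hA j).mul hci)).div hδ hij
    have h2 : (A i * (s • A + t • B) j - A j * (s • A + t • B) i) /
        (A i * B j - A j * B i) = t := by
      rw [div_eq_iff hδ0]
      simp only [Pi.add_apply, Pi.smul_apply, smul_eq_mul]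
      ring
    rwa [h2] at h1
  exact ⟨(c i * B₁ j - c j * B₁ i) / (A₁ i * B₁ j - A₁ j * B₁ i),
    (A₁ i * c j - A₁ j * c i) / (A₁ i * B₁ j - A₁ j * B₁ i),
    funext fun m => (hc m).unique ((hs.mul (hA m)).add (ht.mul (hB m)))⟩

variable {k : Type} [Field k] [IsAlgClosed k] [CharZero k] {F : MvPolynomial (Fin 4) k}

omit [IsAlgClosed k] [CharZero k] in
/-- The general form of `line_v'`. -/
private theorem onL_vl {K : Type} [Field K] [Algebra k K] [HasRes k K] (v : Place k K)
    {A B : Fin 4 → K} (hAB : LinearIndependent K ![A, B])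
    (h : ∀ x y : K, MvPolynomial.aeval (x • A + y • B) F = 0) {x y : K}
    (hxy : x ≠ 0 ∨ y ≠ 0) : OnL F (vl v (x • A + y • B)) := by
  have hz : x • A + y • B ≠ 0 := by
    intro h0
    have h1 := (LinearIndependent.pair_iff.1 hAB) x y h0
    rcases hxy with hx | hy
    · exact hx h1.1
    · exact hy h1.2
  obtain ⟨-, l, hl, hv⟩ := vl_spec v hz
  obtain ⟨p, q, r, s, A₁, B₁, hd, hli, hA, hB⟩ := adapt2 v hAB
  have hc : ∀ i, v.At (((l * (x * s - y * r) / (p * s - q * r)) • (p • A + q • B) +
      (l * (y * p - x * q) / (p * s - q * r)) • (r • A + s • B)) i)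
      (vl v (x • A + y • B) i) := by
    intro i
    have h1 : ((l * (x * s - y * r) / (p * s - q * r)) • (p • A + q • B) +
      (l * (y * p - x * q) / (p * s - q * r)) • (r • A + s • B)) i =
        l * (x • A + y • B) i := by
      simp only [Pi.add_apply, Pi.smul_apply, smul_eq_mul]
      rw [div_mul_eq_mul_div, div_mul_eq_mul_div, ← add_div, div_eq_iff hd]
      ring
    rw [h1]
    exact hv i
  obtain ⟨s₁, t₁, h2⟩ := span_val hli hA hB hc
  refine ⟨A₁, B₁, hli, fun a b => ?_, s₁, t₁, h2⟩
  have h3 : ∀ i, v.At (((algebraMap k K a * p + algebraMap k K b * r) • A +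
      (algebraMap k K a * q + algebraMap k K b * s) • B) i) ((a • A₁ + b • B₁) i) := by
    intro i
    have h4 : ((algebraMap k K a * p + algebraMap k K b * r) • A +
      (algebraMap k K a * q + algebraMap k K b * s) • B) i =
        algebraMap k K a * (p • A + q • B) i + algebraMap k K b * (r • A + s • B) i := by
      simp only [Pi.add_apply, Pi.smul_apply, smul_eq_mul]
      ring
    rw [h4]
    exact ((Place.at_const a).mul (hA i)).add ((Place.at_const b).mul (hB i))
  have h5 := aeval_at h3 F
  rw [h] at h5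
  exact at_zero h5

/-- If `F` is zero on a line over `Om k` then the value of every point of this line is on a line of
the surface: `adapt2`, the line of the values. -/
theorem line_v' (hF : Sm F) (v : Place k (Om k)) {A B : Fin 4 → Om k}
    (hAB : LinearIndependent (Om k) ![A, B])
    (h : ∀ x y : Om k, MvPolynomial.aeval (x • A + y • B) F = 0) {x y : Om k}
    (hxy : x ≠ 0 ∨ y ≠ 0) : OnL F (vl v (x • A + y • B)) :=
  onL_vl v hAB h hxy

/-- The sum of the classes of the values of the four points of a line section over `Om k`. Proof: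
change to an adapted basis `A'`, `B'` (`adapt2`): `α i A + β i B = α' i A' + β' i B'`, and the
factorization of `F (x A' + y B')` is `κ' ∏ (β' i x - α' i y)` (a linear substitution; the determinant
goes to `κ'`). Scale the pairs `(α' i, β' i)` such that they have values which are not zero, move the
factors to `κ'`, `cv_smul`. `fac_lim`: the form `F (x A₁ + y B₁)` on the line of the values is
`κ₁ ∏ (..)`. If `κ₁ ≠ 0`: `line_k`. If `κ₁ = 0` then this line is on the surface, `line_k'` for every
point. -/
theorem line_v (hF : Sm F) (v : Place k (Om k)) {A B : Fin 4 → Om k}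
    (hAB : LinearIndependent (Om k) ![A, B]) {κ : Om k} (hκ : κ ≠ 0) {α β : Fin 4 → Om k}
    (hne : ∀ i, α i ≠ 0 ∨ β i ≠ 0)
    (h : ∀ x y : Om k, MvPolynomial.aeval (x • A + y • B) F =
      κ * ∏ i, (β i * x - α i * y)) :
    ∑ i, cv hF.hom v (α i • A + β i • B) = cX hF := by
  obtain ⟨p, q, r, s, A₁, B₁, hΔ, hAB₁, hA₁, hB₁⟩ := adapt2 v hAB
  have hscale : ∀ i, ∃ (l : Om k) (a b : k), l ≠ 0 ∧ (a ≠ 0 ∨ b ≠ 0) ∧
      v.At (l * (α i * s - β i * r)) a ∧ v.At (l * (β i * p - α i * q)) b := by
    intro i
    have h0 : ![α i * s - β i * r, β i * p - α i * q] ≠ 0 := by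
      intro h0
      have e1 : α i * s - β i * r = 0 := congrFun h0 0
      have e2 : β i * p - α i * q = 0 := congrFun h0 1
      have e3 : α i * (p * s - q * r) = 0 := by linear_combination p * e1 + r * e2
      have e4 : β i * (p * s - q * r) = 0 := by linear_combination q * e1 + s * e2
      rcases hne i with h1 | h1
      · exact h1 ((mul_eq_zero.1 e3).resolve_right hΔ)
      · exact h1 ((mul_eq_zero.1 e4).resolve_right hΔ)
    obtain ⟨l, y, hl, hy, hly⟩ := exists_scale v _ h0
    refine ⟨l, y 0, y 1, hl, ?_, hly 0, hly 1⟩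
    by_contra hcon
    push Not at hcon
    refine hy (funext fun j => ?_)
    fin_cases j
    · exact hcon.1
    · exact hcon.2
  choose l a b hl hab ha hb using hscale
  have hF1 : ∀ x y : Om k, MvPolynomial.aeval (x • (p • A + q • B) + y • (r • A + s • B)) F =
      (κ * ∏ i, (l i)⁻¹) *
        ∏ i, (l i * (β i * p - α i * q) * x - l i * (α i * s - β i * r) * y) := by
    intro x y
    have e1 : x • (p • A + q • B) + y • (r • A + s • B) =
        (x * p + y * r) • A + (x * q + y * s) • B := by
      funext j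
      simp only [Pi.add_apply, Pi.smul_apply, smul_eq_mul]
      ring
    rw [e1, h, mul_assoc, ← Finset.prod_mul_distrib]
    congr 1
    refine Finset.prod_congr rfl fun i _ => ?_
    have := hl i
    field_simp
    ring
  have hg : ∀ x y : k, v.At ((κ * ∏ i, (l i)⁻¹) *
      ∏ i, (l i * (β i * p - α i * q) * algebraMap k (Om k) x -
        l i * (α i * s - β i * r) * algebraMap k (Om k) y))
      (MvPolynomial.aeval (x • A₁ + y • B₁) F) := by
    intro x y
    rw [← hF1]
    refine aeval_at (fun j => ?_) F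
    exact ((Place.at_const x).mul (hA₁ j)).add ((Place.at_const y).mul (hB₁ j))
  obtain ⟨κ₁, -, hκ₁⟩ := fac_lim ha hb hab hg
  have hval : ∀ i, cv hF.hom v (α i • A + β i • B) = cp hF.hom (a i • A₁ + b i • B₁) := by
    intro i
    have h0 : a i • A₁ + b i • B₁ ≠ 0 := by
      intro h0
      have h1 := LinearIndependent.pair_iff.1 hAB₁ (a i) (b i) h0
      rcases hab i with h2 | h2
      · exact h2 h1.1
      · exact h2 h1.2
    refine cv_eq hF.hom (l := l i * (p * s - q * r)) (fun j => ?_) h0
    have h1 : v.At (l i * (α i * s - β i * r) * (p • A + q • B) j +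
        l i * (β i * p - α i * q) * (r • A + s • B) j) ((a i • A₁ + b i • B₁) j) :=
      ((ha i).mul (hA₁ j)).add ((hb i).mul (hB₁ j))
    have h2 : l i * (α i * s - β i * r) * (p • A + q • B) j +
        l i * (β i * p - α i * q) * (r • A + s • B) j =
        l i * (p * s - q * r) * (α i • A + β i • B) j := by
      simp only [Pi.add_apply, Pi.smul_apply, smul_eq_mul]
      ring
    rwa [h2] at h1
  rw [Finset.sum_congr rfl fun i _ => hval i]
  by_cases h0 : κ₁ = 0
  · have h1 : ∀ x y : k, MvPolynomial.aeval (x • A₁ + y • B₁) F = 0 := by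
      intro x y
      rw [hκ₁, h0, zero_mul]
    have h2 : ∀ i, cp hF.hom (a i • A₁ + b i • B₁) = (1 / 4 : ℚ) • cX hF := by
      intro i
      rw [← line_k' hF hAB₁ h1 (hab i), smul_smul]
      norm_num
    rw [Finset.sum_congr rfl fun i _ => h2 i, Finset.sum_const, Finset.card_univ,
      Fintype.card_fin, ← Nat.cast_smul_eq_nsmul ℚ, smul_smul]
    norm_num
  · exact line_k hF hAB₁ h0 hab hκ₁

end Pool.Agent.QRT
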