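import Pool.Agent.QRT.Bit

/-!
# The normal form of the plane section: a quadratic equation in one coordinate
-/

set_option autoImplicit false

noncomputable section

namespace Pool.Agent.QRT

open Pool.Agent.ZCyc Pool.Agent.Dess Pool.Agent.GT Pool.Agent.CUB
open Pool.Agent.VFP (Om tt)
open scoped Classical

variable {k : Type} [Field k]

/-- The point with the coordinates `s`, `t`, `1` in the plane. -/
def pP (G : Fin 3 → Fin 4 → Om k) (s t : Om k) : Fin 4 → Om k := s • G 0 + t • G 1 + G 2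

/-- The plane section is `a(s) t² + b(s) t + e(s) = 0`, a double cover of the line with the coordinate
`s`, and the discriminant has degree at most four. -/
structure Nf (F : MvPolynomial (Fin 4) k) (G : Fin 3 → Fin 4 → Om k)
    (a b e : Polynomial (Om k)) : Prop where
  li : LinearIndependent (Om k) G
  nc : Ncst (Submodule.span (Om k) (Set.range G))
  eq : ∀ s t : Om k, MvPolynomial.aeval (pP G s t) F = a.eval s * t ^ 2 + b.eval s * t + e.eval s
  da : a.natDegree ≤ 2
  db : b.natDegree ≤ 2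
  dD : (b ^ 2 - 4 * a * e).natDegree ≤ 4

variable [IsAlgClosed k] [CharZero k]

omit [IsAlgClosed k] [CharZero k] in
/-- A binary quadratic form is `s t` or `s ^ 2` after a linear substitution. -/
private theorem exists_sub {K : Type} [Field K] [IsAlgClosed K] [CharZero K] {q : Fin 3 → K}
    (hq : q ≠ 0) : ∃ p r p' r' lam : K, lam ≠ 0 ∧ p * r' - r * p' ≠ 0 ∧
      ((lam * (q 0 * p ^ 2 + q 1 * p * p' + q 2 * p' ^ 2) = 0 ∧
        lam * (2 * q 0 * p * r + q 1 * (p * r' + r * p') + 2 * q 2 * p' * r') = 1 ∧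
        lam * (q 0 * r ^ 2 + q 1 * r * r' + q 2 * r' ^ 2) = 0) ∨
      (lam * (q 0 * p ^ 2 + q 1 * p * p' + q 2 * p' ^ 2) = 1 ∧
        lam * (2 * q 0 * p * r + q 1 * (p * r' + r * p') + 2 * q 2 * p' * r') = 0 ∧
        lam * (q 0 * r ^ 2 + q 1 * r * r' + q 2 * r' ^ 2) = 0)) := by
  by_cases h0 : q 0 = 0
  · by_cases h1 : q 1 = 0
    · have h2 : q 2 ≠ 0 := by
        intro h2
        apply hq
        funext i
        fin_cases i
        · exact h0
        · exact h1
        · exact h2
      refine ⟨0, 1, 1, 0, (q 2)⁻¹, inv_ne_zero h2, by simp, Or.inr ⟨?_, ?_, ?_⟩⟩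
      · rw [h0, h1]
        field_simp
        ring
      · rw [h0, h1]
        ring
      · rw [h0, h1]
        ring
    · refine ⟨-q 2, 1, q 1, 0, (q 1 ^ 2)⁻¹, inv_ne_zero (pow_ne_zero 2 h1), by simpa using h1,
        Or.inl ⟨?_, ?_, ?_⟩⟩
      · rw [h0]
        ring
      · rw [h0]
        field_simp
        ring
      · rw [h0]
        ring
  · obtain ⟨δ, hδ⟩ := IsAlgClosed.exists_eq_mul_self (q 1 ^ 2 - 4 * q 0 * q 2)
    have h2 : (2 : K) ≠ 0 := two_ne_zero
    by_cases hd : δ = 0
    · -- one root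
      subst hd
      have h3 : 4 * q 0 * q 2 = q 1 ^ 2 := by linear_combination -hδ
      refine ⟨1, -q 1, 0, 2 * q 0, (q 0)⁻¹, inv_ne_zero h0, ?_, Or.inr ⟨?_, ?_, ?_⟩⟩
      · simp [h0]
      · field_simp
        ring
      · field_simp
        ring
      · have h4 : q 0 * (-q 1) ^ 2 + q 1 * (-q 1) * (2 * q 0) + q 2 * (2 * q 0) ^ 2 = 0 := by
          linear_combination q 0 * h3
        rw [h4, mul_zero]
    · -- two roots, `ρ = (- q 1 + δ) / (2 q 0)`, `ρ' = (- q 1 - δ) / (2 q 0)`
      refine ⟨-q 1 + δ, -q 1 - δ, 2 * q 0, 2 * q 0, (-4 * q 0 * δ ^ 2)⁻¹, ?_, ?_,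
        Or.inl ⟨?_, ?_, ?_⟩⟩
      · refine inv_ne_zero (mul_ne_zero (mul_ne_zero (by norm_num) h0) (pow_ne_zero 2 hd))
      · have h4 : (-q 1 + δ) * (2 * q 0) - (-q 1 - δ) * (2 * q 0) = 4 * (q 0 * δ) := by ring
        rw [h4]
        exact mul_ne_zero (by norm_num) (mul_ne_zero h0 hd)
      · have h4 : q 0 * (-q 1 + δ) ^ 2 + q 1 * (-q 1 + δ) * (2 * q 0) + q 2 * (2 * q 0) ^ 2 = 0 := by
          linear_combination -q 0 * hδ
        rw [h4, mul_zero]
      · have h4 : 2 * q 0 * (-q 1 + δ) * (-q 1 - δ) + q 1 * ((-q 1 + δ) * (2 * q 0) +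
            (-q 1 - δ) * (2 * q 0)) + 2 * q 2 * (2 * q 0) * (2 * q 0) = -4 * q 0 * δ ^ 2 := by
          linear_combination -2 * q 0 * hδ
        rw [h4]
        exact inv_mul_cancel₀ (mul_ne_zero (mul_ne_zero (by norm_num) h0) (pow_ne_zero 2 hd))
      · have h4 : q 0 * (-q 1 - δ) ^ 2 + q 1 * (-q 1 - δ) * (2 * q 0) + q 2 * (2 * q 0) ^ 2 = 0 := by
          linear_combination -q 0 * hδ
        rw [h4, mul_zero]

/-- The new basis. -/
private def gN {K : Type} [Field K] (G : Fin 3 → Fin 4 → K) (p r p' r' : K) :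
    Fin 3 → Fin 4 → K := ![p • G 0 + p' • G 1, r • G 0 + r' • G 1, G 2]

omit [IsAlgClosed k] [CharZero k] in
private theorem gN_comb {K : Type} [Field K] (G : Fin 3 → Fin 4 → K) (p r p' r' s t u : K) :
    (p * s + r * t + 0 * u) • G 0 + (p' * s + r' * t + 0 * u) • G 1 + (1 * u) • G 2 =
      s • gN G p r p' r' 0 + t • gN G p r p' r' 1 + u • gN G p r p' r' 2 := by
  simp only [gN, Matrix.cons_val_zero, Matrix.cons_val_one, Matrix.cons_val_two,
    Matrix.tail_cons, Matrix.head_cons]
  module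

omit [IsAlgClosed k] [CharZero k] in
private theorem gN_li {K : Type} [Field K] {G : Fin 3 → Fin 4 → K} (hG : LinearIndependent K G)
    {p r p' r' : K} (hd : p * r' - r * p' ≠ 0) : LinearIndependent K (gN G p r p' r') := by
  rw [Fintype.linearIndependent_iff] at hG ⊢
  intro g hg
  have h1 := hG ![g 0 * p + g 1 * r, g 0 * p' + g 1 * r', g 2] (by
    rw [← hg, Fin.sum_univ_three, Fin.sum_univ_three]
    simp only [gN, Matrix.cons_val_zero, Matrix.cons_val_one, Matrix.cons_val_two,
      Matrix.tail_cons, Matrix.head_cons]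
    module)
  have h2 : g 0 * p + g 1 * r = 0 := h1 0
  have h3 : g 0 * p' + g 1 * r' = 0 := h1 1
  have h4 : g 2 = 0 := h1 2
  have h5 : g 0 = 0 := by
    have : g 0 * (p * r' - r * p') = 0 := by linear_combination r' * h2 - r * h3
    exact (mul_eq_zero.1 this).resolve_right hd
  have h6 : g 1 = 0 := by
    have : g 1 * (p * r' - r * p') = 0 := by linear_combination p * h3 - p' * h2
    exact (mul_eq_zero.1 this).resolve_right hd
  intro i
  fin_cases i
  · exact h5
  · exact h6
  · exact h4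

omit [IsAlgClosed k] [CharZero k] in
private theorem gN_span {K : Type} [Field K] {G : Fin 3 → Fin 4 → K}
    (hG : LinearIndependent K G) {p r p' r' : K} (hd : p * r' - r * p' ≠ 0) :
    Submodule.span K (Set.range (gN G p r p' r')) = Submodule.span K (Set.range G) := by
  refine Submodule.eq_of_le_of_finrank_eq ?_ ?_
  · rw [Submodule.span_le]
    have hm : ∀ i, G i ∈ Submodule.span K (Set.range G) := fun i =>
      Submodule.subset_span ⟨i, rfl⟩
    rintro - ⟨i, rfl⟩
    fin_cases i
    · exact Submodule.add_mem _ (Submodule.smul_mem _ _ (hm 0)) (Submodule.smul_mem _ _ (hm 1))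
    · exact Submodule.add_mem _ (Submodule.smul_mem _ _ (hm 0)) (Submodule.smul_mem _ _ (hm 1))
    · exact hm 2
  · rw [finrank_span_eq_card (gN_li hG hd), finrank_span_eq_card hG]

open Polynomial in
/-- From `NodQ`: the form `Q` is a product of two linear forms (`Om k` is algebraically closed). By a
linear substitution in `s`, `t` (`NodG.subst`) it is `Q = s t` (different factors) or `Q = s²`. In the
first case (with `u = 1`) `a = c s² + l₁ s + m₂`, `b = l₀ s² + m₁ s + m₄`, `e = m₀ s² + m₃ s + m₅`, in the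
second case `a = m₂`, `b = l₁ s² + m₁ s + m₄`, `e = c s⁴ + l₀ s³ + m₀ s² + m₃ s + m₅`. -/
theorem exists_nf {F : MvPolynomial (Fin 4) k} {G : Fin 3 → Fin 4 → Om k} {q : Fin 3 → Om k}
    (hG : LinearIndependent (Om k) G) (hn : Ncst (Submodule.span (Om k) (Set.range G)))
    (hq : q ≠ 0) (h : NodQ F G q) :
    ∃ (G' : Fin 3 → Fin 4 → Om k) (a b e : Polynomial (Om k)), Nf F G' a b e ∧
      Submodule.span (Om k) (Set.range G') = Submodule.span (Om k) (Set.range G) := by
  obtain ⟨p, r, p', r', lam, hlam, hd, hcase⟩ := exists_sub hq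
  have h1 := NodG.subst h p r p' r' 0 0 1 hlam
  obtain ⟨c, l, m, hm⟩ := h1
  have hm' : ∀ s t : Om k, MvPolynomial.aeval (pP (gN G p r p' r') s t) F =
      c * (lam * (q 0 * p ^ 2 + q 1 * p * p' + q 2 * p' ^ 2) * s ^ 2 +
        lam * (2 * q 0 * p * r + q 1 * (p * r' + r * p') + 2 * q 2 * p' * r') * s * t +
        lam * (q 0 * r ^ 2 + q 1 * r * r' + q 2 * r' ^ 2) * t ^ 2) ^ 2 +
      (lam * (q 0 * p ^ 2 + q 1 * p * p' + q 2 * p' ^ 2) * s ^ 2 +
        lam * (2 * q 0 * p * r + q 1 * (p * r' + r * p') + 2 * q 2 * p' * r') * s * t +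
        lam * (q 0 * r ^ 2 + q 1 * r * r' + q 2 * r' ^ 2) * t ^ 2) * (l 0 * s + l 1 * t) +
      (m 0 * s ^ 2 + m 1 * s * t + m 2 * t ^ 2 + m 3 * s + m 4 * t + m 5) := by
    intro s t
    have h3 := hm s t 1
    dsimp only at h3
    rw [gN_comb G p r p' r' s t 1, one_smul] at h3
    have h4 : pP (gN G p r p' r') s t = s • gN G p r p' r' 0 + t • gN G p r p' r' 1 +
      gN G p r p' r' 2 := rfl
    rw [h4, h3]
    simp only [Matrix.cons_val_zero, Matrix.cons_val_one, Matrix.cons_val_two,
      Matrix.tail_cons, Matrix.head_cons]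
    ring
  have hsp := gN_span hG hd
  rcases hcase with ⟨k0, k1, k2⟩ | ⟨k0, k1, k2⟩
  · rw [k0, k1, k2] at hm'
    refine ⟨gN G p r p' r', C c * X ^ 2 + C (l 1) * X + C (m 2),
      C (l 0) * X ^ 2 + C (m 1) * X + C (m 4), C (m 0) * X ^ 2 + C (m 3) * X + C (m 5),
      ⟨gN_li hG hd, by rw [hsp]; exact hn, fun s t => ?_, ?_, ?_, ?_⟩, hsp⟩
    · rw [hm']
      simp only [Polynomial.eval_add, Polynomial.eval_mul, Polynomial.eval_C,
        Polynomial.eval_pow, Polynomial.eval_X]
      ring
    · compute_degree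
    · compute_degree
    · compute_degree
  · rw [k0, k1, k2] at hm'
    refine ⟨gN G p r p' r', C (m 2),
      C (l 1) * X ^ 2 + C (m 1) * X + C (m 4),
      C c * X ^ 4 + C (l 0) * X ^ 3 + C (m 0) * X ^ 2 + C (m 3) * X + C (m 5),
      ⟨gN_li hG hd, by rw [hsp]; exact hn, fun s t => ?_, ?_, ?_, ?_⟩, hsp⟩
    · rw [hm']
      simp only [Polynomial.eval_add, Polynomial.eval_mul, Polynomial.eval_C,
        Polynomial.eval_pow, Polynomial.eval_X]
      ring
    · rw [Polynomial.natDegree_C]
      exact Nat.zero_le _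
    · compute_degree
    · compute_degree

variable {F : MvPolynomial (Fin 4) k} {G : Fin 3 → Fin 4 → Om k} {a b e : Polynomial (Om k)}

omit [IsAlgClosed k] [CharZero k] in
private theorem li_line (h : Nf F G a b e) (s : Om k) :
    LinearIndependent (Om k) ![s • G 0 + G 2, G 1] := by
  rw [LinearIndependent.pair_iff]
  intro x y hxy
  have h1 := Fintype.linearIndependent_iff.1 h.li ![x * s, y, x] (by
    rw [Fin.sum_univ_three]
    change (x * s) • G 0 + y • G 1 + x • G 2 = 0
    rw [← hxy]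
    funext i
    simp only [Pi.add_apply, Pi.smul_apply, smul_eq_mul]
    ring)
  exact ⟨h1 2, h1 1⟩

omit [IsAlgClosed k] [CharZero k] in
private theorem hom_ne (hF : F.IsHomogeneous 4) (h : Nf F G a b e) (s t : Om k) {w : Om k}
    (hw : w ≠ 0) : MvPolynomial.aeval (w • (s • G 0 + G 2) + t • G 1) F =
      w ^ 2 * (a.eval s * t ^ 2 + b.eval s * t * w + e.eval s * w ^ 2) := by
  have h1 : w • (s • G 0 + G 2) + t • G 1 = w • pP G s (t / w) := by
    unfold pP
    have h2 : t = w * (t / w) := by field_simp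
    conv_lhs => rw [h2]
    funext i
    simp only [Pi.add_apply, Pi.smul_apply, smul_eq_mul]
    ring
  rw [h1, aeval_smul hF, h.eq]
  field_simp

/-- homogeneous version on the line through `G 1` and `s G 0 + G 2`; in particular `F (G 1) = 0`
(homogeneity for `w ≠ 0`, and a polynomial identity in `w`) -/
theorem Nf.hom (hF : F.IsHomogeneous 4) (h : Nf F G a b e) (s t w : Om k) :
    MvPolynomial.aeval (w • (s • G 0 + G 2) + t • G 1) F =
      w ^ 2 * (a.eval s * t ^ 2 + b.eval s * t * w + e.eval s * w ^ 2) := by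
  have hev : ∀ z : Om k, Polynomial.eval z (MvPolynomial.aeval (fun i =>
      Polynomial.X * Polynomial.C ((s • G 0 + G 2) i) + Polynomial.C ((t • G 1) i)) F) =
      MvPolynomial.aeval (z • (s • G 0 + G 2) + t • G 1) F := by
    intro z
    have h1 := MvPolynomial.comp_aeval_apply (fun i =>
      Polynomial.X * Polynomial.C ((s • G 0 + G 2) i) + Polynomial.C ((t • G 1) i))
      ((Polynomial.aeval z : Polynomial (Om k) →ₐ[Om k] Om k).restrictScalars k) F
    rw [AlgHom.restrictScalars_apply, Polynomial.coe_aeval_eq_eval] at h1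
    rw [h1]
    congr 2
    funext i
    rw [AlgHom.restrictScalars_apply, Polynomial.coe_aeval_eq_eval, Polynomial.eval_add,
      Polynomial.eval_mul, Polynomial.eval_X, Polynomial.eval_C, Polynomial.eval_C]
    rfl
  have hinf : Infinite (Om k) := Infinite.of_injective _ (algebraMap k (Om k)).injective
  have key := Polynomial.eq_of_infinite_eval_eq (MvPolynomial.aeval (fun i =>
      Polynomial.X * Polynomial.C ((s • G 0 + G 2) i) + Polynomial.C ((t • G 1) i)) F)
      (Polynomial.X ^ 2 * (Polynomial.C (a.eval s * t ^ 2) +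
        Polynomial.C (b.eval s * t) * Polynomial.X + Polynomial.C (e.eval s) *
          Polynomial.X ^ 2)) (by
    refine (Set.finite_singleton (0 : Om k)).infinite_compl.mono ?_
    intro z hz
    change Polynomial.eval z _ = Polynomial.eval z _
    rw [hev, hom_ne hF h s t hz]
    simp)
  have h2 := hev w
  rw [key] at h2
  rw [← h2]
  simp

/-- The sum of the classes of the two points over `s`, if `a(s) ≠ 0`: `line_v` for the line through
`G 1` and `s G 0 + G 2`, the form is `a w² (t - t₁ w) (t - t₂ w)`. -/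
theorem Nf.two (hF : Sm F) (h : Nf F G a b e) (v : Place k (Om k)) {s t₁ t₂ : Om k}
    (ha : a.eval s ≠ 0)
    (ht : ∀ t : Om k, a.eval s * t ^ 2 + b.eval s * t + e.eval s =
      a.eval s * ((t - t₁) * (t - t₂))) :
    (2 : ℚ) • cv hF.hom v (G 1) + cv hF.hom v (pP G s t₁) + cv hF.hom v (pP G s t₂) =
      cX hF := by
  have h0 : e.eval s = a.eval s * (t₁ * t₂) := by
    have := ht 0
    linear_combination this
  have h1 : b.eval s = - (a.eval s * (t₁ + t₂)) := by
    have := ht 1
    linear_combination this - h0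
  have key := line_v hF v (li_line h s) ha (α := ![0, 0, 1, 1]) (β := ![1, 1, t₁, t₂])
    (by
      intro i
      fin_cases i
      · exact Or.inr one_ne_zero
      · exact Or.inr one_ne_zero
      · exact Or.inl one_ne_zero
      · exact Or.inl one_ne_zero)
    (by
      intro x y
      rw [h.hom hF.hom s y x, Fin.prod_univ_four, h0, h1]
      change _ = a.eval s * ((1 * x - 0 * y) * (1 * x - 0 * y) * (t₁ * x - 1 * y) *
        (t₂ * x - 1 * y))
      ring)
  rw [Fin.sum_univ_four] at key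
  have e0 : (0 : Om k) • (s • G 0 + G 2) + (1 : Om k) • G 1 = G 1 := by
    funext i
    simp only [Pi.add_apply, Pi.smul_apply, smul_eq_mul]
    ring
  have e2 : ∀ t : Om k, (1 : Om k) • (s • G 0 + G 2) + t • G 1 = pP G s t := by
    intro t
    unfold pP
    funext i
    simp only [Pi.add_apply, Pi.smul_apply, smul_eq_mul]
    ring
  change cv hF.hom v ((0 : Om k) • (s • G 0 + G 2) + (1 : Om k) • G 1) +
    cv hF.hom v ((0 : Om k) • (s • G 0 + G 2) + (1 : Om k) • G 1) +
    cv hF.hom v ((1 : Om k) • (s • G 0 + G 2) + t₁ • G 1) +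
    cv hF.hom v ((1 : Om k) • (s • G 0 + G 2) + t₂ • G 1) = _ at key
  rw [e0, e2, e2] at key
  rw [two_smul]
  exact key

/-- If `a(s) = 0` and `b(s) ≠ 0`: the form is `w³ (b t + e w)`. -/
theorem Nf.one (hF : Sm F) (h : Nf F G a b e) (v : Place k (Om k)) {s t : Om k}
    (ha : a.eval s = 0) (hb : b.eval s ≠ 0) (ht : b.eval s * t + e.eval s = 0) :
    (3 : ℚ) • cv hF.hom v (G 1) + cv hF.hom v (pP G s t) = cX hF := by
  have key := line_v hF v (li_line h s) (neg_ne_zero.2 hb) (α := ![0, 0, 0, 1])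
    (β := ![1, 1, 1, t])
    (by
      intro i
      fin_cases i
      · exact Or.inr one_ne_zero
      · exact Or.inr one_ne_zero
      · exact Or.inr one_ne_zero
      · exact Or.inl one_ne_zero)
    (by
      intro x y
      rw [h.hom hF.hom s y x, Fin.prod_univ_four, ha]
      change _ = -b.eval s * ((1 * x - 0 * y) * (1 * x - 0 * y) * (1 * x - 0 * y) *
        (t * x - 1 * y))
      linear_combination x ^ 4 * ht)
  rw [Fin.sum_univ_four] at key
  have e0 : (0 : Om k) • (s • G 0 + G 2) + (1 : Om k) • G 1 = G 1 := by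
    funext i
    simp only [Pi.add_apply, Pi.smul_apply, smul_eq_mul]
    ring
  have e2 : (1 : Om k) • (s • G 0 + G 2) + t • G 1 = pP G s t := by
    unfold pP
    funext i
    simp only [Pi.add_apply, Pi.smul_apply, smul_eq_mul]
    ring
  change cv hF.hom v ((0 : Om k) • (s • G 0 + G 2) + (1 : Om k) • G 1) +
    cv hF.hom v ((0 : Om k) • (s • G 0 + G 2) + (1 : Om k) • G 1) +
    cv hF.hom v ((0 : Om k) • (s • G 0 + G 2) + (1 : Om k) • G 1) +
    cv hF.hom v ((1 : Om k) • (s • G 0 + G 2) + t • G 1) = _ at key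
  rw [e0, e2] at key
  have e3 : (3 : ℚ) • cv hF.hom v (G 1) = cv hF.hom v (G 1) + cv hF.hom v (G 1) +
      cv hF.hom v (G 1) := by module
  rw [e3]
  exact key

end Pool.Agent.QRT
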