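import Pool.Agent.QRT.TriC
import Pool.Agent.QRT.LineV

/-!
# Two double points in the limit
-/

set_option autoImplicit false

noncomputable section

namespace Pool.Agent.QRT

open Pool.Agent.ZCyc Pool.Agent.Dess Pool.Agent.GT Pool.Agent.CUB
open Pool.Agent.VFP (Om tt)
open scoped Classical

/-- Adapted basis of a flag at a place. `adapt2` for `A`, `B`, then scale `C + μ A + ν B`: by
`finrank_limW` for the space of dimension three there is a vector with a value which is not in the
span of `A₁`, `B₁`. -/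
theorem adapt3 {k : Type} [Field k] {K : Type} [Field K] [Algebra k K] [HasRes k K] {n : ℕ}
    (v : Place k K) {A B C : Fin n → K} (hABC : LinearIndependent K ![A, B, C]) :
    ∃ (p q r s κ μ ν : K) (A₁ B₁ C₁ : Fin n → k), p * s - q * r ≠ 0 ∧ κ ≠ 0 ∧
      LinearIndependent k ![A₁, B₁, C₁] ∧ (∀ i, v.At ((p • A + q • B) i) (A₁ i)) ∧
      (∀ i, v.At ((r • A + s • B) i) (B₁ i)) ∧
      ∀ i, v.At ((μ • A + ν • B + κ • C) i) (C₁ i) := by
  have hAB : LinearIndependent K ![A, B] := by
    have h1 := hABC.comp (![0, 1] : Fin 2 → Fin 3) (by decide)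
    have h2 : (![A, B, C] : Fin 3 → Fin n → K) ∘ (![0, 1] : Fin 2 → Fin 3) = ![A, B] := by
      funext i
      fin_cases i <;> rfl
    rwa [h2] at h1
  obtain ⟨p, q, r, s, A₁, B₁, hps, hA₁B₁, hA₁, hB₁⟩ := adapt2 v hAB
  set V := Submodule.span K (Set.range ![A, B, C]) with hV
  set V' := Submodule.span K (Set.range ![A, B]) with hV'
  have hV3 : Module.finrank K V = 3 := by
    rw [hV, finrank_span_eq_card hABC, Fintype.card_fin]
  have hV2 : Module.finrank K V' = 2 := by
    rw [hV', finrank_span_eq_card hAB, Fintype.card_fin]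
  set S := Submodule.span k (Set.range ![A₁, B₁]) with hS
  have hS2 : Module.finrank k S = 2 := by
    rw [hS, finrank_span_eq_card hA₁B₁, Fintype.card_fin]
  have hAV' : A ∈ V' := Submodule.subset_span ⟨0, rfl⟩
  have hBV' : B ∈ V' := Submodule.subset_span ⟨1, rfl⟩
  have hSV' : S = limW v V' := by
    refine Submodule.eq_of_le_of_finrank_eq ?_ ?_
    · rw [hS, Submodule.span_le]
      rintro _ ⟨i, rfl⟩
      fin_cases i
      · exact ⟨_, V'.add_mem (V'.smul_mem p hAV') (V'.smul_mem q hBV'), hA₁⟩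
      · exact ⟨_, V'.add_mem (V'.smul_mem r hAV') (V'.smul_mem s hBV'), hB₁⟩
    · rw [hS2, finrank_limW, hV2]
  have hex : ∃ C₁ ∈ limW v V, C₁ ∉ S := by
    by_contra hcon
    push Not at hcon
    have h1 := Submodule.finrank_mono (show limW v V ≤ S from hcon)
    rw [finrank_limW, hV3, hS2] at h1
    omega
  obtain ⟨C₁, ⟨a, haV, haC⟩, hC₁⟩ := hex
  rw [hV, Submodule.mem_span_range_iff_exists_fun] at haV
  obtain ⟨c, hc⟩ := haV
  have ha : a = c 0 • A + c 1 • B + c 2 • C := by
    rw [← hc, Fin.sum_univ_three]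
    rfl
  have hκ : c 2 ≠ 0 := by
    intro h0
    apply hC₁
    rw [hSV']
    refine ⟨a, ?_, haC⟩
    rw [ha, h0, zero_smul, add_zero]
    exact V'.add_mem (V'.smul_mem _ hAV') (V'.smul_mem _ hBV')
  refine ⟨p, q, r, s, c 2, c 0, c 1, A₁, B₁, C₁, hps, hκ, ?_, hA₁, hB₁, ?_⟩
  · have h1 : (![A₁, B₁, C₁] : Fin 3 → Fin n → k) = Fin.snoc ![A₁, B₁] C₁ := by
      funext i
      fin_cases i <;> rfl
    rw [h1, linearIndependent_finSnoc]
    exact ⟨hA₁B₁, hC₁⟩
  · rw [← ha]
    exact haC

variable {k : Type} [Field k]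

/-- Two double points: for `G = F + θ F'` on the plane spanned by `N₁`, `N₂`, `E`, with zero
differential at `N₁` and `N₂` in the plane. `Q = X Y`: the coefficients of `X⁴`, `X³ Y`, `X³ u`, `Y⁴`,
`Y³ X`, `Y³ u` are zero (`cc_df`). -/
theorem nod_two {K : Type} [Field K] [CharZero K] [Algebra k K] {F F' : MvPolynomial (Fin 4) k}
    (hF : F.IsHomogeneous 4) (hF' : F'.IsHomogeneous 4) {θ : K} {y : Fin 3 → Fin 4 → K}
    (h : ∀ i j, df F (y i) (y j) + θ * df F' (y i) (y j) = 0) :
    NodG (fun s t u => MvPolynomial.aeval (s • y 0 + t • y 1 + u • y 2) F +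
      θ * MvPolynomial.aeval (s • y 0 + t • y 1 + u • y 2) F') ![0, 1, 0] := by
  obtain ⟨f1, f2, f3, f4, f5, f6, f7, f8, f9⟩ := cc_df hF y
  obtain ⟨g1, g2, g3, g4, g5, g6, g7, g8, g9⟩ := cc_df hF' y
  have h4 : (4 : K) ≠ 0 := by norm_num
  have z1 : cc F y 4 0 + θ * cc F' y 4 0 = 0 := by
    apply mul_left_cancel₀ h4
    linear_combination h 0 0 + f1 + θ * g1
  have z4 : cc F y 0 4 + θ * cc F' y 0 4 = 0 := by
    apply mul_left_cancel₀ h4
    linear_combination h 1 1 + f4 + θ * g4
  have z7 : cc F y 0 0 + θ * cc F' y 0 0 = 0 := by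
    apply mul_left_cancel₀ h4
    linear_combination h 2 2 + f7 + θ * g7
  have z2 : cc F y 3 1 + θ * cc F' y 3 1 = 0 := by rw [f2, g2, h]
  have z3 : cc F y 3 0 + θ * cc F' y 3 0 = 0 := by rw [f3, g3, h]
  have z5 : cc F y 1 3 + θ * cc F' y 1 3 = 0 := by rw [f5, g5, h]
  have z6 : cc F y 0 3 + θ * cc F' y 0 3 = 0 := by rw [f6, g6, h]
  have z8 : cc F y 1 0 + θ * cc F' y 1 0 = 0 := by rw [f8, g8, h]
  have z9 : cc F y 0 1 + θ * cc F' y 0 1 = 0 := by rw [f9, g9, h]
  refine ⟨cc F y 2 2 + θ * cc F' y 2 2,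
    ![cc F y 2 1 + θ * cc F' y 2 1, cc F y 1 2 + θ * cc F' y 1 2],
    ![cc F y 2 0 + θ * cc F' y 2 0, cc F y 1 1 + θ * cc F' y 1 1,
      cc F y 0 2 + θ * cc F' y 0 2, 0, 0, 0], fun s t u => ?_⟩
  beta_reduce
  rw [cc_q4 hF y, cc_q4 hF' y]
  simp only [q4, Finset.sum_range_succ, Finset.sum_range_zero]
  simp
  linear_combination s ^ 4 * z1 + s ^ 3 * t * z2 + s ^ 3 * u * z3 + t ^ 4 * z4 +
    s * t ^ 3 * z5 + t ^ 3 * u * z6 + u ^ 4 * z7 + s * u ^ 3 * z8 + t * u ^ 3 * z9

variable [IsAlgClosed k] [CharZero k]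

/-- In the limit plane of `exists_tri`: basis vectors `g` of this plane and `q ≠ 0` with `NodQ F g q`.
Proof: `adapt3` for `y 0`, `y 1`, `y 2`; the form on the new basis is `NodG` with
`![0, 1, 0]` substituted (`NodG.subst`, invert the matrix), scale `q` such that it has a value `q' ≠ 0`
(`exists_scale`, the factor `lam` in `NodG.subst`). The form is `q4 c` with
`c i j = cc F e i j + θ cc F0 e i j`, whose values are `cc F g i j` (`cc_q4`, `cc_at`). `nod_lim`. The span of
the `g` is the limit of the span of the `y`. -/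
theorem exists_nod_k {F : MvPolynomial (Fin 4) k} (hF : Sm F) :
    ∃ (g : Fin 3 → Fin 4 → k) (q : Fin 3 → k), LinearIndependent k g ∧ q ≠ 0 ∧ NodQ F g q ∧
      Eqv hF.hom (Submodule.span k (Set.range g)) := by
  obtain ⟨v, θ, y, hθ, hy, hdf, heqv⟩ := exists_tri hF
  have hy3 : LinearIndependent (Om k) ![y 0, y 1, y 2] := by
    have e : ![y 0, y 1, y 2] = y := by
      funext i
      fin_cases i <;> rfl
    rw [e]
    exact hy
  obtain ⟨p, q, r, s, κ, μ, ν, A₁, B₁, C₁, hdet, hκ, hli, hA, hB, hC⟩ := adapt3 v hy3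
  -- the form on the new basis
  obtain ⟨x, hx⟩ : ∃ x : Fin 3 → Om k, x = ![p * q, p * s + r * q, r * s] := ⟨_, rfl⟩
  have hx0 : x ≠ 0 := by
    intro h0
    have h1 : p * q = 0 := by simpa [hx] using congrFun h0 0
    have h2 : p * s + r * q = 0 := by simpa [hx] using congrFun h0 1
    have h3 : r * s = 0 := by simpa [hx] using congrFun h0 2
    rcases mul_eq_zero.1 h1 with h | h
    · rw [h, zero_mul, zero_add] at h2
      exact hdet (by rw [h, zero_mul, mul_comm q r, h2, sub_zero])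
    · rw [h, mul_zero, add_zero] at h2
      exact hdet (by rw [h, zero_mul, h2, sub_zero])
  obtain ⟨l, q', hl, hq', hlq⟩ := exists_scale v x hx0
  obtain ⟨e, he⟩ : ∃ e : Fin 3 → Fin 4 → Om k, e = ![p • y 0 + q • y 1, r • y 0 + s • y 1,
      μ • y 0 + ν • y 1 + κ • y 2] := ⟨_, rfl⟩
  have he0 : e 0 = p • y 0 + q • y 1 := by rw [he]; rfl
  have he1 : e 1 = r • y 0 + s • y 1 := by rw [he]; rfl
  have he2 : e 2 = μ • y 0 + ν • y 1 + κ • y 2 := by rw [he]; rfl
  have hat : ∀ a b, v.At (e a b) ((![A₁, B₁, C₁] : Fin 3 → Fin 4 → k) a b) := by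
    intro a b
    fin_cases a
    · change v.At (e 0 b) (A₁ b)
      rw [he0]
      exact hA b
    · change v.At (e 1 b) (B₁ b)
      rw [he1]
      exact hB b
    · change v.At (e 2 b) (C₁ b)
      rw [he2]
      exact hC b
  have hnod := (nod_two hF.hom (F0_hom (k := k)) hdf).subst p r q s μ ν κ hl
  have hc : (fun a b c : Om k =>
      MvPolynomial.aeval ((p * a + r * b + μ * c) • y 0 + (q * a + s * b + ν * c) • y 1 +
        (κ * c) • y 2) F + θ * MvPolynomial.aeval ((p * a + r * b + μ * c) • y 0 +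
          (q * a + s * b + ν * c) • y 1 + (κ * c) • y 2) (F0 k)) =
      q4 fun i j => cc F e i j + θ * cc (F0 k) e i j := by
    funext a b c
    have h1 : (p * a + r * b + μ * c) • y 0 + (q * a + s * b + ν * c) • y 1 + (κ * c) • y 2 =
        a • e 0 + b • e 1 + c • e 2 := by
      rw [he0, he1, he2]
      funext i
      simp only [Pi.add_apply, Pi.smul_apply, smul_eq_mul]
      ring
    rw [h1, cc_q4 hF.hom, cc_q4 F0_hom]
    unfold q4
    rw [Finset.mul_sum, ← Finset.sum_add_distrib]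
    refine Finset.sum_congr rfl fun i _ => ?_
    rw [Finset.mul_sum, ← Finset.sum_add_distrib]
    refine Finset.sum_congr rfl fun j _ => ?_
    ring
  rw [hc] at hnod
  have hnod2 := nod_lim (c' := fun i j => cc F (![A₁, B₁, C₁] : Fin 3 → Fin 4 → k) i j)
    (v := v) (q' := q') (fun i j _ => ?_) (fun i => ?_) hq' hnod
  · refine ⟨![A₁, B₁, C₁], q', hli, hq', ?_, ?_⟩
    · have h2 : (fun a b c : k => MvPolynomial.aeval (a • (![A₁, B₁, C₁] : Fin 3 → Fin 4 → k) 0 +
          b • (![A₁, B₁, C₁] : Fin 3 → Fin 4 → k) 1 +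
          c • (![A₁, B₁, C₁] : Fin 3 → Fin 4 → k) 2) F) =
          q4 fun i j => cc F (![A₁, B₁, C₁] : Fin 3 → Fin 4 → k) i j := by
        funext a b c
        exact cc_q4 hF.hom _ a b c
      unfold NodQ
      rw [h2]
      exact hnod2
    · have hle : Submodule.span k (Set.range (![A₁, B₁, C₁] : Fin 3 → Fin 4 → k)) ≤
          limW v (Submodule.span (Om k) (Set.range y)) := by
        rw [Submodule.span_le]
        rintro _ ⟨a, rfl⟩
        refine ⟨e a, ?_, fun b => hat a b⟩
        have hm : ∀ i, y i ∈ Submodule.span (Om k) (Set.range y) := fun i =>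
          Submodule.subset_span ⟨i, rfl⟩
        fin_cases a
        · change e 0 ∈ _
          rw [he0]
          exact Submodule.add_mem _ (Submodule.smul_mem _ _ (hm 0)) (Submodule.smul_mem _ _ (hm 1))
        · change e 1 ∈ _
          rw [he1]
          exact Submodule.add_mem _ (Submodule.smul_mem _ _ (hm 0)) (Submodule.smul_mem _ _ (hm 1))
        · change e 2 ∈ _
          rw [he2]
          exact Submodule.add_mem _ (Submodule.add_mem _ (Submodule.smul_mem _ _ (hm 0))
            (Submodule.smul_mem _ _ (hm 1))) (Submodule.smul_mem _ _ (hm 2))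
      intro a ha b hb
      exact heqv a (hle ha) b (hle hb)
  · have h1 := (cc_at F hat i j).add (hθ.mul (cc_at (F0 k) hat i j))
    rwa [zero_mul, add_zero] at h1
  · have h1 := hlq i
    rw [hx] at h1
    fin_cases i
    · simpa using h1
    · simpa using h1
    · simpa using h1

/-- Normalized: `q = (1, a, b)`, and a basis of the whole space. Change the basis of the line
(`NodG.subst`) such that `Q` is `1` at the first vector. -/
theorem exists_nod_g {F : MvPolynomial (Fin 4) k} (hF : Sm F) :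
    ∃ (g : Fin 4 → Fin 4 → k) (a b : k), LinearIndependent k g ∧
      NodQ F ![g 0, g 1, g 2] ![1, a, b] ∧
      Eqv hF.hom (Submodule.span k {g 0, g 1, g 2}) := by
  obtain ⟨g, q, hg, hq, hnod, heqv⟩ := exists_nod_k hF
  -- a vector of the line at which the quadratic form is not zero
  obtain ⟨p, p', r, r', hdet, hQ⟩ : ∃ p p' r r' : k, p * r' - r * p' ≠ 0 ∧
      q 0 * p ^ 2 + q 1 * p * p' + q 2 * p' ^ 2 ≠ 0 := by
    by_cases h0 : q 0 = 0
    · by_cases h2 : q 2 = 0
      · refine ⟨1, 1, 0, 1, by simp, ?_⟩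
        intro h
        refine hq (funext fun i => ?_)
        fin_cases i
        · exact h0
        · simpa [h0, h2] using h
        · exact h2
      · exact ⟨0, 1, 1, 0, by simp, by simpa using h2⟩
    · exact ⟨1, 0, 0, 1, by simp, by simpa using h0⟩
  obtain ⟨e0, he0⟩ : ∃ e0 : Fin 4 → k, e0 = p • g 0 + p' • g 1 := ⟨_, rfl⟩
  obtain ⟨e1, he1⟩ : ∃ e1 : Fin 4 → k, e1 = r • g 0 + r' • g 1 := ⟨_, rfl⟩
  have hli : LinearIndependent k ![e0, e1, g 2] := by
    rw [Fintype.linearIndependent_iff] at hg ⊢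
    intro c hc
    have h1 := hg ![c 0 * p + c 1 * r, c 0 * p' + c 1 * r', c 2] (by
      rw [Fin.sum_univ_three] at hc ⊢
      rw [← hc]
      simp only [Matrix.cons_val_zero, Matrix.cons_val_one, Matrix.cons_val_two,
        Matrix.head_cons, Matrix.tail_cons]
      rw [he0, he1]
      module)
    have h2 : c 0 * p + c 1 * r = 0 := by simpa using h1 0
    have h3 : c 0 * p' + c 1 * r' = 0 := by simpa using h1 1
    have h4 : c 2 = 0 := by simpa using h1 2
    have h5 : c 0 * (p * r' - r * p') = 0 := by linear_combination r' * h2 - r * h3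
    have h6 : c 1 * (p * r' - r * p') = 0 := by linear_combination p * h3 - p' * h2
    intro i
    fin_cases i
    · exact (mul_eq_zero.1 h5).resolve_right hdet
    · exact (mul_eq_zero.1 h6).resolve_right hdet
    · exact h4
  obtain ⟨w, hw⟩ := exists_linearIndependent_snoc_of_lt_finrank hli
    (by rw [Module.finrank_fin_fun]; norm_num)
  obtain ⟨Q, hQe⟩ : ∃ Q, Q = q 0 * p ^ 2 + q 1 * p * p' + q 2 * p' ^ 2 := ⟨_, rfl⟩
  rw [← hQe] at hQ
  have hnod2 := NodG.subst hnod p r p' r' 0 0 1 (inv_ne_zero hQ)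
  rw [← hQe, inv_mul_cancel₀ hQ] at hnod2
  refine ⟨Fin.snoc ![e0, e1, g 2] w, Q⁻¹ * (2 * q 0 * p * r + q 1 * (p * r' + r * p') +
    2 * q 2 * p' * r'), Q⁻¹ * (q 0 * r ^ 2 + q 1 * r * r' + q 2 * r' ^ 2), hw, ?_, ?_⟩
  rotate_left
  · have hm : ∀ i, g i ∈ Submodule.span k (Set.range g) := fun i =>
      Submodule.subset_span ⟨i, rfl⟩
    have hle : Submodule.span k {(Fin.snoc ![e0, e1, g 2] w : Fin 4 → Fin 4 → k) 0,
        (Fin.snoc ![e0, e1, g 2] w : Fin 4 → Fin 4 → k) 1,
        (Fin.snoc ![e0, e1, g 2] w : Fin 4 → Fin 4 → k) 2} ≤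
        Submodule.span k (Set.range g) := by
      rw [Submodule.span_le]
      rintro z (hz | hz | hz)
      · rw [hz]
        change e0 ∈ Submodule.span k (Set.range g)
        rw [he0]
        exact Submodule.add_mem _ (Submodule.smul_mem _ _ (hm 0)) (Submodule.smul_mem _ _ (hm 1))
      · rw [hz]
        change e1 ∈ Submodule.span k (Set.range g)
        rw [he1]
        exact Submodule.add_mem _ (Submodule.smul_mem _ _ (hm 0)) (Submodule.smul_mem _ _ (hm 1))
      · rw [hz]
        exact hm 2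
    intro a ha b hb
    exact heqv a (hle ha) b (hle hb)
  · have h2 : (fun a b c : k => MvPolynomial.aeval (a • e0 + b • e1 + c • g 2) F) =
        fun a b c : k => MvPolynomial.aeval ((p * a + r * b + 0 * c) • g 0 +
          (p' * a + r' * b + 0 * c) • g 1 + (1 * c) • g 2) F := by
      funext a b c
      have h3 : (p * a + r * b + 0 * c) • g 0 + (p' * a + r' * b + 0 * c) • g 1 + (1 * c) • g 2 =
          a • e0 + b • e1 + c • g 2 := by
        rw [he0, he1]
        module
      rw [h3]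
    change NodG (fun a b c : k => MvPolynomial.aeval (a • e0 + b • e1 + c • g 2) F) _
    rw [h2]
    exact hnod2

end Pool.Agent.QRT
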