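import Pool.Agent.QRT.Gauss

/-!
# Quartic forms on planes
-/

set_option autoImplicit false

noncomputable section

namespace Pool.Agent.QRT

open Pool.Agent.ZCyc Pool.Agent.Dess Pool.Agent.GT Pool.Agent.CUB
open Pool.Agent.VFP (Om tt)
open scoped Classical

/-- the ternary quartic form with the coefficients `c i j` of `s ^ i t ^ j u ^ (4 - i - j)` -/
def q4 {K : Type} [Field K] (c : ℕ → ℕ → K) (s t u : K) : K :=
  ∑ i ∈ Finset.range 5, ∑ j ∈ Finset.range (5 - i), c i j * s ^ i * t ^ j * u ^ (4 - i - j)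

private def mo (i j : ℕ) : Fin 3 →₀ ℕ :=
  Finsupp.single 0 i + Finsupp.single 1 j + Finsupp.single 2 (4 - i - j)

private theorem mo0 (i j : ℕ) : mo i j 0 = i := by simp [mo]

private theorem mo1 (i j : ℕ) : mo i j 1 = j := by simp [mo]

private theorem mo2 (i j : ℕ) : mo i j 2 = 4 - i - j := by simp [mo]

private def qp {K : Type} [Field K] (c : ℕ → ℕ → K) : MvPolynomial (Fin 3) K :=
  ∑ i ∈ Finset.range 5, ∑ j ∈ Finset.range (5 - i), MvPolynomial.monomial (mo i j) (c i j)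

private theorem coeff_qp {K : Type} [Field K] (c : ℕ → ℕ → K) (m : Fin 3 →₀ ℕ) :
    (qp c).coeff m = if m 0 + m 1 + m 2 = 4 then c (m 0) (m 1) else 0 := by
  unfold qp
  rw [MvPolynomial.coeff_sum]
  simp only [MvPolynomial.coeff_sum, MvPolynomial.coeff_monomial]
  have hne : ∀ i j, i + j ≤ 4 → mo i j = m → i = m 0 ∧ j = m 1 ∧ m 0 + m 1 + m 2 = 4 := by
    intro i j hij h
    rw [← h, mo0, mo1, mo2]
    omega
  by_cases h4 : m 0 + m 1 + m 2 = 4
  · rw [if_pos h4, Finset.sum_eq_single (m 0), Finset.sum_eq_single (m 1)]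
    · rw [if_pos]
      ext a
      fin_cases a
      · exact mo0 _ _
      · exact mo1 _ _
      · change mo _ _ 2 = m 2
        rw [mo2]
        omega
    · intro j hj hj1
      rw [if_neg]
      intro h
      exact hj1 (hne _ _ (by simp at hj; omega) h).2.1
    · intro h
      exact absurd (Finset.mem_range.2 (by omega)) h
    · intro i hi hi0
      refine Finset.sum_eq_zero fun j hj => ?_
      rw [if_neg]
      intro h
      exact hi0 (hne _ _ (by simp at hj hi; omega) h).1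
    · intro h
      exact absurd (Finset.mem_range.2 (by omega)) h
  · rw [if_neg h4]
    refine Finset.sum_eq_zero fun i hi => Finset.sum_eq_zero fun j hj => ?_
    rw [if_neg]
    intro h
    exact h4 (hne _ _ (by simp at hj hi; omega) h).2.2

private theorem eval_qp {K : Type} [Field K] (c : ℕ → ℕ → K) (x : Fin 3 → K) :
    MvPolynomial.eval x (qp c) = q4 c (x 0) (x 1) (x 2) := by
  unfold qp q4
  rw [map_sum]
  refine Finset.sum_congr rfl fun i _ => ?_
  rw [map_sum]
  refine Finset.sum_congr rfl fun j _ => ?_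
  rw [MvPolynomial.eval_monomial, Finsupp.prod_fintype _ _ (fun _ => pow_zero _),
    Fin.prod_univ_three, mo0, mo1, mo2]
  ring

/-- uniqueness of the coefficients -/
theorem q4_inj {K : Type} [Field K] [Infinite K] {c c' : ℕ → ℕ → K}
    (h : ∀ s t u, q4 c s t u = q4 c' s t u) {i j : ℕ} (hij : i + j ≤ 4) : c i j = c' i j := by
  have h1 : qp c = qp c' := MvPolynomial.funext fun x => by
    rw [eval_qp, eval_qp]
    exact h _ _ _
  have h2 := congrArg (MvPolynomial.coeff (mo i j)) h1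
  rw [coeff_qp, coeff_qp, mo0, mo1, mo2, if_pos (by omega), if_pos (by omega)] at h2
  exact h2

variable {k : Type} [Field k]

/-- The restriction of `F` to the plane spanned by `G 0`, `G 1`, `G 2`. -/
def rs {R : Type} [CommRing R] [Algebra k R] (F : MvPolynomial (Fin 4) k)
    (G : Fin 3 → Fin 4 → R) : MvPolynomial (Fin 3) R :=
  MvPolynomial.aeval (fun i => ∑ j, MvPolynomial.C (G j i) * MvPolynomial.X j) F

/-- the coefficient of `s ^ i t ^ j u ^ (4 - i - j)` in `F (s G 0 + t G 1 + u G 2)` -/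
def cc {R : Type} [CommRing R] [Algebra k R] (F : MvPolynomial (Fin 4) k)
    (G : Fin 3 → Fin 4 → R) (i j : ℕ) : R :=
  (rs F G).coeff (Finsupp.single 0 i + Finsupp.single 1 j + Finsupp.single 2 (4 - i - j))

theorem cc_map {R R' : Type} [CommRing R] [Algebra k R] [CommRing R'] [Algebra k R']
    (φ : R →ₐ[k] R') (F : MvPolynomial (Fin 4) k) (G : Fin 3 → Fin 4 → R) (i j : ℕ) :
    φ (cc F G i j) = cc F (fun a b => φ (G a b)) i j := by
  unfold cc
  have h : MvPolynomial.mapAlgHom φ (rs F G) = rs F (fun a b => φ (G a b)) := by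
    unfold rs
    rw [MvPolynomial.comp_aeval_apply]
    congr 2
    funext i
    rw [map_sum]
    refine Finset.sum_congr rfl fun j _ => ?_
    rw [map_mul, MvPolynomial.mapAlgHom_apply, MvPolynomial.mapAlgHom_apply, MvPolynomial.map_C,
      MvPolynomial.map_X]
    rfl
  rw [← h, MvPolynomial.mapAlgHom_apply, MvPolynomial.coeff_map]
  rfl

/-- values of the coefficients at a place: `cc_map` from the generic matrix `G` with entries in
`MvPolynomial (Fin 3 × Fin 4) k`, and `aeval_at` -/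
theorem cc_at {K : Type} [Field K] [Algebra k K] {v : Place k K} (F : MvPolynomial (Fin 4) k)
    {G : Fin 3 → Fin 4 → K} {G' : Fin 3 → Fin 4 → k} (h : ∀ a b, v.At (G a b) (G' a b))
    (i j : ℕ) : v.At (cc F G i j) (cc F G' i j) := by
  have h1 := cc_map (MvPolynomial.aeval (R := k) (fun p : Fin 3 × Fin 4 => G p.1 p.2)) F
    (fun a b => (MvPolynomial.X (a, b) : MvPolynomial (Fin 3 × Fin 4) k)) i j
  have h2 := cc_map (MvPolynomial.aeval (R := k) (fun p : Fin 3 × Fin 4 => G' p.1 p.2)) F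
    (fun a b => (MvPolynomial.X (a, b) : MvPolynomial (Fin 3 × Fin 4) k)) i j
  simp only [MvPolynomial.aeval_X] at h1 h2
  have h3 := aeval_at (v := v) (x := fun p : Fin 3 × Fin 4 => G p.1 p.2)
    (y := fun p : Fin 3 × Fin 4 => G' p.1 p.2) (fun p => h p.1 p.2)
    (cc F (fun a b => (MvPolynomial.X (a, b) : MvPolynomial (Fin 3 × Fin 4) k)) i j)
  rw [h1, h2] at h3
  exact h3

/-- The restriction is the ternary quartic form with these coefficients (`rs F G` is homogeneous of
degree four, and its value at `(s, t, u)` is `F (s G 0 + t G 1 + u G 2)`). -/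
theorem cc_q4 {K : Type} [Field K] [Algebra k K] {F : MvPolynomial (Fin 4) k}
    (hF : F.IsHomogeneous 4) (G : Fin 3 → Fin 4 → K) (s t u : K) :
    MvPolynomial.aeval (s • G 0 + t • G 1 + u • G 2) F = q4 (cc F G) s t u := by
  have h1 : (rs F G).IsHomogeneous 4 := by
    have := MvPolynomial.IsHomogeneous.aeval (n := 1) hF
      (fun i => ∑ j, MvPolynomial.C (G j i) * MvPolynomial.X j : Fin 4 → MvPolynomial (Fin 3) K)
      (fun i => by
        refine MvPolynomial.IsHomogeneous.sum _ _ _ fun j _ => ?_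
        have := (MvPolynomial.isHomogeneous_C (Fin 3) (G j i)).mul
          (MvPolynomial.isHomogeneous_X K j)
        rwa [zero_add] at this)
    rwa [one_mul] at this
  have h2 : rs F G = qp (cc F G) := by
    ext m
    rw [coeff_qp]
    by_cases h4 : m 0 + m 1 + m 2 = 4
    · rw [if_pos h4]
      unfold cc
      congr 1
      ext a
      fin_cases a
      · exact (mo0 _ _).symm
      · exact (mo1 _ _).symm
      · refine Eq.trans ?_ (mo2 _ _).symm
        change m 2 = _
        omega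
    · rw [if_neg h4]
      refine h1.coeff_eq_zero fun hd => h4 ?_
      rw [Finsupp.degree_eq_sum, Fin.sum_univ_three] at hd
      exact hd
  have h3 : MvPolynomial.eval ![s, t, u] (rs F G) =
      MvPolynomial.aeval (s • G 0 + t • G 1 + u • G 2) F := by
    unfold rs
    have := MvPolynomial.comp_aeval_apply (R := k)
      (fun i => ∑ j, MvPolynomial.C (G j i) * MvPolynomial.X j : Fin 4 → MvPolynomial (Fin 3) K)
      ((MvPolynomial.aeval (R := K) ![s, t, u]).restrictScalars k) F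
    rw [AlgHom.restrictScalars_apply, MvPolynomial.aeval_eq_eval] at this
    rw [this]
    congr 2
    funext i
    rw [AlgHom.restrictScalars_apply, map_sum, Fin.sum_univ_three]
    simp [mul_comm]
  rw [← h3, h2, eval_qp]
  simp

private theorem cc_df_aux {K : Type} [Field K] [CharZero K] [Algebra k K]
    (F : MvPolynomial (Fin 4) k) (y w : Fin 4 → K) (a b c d e : K)
    (h : ∀ X : K, MvPolynomial.aeval (y + X • w) F =
      a + b * X + c * X ^ 2 + d * X ^ 3 + e * X ^ 4) :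
    a = MvPolynomial.aeval y F ∧ b = df F y w := by
  have ha : a = MvPolynomial.aeval y F := by
    have h0 := h 0
    rw [zero_smul, add_zero] at h0
    rw [h0]
    ring
  refine ⟨ha, ?_⟩
  obtain ⟨p, hp⟩ := df_line F y w
  have hpoly : Polynomial.C b * Polynomial.X + Polynomial.C c * Polynomial.X ^ 2 +
      Polynomial.C d * Polynomial.X ^ 3 + Polynomial.C e * Polynomial.X ^ 4 =
      Polynomial.C (df F y w) * Polynomial.X + p * Polynomial.X ^ 2 := by
    apply Polynomial.funext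
    intro X
    have h1 := h X
    rw [hp X, ← ha] at h1
    simp only [Polynomial.eval_add, Polynomial.eval_mul, Polynomial.eval_C, Polynomial.eval_X,
      Polynomial.eval_pow]
    linear_combination -h1
  have h2 := congrArg (fun P : Polynomial K => P.coeff 1) hpoly
  simp only [Polynomial.coeff_add, Polynomial.coeff_C_mul, Polynomial.coeff_X_one,
    Polynomial.coeff_mul_X_pow'] at h2
  simpa using h2

/-- The coefficients of the monomials which contain the cube of a variable are given by the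
differential: `df_line`, `df_self`, `cc_q4`, `q4_inj` (compare the coefficients of `X` and `1` in
`F (G 0 + X G 1)`). -/
theorem cc_df {K : Type} [Field K] [CharZero K] [Algebra k K] {F : MvPolynomial (Fin 4) k}
    (hF : F.IsHomogeneous 4) (G : Fin 3 → Fin 4 → K) :
    4 * cc F G 4 0 = df F (G 0) (G 0) ∧ cc F G 3 1 = df F (G 0) (G 1) ∧
    cc F G 3 0 = df F (G 0) (G 2) ∧ 4 * cc F G 0 4 = df F (G 1) (G 1) ∧
    cc F G 1 3 = df F (G 1) (G 0) ∧ cc F G 0 3 = df F (G 1) (G 2) ∧
    4 * cc F G 0 0 = df F (G 2) (G 2) ∧ cc F G 1 0 = df F (G 2) (G 0) ∧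
    cc F G 0 1 = df F (G 2) (G 1) := by
  have h01 := cc_df_aux F (G 0) (G 1) (cc F G 4 0) (cc F G 3 1) (cc F G 2 2) (cc F G 1 3)
    (cc F G 0 4) (fun X => by
      have h := cc_q4 hF G 1 X 0
      rw [one_smul, zero_smul, add_zero] at h
      rw [h]
      simp [q4, Finset.sum_range_succ]
      try ring)
  have h02 := cc_df_aux F (G 0) (G 2) (cc F G 4 0) (cc F G 3 0) (cc F G 2 0) (cc F G 1 0)
    (cc F G 0 0) (fun X => by
      have h := cc_q4 hF G 1 0 X
      rw [one_smul, zero_smul, add_zero] at h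
      rw [h]
      simp [q4, Finset.sum_range_succ]
      try ring)
  have h10 := cc_df_aux F (G 1) (G 0) (cc F G 0 4) (cc F G 1 3) (cc F G 2 2) (cc F G 3 1)
    (cc F G 4 0) (fun X => by
      have h := cc_q4 hF G X 1 0
      rw [one_smul, zero_smul, add_zero, add_comm (X • G 0)] at h
      rw [h]
      simp [q4, Finset.sum_range_succ]
      try ring)
  have h12 := cc_df_aux F (G 1) (G 2) (cc F G 0 4) (cc F G 0 3) (cc F G 0 2) (cc F G 0 1)
    (cc F G 0 0) (fun X => by
      have h := cc_q4 hF G 0 1 X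
      rw [one_smul, zero_smul, zero_add] at h
      rw [h]
      simp [q4, Finset.sum_range_succ]
      try ring)
  have h20 := cc_df_aux F (G 2) (G 0) (cc F G 0 0) (cc F G 1 0) (cc F G 2 0) (cc F G 3 0)
    (cc F G 4 0) (fun X => by
      have h := cc_q4 hF G X 0 1
      rw [one_smul, zero_smul, add_zero, add_comm (X • G 0)] at h
      rw [h]
      simp [q4, Finset.sum_range_succ]
      try ring)
  have h21 := cc_df_aux F (G 2) (G 1) (cc F G 0 0) (cc F G 0 1) (cc F G 0 2) (cc F G 0 3)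
    (cc F G 0 4) (fun X => by
      have h := cc_q4 hF G 0 X 1
      rw [one_smul, zero_smul, zero_add, add_comm (X • G 1)] at h
      rw [h]
      simp [q4, Finset.sum_range_succ]
      try ring)
  rw [df_self hF, df_self hF, df_self hF]
  exact ⟨by rw [h01.1], h01.2, h02.2, by rw [h10.1], h10.2, h12.2, by rw [h20.1], h20.2, h21.2⟩

/-- The form `c Q ^ 2 + u Q L + u ^ 2 M` with `Q = q 0 s ^ 2 + q 1 s t + q 2 t ^ 2`: the quartic curve has
double points at the two zeros of `Q` on the line `u = 0`. -/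
def NodG {K : Type} [Field K] (g : K → K → K → K) (q : Fin 3 → K) : Prop :=
  ∃ (c : K) (l : Fin 2 → K) (m : Fin 6 → K), ∀ s t u : K,
    g s t u = c * (q 0 * s ^ 2 + q 1 * s * t + q 2 * t ^ 2) ^ 2 +
      u * (q 0 * s ^ 2 + q 1 * s * t + q 2 * t ^ 2) * (l 0 * s + l 1 * t) +
      u ^ 2 * (m 0 * s ^ 2 + m 1 * s * t + m 2 * t ^ 2 + m 3 * s * u + m 4 * t * u + m 5 * u ^ 2)

/-- The same for the restriction of `F` to the plane spanned by `G`. -/
def NodQ {K : Type} [Field K] [Algebra k K] (F : MvPolynomial (Fin 4) k)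
    (G : Fin 3 → Fin 4 → K) (q : Fin 3 → K) : Prop :=
  NodG (fun s t u => MvPolynomial.aeval (s • G 0 + t • G 1 + u • G 2) F) q

/-- linear substitutions which preserve the line `u = 0`, and a factor of `q` -/
theorem NodG.subst {K : Type} [Field K] {g : K → K → K → K} {q : Fin 3 → K} (h : NodG g q)
    (p r p' r' μ ν κ : K) {lam : K} (hlam : lam ≠ 0) :
    NodG (fun s t u => g (p * s + r * t + μ * u) (p' * s + r' * t + ν * u) (κ * u))
      ![lam * (q 0 * p ^ 2 + q 1 * p * p' + q 2 * p' ^ 2),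
        lam * (2 * q 0 * p * r + q 1 * (p * r' + r * p') + 2 * q 2 * p' * r'),
        lam * (q 0 * r ^ 2 + q 1 * r * r' + q 2 * r' ^ 2)] := by
  obtain ⟨c, l, m, hg⟩ := h
  refine ⟨c * lam⁻¹ ^ 2,
    ![lam⁻¹ * (2 * c * (2 * q 0 * μ * p + q 1 * (μ * p' + ν * p) + 2 * q 2 * ν * p') +
        κ * (l 0 * p + l 1 * p')),
      lam⁻¹ * (2 * c * (2 * q 0 * μ * r + q 1 * (μ * r' + ν * r) + 2 * q 2 * ν * r') +
        κ * (l 0 * r + l 1 * r'))],
    ![c * (2 * q 0 * μ * p + q 1 * (μ * p' + ν * p) + 2 * q 2 * ν * p') ^ 2 +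
        2 * c * (q 0 * p ^ 2 + q 1 * p * p' + q 2 * p' ^ 2) *
          (q 0 * μ ^ 2 + q 1 * μ * ν + q 2 * ν ^ 2) +
        κ * ((q 0 * p ^ 2 + q 1 * p * p' + q 2 * p' ^ 2) * (l 0 * μ + l 1 * ν) +
          (2 * q 0 * μ * p + q 1 * (μ * p' + ν * p) + 2 * q 2 * ν * p') *
            (l 0 * p + l 1 * p')) +
        κ ^ 2 * (m 0 * p ^ 2 + m 1 * p * p' + m 2 * p' ^ 2),
      2 * c * (2 * q 0 * μ * p + q 1 * (μ * p' + ν * p) + 2 * q 2 * ν * p') *
          (2 * q 0 * μ * r + q 1 * (μ * r' + ν * r) + 2 * q 2 * ν * r') +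
        2 * c * (2 * q 0 * p * r + q 1 * (p * r' + r * p') + 2 * q 2 * p' * r') *
          (q 0 * μ ^ 2 + q 1 * μ * ν + q 2 * ν ^ 2) +
        κ * ((2 * q 0 * p * r + q 1 * (p * r' + r * p') + 2 * q 2 * p' * r') *
            (l 0 * μ + l 1 * ν) +
          (2 * q 0 * μ * p + q 1 * (μ * p' + ν * p) + 2 * q 2 * ν * p') *
            (l 0 * r + l 1 * r') +
          (2 * q 0 * μ * r + q 1 * (μ * r' + ν * r) + 2 * q 2 * ν * r') *
            (l 0 * p + l 1 * p')) +
        κ ^ 2 * (2 * m 0 * p * r + m 1 * (p * r' + r * p') + 2 * m 2 * p' * r'),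
      c * (2 * q 0 * μ * r + q 1 * (μ * r' + ν * r) + 2 * q 2 * ν * r') ^ 2 +
        2 * c * (q 0 * r ^ 2 + q 1 * r * r' + q 2 * r' ^ 2) *
          (q 0 * μ ^ 2 + q 1 * μ * ν + q 2 * ν ^ 2) +
        κ * ((q 0 * r ^ 2 + q 1 * r * r' + q 2 * r' ^ 2) * (l 0 * μ + l 1 * ν) +
          (2 * q 0 * μ * r + q 1 * (μ * r' + ν * r) + 2 * q 2 * ν * r') *
            (l 0 * r + l 1 * r')) +
        κ ^ 2 * (m 0 * r ^ 2 + m 1 * r * r' + m 2 * r' ^ 2),
      2 * c * (2 * q 0 * μ * p + q 1 * (μ * p' + ν * p) + 2 * q 2 * ν * p') *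
          (q 0 * μ ^ 2 + q 1 * μ * ν + q 2 * ν ^ 2) +
        κ * ((2 * q 0 * μ * p + q 1 * (μ * p' + ν * p) + 2 * q 2 * ν * p') *
            (l 0 * μ + l 1 * ν) +
          (q 0 * μ ^ 2 + q 1 * μ * ν + q 2 * ν ^ 2) * (l 0 * p + l 1 * p')) +
        κ ^ 2 * (2 * m 0 * p * μ + m 1 * (p * ν + μ * p') + 2 * m 2 * p' * ν) +
        κ ^ 3 * (m 3 * p + m 4 * p'),
      2 * c * (2 * q 0 * μ * r + q 1 * (μ * r' + ν * r) + 2 * q 2 * ν * r') *
          (q 0 * μ ^ 2 + q 1 * μ * ν + q 2 * ν ^ 2) +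
        κ * ((2 * q 0 * μ * r + q 1 * (μ * r' + ν * r) + 2 * q 2 * ν * r') *
            (l 0 * μ + l 1 * ν) +
          (q 0 * μ ^ 2 + q 1 * μ * ν + q 2 * ν ^ 2) * (l 0 * r + l 1 * r')) +
        κ ^ 2 * (2 * m 0 * r * μ + m 1 * (r * ν + μ * r') + 2 * m 2 * r' * ν) +
        κ ^ 3 * (m 3 * r + m 4 * r'),
      c * (q 0 * μ ^ 2 + q 1 * μ * ν + q 2 * ν ^ 2) ^ 2 +
        κ * (q 0 * μ ^ 2 + q 1 * μ * ν + q 2 * ν ^ 2) * (l 0 * μ + l 1 * ν) +
        κ ^ 2 * (m 0 * μ ^ 2 + m 1 * μ * ν + m 2 * ν ^ 2) +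
        κ ^ 3 * (m 3 * μ + m 4 * ν) + κ ^ 4 * m 5], ?_⟩
  intro s t u
  change g (p * s + r * t + μ * u) (p' * s + r' * t + ν * u) (κ * u) = _
  rw [hg]
  simp only [Matrix.cons_val_zero, Matrix.cons_val_one, Matrix.cons_val]
  field_simp
  ring

/-- the coefficients of `c Q ^ 2 + u Q L + u ^ 2 M` -/
private def co {K : Type} [Field K] (c : K) (q : Fin 3 → K) (l : Fin 2 → K) (m : Fin 6 → K) :
    ℕ → ℕ → K
  | 4, 0 => c * (q 0 * q 0)
  | 3, 1 => c * (2 * (q 0 * q 1))
  | 2, 2 => c * (q 1 * q 1 + 2 * (q 0 * q 2))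
  | 1, 3 => c * (2 * (q 1 * q 2))
  | 0, 4 => c * (q 2 * q 2)
  | 3, 0 => q 0 * l 0
  | 2, 1 => q 1 * l 0 + q 0 * l 1
  | 1, 2 => q 2 * l 0 + q 1 * l 1
  | 0, 3 => q 2 * l 1
  | 2, 0 => m 0
  | 1, 1 => m 1
  | 0, 2 => m 2
  | 1, 0 => m 3
  | 0, 1 => m 4
  | 0, 0 => m 5
  | _, _ => 0

private theorem q4_co {K : Type} [Field K] (c : K) (q : Fin 3 → K) (l : Fin 2 → K)
    (m : Fin 6 → K) (s t u : K) :
    q4 (co c q l m) s t u = c * (q 0 * s ^ 2 + q 1 * s * t + q 2 * t ^ 2) ^ 2 +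
      u * (q 0 * s ^ 2 + q 1 * s * t + q 2 * t ^ 2) * (l 0 * s + l 1 * t) +
      u ^ 2 * (m 0 * s ^ 2 + m 1 * s * t + m 2 * t ^ 2 + m 3 * s * u + m 4 * t * u +
        m 5 * u ^ 2) := by
  simp [q4, Finset.sum_range_succ, co]
  ring

private theorem at_two {K : Type} [Field K] [Algebra k K] [HasRes k K] {v : Place k K} :
    v.At (2 : K) (2 : k) := by
  have h := Place.at_const (v := v) (2 : k)
  rwa [map_ofNat] at h

private theorem at_ne {K : Type} [Field K] [Algebra k K] [HasRes k K] {v : Place k K} {f : K}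
    {c : k} (h : v.At f c) (hc : c ≠ 0) : f ≠ 0 := by
  rintro rfl
  have h1 := Place.at_const (v := v) (0 : k)
  rw [map_zero] at h1
  exact hc (Place.At.unique h h1)

private theorem at_co {K : Type} [Field K] [Algebra k K] [HasRes k K] {v : Place k K}
    {c : K} {c' : k} (hc : v.At c c') {q : Fin 3 → K} {q' : Fin 3 → k}
    (hq : ∀ i, v.At (q i) (q' i)) {l : Fin 2 → K} {l' : Fin 2 → k}
    (hl : ∀ i, v.At (l i) (l' i)) {m : Fin 6 → K} {m' : Fin 6 → k}
    (hm : ∀ i, v.At (m i) (m' i)) {i j : ℕ} (hij : i + j ≤ 4) :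
    v.At (co c q l m i j) (co c' q' l' m' i j) := by
  have hi : i ≤ 4 := by omega
  have hj : j ≤ 4 := by omega
  interval_cases i <;> interval_cases j <;> first
    | (exfalso; omega)
    | exact hm _
    | exact hc.mul ((hq _).mul (hq _))
    | exact hc.mul (at_two.mul ((hq _).mul (hq _)))
    | exact hc.mul (((hq _).mul (hq _)).add (at_two.mul ((hq _).mul (hq _))))
    | exact (hq _).mul (hl _)
    | exact ((hq _).mul (hl _)).add ((hq _).mul (hl _))

private theorem exists_cl {K : Type} [Field K] [Algebra k K] [HasRes k K] {v : Place k K}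
    {c : K} {q : Fin 3 → K} {q' : Fin 3 → k} (hq : ∀ i, v.At (q i) (q' i)) (hq' : q' ≠ 0)
    {l : Fin 2 → K} {m : Fin 6 → K}
    (h : ∀ i j, i + j ≤ 4 → ∃ d, v.At (co c q l m i j) d) :
    (∃ c', v.At c c') ∧ ∀ i, ∃ d, v.At (l i) d := by
  obtain ⟨a40, h40⟩ := h 4 0 (by norm_num)
  obtain ⟨a22, h22⟩ := h 2 2 (by norm_num)
  obtain ⟨a04, h04⟩ := h 0 4 (by norm_num)
  obtain ⟨a30, h30⟩ := h 3 0 (by norm_num)
  obtain ⟨a21, h21⟩ := h 2 1 (by norm_num)
  obtain ⟨a12, h12⟩ := h 1 2 (by norm_num)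
  obtain ⟨a03, h03⟩ := h 0 3 (by norm_num)
  change v.At (c * (q 0 * q 0)) a40 at h40
  change v.At (c * (q 1 * q 1 + 2 * (q 0 * q 2))) a22 at h22
  change v.At (c * (q 2 * q 2)) a04 at h04
  change v.At (q 0 * l 0) a30 at h30
  change v.At (q 1 * l 0 + q 0 * l 1) a21 at h21
  change v.At (q 2 * l 0 + q 1 * l 1) a12 at h12
  change v.At (q 2 * l 1) a03 at h03
  have key : ∀ {x y : K} {a b : k}, v.At (x * y) a → v.At y b → b ≠ 0 → ∃ d, v.At x d := by
    intro x y a b h1 h2 hb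
    refine ⟨a / b, ?_⟩
    have h3 := h1.div h2 hb
    rwa [mul_div_assoc, div_self (at_ne h2 hb), mul_one] at h3
  by_cases h0 : q' 0 = 0
  · by_cases h2 : q' 2 = 0
    · have h1 : q' 1 ≠ 0 := by
        intro h1
        apply hq'
        funext i
        fin_cases i
        · exact h0
        · exact h1
        · exact h2
      have e1 : v.At (q 1 * q 1 + 2 * (q 0 * q 2)) (q' 1 * q' 1 + 2 * (q' 0 * q' 2)) :=
        ((hq _).mul (hq _)).add (at_two.mul ((hq _).mul (hq _)))
      have e2 : v.At (q 1 * q 1 - q 0 * q 2) (q' 1 * q' 1 - q' 0 * q' 2) :=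
        ((hq _).mul (hq _)).sub ((hq _).mul (hq _))
      have n1 : q' 1 * q' 1 + 2 * (q' 0 * q' 2) ≠ 0 := by
        rw [h0, zero_mul, mul_zero, add_zero]
        exact mul_ne_zero h1 h1
      have n2 : q' 1 * q' 1 - q' 0 * q' 2 ≠ 0 := by
        rw [h0, zero_mul, sub_zero]
        exact mul_ne_zero h1 h1
      refine ⟨key h22 e1 n1, fun i => ?_⟩
      fin_cases i
      · have e3 : v.At (l 0 * (q 1 * q 1 - q 0 * q 2)) (q' 1 * a21 - q' 0 * a12) := by
          have := ((hq 1).mul h21).sub ((hq 0).mul h12)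
          convert this using 1
          ring
        exact key e3 e2 n2
      · have e3 : v.At (l 1 * (q 1 * q 1 - q 0 * q 2)) (q' 1 * a12 - q' 2 * a21) := by
          have := ((hq 1).mul h12).sub ((hq 2).mul h21)
          convert this using 1
          ring
        exact key e3 e2 n2
    · have e1 : v.At (q 2 * q 2) (q' 2 * q' 2) := (hq _).mul (hq _)
      refine ⟨key h04 e1 (mul_ne_zero h2 h2), ?_⟩
      obtain ⟨d1, hd1⟩ : ∃ d, v.At (l 1) d := key (by rwa [mul_comm] at h03) (hq 2) h2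
      obtain ⟨d0, hd0⟩ : ∃ d, v.At (l 0) d := by
        have e3 : v.At (l 0 * q 2) (a12 - q' 1 * d1) := by
          have := h12.sub ((hq 1).mul hd1)
          convert this using 1
          ring
        exact key e3 (hq 2) h2
      intro i
      fin_cases i
      · exact ⟨d0, hd0⟩
      · exact ⟨d1, hd1⟩
  · have e1 : v.At (q 0 * q 0) (q' 0 * q' 0) := (hq _).mul (hq _)
    refine ⟨key h40 e1 (mul_ne_zero h0 h0), ?_⟩
    obtain ⟨d0, hd0⟩ : ∃ d, v.At (l 0) d := key (by rwa [mul_comm] at h30) (hq 0) h0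
    obtain ⟨d1, hd1⟩ : ∃ d, v.At (l 1) d := by
      have e3 : v.At (l 1 * q 0) (a21 - q' 1 * d0) := by
        have := h21.sub ((hq 1).mul hd0)
        convert this using 1
        ring
      exact key e3 (hq 0) h0
    intro i
    fin_cases i
    · exact ⟨d0, hd0⟩
    · exact ⟨d1, hd1⟩

/-- Limits: the coefficients of `c`, `L`, `M` have values, because the nine forms
`Q ^ 2`, `u s Q`, `u t Q`, `u ^ 2 s ^ 2`, .. have independent values (each of the coefficients is a quotient
of a polynomial in the coefficients of the quartic form and `Q` by a polynomial whose value is not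
zero). -/
theorem nod_lim {K : Type} [Field K] [Infinite K] [Infinite k] [Algebra k K] [HasRes k K]
    {v : Place k K} {c : ℕ → ℕ → K} {c' : ℕ → ℕ → k}
    (hc : ∀ i j, i + j ≤ 4 → v.At (c i j) (c' i j)) {q : Fin 3 → K} {q' : Fin 3 → k}
    (hq : ∀ i, v.At (q i) (q' i)) (hq' : q' ≠ 0) (h : NodG (q4 c) q) : NodG (q4 c') q' := by
  obtain ⟨a, l, m, h⟩ := h
  have h1 : ∀ i j, i + j ≤ 4 → c i j = co a q l m i j := fun i j hij =>
    q4_inj (fun s t u => by rw [h, q4_co]) hij
  have h2 : ∀ i j, i + j ≤ 4 → v.At (co a q l m i j) (c' i j) := fun i j hij => by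
    rw [← h1 i j hij]
    exact hc i j hij
  obtain ⟨⟨a', ha⟩, hl⟩ := exists_cl hq hq' fun i j hij => ⟨_, h2 i j hij⟩
  choose l' hl using hl
  have hm : ∀ i, ∃ d, v.At (m i) d := by
    intro i
    fin_cases i
    · exact ⟨_, h2 2 0 (by norm_num)⟩
    · exact ⟨_, h2 1 1 (by norm_num)⟩
    · exact ⟨_, h2 0 2 (by norm_num)⟩
    · exact ⟨_, h2 1 0 (by norm_num)⟩
    · exact ⟨_, h2 0 1 (by norm_num)⟩
    · exact ⟨_, h2 0 0 (by norm_num)⟩
  choose m' hm using hm
  have h3 : ∀ i j, i + j ≤ 4 → c' i j = co a' q' l' m' i j := fun i j hij =>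
    Place.At.unique (h2 i j hij) (at_co ha hq hl hm hij)
  refine ⟨a', l', m', fun s t u => ?_⟩
  rw [← q4_co]
  unfold q4
  refine Finset.sum_congr rfl fun i hi => Finset.sum_congr rfl fun j hj => ?_
  rw [h3 i j (by
    rw [Finset.mem_range] at hi hj
    omega)]

end Pool.Agent.QRT
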