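import Pool.Agent.QRT.Ter
import Pool.Agent.QRT.CS

/-!
# A plane section with three double points, by deformation
-/

set_option autoImplicit false

noncomputable section

namespace Pool.Agent.QRT

open Pool.Agent.ZCyc Pool.Agent.Dess Pool.Agent.GT Pool.Agent.CUB
open Pool.Agent.VFP (Om tt)
open scoped Classical

variable {k : Type} [Field k]

/-- The quartic form `x² y² + y² z² + x² z² + w (x³ + y³ + z³)`. Its plane section `w = 0` has three
double points, at the coordinate points. -/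
def F0 (k : Type) [Field k] : MvPolynomial (Fin 4) k :=
  MvPolynomial.X 0 ^ 2 * MvPolynomial.X 1 ^ 2 + MvPolynomial.X 1 ^ 2 * MvPolynomial.X 2 ^ 2 +
    MvPolynomial.X 0 ^ 2 * MvPolynomial.X 2 ^ 2 +
    MvPolynomial.X 3 * (MvPolynomial.X 0 ^ 3 + MvPolynomial.X 1 ^ 3 + MvPolynomial.X 2 ^ 3)

theorem F0_hom : (F0 k).IsHomogeneous 4 := by
  have hX : ∀ (i : Fin 4) (n : ℕ),
      ((MvPolynomial.X i : MvPolynomial (Fin 4) k) ^ n).IsHomogeneous n :=
    fun i n => MvPolynomial.isHomogeneous_X_pow i n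
  unfold F0
  refine ((((hX 0 2).mul (hX 1 2)).add ((hX 1 2).mul (hX 2 2))).add
    ((hX 0 2).mul (hX 2 2))).add ?_
  exact (MvPolynomial.isHomogeneous_X k 3).mul (((hX 0 3).add (hX 1 3)).add (hX 2 3))

private theorem F0_d0 {K : Type} [CommRing K] [Algebra k K] (y : Fin 4 → K) :
    MvPolynomial.aeval y (MvPolynomial.pderiv 0 (F0 k)) =
      2 * y 0 * y 1 ^ 2 + 2 * y 0 * y 2 ^ 2 + 3 * y 3 * y 0 ^ 2 := by
  have h1 : (1 : Fin 4) ≠ 0 := by decide
  have h2 : (2 : Fin 4) ≠ 0 := by decide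
  have h3 : (3 : Fin 4) ≠ 0 := by decide
  simp [F0, MvPolynomial.pderiv_X_of_ne h1, MvPolynomial.pderiv_X_of_ne h2,
    MvPolynomial.pderiv_X_of_ne h3, Derivation.leibniz, Derivation.leibniz_pow]
  ring

private theorem F0_d1 {K : Type} [CommRing K] [Algebra k K] (y : Fin 4 → K) :
    MvPolynomial.aeval y (MvPolynomial.pderiv 1 (F0 k)) =
      2 * y 1 * y 0 ^ 2 + 2 * y 1 * y 2 ^ 2 + 3 * y 3 * y 1 ^ 2 := by
  have h1 : (0 : Fin 4) ≠ 1 := by decide
  have h2 : (2 : Fin 4) ≠ 1 := by decide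
  have h3 : (3 : Fin 4) ≠ 1 := by decide
  simp [F0, MvPolynomial.pderiv_X_of_ne h1, MvPolynomial.pderiv_X_of_ne h2,
    MvPolynomial.pderiv_X_of_ne h3, Derivation.leibniz, Derivation.leibniz_pow]
  ring

private theorem F0_d2 {K : Type} [CommRing K] [Algebra k K] (y : Fin 4 → K) :
    MvPolynomial.aeval y (MvPolynomial.pderiv 2 (F0 k)) =
      2 * y 2 * y 0 ^ 2 + 2 * y 2 * y 1 ^ 2 + 3 * y 3 * y 2 ^ 2 := by
  have h1 : (0 : Fin 4) ≠ 2 := by decide
  have h2 : (1 : Fin 4) ≠ 2 := by decide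
  have h3 : (3 : Fin 4) ≠ 2 := by decide
  simp [F0, MvPolynomial.pderiv_X_of_ne h1, MvPolynomial.pderiv_X_of_ne h2,
    MvPolynomial.pderiv_X_of_ne h3, Derivation.leibniz, Derivation.leibniz_pow]
  ring

private theorem F0_d3 {K : Type} [CommRing K] [Algebra k K] (y : Fin 4 → K) :
    MvPolynomial.aeval y (MvPolynomial.pderiv 3 (F0 k)) = y 0 ^ 3 + y 1 ^ 3 + y 2 ^ 3 := by
  have h1 : (0 : Fin 4) ≠ 3 := by decide
  have h2 : (1 : Fin 4) ≠ 3 := by decide
  have h3 : (2 : Fin 4) ≠ 3 := by decide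
  simp [F0, MvPolynomial.pderiv_X_of_ne h1, MvPolynomial.pderiv_X_of_ne h2,
    MvPolynomial.pderiv_X_of_ne h3, Derivation.leibniz, Derivation.leibniz_pow]

/-- the three points with the unknowns `z` -/
private def yv {R : Type} [CommRing R] (z : Fin 10 → R) : Fin 3 → Fin 4 → R :=
  ![![1, z 3, z 4, z 0 + z 1 * z 3 + z 2 * z 4],
    ![z 5, 1, z 6, z 0 * z 5 + z 1 + z 2 * z 6],
    ![z 7, z 8, 1, z 0 * z 7 + z 1 * z 8 + z 2]]

/-- the unknown coefficients of the plane -/
private def hv {R : Type} (z : Fin 10 → R) : Fin 3 → R := ![z 0, z 1, z 2]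

private theorem yv_map {R R' : Type} [CommRing R] [CommRing R'] [Algebra k R] [Algebra k R']
    (φ : R →ₐ[k] R') (z : Fin 10 → R) (i : Fin 3) :
    (fun j => φ (yv z i j)) = yv (fun a => φ (z a)) i := by
  funext j
  fin_cases i <;> fin_cases j <;> simp [yv]

/-- the equations -/
private def eqn {R : Type} [CommRing R] [Algebra k R] (F : MvPolynomial (Fin 4) k)
    (z : Fin 10 → R) (i j : Fin 3) : R :=
  MvPolynomial.aeval (yv z i) (MvPolynomial.pderiv j.castSucc (F0 k)) +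
      hv z j * MvPolynomial.aeval (yv z i) (MvPolynomial.pderiv 3 (F0 k)) +
    z 9 * (MvPolynomial.aeval (yv z i) (MvPolynomial.pderiv j.castSucc F) +
      hv z j * MvPolynomial.aeval (yv z i) (MvPolynomial.pderiv 3 F))

private theorem eqn_map {R R' : Type} [CommRing R] [CommRing R'] [Algebra k R] [Algebra k R']
    (φ : R →ₐ[k] R') (F : MvPolynomial (Fin 4) k) (z : Fin 10 → R) (i j : Fin 3) :
    φ (eqn F z i j) = eqn F (fun a => φ (z a)) i j := by
  have h1 : ∀ G : MvPolynomial (Fin 4) k, φ (MvPolynomial.aeval (yv z i) G) =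
      MvPolynomial.aeval (yv (fun a => φ (z a)) i) G := by
    intro G
    rw [← yv_map φ z i, MvPolynomial.comp_aeval_apply]
  have h2 : φ (hv z j) = hv (fun a => φ (z a)) j := by
    fin_cases j <;> rfl
  unfold eqn
  simp only [map_add, map_mul, h1, h2]

private theorem eqn_zero (F : MvPolynomial (Fin 4) k) (i j : Fin 3) :
    eqn F (0 : Fin 10 → k) i j = 0 := by
  unfold eqn
  have h2 : hv (0 : Fin 10 → k) j = 0 := by
    fin_cases j <;> rfl
  rw [h2]
  fin_cases j
  · change MvPolynomial.aeval _ (MvPolynomial.pderiv 0 (F0 k)) + _ + _ = _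
    rw [F0_d0]
    fin_cases i <;> simp [yv]
  · change MvPolynomial.aeval _ (MvPolynomial.pderiv 1 (F0 k)) + _ + _ = _
    rw [F0_d1]
    fin_cases i <;> simp [yv]
  · change MvPolynomial.aeval _ (MvPolynomial.pderiv 2 (F0 k)) + _ + _ = _
    rw [F0_d2]
    fin_cases i <;> simp [yv]

private theorem at_k {K : Type} [Field K] [Algebra k K] {v : Place k K} (n : ℕ) :
    v.At (n : K) (n : k) := by
  have h := Place.at_const (v := v) (n : k)
  rwa [map_natCast] at h

private theorem at_z {K : Type} [Field K] [Algebra k K] {v : Place k K} : v.At (0 : K) (0 : k) := by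
  have h := Place.at_const (v := v) (0 : k)
  rwa [map_zero] at h

private theorem at_o {K : Type} [Field K] [Algebra k K] {v : Place k K} : v.At (1 : K) (1 : k) := by
  have h := Place.at_const (v := v) (1 : k)
  rwa [map_one] at h

private theorem lin_a {K : Type} [Field K] [Algebra k K] [CharZero k] {v : Place k K}
    {l a b h h' h'' : K} {wa wb wh wh' wh'' : k} (ha : v.At a 0) (hb : v.At b 0)
    (hla : v.At (l * a) wa) (hlb : v.At (l * b) wb) (hlh : v.At (l * h) wh)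
    (hlh' : v.At (l * h') wh') (hlh'' : v.At (l * h'') wh'')
    (he : 2 * a ^ 2 + 2 * b ^ 2 + 3 * (h + h' * a + h'' * b) + h * (1 + a ^ 3 + b ^ 3) = 0) :
    wh = 0 := by
  have h1 : v.At ((2 : ℕ) * (l * a * a) + (2 : ℕ) * (l * b * b) +
      (3 : ℕ) * (l * h + l * h' * a + l * h'' * b) + l * h * (1 + a ^ 3 + b ^ 3))
      ((2 : ℕ) * (wa * 0) + (2 : ℕ) * (wb * 0) + (3 : ℕ) * (wh + wh' * 0 + wh'' * 0) +
        wh * (1 + 0 ^ 3 + 0 ^ 3)) :=
    ((((at_k 2).mul (hla.mul ha)).add ((at_k 2).mul (hlb.mul hb))).add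
      ((at_k 3).mul ((hlh.add (hlh'.mul ha)).add (hlh''.mul hb)))).add
      (hlh.mul ((at_o.add (ha.pow 3)).add (hb.pow 3)))
  have h2 : ((2 : ℕ) : K) * (l * a * a) + (2 : ℕ) * (l * b * b) +
      (3 : ℕ) * (l * h + l * h' * a + l * h'' * b) + l * h * (1 + a ^ 3 + b ^ 3) = 0 := by
    push_cast
    linear_combination l * he
  rw [h2] at h1
  have h3 := Place.At.unique at_z h1
  push_cast at h3
  have h4 : (4 : k) * wh = 0 := by linear_combination -h3
  exact (mul_eq_zero.1 h4).resolve_left (by norm_num)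

private theorem lin_b {K : Type} [Field K] [Algebra k K] [CharZero k] {v : Place k K}
    {l a b W h' : K} {wa wh' : k} (ha : v.At a 0) (hb : v.At b 0) (hW : v.At W 0)
    (hla : v.At (l * a) wa) (hlh' : v.At (l * h') wh') (hw : wh' = 0)
    (he : 2 * a + 2 * a * b ^ 2 + 3 * W * a ^ 2 + h' * (1 + a ^ 3 + b ^ 3) = 0) :
    wa = 0 := by
  have h1 : v.At ((2 : ℕ) * (l * a) + (2 : ℕ) * (l * a * b ^ 2) +
      (3 : ℕ) * (l * a * (a * W)) + l * h' * (1 + a ^ 3 + b ^ 3))
      ((2 : ℕ) * wa + (2 : ℕ) * (wa * 0 ^ 2) + (3 : ℕ) * (wa * (0 * 0)) +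
        wh' * (1 + 0 ^ 3 + 0 ^ 3)) :=
    ((((at_k 2).mul hla).add ((at_k 2).mul (hla.mul (hb.pow 2)))).add
      ((at_k 3).mul (hla.mul (ha.mul hW)))).add
      (hlh'.mul ((at_o.add (ha.pow 3)).add (hb.pow 3)))
  have h2 : ((2 : ℕ) : K) * (l * a) + (2 : ℕ) * (l * a * b ^ 2) +
      (3 : ℕ) * (l * a * (a * W)) + l * h' * (1 + a ^ 3 + b ^ 3) = 0 := by
    push_cast
    linear_combination l * he
  rw [h2] at h1
  have h3 := Place.At.unique at_z h1
  push_cast at h3
  rw [hw] at h3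
  have h4 : (2 : k) * wa = 0 := by linear_combination -h3
  exact (mul_eq_zero.1 h4).resolve_left (by norm_num)

private theorem tau_ne {K : Type} [Field K] [Algebra k K] [HasRes k K] [CharZero k]
    {v : Place k K} (F : MvPolynomial (Fin 4) k) {z : Fin 10 → K} (hz : z ≠ 0)
    (h0 : ∀ i, v.At (z i) 0) (he : ∀ i j, eqn F z i j = 0) : z 9 ≠ 0 := by
  intro h9
  obtain ⟨l, w, hl, hw, hlw⟩ := exists_scale v z hz
  have e : ∀ i j, MvPolynomial.aeval (yv z i) (MvPolynomial.pderiv (Fin.castSucc j) (F0 k)) +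
      hv z j * MvPolynomial.aeval (yv z i) (MvPolynomial.pderiv 3 (F0 k)) = 0 := by
    intro i j
    have h1 := he i j
    unfold eqn at h1
    rw [h9, zero_mul, add_zero] at h1
    exact h1
  have W0 : v.At (z 0 + z 1 * z 3 + z 2 * z 4) 0 := by
    have := ((h0 0).add ((h0 1).mul (h0 3))).add ((h0 2).mul (h0 4))
    simpa using this
  have W1 : v.At (z 0 * z 5 + z 1 + z 2 * z 6) 0 := by
    have := (((h0 0).mul (h0 5)).add (h0 1)).add ((h0 2).mul (h0 6))
    simpa using this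
  have W2 : v.At (z 0 * z 7 + z 1 * z 8 + z 2) 0 := by
    have := (((h0 0).mul (h0 7)).add ((h0 1).mul (h0 8))).add (h0 2)
    simpa using this
  have f0 : ∀ i, MvPolynomial.aeval (yv z i) (MvPolynomial.pderiv (0 : Fin 4) (F0 k)) +
      z 0 * MvPolynomial.aeval (yv z i) (MvPolynomial.pderiv 3 (F0 k)) = 0 := fun i => e i 0
  have f1 : ∀ i, MvPolynomial.aeval (yv z i) (MvPolynomial.pderiv (1 : Fin 4) (F0 k)) +
      z 1 * MvPolynomial.aeval (yv z i) (MvPolynomial.pderiv 3 (F0 k)) = 0 := fun i => e i 1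
  have f2 : ∀ i, MvPolynomial.aeval (yv z i) (MvPolynomial.pderiv (2 : Fin 4) (F0 k)) +
      z 2 * MvPolynomial.aeval (yv z i) (MvPolynomial.pderiv 3 (F0 k)) = 0 := fun i => e i 2
  simp only [F0_d0, F0_d3] at f0
  simp only [F0_d1, F0_d3] at f1
  simp only [F0_d2, F0_d3] at f2
  have e00 := f0 0
  have e01 := f1 0
  have e02 := f2 0
  have e10 := f0 1
  have e11 := f1 1
  have e12 := f2 1
  have e20 := f0 2
  have e21 := f1 2
  have e22 := f2 2
  simp only [yv, Matrix.cons_val_zero, Matrix.cons_val_one, Matrix.cons_val] at e00 e01 e02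
  simp only [yv, Matrix.cons_val_zero, Matrix.cons_val_one, Matrix.cons_val] at e10 e11 e12
  simp only [yv, Matrix.cons_val_zero, Matrix.cons_val_one, Matrix.cons_val] at e20 e21 e22
  have w0 : w 0 = 0 := lin_a (h0 3) (h0 4) (hlw 3) (hlw 4) (hlw 0) (hlw 1) (hlw 2)
    (by linear_combination e00)
  have w1 : w 1 = 0 := lin_a (h0 5) (h0 6) (hlw 5) (hlw 6) (hlw 1) (hlw 0) (hlw 2)
    (by linear_combination e11)
  have w2 : w 2 = 0 := lin_a (h0 7) (h0 8) (hlw 7) (hlw 8) (hlw 2) (hlw 0) (hlw 1)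
    (by linear_combination e22)
  have w3 : w 3 = 0 := lin_b (h0 3) (h0 4) W0 (hlw 3) (hlw 1) w1 (by linear_combination e01)
  have w4 : w 4 = 0 := lin_b (h0 4) (h0 3) W0 (hlw 4) (hlw 2) w2 (by linear_combination e02)
  have w5 : w 5 = 0 := lin_b (h0 5) (h0 6) W1 (hlw 5) (hlw 0) w0 (by linear_combination e10)
  have w6 : w 6 = 0 := lin_b (h0 6) (h0 5) W1 (hlw 6) (hlw 2) w2 (by linear_combination e12)
  have w7 : w 7 = 0 := lin_b (h0 7) (h0 8) W2 (hlw 7) (hlw 0) w0 (by linear_combination e20)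
  have w8 : w 8 = 0 := lin_b (h0 8) (h0 7) W2 (hlw 8) (hlw 1) w1 (by linear_combination e21)
  have w9 : w 9 = 0 := by
    have h1 := hlw 9
    rw [h9, mul_zero] at h1
    exact Place.At.unique h1 at_z
  apply hw
  funext i
  fin_cases i
  · exact w0
  · exact w1
  · exact w2
  · exact w3
  · exact w4
  · exact w5
  · exact w6
  · exact w7
  · exact w8
  · exact w9

private theorem df_comb {K : Type} [Field K] [Algebra k K] (G : MvPolynomial (Fin 4) k)
    (z : Fin 10 → K) (y : Fin 4 → K) (j : Fin 3) :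
    df G y (yv z j) = ∑ m : Fin 3, yv z j m.castSucc *
      (MvPolynomial.aeval y (MvPolynomial.pderiv m.castSucc G) +
        hv z m * MvPolynomial.aeval y (MvPolynomial.pderiv 3 G)) := by
  have c0 : Fin.castSucc (0 : Fin 3) = (0 : Fin 4) := rfl
  have c1 : Fin.castSucc (1 : Fin 3) = (1 : Fin 4) := rfl
  have c2 : Fin.castSucc (2 : Fin 3) = (2 : Fin 4) := rfl
  unfold df
  rw [Fin.sum_univ_four, Fin.sum_univ_three, c0, c1, c2]
  fin_cases j
  · simp only [yv, hv, Matrix.cons_val_zero, Matrix.cons_val_one, Matrix.cons_val, Fin.zero_eta]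
    ring
  · simp only [yv, hv, Matrix.cons_val_zero, Matrix.cons_val_one, Matrix.cons_val, Fin.mk_one]
    ring
  · simp only [yv, hv, Matrix.cons_val_zero, Matrix.cons_val_one, Matrix.cons_val,
      Fin.reduceFinMk]
    ring

variable [IsAlgClosed k] [CharZero k]

/-- A plane section of `F₀ + τ F` with three double points `y i`, for some `τ ≠ 0` which has the value
zero at a place, where the `y i` have the coordinate points as values. Proof: ten unknowns: `h 0`,
`h 1`, `h 2` (the plane `w = h 0 x + h 1 y + h 2 z`), two unknowns for each `y i` (its coordinates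
`y i j` for `j ≠ i`, `j ≤ 2`; `y i i = 1`, `y i 3 = ∑ h j y i j`), and `τ`. Nine equations:
`(∂_j + h j ∂_3) (F₀ + τ F) (y i) = 0` for `i`, `j ≤ 2`. They hold at the origin. `curve_sel`: a solution
over `Om k`, not zero, with all values zero at `v`. `τ ≠ 0`: suppose that `τ = 0`. Multiply the vector
of the other nine unknowns by `λ` such that it has a value `w ≠ 0` (`exists_scale`); products of two
unknowns times `λ` have the value zero. The equations times `λ` have the values: for `y 0 = (1, a, b, ..)`: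
`4 w_{h 0} = 0`, `2 w_a + w_{h 1} = 0`, `2 w_b + w_{h 2} = 0`; similarly for `y 1`: `4 w_{h 1} = 0`, .., and
for `y 2`: `4 w_{h 2} = 0`, ..; so `w = 0`, contradiction. (E.g. the first equation is
`2 a² + 2 b² + h 0 (1 + a³ + b³) + 3 (h 0 + h 1 a + h 2 b) = 0`.) The last claim: the `y j` are
combinations of the directions `e_j + h j e_3`. -/
theorem exists_nodes (F : MvPolynomial (Fin 4) k) :
    ∃ (τ : Om k) (y : Fin 3 → Fin 4 → Om k) (v : Place k (Om k)), τ ≠ 0 ∧ v.At τ 0 ∧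
      (∀ (i : Fin 3) (j : Fin 4), v.At (y i j) (if (i : ℕ) = (j : ℕ) then 1 else 0)) ∧
      ∀ i j, df (F0 k) (y i) (y j) + τ * df F (y i) (y j) = 0 := by
  have hcard : Fintype.card (Fin 3 × Fin 3) < Fintype.card (Fin 10) := by simp
  obtain ⟨z, v, hz, h0, he⟩ := curve_sel hcard
    (fun p : Fin 3 × Fin 3 => eqn F (MvPolynomial.X : Fin 10 → MvPolynomial (Fin 10) k) p.1 p.2)
    (by
      rintro ⟨i, j⟩
      have h1 := eqn_map (MvPolynomial.aeval (0 : Fin 10 → k)) F
        (MvPolynomial.X : Fin 10 → MvPolynomial (Fin 10) k) i j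
      simp only [MvPolynomial.aeval_X] at h1
      rw [← MvPolynomial.coe_aeval_eq_eval]
      exact h1.trans (eqn_zero F i j))
  have he' : ∀ i j, eqn F z i j = 0 := by
    intro i j
    have h1 := eqn_map (MvPolynomial.aeval z) F
      (MvPolynomial.X : Fin 10 → MvPolynomial (Fin 10) k) i j
    simp only [MvPolynomial.aeval_X] at h1
    rw [← h1]
    exact he (i, j)
  refine ⟨z 9, yv z, v, tau_ne F hz h0 he', h0 9, ?_, ?_⟩
  · intro i j
    have W0 : v.At (z 0 + z 1 * z 3 + z 2 * z 4) 0 := by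
      have := ((h0 0).add ((h0 1).mul (h0 3))).add ((h0 2).mul (h0 4))
      simpa using this
    have W1 : v.At (z 0 * z 5 + z 1 + z 2 * z 6) 0 := by
      have := (((h0 0).mul (h0 5)).add (h0 1)).add ((h0 2).mul (h0 6))
      simpa using this
    have W2 : v.At (z 0 * z 7 + z 1 * z 8 + z 2) 0 := by
      have := (((h0 0).mul (h0 7)).add ((h0 1).mul (h0 8))).add (h0 2)
      simpa using this
    fin_cases i <;> fin_cases j
    · simpa [yv] using (at_o : v.At (1 : Om k) (1 : k))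
    · simpa [yv] using h0 3
    · simpa [yv] using h0 4
    · simpa [yv] using W0
    · simpa [yv] using h0 5
    · simpa [yv] using (at_o : v.At (1 : Om k) (1 : k))
    · simpa [yv] using h0 6
    · simpa [yv] using W1
    · simpa [yv] using h0 7
    · simpa [yv] using h0 8
    · simpa [yv] using (at_o : v.At (1 : Om k) (1 : k))
    · simpa [yv] using W2
  · intro i j
    rw [df_comb, df_comb, Finset.mul_sum, ← Finset.sum_add_distrib]
    refine Finset.sum_eq_zero fun m _ => ?_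
    have h1 := he' i m
    unfold eqn at h1
    linear_combination yv z j m.castSucc * h1

omit [IsAlgClosed k] [CharZero k] in
private theorem tf_at_zero {v : Place k (Om k)} {c : k} (h : v.At (0 : Om k) c) : c = 0 := by
  have h2 := Place.at_const (v := v) (0 : k)
  rw [map_zero] at h2
  exact Place.At.unique h h2

omit [IsAlgClosed k] [CharZero k] in
private theorem tf_at_ne {v : Place k (Om k)} {f : Om k} {c : k} (h : v.At f c) (hc : c ≠ 0) :
    f ≠ 0 := by
  rintro rfl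
  exact hc (tf_at_zero h)

/-- the coordinate points -/
private def tfE (k : Type) [Field k] : Fin 3 → Fin 4 → k :=
  fun a b => if (a : ℕ) = (b : ℕ) then 1 else 0

/-- the coefficients of `F0` on the plane `w = 0` -/
private def tfC (k : Type) [Field k] (i j : ℕ) : k :=
  if (i = 2 ∧ j = 2) ∨ (i = 0 ∧ j = 2) ∨ (i = 2 ∧ j = 0) then 1 else 0

omit [IsAlgClosed k] [CharZero k] in
private theorem tf_q4 {K : Type} [Field K] (c : ℕ → ℕ → K) (s t u : K) : q4 c s t u =
    c 0 0 * u ^ 4 + c 0 1 * t * u ^ 3 + c 0 2 * t ^ 2 * u ^ 2 + c 0 3 * t ^ 3 * u + c 0 4 * t ^ 4 +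
    (c 1 0 * s * u ^ 3 + c 1 1 * s * t * u ^ 2 + c 1 2 * s * t ^ 2 * u + c 1 3 * s * t ^ 3) +
    (c 2 0 * s ^ 2 * u ^ 2 + c 2 1 * s ^ 2 * t * u + c 2 2 * s ^ 2 * t ^ 2) +
    (c 3 0 * s ^ 3 * u + c 3 1 * s ^ 3 * t) + c 4 0 * s ^ 4 := by
  unfold q4
  simp only [Finset.sum_range_succ, Finset.sum_range_zero, Nat.reduceSub]
  ring

omit [CharZero k] in
private theorem tf_coef {i j : ℕ} (hij : i + j ≤ 4) : cc (F0 k) (tfE k) i j = tfC k i j := by
  have : Infinite k := IsAlgClosed.instInfinite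
  refine q4_inj (fun s t u => ?_) hij
  rw [← cc_q4 F0_hom, tf_q4]
  have h0 : (s • tfE k 0 + t • tfE k 1 + u • tfE k 2) 0 = s := by simp [tfE]
  have h1 : (s • tfE k 0 + t • tfE k 1 + u • tfE k 2) 1 = t := by simp [tfE]
  have h2 : (s • tfE k 0 + t • tfE k 1 + u • tfE k 2) 2 = u := by simp [tfE]
  have h3 : (s • tfE k 0 + t • tfE k 1 + u • tfE k 2) 3 = 0 := by simp [tfE]
  unfold F0
  simp only [map_add, map_mul, map_pow, MvPolynomial.aeval_X, h0, h1, h2, h3]
  simp [tfC]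
  ring

/-- vectors with the coordinate points as values are independent -/
private theorem tf_li {v : Place k (Om k)} {y : Fin 3 → Fin 4 → Om k}
    (hy : ∀ (i : Fin 3) (j : Fin 4), v.At (y i j) (if (i : ℕ) = (j : ℕ) then 1 else 0)) :
    LinearIndependent (Om k) y := by
  let M : Matrix (Fin 3) (Fin 3) (Om k) := fun i j => y i (Fin.castSucc j)
  have hM : ∀ i j : Fin 3, v.At (M i j) (if i = j then 1 else 0) := by
    intro i j
    have h1 := hy i (Fin.castSucc j)
    have h2 : ((i : ℕ) = ((Fin.castSucc j : Fin 4) : ℕ)) ↔ i = j := by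
      rw [Fin.val_castSucc, Fin.val_inj]
    simp only [h2] at h1
    exact h1
  have hdet : v.At M.det 1 := by
    rw [Matrix.det_fin_three]
    have h := (((((hM 0 0).mul (hM 1 1)).mul (hM 2 2)).sub (((hM 0 0).mul (hM 1 2)).mul (hM 2 1))).sub
      (((hM 0 1).mul (hM 1 0)).mul (hM 2 2))).add (((hM 0 1).mul (hM 1 2)).mul (hM 2 0)) |>.add
      (((hM 0 2).mul (hM 1 0)).mul (hM 2 1)) |>.sub (((hM 0 2).mul (hM 1 1)).mul (hM 2 0))
    have e : (if (0 : Fin 3) = 0 then (1 : k) else 0) * (if (1 : Fin 3) = 1 then 1 else 0) *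
        (if (2 : Fin 3) = 2 then 1 else 0) - (if (0 : Fin 3) = 0 then 1 else 0) *
        (if (1 : Fin 3) = 2 then 1 else 0) * (if (2 : Fin 3) = 1 then 1 else 0) -
        (if (0 : Fin 3) = 1 then 1 else 0) * (if (1 : Fin 3) = 0 then 1 else 0) *
        (if (2 : Fin 3) = 2 then 1 else 0) + (if (0 : Fin 3) = 1 then 1 else 0) *
        (if (1 : Fin 3) = 2 then 1 else 0) * (if (2 : Fin 3) = 0 then 1 else 0) +
        (if (0 : Fin 3) = 2 then 1 else 0) * (if (1 : Fin 3) = 0 then 1 else 0) *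
        (if (2 : Fin 3) = 1 then 1 else 0) - (if (0 : Fin 3) = 2 then 1 else 0) *
        (if (1 : Fin 3) = 1 then 1 else 0) * (if (2 : Fin 3) = 0 then 1 else 0) = 1 := by
      simp
    rw [e] at h
    exact h
  have h1 : M.det ≠ 0 := tf_at_ne hdet one_ne_zero
  have h2 := Matrix.linearIndependent_rows_of_det_ne_zero h1
  exact LinearIndependent.of_comp (LinearMap.funLeft (Om k) (Om k) Fin.castSucc) h2

/-- The quartic form on this plane: `A X² Y² + B Y² Z² + C X² Z² + X Y Z (D X + E Y + H Z)`, the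
coefficients `A`, `B`, `C` are not zero, and the conic
`B ξ² + C η² + A ζ² + D η ζ + E ξ ζ + H ξ η` is not degenerate. Proof: the coefficients
`c i j = cc F₀ y i j + τ cc F y i j` are zero for the monomials with the cube of a variable (`cc_df`),
`A = c 2 2`, `B = c 0 2`, `C = c 2 0`, `D = c 2 1`, `E = c 1 2`, `H = c 1 1` (unfold `q4`). The values at `v`
are the coefficients of `F₀` on the plane `w = 0` (`cc_at`): `1, 1, 1, 0, 0, 0`. `τ` is not constant because
it has the value zero. -/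
theorem tri_form {F : MvPolynomial (Fin 4) k} (hF : F.IsHomogeneous 4) :
    ∃ (τ : Om k) (y : Fin 3 → Fin 4 → Om k) (A B C D E H : Om k),
      (∀ c : k, τ ≠ algebraMap k (Om k) c) ∧ LinearIndependent (Om k) y ∧
      (∀ i j, df (F0 k) (y i) (y j) + τ * df F (y i) (y j) = 0) ∧
      A ≠ 0 ∧ B ≠ 0 ∧ C ≠ 0 ∧
      4 * A * B * C + D * E * H - A * H ^ 2 - B * D ^ 2 - C * E ^ 2 ≠ 0 ∧
      ∀ X Y Z : Om k, MvPolynomial.aeval (X • y 0 + Y • y 1 + Z • y 2) (F0 k) +
        τ * MvPolynomial.aeval (X • y 0 + Y • y 1 + Z • y 2) F =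
        A * X ^ 2 * Y ^ 2 + B * Y ^ 2 * Z ^ 2 + C * X ^ 2 * Z ^ 2 +
          X * Y * Z * (D * X + E * Y + H * Z) := by
  obtain ⟨τ, y, v, hτ, hvτ, hy, hdf⟩ := exists_nodes F
  have h0 := cc_df (F0_hom (k := k)) y
  have h1 := cc_df hF y
  obtain ⟨a1, a2, a3, a4, a5, a6, a7, a8, a9⟩ := h0
  obtain ⟨b1, b2, b3, b4, b5, b6, b7, b8, b9⟩ := h1
  have h4 : (4 : Om k) ≠ 0 := by
    have h4' : algebraMap k (Om k) 4 ≠ 0 := by
      rw [Ne, map_eq_zero_iff _ (algebraMap k (Om k)).injective]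
      exact OfNat.ofNat_ne_zero 4
    rwa [map_ofNat] at h4'
  -- the coefficients
  have e40 : cc (F0 k) y 4 0 + τ * cc F y 4 0 = 0 := by
    refine mul_left_cancel₀ h4 ?_
    linear_combination a1 + τ * b1 + hdf 0 0
  have e04 : cc (F0 k) y 0 4 + τ * cc F y 0 4 = 0 := by
    refine mul_left_cancel₀ h4 ?_
    linear_combination a4 + τ * b4 + hdf 1 1
  have e00 : cc (F0 k) y 0 0 + τ * cc F y 0 0 = 0 := by
    refine mul_left_cancel₀ h4 ?_
    linear_combination a7 + τ * b7 + hdf 2 2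
  have e31 : cc (F0 k) y 3 1 + τ * cc F y 3 1 = 0 := by
    linear_combination a2 + τ * b2 + hdf 0 1
  have e30 : cc (F0 k) y 3 0 + τ * cc F y 3 0 = 0 := by
    linear_combination a3 + τ * b3 + hdf 0 2
  have e13 : cc (F0 k) y 1 3 + τ * cc F y 1 3 = 0 := by
    linear_combination a5 + τ * b5 + hdf 1 0
  have e03 : cc (F0 k) y 0 3 + τ * cc F y 0 3 = 0 := by
    linear_combination a6 + τ * b6 + hdf 1 2
  have e10 : cc (F0 k) y 1 0 + τ * cc F y 1 0 = 0 := by
    linear_combination a8 + τ * b8 + hdf 2 0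
  have e01 : cc (F0 k) y 0 1 + τ * cc F y 0 1 = 0 := by
    linear_combination a9 + τ * b9 + hdf 2 1
  -- the values
  have hval : ∀ i j : ℕ, i + j ≤ 4 → v.At (cc (F0 k) y i j + τ * cc F y i j) (tfC k i j) := by
    intro i j hij
    have h2 := (cc_at (F0 k) (G' := tfE k) hy i j).add (hvτ.mul (cc_at F (G' := tfE k) hy i j))
    rw [zero_mul, add_zero, tf_coef hij] at h2
    exact h2
  have vA := hval 2 2 (by norm_num)
  have vB := hval 0 2 (by norm_num)
  have vC := hval 2 0 (by norm_num)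
  have vD := hval 2 1 (by norm_num)
  have vE := hval 1 2 (by norm_num)
  have vH := hval 1 1 (by norm_num)
  have cA : tfC k 2 2 = 1 := by simp [tfC]
  have cB : tfC k 0 2 = 1 := by simp [tfC]
  have cC : tfC k 2 0 = 1 := by simp [tfC]
  have cD : tfC k 2 1 = 0 := by simp [tfC]
  have cE : tfC k 1 2 = 0 := by simp [tfC]
  have cH : tfC k 1 1 = 0 := by simp [tfC]
  rw [cA] at vA
  rw [cB] at vB
  rw [cC] at vC
  rw [cD] at vD
  rw [cE] at vE
  rw [cH] at vH
  have v4 : v.At (4 : Om k) 4 := by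
    have := Place.at_const (v := v) (4 : k)
    rwa [map_ofNat] at this
  refine ⟨τ, y, cc (F0 k) y 2 2 + τ * cc F y 2 2, cc (F0 k) y 0 2 + τ * cc F y 0 2,
    cc (F0 k) y 2 0 + τ * cc F y 2 0, cc (F0 k) y 2 1 + τ * cc F y 2 1,
    cc (F0 k) y 1 2 + τ * cc F y 1 2, cc (F0 k) y 1 1 + τ * cc F y 1 1,
    ?_, tf_li hy, hdf, tf_at_ne vA one_ne_zero,
    tf_at_ne vB one_ne_zero, tf_at_ne vC one_ne_zero, ?_, fun X Y Z => ?_⟩
  · intro c hc
    rw [hc] at hvτ hτ
    have h2 := Place.At.unique hvτ (Place.at_const (v := v) c)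
    apply hτ
    rw [← h2, map_zero]
  · have h2 := (((((v4.mul vA).mul vB).mul vC).add ((vD.mul vE).mul vH)).sub
      (vA.mul (vH.mul vH))).sub (vB.mul (vD.mul vD)) |>.sub (vC.mul (vE.mul vE))
    have h3 := tf_at_ne h2 (by norm_num)
    intro h5
    apply h3
    rw [← h5]
    ring
  · rw [cc_q4 F0_hom, cc_q4 hF, tf_q4, tf_q4]
    linear_combination Z ^ 4 * e00 + Y * Z ^ 3 * e01 + Y ^ 3 * Z * e03 + Y ^ 4 * e04 +
      X * Z ^ 3 * e10 + X * Y ^ 3 * e13 + X ^ 3 * Z * e30 + X ^ 3 * Y * e31 + X ^ 4 * e40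

end Pool.Agent.QRT
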