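import Pool.Agent.QRT.TriA
import Pool.Agent.QRT.Conic
import Pool.Agent.QRT.Chain
import Pool.Agent.QRT.Lift

/-!
# A plane section of which all points are equivalent
-/

set_option autoImplicit false

noncomputable section

namespace Pool.Agent.QRT

open Pool.Agent.ZCyc Pool.Agent.Dess Pool.Agent.GT Pool.Agent.CUB
open Pool.Agent.VFP (Om tt)
open scoped Classical

variable {k : Type} [Field k]

/-- All points of the surface in the subspace `H` are equivalent. -/
def Eqv {F : MvPolynomial (Fin 4) k} (hF : F.IsHomogeneous 4)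
    (H : Submodule k (Fin 4 → k)) : Prop :=
  ∀ x ∈ H, ∀ x' ∈ H, x ≠ 0 → x' ≠ 0 → MvPolynomial.aeval x F = 0 →
    MvPolynomial.aeval x' F = 0 → cp hF x = cp hF x'

private theorem tri_id {K : Type} [Field K] (A B C D E H x y z : K) :
    A * (y * z) ^ 2 * (x * z) ^ 2 + B * (x * z) ^ 2 * (x * y) ^ 2 +
      C * (y * z) ^ 2 * (x * y) ^ 2 +
      (y * z) * (x * z) * (x * y) * (D * (y * z) + E * (x * z) + H * (x * y)) =
      (x * y * z) ^ 2 * (B * x ^ 2 + C * y ^ 2 + A * z ^ 2 + D * y * z + E * x * z +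
        H * x * y) := by
  ring

private theorem tri_vec {K : Type} [Field K] {y : Fin 3 → Fin 4 → K} {X Y Z a x₀ x₁ x₂ : K}
    (ha : a ≠ 0) (hX : X ≠ 0) (hY : Y ≠ 0) (hZ : Z ≠ 0) (h0 : Y * Z = a * x₀)
    (h1 : X * Z = a * x₁) (h2 : X * Y = a * x₂) :
    X • y 0 + Y • y 1 + Z • y 2 = (a ^ 2 / (X * Y * Z)) •
      ((x₁ * x₂) • y 0 + (x₀ * x₂) • y 1 + (x₀ * x₁) • y 2) := by
  have e0 : x₀ = Y * Z / a := by rw [h0]; field_simp
  have e1 : x₁ = X * Z / a := by rw [h1]; field_simp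
  have e2 : x₂ = X * Y / a := by rw [h2]; field_simp
  rw [e0, e1, e2]
  funext i
  simp only [Pi.add_apply, Pi.smul_apply, smul_eq_mul]
  field_simp

/-- The parametrization of a quartic curve with three double points. `T = X ↦ X • y 0 + ..`: the vector
polynomial is `(η ζ) y 0 + (ξ ζ) y 1 + (ξ η) y 2` with `(ξ, η, ζ) = c 0 + r c 1 + r² c 2` from
`exists_conic`; the form on it is `ξ² η² ζ² (conic) = 0`. Its coefficient at `r ^ 4` is
`(c 2 1 c 2 2) y 0 + ..`, it can be zero, so the claim is formulated for polynomials `p`. Every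
point `X y 0 + Y y 1 + Z y 2` of the curve is proportional to a value of `p`, except finitely many: if
`X Y Z ≠ 0` then `(Y Z, X Z, X Y)` is on the conic; if `X = 0` then `B Y² Z² = 0`, so it is one of the
`y i`; the exceptions are the `y i` and the point for `c 2`. -/
theorem tri_param {G : (Fin 4 → Om k) → Om k} {y : Fin 3 → Fin 4 → Om k}
    {A B C D E H : Om k} [CharZero k] [IsAlgClosed k]
    (hA : A ≠ 0) (hB : B ≠ 0) (hC : C ≠ 0)
    (hdet : 4 * A * B * C + D * E * H - A * H ^ 2 - B * D ^ 2 - C * E ^ 2 ≠ 0)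
    (h : ∀ X Y Z : Om k, G (X • y 0 + Y • y 1 + Z • y 2) =
        A * X ^ 2 * Y ^ 2 + B * Y ^ 2 * Z ^ 2 + C * X ^ 2 * Z ^ 2 +
          X * Y * Z * (D * X + E * Y + H * Z)) :
    ∃ (p : Fin 4 → Polynomial (Om k)) (Γ : Finset (Fin 4 → Om k)),
      (∀ s : Om k, G (fun i => (p i).eval s) = 0) ∧
      ∀ P ∈ Submodule.span (Om k) (Set.range y), P ≠ 0 → G P = 0 →
        (∃ s a : Om k, a ≠ 0 ∧ P = a • fun i => (p i).eval s) ∨ ∃ σ ∈ Γ, ∃ c : Om k, P = c • σ := by
  obtain ⟨c, -, hc, hc'⟩ := exists_conic hdet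
  set q : Fin 3 → Polynomial (Om k) := fun j => Polynomial.C (c 0 j) +
    Polynomial.X * Polynomial.C (c 1 j) + Polynomial.X ^ 2 * Polynomial.C (c 2 j) with hq
  have hqe : ∀ j s, (q j).eval s = (c 0 + s • c 1 + s ^ 2 • c 2) j := by
    intro j s
    simp only [hq, Polynomial.eval_add, Polynomial.eval_mul, Polynomial.eval_pow,
      Polynomial.eval_C, Polynomial.eval_X, Pi.add_apply, Pi.smul_apply, smul_eq_mul]
  have hpe : ∀ s : Om k, (fun i => (Polynomial.C (y 0 i) * (q 1 * q 2) +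
      Polynomial.C (y 1 i) * (q 0 * q 2) + Polynomial.C (y 2 i) * (q 0 * q 1)).eval s) =
      ((q 1).eval s * (q 2).eval s) • y 0 + ((q 0).eval s * (q 2).eval s) • y 1 +
        ((q 0).eval s * (q 1).eval s) • y 2 := by
    intro s
    funext i
    simp only [Polynomial.eval_add, Polynomial.eval_mul, Polynomial.eval_C, Pi.add_apply,
      Pi.smul_apply, smul_eq_mul]
    ring
  refine ⟨fun i => Polynomial.C (y 0 i) * (q 1 * q 2) + Polynomial.C (y 1 i) * (q 0 * q 2) +
    Polynomial.C (y 2 i) * (q 0 * q 1),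
    {y 0, y 1, y 2, (c 2 1 * c 2 2) • y 0 + (c 2 0 * c 2 2) • y 1 + (c 2 0 * c 2 1) • y 2},
    ?_, ?_⟩
  · intro s
    rw [hpe s, h, tri_id]
    have := hc s _ rfl
    rw [← hqe 0 s, ← hqe 1 s, ← hqe 2 s] at this
    rw [this, mul_zero]
  · intro P hP hP0 hGP
    obtain ⟨b, hb⟩ := (Submodule.mem_span_range_iff_exists_fun (Om k)).1 hP
    rw [Fin.sum_univ_three] at hb
    rw [← hb, h] at hGP
    rw [← hb] at hP0 ⊢
    by_cases hX : b 0 = 0
    · rw [hX] at hGP ⊢
      have h1 : B * b 1 ^ 2 * b 2 ^ 2 = 0 := by linear_combination hGP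
      right
      rcases mul_eq_zero.1 h1 with h2 | h2
      · have h3 : b 1 = 0 := by
          rcases mul_eq_zero.1 h2 with h4 | h4
          · exact absurd h4 hB
          · exact pow_eq_zero_iff (two_ne_zero) |>.1 h4
        exact ⟨y 2, by simp, b 2, by rw [h3]; simp⟩
      · have h3 : b 2 = 0 := pow_eq_zero_iff (two_ne_zero) |>.1 h2
        exact ⟨y 1, by simp, b 1, by rw [h3]; simp⟩
    by_cases hY : b 1 = 0
    · rw [hY] at hGP ⊢
      have h1 : C * b 0 ^ 2 * b 2 ^ 2 = 0 := by linear_combination hGP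
      right
      have h2 : b 2 = 0 := by
        rcases mul_eq_zero.1 h1 with h2 | h2
        · exact absurd h2 (mul_ne_zero hC (pow_ne_zero 2 hX))
        · exact pow_eq_zero_iff (two_ne_zero) |>.1 h2
      exact ⟨y 0, by simp, b 0, by rw [h2]; simp⟩
    by_cases hZ : b 2 = 0
    · exfalso
      rw [hZ] at hGP
      have h1 : A * b 0 ^ 2 * b 1 ^ 2 = 0 := by linear_combination hGP
      exact absurd h1 (mul_ne_zero (mul_ne_zero hA (pow_ne_zero 2 hX)) (pow_ne_zero 2 hY))
    have hne : (![b 1 * b 2, b 0 * b 2, b 0 * b 1] : Fin 3 → Om k) ≠ 0 := by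
      intro h0
      have := congrFun h0 0
      exact mul_ne_zero hY hZ this
    have hon : B * (![b 1 * b 2, b 0 * b 2, b 0 * b 1] : Fin 3 → Om k) 0 ^ 2 +
        C * (![b 1 * b 2, b 0 * b 2, b 0 * b 1] : Fin 3 → Om k) 1 ^ 2 +
        A * (![b 1 * b 2, b 0 * b 2, b 0 * b 1] : Fin 3 → Om k) 2 ^ 2 +
        D * (![b 1 * b 2, b 0 * b 2, b 0 * b 1] : Fin 3 → Om k) 1 *
          (![b 1 * b 2, b 0 * b 2, b 0 * b 1] : Fin 3 → Om k) 2 +
        E * (![b 1 * b 2, b 0 * b 2, b 0 * b 1] : Fin 3 → Om k) 0 *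
          (![b 1 * b 2, b 0 * b 2, b 0 * b 1] : Fin 3 → Om k) 2 +
        H * (![b 1 * b 2, b 0 * b 2, b 0 * b 1] : Fin 3 → Om k) 0 *
          (![b 1 * b 2, b 0 * b 2, b 0 * b 1] : Fin 3 → Om k) 1 = 0 := by
      simp only [Matrix.cons_val_zero, Matrix.cons_val_one, Matrix.cons_val]
      linear_combination hGP
    rcases hc' _ hne hon with ⟨r, a, ha, hr⟩ | ⟨a, ha, hr⟩
    · left
      refine ⟨r, a ^ 2 / (b 0 * b 1 * b 2), ?_, ?_⟩
      · exact div_ne_zero (pow_ne_zero 2 ha) (mul_ne_zero (mul_ne_zero hX hY) hZ)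
      · rw [hpe r]
        refine tri_vec ha hX hY hZ ?_ ?_ ?_
        · rw [hqe 0 r]; exact congrFun hr 0
        · rw [hqe 1 r]; exact congrFun hr 1
        · rw [hqe 2 r]; exact congrFun hr 2
    · right
      refine ⟨_, ?_, a ^ 2 / (b 0 * b 1 * b 2), tri_vec ha hX hY hZ
        (congrFun hr 0) (congrFun hr 1) (congrFun hr 2)⟩
      simp

variable [IsAlgClosed k] [CharZero k]

/-- As `chain_poly`, for the equation `F + θ F₀ = 0`. -/
theorem chain_poly' {F F₀ : MvPolynomial (Fin 4) k} (hF : F.IsHomogeneous 4)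
    (hF₀ : F₀.IsHomogeneous 4) {v : Place k (Om k)} {θ : Om k} (hθ : v.At θ 0)
    (p : Fin 4 → Polynomial (Om k))
    (h : ∀ s : Om k, MvPolynomial.aeval (fun i => (p i).eval s) F +
      θ * MvPolynomial.aeval (fun i => (p i).eval s) F₀ = 0) {s s' : Om k}
    (hs : (fun i => (p i).eval s) ≠ 0) (hs' : (fun i => (p i).eval s') ≠ 0) :
    cv hF v (fun i => (p i).eval s) = cv hF v (fun i => (p i).eval s') := by
  exact chain_poly_gen hF hF₀ hθ p h hs hs'

/-- A plane section of which all points are equivalent, the limit of plane sections with three double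
points. Proof: `tri_form`; `τ` has a pole at some place `v` (`exists_pole`), `θ = τ⁻¹` has the value zero
(`inv_at_of_not_mem`). `W = span (range y)`, `H = limW v W` has dimension three (`finrank_limW`). A point
`x` of the surface in `H`: `exists_dir`, `lift_pt` with the `Γ` of `tri_param` (for
`G = F₀ + τ F`, `θ G = F + θ F₀`): `x` is the value of a point `P` in `W`, proportional to a value of `p`.
`chain_poly'`. -/
theorem exists_tri {F : MvPolynomial (Fin 4) k} (hF : Sm F) :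
    ∃ (v : Place k (Om k)) (θ : Om k) (y : Fin 3 → Fin 4 → Om k), v.At θ 0 ∧
      LinearIndependent (Om k) y ∧
      (∀ i j, df F (y i) (y j) + θ * df (F0 k) (y i) (y j) = 0) ∧
      Eqv hF.hom (limW v (Submodule.span (Om k) (Set.range y))) := by
  obtain ⟨τ, y, A, B, C, D, E, H, hτ, hli, hdf, hA, hB, hC, hdet, hform⟩ := tri_form hF.hom
  obtain ⟨v, hv⟩ := exists_pole hτ
  have hτ0 : τ ≠ 0 := VFP.ne_zero_of_not_mem hv
  have hθ : v.At τ⁻¹ 0 := VFP.inv_at_of_not_mem hv
  have hsw : ∀ u w : Om k, w + τ * u = 0 → u + τ⁻¹ * w = 0 := by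
    intro u w h
    have h1 : u + τ⁻¹ * w = τ⁻¹ * (w + τ * u) := by
      field_simp
      ring
    rw [h1, h, mul_zero]
  refine ⟨v, τ⁻¹, y, hθ, hli, fun i j => hsw _ _ (hdf i j), ?_⟩
  obtain ⟨p, Γ, hp, hΓ⟩ := tri_param (G := fun z => MvPolynomial.aeval z (F0 k) +
    τ * MvPolynomial.aeval z F) hA hB hC hdet hform
  have hpe : ∀ s : Om k, MvPolynomial.aeval (fun i => (p i).eval s) F +
      τ⁻¹ * MvPolynomial.aeval (fun i => (p i).eval s) (F0 k) = 0 := fun s => hsw _ _ (hp s)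
  have hfin : Module.finrank k (limW v (Submodule.span (Om k) (Set.range y))) = 3 := by
    rw [finrank_limW, finrank_span_eq_card hli, Fintype.card_fin]
  have key : ∀ x ∈ limW v (Submodule.span (Om k) (Set.range y)), x ≠ 0 →
      MvPolynomial.aeval x F = 0 → ∃ s : Om k, (fun i => (p i).eval s) ≠ 0 ∧
        cp hF.hom x = cv hF.hom v (fun i => (p i).eval s) := by
    intro x hx hx0 hFx
    obtain ⟨y₁, hy₁, y₂, hy₂, hli', hFy⟩ := exists_dir hF hfin hx hx0 hFx
    obtain ⟨P, hPW, hPx, hPe, hPΓ⟩ := lift_pt hF.hom F0_hom hθ hx hy₁ hy₂ hli' hFx hFy Γ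
    have hP0 : P ≠ 0 := by
      rintro rfl
      apply hx0
      funext i
      have h1 := hPx i
      rw [Pi.zero_apply] at h1
      exact Place.At.unique h1 VFP.at_zero
    have hG : MvPolynomial.aeval P (F0 k) + τ * MvPolynomial.aeval P F = 0 := by
      have h1 : MvPolynomial.aeval P (F0 k) + τ * MvPolynomial.aeval P F =
          τ * (MvPolynomial.aeval P F + τ⁻¹ * MvPolynomial.aeval P (F0 k)) := by
        field_simp
        ring
      rw [h1, hPe, mul_zero]
    rcases hΓ P hPW hP0 hG with ⟨s, a, ha, hPs⟩ | ⟨σ, hσ, c, hc⟩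
    · refine ⟨s, ?_, ?_⟩
      · intro h1
        apply hP0
        rw [hPs, h1, smul_zero]
      · have h1 : cv hF.hom v P = cp hF.hom x :=
          cv_eq hF.hom (l := 1) (fun i => by rw [one_mul]; exact hPx i) hx0
        rw [← h1, hPs, cv_smul hF.hom v ha]
    · exact absurd hc (hPΓ σ hσ c)
  intro x hx x' hx' hx0 hx0' hFx hFx'
  obtain ⟨s, hs, e⟩ := key x hx hx0 hFx
  obtain ⟨s', hs', e'⟩ := key x' hx' hx0' hFx'
  rw [e, e']
  exact chain_poly' hF.hom F0_hom hθ p hpe hs hs'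

end Pool.Agent.QRT
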